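import Pool.Agent.Lib.MP_9227d9_nt.H5.Defs

/-! From four parts to density one third. -/

open Finset

namespace Pool.Agent.Lib.MP_9227d9_nt.H5

open Pool.Agent.Lib.MP_bee098_nt

open Classical in
/-- number of elements of `S` in a window and a class modulo three -/
noncomputable def c1_cnt (S : ℕ → Prop) (M N r : ℕ) : ℕ :=
  ((Ioc M (M + N)).filter fun m => S m ∧ m % 3 = r).card

open Classical in
theorem c1_bad (S : ℕ → Prop) {M N D a r : ℕ} (hr : r < 3) (A X : Finset ℕ) (hA0 : A.Nonempty)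
    (hA : ∀ u ∈ A, u ≤ D ∧ (u + r) % 3 = a)
    (hX : ∀ x ∈ X, M + D < x ∧ x ≤ M + N ∧ x % 3 = a) :
    ∑ x ∈ X, ((A.filter fun u => S (x - u)).card : ℝ) / A.card ≤ c1_cnt S M N r := by
  have h0 : (0 : ℝ) < A.card := by exact_mod_cast hA0.card_pos
  rw [← sum_div, div_le_iff₀ h0]
  have h1 : ∑ x ∈ X, (A.filter fun u => S (x - u)).card ≤ c1_cnt S M N r * A.card := by
    simp only [card_filter]
    rw [sum_comm, mul_comm, ← smul_eq_mul]
    refine sum_le_card_nsmul _ _ _ fun u hu => ?_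
    rw [← card_filter]
    refine card_le_card_of_injOn (fun x => x - u) (fun x hx => ?_) fun x hx y hy e => ?_
    · have h2 := mem_filter.1 (mem_coe.1 hx)
      have h3 := hX x h2.1
      have h4 := hA u hu
      refine mem_coe.2 (mem_filter.2 ⟨mem_Ioc.2 ⟨?_, ?_⟩, h2.2, ?_⟩) <;> beta_reduce <;> omega
    · have h3 := hX x (mem_filter.1 (mem_coe.1 hx)).1
      have h5 := hX y (mem_filter.1 (mem_coe.1 hy)).1
      have h4 := hA u hu
      beta_reduce at e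
      omega
  exact_mod_cast h1

open Classical in
theorem c1_good (S : ℕ → Prop) {ε : ℝ} (A : Finset ℕ) (hA0 : A.Nonempty) (x : ℕ)
    (h : ((A.filter fun u => S (x - u)).card : ℝ) / A.card ≤ 1 - ε) :
    ε * A.card ≤ (A.filter fun u => ¬ S (x - u)).card := by
  have h0 : (0 : ℝ) < A.card := by exact_mod_cast hA0.card_pos
  rw [div_le_iff₀ h0] at h
  have h1 : ((A.filter fun u => S (x - u)).card : ℝ) + (A.filter fun u => ¬ S (x - u)).card
      = A.card := by exact_mod_cast card_filter_add_card_filter_not (s := A) _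
  linarith

/-- the extension step -/
theorem c1_ext (S : ℕ → Prop) {ε : ℝ} (hε : 0 < ε) (hε1 : ε < 1) {c : ℕ} (hc : c < 3)
    (hyp : ∀ N0 : ℕ, ∃ N ≥ N0, ∃ M : ℕ,
      (c1_cnt S M N 0 : ℝ) + 2 * c1_cnt S M N c ≤ (1 / 3 - ε) * N)
    {a : ℕ} (ha : a < 3) {Q : ℕ} (hQ : 0 < Q) (n : ℕ) (A B C : Finset ℕ) (hA0 : A.Nonempty)
    (hB0 : B.Nonempty) (hC0 : C.Nonempty) (hA : ∀ u ∈ A, (u + c) % 3 = a)
    (hB : ∀ u ∈ B, (u + c) % 3 = a) (hC : ∀ u ∈ C, u % 3 = a) :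
    ∃ A' ⊆ A, ∃ B' ⊆ B, ∃ C' ⊆ C, ∃ W : Finset ℕ, ε * A.card ≤ A'.card ∧ ε * B.card ≤ B'.card ∧
      ε * C.card ≤ C'.card ∧ n < W.card ∧ (∀ x ∈ W, x % 3 = a) ∧ (∃ q, ∀ x ∈ W, x % Q = q) ∧
      (∀ u ∈ A', ∀ x ∈ W, u < x ∧ ¬ S (x - u)) ∧ (∀ u ∈ B', ∀ x ∈ W, u < x ∧ ¬ S (x - u)) ∧
      (∀ u ∈ C', ∀ x ∈ W, u < x ∧ ¬ S (x - u)) := by
  classical
  obtain ⟨D, hD⟩ : ∃ D, ∀ u ∈ A ∪ B ∪ C, u ≤ D :=
    ⟨(A ∪ B ∪ C).sup id, fun u hu => le_sup (f := id) hu⟩
  have hDA : ∀ u ∈ A, u ≤ D := fun u hu => hD u (by simp [hu])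
  have hDB : ∀ u ∈ B, u ≤ D := fun u hu => hD u (by simp [hu])
  have hDC : ∀ u ∈ C, u ≤ D := fun u hu => hD u (by simp [hu])
  set T := A.powerset ×ˢ B.powerset ×ˢ C.powerset ×ˢ range Q with hT
  obtain ⟨N1, hN1⟩ := exists_nat_gt ((3 * ((T.card * n : ℕ) : ℝ) + (D + 4)) / (2 * ε))
  obtain ⟨N, hN, M, hM⟩ := hyp (max N1 (D + 2))
  have hN2 : D + 2 ≤ N := le_trans (le_max_right _ _) hN
  have hN3 : (N1 : ℝ) ≤ N := by exact_mod_cast le_trans (le_max_left _ _) hN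
  obtain ⟨X, hX, hK⟩ : ∃ X : Finset ℕ, (∀ x ∈ X, M + D < x ∧ x ≤ M + N ∧ x % 3 = a) ∧
      N ≤ 3 * X.card + (D + 4) := by
    refine ⟨(range ((N - D - 2) / 3)).image fun i => 3 * ((M + D) / 3 + 1 + i) + a,
      fun x hx => ?_, ?_⟩
    · obtain ⟨i, hi, rfl⟩ := mem_image.1 hx
      have := mem_range.1 hi
      omega
    · rw [card_image_of_injective _ fun i j e => by omega, card_range]
      omega
  set bd : ℕ → ℝ := fun x => ((A.filter fun u => S (x - u)).card : ℝ) / A.card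
    + ((B.filter fun u => S (x - u)).card : ℝ) / B.card
    + ((C.filter fun u => S (x - u)).card : ℝ) / C.card with hbd
  have hsum : ∑ x ∈ X, bd x ≤ (1 / 3 - ε) * N := by
    have h1 := c1_bad S hc A X hA0 (fun u hu => ⟨hDA u hu, hA u hu⟩) hX
    have h2 := c1_bad S hc B X hB0 (fun u hu => ⟨hDB u hu, hB u hu⟩) hX
    have h3 := c1_bad S (r := 0) (by norm_num) C X hC0 (fun u hu => ⟨hDC u hu, hC u hu⟩) hX
    simp only [hbd, sum_add_distrib]
    linarith
  have hnn : ∀ (Y : Finset ℕ) (x : ℕ),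
      0 ≤ ((Y.filter fun u => S (x - u)).card : ℝ) / Y.card := fun Y x => by positivity
  set G := X.filter fun x => bd x ≤ 1 - ε with hG
  have hG1 : ((X.filter fun x => ¬ bd x ≤ 1 - ε).card : ℝ) * (1 - ε) ≤ (1 / 3 - ε) * N := by
    refine le_trans ?_ hsum
    calc ((X.filter fun x => ¬ bd x ≤ 1 - ε).card : ℝ) * (1 - ε)
        = ∑ _x ∈ X.filter fun x => ¬ bd x ≤ 1 - ε, (1 - ε) := by rw [sum_const, nsmul_eq_mul]
      _ ≤ ∑ x ∈ X.filter fun x => ¬ bd x ≤ 1 - ε, bd x :=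
        sum_le_sum fun x hx => (not_le.1 (mem_filter.1 hx).2).le
      _ ≤ ∑ x ∈ X, bd x := sum_le_sum_of_subset_of_nonneg (filter_subset _ _) fun x _ _ =>
        add_nonneg (add_nonneg (hnn A x) (hnn B x)) (hnn C x)
  have hG2 : (G.card : ℝ) + (X.filter fun x => ¬ bd x ≤ 1 - ε).card = X.card := by
    exact_mod_cast card_filter_add_card_filter_not (s := X) _
  have hG3 : T.card * n < G.card := by
    have h1 : (N : ℝ) ≤ 3 * X.card + (D + 4) := by exact_mod_cast hK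
    have h2 : 3 * ((T.card * n : ℕ) : ℝ) + (D + 4) < N * (2 * ε) :=
      (div_lt_iff₀ (by positivity)).1 (hN1.trans_le hN3)
    have h3 : (0 : ℝ) ≤ G.card := Nat.cast_nonneg _
    have h4 : (0 : ℝ) ≤ D := Nat.cast_nonneg _
    have h5 : ((T.card * n : ℕ) : ℝ) < G.card := by
      have h6 := mul_le_mul_of_nonneg_right h1 (sub_pos.2 hε1).le
      have h7 := mul_nonneg h3 hε.le
      have h8 := mul_nonneg (add_nonneg h4 (by norm_num : (0 : ℝ) ≤ 4)) hε.le
      rw [← hG2] at h6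
      nlinarith
    exact_mod_cast h5
  obtain ⟨y, -, hy⟩ := exists_lt_card_fiber_of_mul_lt_card_of_maps_to (s := G) (t := T)
    (f := fun x => (A.filter fun u => ¬ S (x - u), B.filter fun u => ¬ S (x - u),
      C.filter fun u => ¬ S (x - u), x % Q))
    (fun x _ => by
      simp only [hT, mem_product, mem_powerset, filter_subset, mem_range, true_and]
      exact Nat.mod_lt _ hQ) hG3
  obtain ⟨x0, hx0⟩ := card_pos.1 (lt_of_le_of_lt (Nat.zero_le n) hy)
  obtain ⟨hx1, rfl⟩ := mem_filter.1 hx0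
  have hx2 := (mem_filter.1 hx1).2
  have hW : ∀ x ∈ G.filter fun x => (A.filter fun u => ¬ S (x - u), B.filter fun u => ¬ S (x - u),
      C.filter fun u => ¬ S (x - u), x % Q) = (A.filter fun u => ¬ S (x0 - u),
      B.filter fun u => ¬ S (x0 - u), C.filter fun u => ¬ S (x0 - u), x0 % Q),
      (M + D < x ∧ x % 3 = a) ∧ (A.filter fun u => ¬ S (x - u)) = (A.filter fun u => ¬ S (x0 - u))
        ∧ (B.filter fun u => ¬ S (x - u)) = (B.filter fun u => ¬ S (x0 - u))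
        ∧ (C.filter fun u => ¬ S (x - u)) = (C.filter fun u => ¬ S (x0 - u)) ∧ x % Q = x0 % Q := by
    intro x hx
    obtain ⟨h1, h2⟩ := mem_filter.1 hx
    have h3 := hX x (mem_filter.1 h1).1
    simp only [Prod.mk.injEq] at h2
    exact ⟨⟨h3.1, h3.2.2⟩, h2⟩
  have hb := hnn B x0
  have ha' := hnn A x0
  have hc' := hnn C x0
  simp only [hbd] at hx2
  refine ⟨_, filter_subset (fun u => ¬ S (x0 - u)) A, _, filter_subset (fun u => ¬ S (x0 - u)) B,
    _, filter_subset (fun u => ¬ S (x0 - u)) C, _, c1_good S A hA0 x0 (by linarith),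
    c1_good S B hB0 x0 (by linarith), c1_good S C hC0 x0 (by linarith), hy,
    fun x hx => (hW x hx).1.2, ⟨x0 % Q, fun x hx => (hW x hx).2.2.2.2⟩, fun u hu x hx => ?_,
    fun u hu x hx => ?_, fun u hu x hx => ?_⟩
  · rw [← (hW x hx).2.1, mem_filter] at hu
    have := (hW x hx).1.1
    have := hDA u hu.1
    exact ⟨by omega, hu.2⟩
  · rw [← (hW x hx).2.2.1, mem_filter] at hu
    have := (hW x hx).1.1
    have := hDB u hu.1
    exact ⟨by omega, hu.2⟩
  · rw [← (hW x hx).2.2.2.1, mem_filter] at hu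
    have := (hW x hx).1.1
    have := hDC u hu.1
    exact ⟨by omega, hu.2⟩

theorem c1_avoid {p : ℕ} (hp : p.Prime) {K ι : Type} [Fintype ι] (h : K → ℕ) (g : ι → ℕ)
    (hι : Fintype.card ι < p) (hg : ∀ j, ∃ i, h j ≡ g i [MOD p]) :
    ∃ a : ℕ, ∀ j, ¬ p ∣ a + 2 * h j := by
  classical
  have : NeZero p := ⟨hp.ne_zero⟩
  have h1 : (univ.image fun i => -(2 * (g i : ZMod p))).card < (univ : Finset (ZMod p)).card := by
    rw [card_univ, ZMod.card]
    exact lt_of_le_of_lt card_image_le hι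
  obtain ⟨a, -, ha⟩ := exists_mem_notMem_of_card_lt_card h1
  refine ⟨a.val, fun j hj => ha ?_⟩
  obtain ⟨i, hi⟩ := hg j
  have h2 := (ZMod.natCast_eq_zero_iff _ _).2 hj
  have h3 := (ZMod.natCast_eq_natCast_iff _ _ _).2 hi
  push_cast at h2
  rw [ZMod.natCast_zmod_val, h3] at h2
  exact mem_image.2 ⟨i, mem_univ _, (eq_neg_of_add_eq_zero_left h2).symm⟩

theorem c1_final (S : ℕ → Prop) (t : ℕ)
    (H : ∀ h : Fin 4 × Fin t → ℕ, Function.Injective h →
      (∀ p : ℕ, p.Prime → ∃ a : ℕ, ∀ j, ¬ p ∣ a + 2 * h j) →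
        ∃ j j', j.1 ≠ j'.1 ∧ h j < h j' ∧ S (h j' - h j))
    (P : Fin 4 → Finset ℕ) (hP : ∀ i, t ≤ (P i).card) {c : ℕ} (hc : c = 1 ∨ c = 2)
    (h3 : ∀ i, ∀ x ∈ P i, x % 3 = 0 ∨ x % 3 = c)
    (hq : ∀ i, ∃ q, ∀ x ∈ P i, x % (4 * t).factorial = q)
    (hS : ∀ i i', i < i' → ∀ u ∈ P i, ∀ x ∈ P i', u < x ∧ ¬ S (x - u)) : False := by
  choose q hq using hq
  have hm : ∀ i j, (P i).orderEmbOfCardLe (hP i) j ∈ P i := fun i j =>
    orderEmbOfCardLe_mem _ _ _
  obtain ⟨j, j', h1, h2, h4⟩ := H (fun j => (P j.1).orderEmbOfCardLe (hP j.1) j.2)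
    (fun j j' e => by
      obtain ⟨i, k⟩ := j
      obtain ⟨i', k'⟩ := j'
      beta_reduce at e
      rcases lt_trichotomy i i' with h | h | h
      · exact absurd e (hS i i' h _ (hm i k) _ (hm i' k')).1.ne
      · subst h
        exact Prod.ext rfl (((P i).orderEmbOfCardLe (hP i)).injective e)
      · exact absurd e (hS i' i h _ (hm i' k') _ (hm i k)).1.ne')
    (fun p hp => by
      rcases lt_or_ge (4 * t) p with h | h
      · exact c1_avoid hp _ (fun j : Fin 4 × Fin t => (P j.1).orderEmbOfCardLe (hP j.1) j.2)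
          (by simpa using h) fun j => ⟨j, Nat.ModEq.refl _⟩
      rcases lt_or_ge 4 p with h' | h'
      · refine c1_avoid hp _ q (by simpa using h') fun j => ⟨j.1, ?_⟩
        rw [← hq j.1 _ (hm j.1 j.2)]
        exact ((Nat.mod_modEq _ _).symm).of_dvd (Nat.dvd_factorial hp.pos h)
      have h5 := hp.two_le
      have h6 : p ≠ 4 := fun e => by rw [e] at hp; exact absurd hp (by norm_num)
      have h7 : p = 2 ∨ p = 3 := by omega
      rcases h7 with rfl | rfl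
      · exact ⟨1, fun j => by omega⟩
      · refine ⟨3 - c, fun j => ?_⟩
        have := h3 j.1 _ (hm j.1 j.2)
        omega)
  rcases lt_or_gt_of_ne h1 with h | h
  · exact (hS _ _ h _ (hm j.1 j.2) _ (hm j'.1 j'.2)).2 h4
  · exact absurd h2 (hS _ _ h _ (hm j'.1 j'.2) _ (hm j.1 j.2)).1.le.not_gt

theorem c1_size {ε : ℝ} {k m : ℕ} (hε : 0 < ε) (hk : 1 ≤ ε * k) {A A' : Finset ℕ}
    (hA : k * m ≤ A.card) (h : ε * A.card ≤ A'.card) : m ≤ A'.card := by
  have h1 : (k : ℝ) * m ≤ A.card := by exact_mod_cast hA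
  have h2 : (m : ℝ) ≤ A'.card := by
    have h3 := mul_le_mul_of_nonneg_left h1 hε.le
    have h4 := mul_le_mul_of_nonneg_right hk (Nat.cast_nonneg (α := ℝ) m)
    nlinarith
  exact_mod_cast h2

theorem density (S : ℕ → Prop) (t : ℕ)
    (H : ∀ h : Fin 4 × Fin t → ℕ, Function.Injective h →
      (∀ p : ℕ, p.Prime → ∃ a : ℕ, ∀ j, ¬ p ∣ a + 2 * h j) →
        ∃ j j', j.1 ≠ j'.1 ∧ h j < h j' ∧ S (h j' - h j)) {ε : ℝ} (hε : 0 < ε) :
    ∃ N0 : ℕ, ∀ N ≥ N0, ∀ M : ℕ,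
      (1 / 3 - ε) * N ≤ ({m : ℕ | M < m ∧ m ≤ M + N ∧ S m}.ncard : ℝ) := by
  classical
  rcases le_or_gt 1 ε with hε1 | hε1
  · exact ⟨0, fun N _ M => le_trans
      (mul_nonpos_of_nonpos_of_nonneg (by linarith) (Nat.cast_nonneg _)) (Nat.cast_nonneg _)⟩
  by_contra hcon
  have hcnt : ∀ M N : ℕ, {m : ℕ | M < m ∧ m ≤ M + N ∧ S m}.ncard
      = c1_cnt S M N 0 + c1_cnt S M N 1 + c1_cnt S M N 2 := by
    intro M N
    have e : {m : ℕ | M < m ∧ m ≤ M + N ∧ S m} = ↑((Ioc M (M + N)).filter S) := by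
      ext m
      simp [and_assoc]
    rw [e, Set.ncard_coe_finset, card_eq_sum_card_fiberwise (f := fun m => m % 3) (t := range 3)
      fun m _ => mem_coe.2 (mem_range.2 (Nat.mod_lt _ (by norm_num)))]
    simp only [sum_range_succ, sum_range_zero, zero_add, filter_filter, c1_cnt]
  obtain ⟨c, hc, hyp⟩ : ∃ c : ℕ, (c = 1 ∨ c = 2) ∧ ∀ N0 : ℕ, ∃ N ≥ N0, ∃ M : ℕ,
      (c1_cnt S M N 0 : ℝ) + 2 * c1_cnt S M N c ≤ (1 / 3 - ε) * N := by
    by_contra hn
    push Not at hn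
    obtain ⟨N1, h1⟩ := hn 1 (Or.inl rfl)
    obtain ⟨N2, h2⟩ := hn 2 (Or.inr rfl)
    refine hcon ⟨max N1 N2, fun N hN M => ?_⟩
    have h3 := h1 N (le_trans (le_max_left _ _) hN) M
    have h4 := h2 N (le_trans (le_max_right _ _) hN) M
    rw [hcnt]
    push_cast
    linarith
  obtain ⟨k, hk⟩ := exists_nat_gt (1 / ε)
  have hk1 : 1 ≤ ε * k := by
    rw [div_lt_iff₀ hε] at hk
    linarith
  have hc3 : c < 3 := by omega
  have hQ := Nat.factorial_pos (4 * t)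
  set Q := (4 * t).factorial with hQdef
  have ne : ∀ {A : Finset ℕ} {m : ℕ}, m * (t + 1) ≤ A.card → 0 < m → A.Nonempty :=
    fun h hm => card_pos.1 (lt_of_lt_of_le (by positivity) h)
  have hk0 : 0 < k := by
    rcases Nat.eq_zero_or_pos k with e | e
    · rw [e] at hk1
      norm_num at hk1
    · exact e
  obtain ⟨A, hA1, hA2, hA3⟩ : ∃ A : Finset ℕ, k * (k * (k * (t + 1))) ≤ A.card ∧
      (∀ x ∈ A, x % 3 = 0) ∧ ∀ x ∈ A, x % Q = 0 := by
    refine ⟨(range (k * (k * (k * (t + 1))))).image fun i => 3 * Q * i, ?_, fun x hx => ?_,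
      fun x hx => ?_⟩
    · rw [card_image_of_injective _ (mul_right_injective₀ (by positivity)), card_range]
    · obtain ⟨i, -, rfl⟩ := mem_image.1 hx
      rw [mul_assoc, Nat.mul_mod_right]
    · obtain ⟨i, -, rfl⟩ := mem_image.1 hx
      rw [mul_comm 3, mul_assoc, Nat.mul_mod_right]
  obtain ⟨-, -, -, -, A1, sA1, B, -, -, cA1, cB, hB3, ⟨qB, hBq⟩, -, -, hAB⟩ :=
    c1_ext S hε hε1 hc3 hyp (a := 0) (by norm_num) hQ (k * (k * (t + 1))) {3 - c} {3 - c} A
      (singleton_nonempty _) (singleton_nonempty _)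
      (ne (m := k * k * k) (by simpa only [mul_assoc] using hA1) (by positivity))
      (fun u hu => by rw [mem_singleton.1 hu]; omega)
      (fun u hu => by rw [mem_singleton.1 hu]; omega) hA2
  have nA1 := c1_size hε hk1 hA1 cA1
  obtain ⟨A2, sA2, B1, sB1, -, -, C, cA2, cB1, -, cC, hC3, ⟨qC, hCq⟩, hAC, hBC, -⟩ :=
    c1_ext S hε hε1 hc3 hyp (a := c) hc3 hQ (k * (t + 1)) A1 B {c}
      (ne (m := k * k) (by simpa only [mul_assoc] using nA1) (by positivity))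
      (ne (m := k * k) (by simpa only [mul_assoc] using cB.le) (by positivity))
      (singleton_nonempty _)
      (fun u hu => by have := hA2 u (sA1 hu); omega) (fun u hu => by have := hB3 u hu; omega)
      (fun u hu => by rw [mem_singleton.1 hu]; omega)
  have nA2 := c1_size hε hk1 nA1 cA2
  have nB1 := c1_size hε hk1 cB.le cB1
  obtain ⟨A3, sA3, B2, sB2, C1, sC1, E, cA3, cB2, cC1, cE, hE3, ⟨qE, hEq⟩, hAE, hBE, hCE⟩ :=
    c1_ext S hε hε1 hc3 hyp (a := c) hc3 hQ t A2 B1 C (ne nA2 hk0) (ne nB1 hk0) (ne cC.le hk0)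
      (fun u hu => by have := hA2 u (sA1 (sA2 hu)); omega)
      (fun u hu => by have := hB3 u (sB1 hu); omega) hC3
  have nA3 := c1_size hε hk1 nA2 cA3
  have nB2 := c1_size hε hk1 nB1 cB2
  have nC1 := c1_size hε hk1 cC.le cC1
  refine c1_final S t H ![A3, B2, C1, E] (fun i => ?_) hc (fun i => ?_) (fun i => ?_)
    (fun i i' hi => ?_)
  · fin_cases i
    · exact (Nat.le_succ t).trans nA3
    · exact (Nat.le_succ t).trans nB2
    · exact (Nat.le_succ t).trans nC1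
    · exact cE.le
  · fin_cases i
    · exact fun x hx => Or.inl (hA2 x (sA1 (sA2 (sA3 hx))))
    · exact fun x hx => Or.inl (hB3 x (sB1 (sB2 hx)))
    · exact fun x hx => Or.inr (hC3 x (sC1 hx))
    · exact fun x hx => Or.inr (hE3 x hx)
  · fin_cases i
    · exact ⟨0, fun x hx => hA3 x (sA1 (sA2 (sA3 hx)))⟩
    · exact ⟨qB, fun x hx => hBq x (sB1 (sB2 hx))⟩
    · exact ⟨qC, fun x hx => hCq x (sC1 hx)⟩
    · exact ⟨qE, fun x hx => hEq x hx⟩
  · fin_cases i <;> fin_cases i' <;> first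
      | exact absurd hi (by decide)
      | exact fun u hu x hx => hAB u (sA2 (sA3 hu)) x (sB1 (sB2 hx))
      | exact fun u hu x hx => hAC u (sA3 hu) x (sC1 hx)
      | exact fun u hu x hx => hAE u hu x hx
      | exact fun u hu x hx => hBC u (sB2 hu) x (sC1 hx)
      | exact fun u hu x hx => hBE u hu x hx
      | exact fun u hu x hx => hCE u hu x hx

end Pool.Agent.Lib.MP_9227d9_nt.H5
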