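import Pool.Agent.Lib.MP_bee098_nt.Weight

/-! Number theoretic definitions for the density of de Polignac numbers. -/

open Finset

namespace Pool.Agent.Lib.MP_9227d9_nt.H5

open Pool.Agent.Lib.MP_bee098_nt

/-- `d` is the gap between two consecutive primes infinitely often. -/
def Pol (d : ℕ) : Prop :=
  {p : ℕ | p.Prime ∧ (p + d).Prime ∧ ∀ q, p < q → q < p + d → ¬ q.Prime}.Infinite

/-- Squarefree numbers up to `R` all of whose prime factors exceed `y`. -/
def Rough (y R : ℕ) : Finset ℕ :=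
  (Icc 1 R).filter fun D => Squarefree D ∧ ∀ p ∈ D.primeFactors, y < p

/-- Divisor sum. -/
noncomputable def Qf (s : Finset ℕ) (lam : ℕ → ℝ) (m : ℕ) : ℝ := ∑ D ∈ s.filter (· ∣ m), lam D

/-- The expected value of a product of two squared divisor sums. -/
noncomputable def gam (s : Finset ℕ) (lam lam' : ℕ → ℝ) : ℝ :=
  ∑ d ∈ s ×ˢ s, ∑ e ∈ s ×ˢ s, if (d.1.lcm d.2).Coprime (e.1.lcm e.2) then
    lam d.1 * lam d.2 * (lam' e.1 * lam' e.2) / ((d.1.lcm d.2 : ℝ) * (e.1.lcm e.2 : ℝ)) else 0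

/-- Indicator of the number one. -/
def one1 (D : ℕ) : ℝ := if D = 1 then 1 else 0

/-- Numbers up to `z ^ 600` have at most `T` rough divisors. -/
def DivB (y z : ℕ) (T : ℝ) : Prop :=
  ∀ M : ℕ, 0 < M → M ≤ z ^ 600 → (((Rough y (z ^ 104)).filter (· ∣ M)).card : ℝ) ≤ T

/-- The numerator of `1/a + 1/b - 1/c - 1/d`. -/
def Nq (q : (ℕ × ℕ) × ℕ × ℕ) : ℤ :=
  (q.1.2 : ℤ) * q.2.1 * q.2.2 + q.1.1 * q.2.1 * q.2.2 - q.1.1 * q.1.2 * q.2.2
    - q.1.1 * q.1.2 * q.2.1

/-- The additive character `e(x / E)`. -/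
noncomputable def eZ (E : ℕ) (x : ZMod E) : ℂ :=
  Complex.exp (2 * Real.pi * Complex.I * x.val / E)

/-- A complete system of residues which is symmetric around zero. -/
noncomputable def Fq (E : ℕ) : Finset ℤ := Icc (-(((E - 1) / 2 : ℕ) : ℤ)) ((E / 2 : ℕ) : ℤ)

/-- The error term of the pair estimate. -/
noncomputable def EK (z : ℕ) (T : ℝ) : ℝ := 4 * T ^ 8 * (z : ℝ) ^ 391 * (300 * Real.log z) ^ 4

/-- Repeatedly averaged kernel. -/
noncomputable def ker (l : ℝ) : ℕ → ℝ → ℝ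
  | 0, z => Real.exp z * tri z
  | r + 1, z => l⁻¹ * ∫ v in (0 : ℝ)..l, ker l r (z - v)

/-- The weight of `n` after averaging `r` times over the scale. -/
noncomputable def nu (l : ℝ) (r : ℕ) (u : ℝ) (n : ℕ) : ℝ := ker l r (Real.log n - u) / n

/-- Logarithmic weight on the primes. -/
noncomputable def pw (n : ℕ) : ℝ := if n.Prime then Real.log n else 0

theorem pw_nonneg (n : ℕ) : 0 ≤ pw n := by
  unfold pw; split_ifs
  · exact Real.log_natCast_nonneg n
  · rfl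

theorem mem_Rough {y R D : ℕ} :
    D ∈ Rough y R ↔ (1 ≤ D ∧ D ≤ R) ∧ Squarefree D ∧ ∀ p ∈ D.primeFactors, y < p := by
  simp only [Rough, mem_filter, mem_Icc]

theorem eZ_eq {E : ℕ} [NeZero E] (x : ZMod E) : eZ E x = ZMod.stdAddChar x := by
  rw [ZMod.stdAddChar_apply, ZMod.toCircle_apply, eZ]

end Pool.Agent.Lib.MP_9227d9_nt.H5
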