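import Pool.Agent.Lib.MP_bee098_nt.Core
import Pool.Agent.Lib.MP_9227d9_nt.H5.Defs

/-! Definitions for the sieve on residue vectors. -/

open Finset

namespace Pool.Agent.Lib.MP_9227d9_nt.H5

open Pool.Agent.Lib.MP_bee098_nt

variable {ι K : Type} [Fintype ι] [DecidableEq ι] [Fintype K] [DecidableEq K]
variable (P : ι → ℕ)

/-- `P` enumerates the primes up to `y`. -/
def Enum (y : ℕ) : Prop :=
  Function.Injective P ∧ (∀ p : ℕ, p.Prime → p ≤ y → ∃ i, P i = p) ∧ ∀ i, P i ≤ y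

/-- The residue vector of `n`. -/
def res (n : ℕ) : ∀ i, ZMod (P i) := fun i => (n : ZMod (P i))

/-- The Selberg form with odds `o` and level `x`, evaluated at the set `U`. -/
noncomputable def sel (o : ι → ℝ) (x : ℝ) (U : Finset ι) : ℝ :=
  (ws o (cut P x))⁻¹ * ∑ T : Finset ι, cut P x T * ∏ i ∈ T, if i ∈ U then -1 else o i

/-- The coefficients of the Selberg form. -/
noncomputable def lamS (o : ι → ℝ) (x : ℝ) (D : Finset ι) : ℝ :=
  (ws o (cut P x))⁻¹ * ((∏ i ∈ D, -(1 + o i)) *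
    ∑ T ∈ univ.filter (D ⊆ ·), cut P x T * ∏ i ∈ T \ D, o i)

/-- Indicator of the class `β` at the primes in `B`. -/
def cl (B : Finset ι) (β x : ∀ i, ZMod (P i)) : ℝ := ∏ i, if i ∈ B ∧ x i ≠ β i then 0 else 1

/-- The primes in `A` which divide the shift by `a`. -/
def Uo (A : Finset ι) (a : ℕ) (x : ∀ i, ZMod (P i)) : Finset ι := A.filter fun i => x i + a = 0

/-- Functions which are short sums of products of local functions. -/
def Lev (Z Λ : ℝ) (Φ : (∀ i, ZMod (P i)) → ℝ) : Prop :=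
  ∃ (α : Type) (s : Finset α) (c : α → ℝ) (ψ : α → ∀ i, ZMod (P i) → ℝ) (T : α → Finset ι),
    (∀ a i t, |ψ a i t| ≤ 1) ∧ (∀ a, ∀ i ∉ T a, ∀ t, ψ a i t = 1) ∧ (∀ a ∈ s, lp P (T a) ≤ Z) ∧
      ∑ a ∈ s, |c a| ≤ Λ ∧ ∀ x, Φ x = ∑ a ∈ s, c a * ∏ i, ψ a i (x i)

/-- The inverse of the product of the primes in `B`. -/
noncomputable def Wi (B : Finset ι) : ℝ := ∏ i ∈ B, (P i : ℝ)⁻¹

/-- First moment of the cutoff. -/
noncomputable def G1 (A : Finset ι) (g : Finset ι → ℝ) : ℝ := ws (oA P A) g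

/-- Second moment of the cutoff. -/
noncomputable def I2 (A : Finset ι) (g : Finset ι → ℝ) : ℝ := ws (vA P A) fun T => g T ^ 2

/-- The family of sifting sets without the coordinate `m`. -/
def Am (A : Finset ι) (m j : K) : Finset ι := if j = m then ∅ else A

/-- The constant of the class expansion. -/
def Cc (K : Type) [Fintype K] : ℝ := 2 * (Fintype.card K + 1) * 2 ^ Fintype.card K

/-- Standing assumptions on the multidimensional sieve. -/
structure Sv (K : Type) [Fintype K] (A : Finset ι) (w : ℕ) (ε : ℝ) (g : Finset ι → ℝ) (L : ℝ) :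
    Prop where
  inj : Function.Injective P
  big : ∀ i ∈ A, w < P i
  kpos : 1 ≤ Fintype.card K
  e0 : 0 < ε
  e1 : ε ≤ 1
  wk : 1000 * (Fintype.card K : ℝ) ^ 2 ≤ ε * w
  g0 : ∀ T, 0 ≤ g T
  g2 : ∀ T, g T ≤ 2
  g1 : 1 ≤ g ∅
  anti : Antitone g
  Lpos : 0 < L
  supp : ∀ T, g T ≠ 0 → lp P T ≤ L / 2
  mom : 8 * Fintype.card K * ws (vA P A) (fun T => g T ^ 2 * lp P T) ≤ ε * L * I2 P A g

variable [hP : ∀ i, Fact (P i).Prime]

/-- Mean value over all residue vectors. -/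
noncomputable def Ex (Φ : (∀ i, ZMod (P i)) → ℝ) : ℝ :=
  ∑ x : ∀ i, ZMod (P i), (∏ i, (P i : ℝ)⁻¹) * Φ x

/-- The multidimensional sieve sum. -/
noncomputable def af (A : Finset ι) (h : K → ℕ) (g : Finset ι → ℝ) (L : ℝ)
    (x : ∀ i, ZMod (P i)) : ℝ :=
  Zf (yy P g L) fun i => fU P (fun _ => A) h i (x i)

/-- The sieve weight on residue vectors. -/
noncomputable def Ph (A B : Finset ι) (β : ∀ i, ZMod (P i)) (h : K → ℕ) (g : Finset ι → ℝ) (L : ℝ)
    (x : ∀ i, ZMod (P i)) : ℝ := cl P B β x * af P A h g L x ^ 2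

/-- The Selberg form on the small primes. -/
noncomputable def SS (A : Finset ι) (x0 : ℝ) (a : ℕ) (x : ∀ i, ZMod (P i)) : ℝ :=
  sel P (fun i => 64 * oA P A i) x0 (Uo P A a x)

/-- The majorant of the indicator that `n + a` is prime. -/
noncomputable def bt (A : Finset ι) (x0 : ℝ) (s : Finset ℕ) (lam : ℕ → ℝ) (a n : ℕ) : ℝ :=
  SS P A x0 a (res P n) ^ 2 * Qf s lam (n + a) ^ 2

/-- The weight of a character in the error term. -/
noncomputable def wgt (B : Finset ι) (c : ℝ) (χ : Ch P) : ℝ := ∏ i ∈ cs P χ \ B, c * om (P i)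

/-- The weighted sum of character sums. -/
noncomputable def Esum (B : Finset ι) (c L : ℝ) (Ψ : Ch P → ℂ) : ℝ :=
  ∑ χ ∈ univ.filter (fun χ : Ch P => cs P χ ≠ ∅ ∧ lp P (cs P χ \ B) ≤ L), wgt P B c χ * ‖Ψ χ‖

/-- Character sums of a sequence. -/
noncomputable def Psi (s : Finset ℕ) (a : ℕ → ℝ) (χ : Ch P) : ℂ := ∑ n ∈ s, (a n : ℂ) * Xc P χ n

/-- The averaged weight on the primes near `exp L`. -/
noncomputable def pa (L : ℝ) (n : ℕ) : ℝ := pw n * nu (L / 6600) 66 L n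

end Pool.Agent.Lib.MP_9227d9_nt.H5
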