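import Pool.Agent.Lib.MP_9227d9_nt.H5.Defs

/-! Concentration of the majorants, and consecutive primes. -/

open Finset

namespace Pool.Agent.Lib.MP_9227d9_nt.H5

open Pool.Agent.Lib.MP_bee098_nt

lemma f1_var {K : Type} [DecidableEq K] (J : Finset K) {t : ℕ} (ht : J.card = t)
    (s : Finset ℕ) (w : ℕ → ℝ) (β : K → ℕ → ℝ) {U ρ ε T : ℝ}
    (hU : 0 ≤ U) (hε : 0 ≤ ε) (hρ : 0 < ρ) (m0 : ∑ n ∈ s, w n ≤ (1 + ε) * U)
    (m1 : ∀ j, (1 - ε) * (ρ * U) ≤ ∑ n ∈ s, w n * β j n)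
    (m2 : ∀ j j', j ≠ j' → ∑ n ∈ s, w n * (β j n * β j' n) ≤ (1 + ε) * (ρ ^ 2 * U))
    (m3 : ∀ j, ∑ n ∈ s, w n * β j n ^ 2 ≤ 2 * T * (ρ * U)) :
    ∑ n ∈ s, w n * (∑ j ∈ J, β j n - t * ρ) ^ 2 ≤
      (t * ρ) * (U * (4 * ε * (t * ρ) + 2 * T)) := by
  have e : ∀ n ∈ s, w n * (∑ j ∈ J, β j n - t * ρ) ^ 2 =
      ∑ j ∈ J, ∑ j' ∈ J, w n * (β j n * β j' n) - 2 * (t * ρ) * ∑ j ∈ J, w n * β j n +
        (t * ρ) ^ 2 * w n := by
    intro n _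
    simp only [← mul_sum, ← sum_mul]
    ring
  have h1 : ∀ j ∈ J, ∑ j' ∈ J, ∑ n ∈ s, w n * (β j n * β j' n) ≤
      t * ((1 + ε) * (ρ ^ 2 * U)) + 2 * T * (ρ * U) := by
    intro j hj
    have g : ∀ j' ∈ J, ∑ n ∈ s, w n * (β j n * β j' n) ≤
        (1 + ε) * (ρ ^ 2 * U) + if j = j' then 2 * T * (ρ * U) else 0 := by
      intro j' _
      split_ifs with hh
      · subst hh
        have := m3 j
        simp only [sq] at this
        have h0 : 0 ≤ (1 + ε) * (ρ ^ 2 * U) := by positivity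
        linarith
      · simpa using m2 j j' hh
    refine (sum_le_sum g).trans (le_of_eq ?_)
    rw [sum_add_distrib, sum_ite_eq, if_pos hj, sum_const, ht, nsmul_eq_mul]
  have h2 : ∑ n ∈ s, ∑ j ∈ J, ∑ j' ∈ J, w n * (β j n * β j' n) ≤
      t * (t * ((1 + ε) * (ρ ^ 2 * U)) + 2 * T * (ρ * U)) := by
    rw [sum_comm]
    refine (sum_le_sum fun j hj => (le_of_eq sum_comm).trans (h1 j hj)).trans (le_of_eq ?_)
    rw [sum_const, ht, nsmul_eq_mul]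
  have h3 : t * ((1 - ε) * (ρ * U)) ≤ ∑ n ∈ s, ∑ j ∈ J, w n * β j n := by
    rw [sum_comm]
    refine le_trans (le_of_eq ?_) (sum_le_sum fun j _ => m1 j)
    rw [sum_const, ht, nsmul_eq_mul]
  have hc : 0 ≤ (t : ℝ) * ρ := by positivity
  have h4 := mul_le_mul_of_nonneg_left h3 hc
  have h5 := mul_le_mul_of_nonneg_left m0 (sq_nonneg ((t : ℝ) * ρ))
  rw [sum_congr rfl e, sum_add_distrib, sum_sub_distrib, ← mul_sum, ← mul_sum]
  nlinarith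

theorem conc {K : Type} [Fintype K] [DecidableEq K] (π : K → Fin 4) {t : ℕ} (ht0 : 0 < t)
    (ht : ∀ i, (univ.filter (π · = i)).card = t) (s : Finset ℕ) (w : ℕ → ℝ) (hw : ∀ n, 0 ≤ w n)
    (β : K → ℕ → ℝ) (σ : ℕ → ℝ)
    (hσ : ∀ n ∈ s, w n ≠ 0 → ∃ i, σ n ≤ ∑ j ∈ univ.filter (π · = i), β j n) {U ρ ε T : ℝ}
    (hU : 0 ≤ U) (hρ : 0 < ρ) (hε : 0 ≤ ε) (m0 : ∑ n ∈ s, w n ≤ (1 + ε) * U)
    (m1 : ∀ j, (1 - ε) * (ρ * U) ≤ ∑ n ∈ s, w n * β j n)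
    (m2 : ∀ j j', j ≠ j' → ∑ n ∈ s, w n * (β j n * β j' n) ≤ (1 + ε) * (ρ ^ 2 * U))
    (m3 : ∀ j, ∑ n ∈ s, w n * β j n ^ 2 ≤ 2 * T * (ρ * U)) :
    ∑ n ∈ s, w n * σ n ≤ U * ((1 + ε) * (1.005 * (t * ρ)) + 200 * (4 * ε * (t * ρ) + 2 * T)) := by
  have hc : 0 < (t : ℝ) * ρ := by positivity
  have hv := fun i => f1_var _ (ht i) s w β hU hε hρ m0 m1 m2 m3
  set c : ℝ := t * ρ with hcd
  have h1 : ∀ n ∈ s, w n * σ n ≤ 1.005 * c * w n +
      50 / c * ∑ i : Fin 4, w n * (∑ j ∈ univ.filter (π · = i), β j n - c) ^ 2 := by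
    intro n hn
    by_cases h0 : w n = 0
    · simp [h0]
    obtain ⟨i, hi⟩ := hσ n hn h0
    have g1 := single_le_sum (f := fun i : Fin 4 =>
      w n * (∑ j ∈ univ.filter (π · = i), β j n - c) ^ 2)
      (fun i _ => mul_nonneg (hw n) (sq_nonneg _)) (mem_univ i)
    have g2 := mul_le_mul_of_nonneg_left g1 (by positivity : 0 ≤ 50 / c)
    set Y := ∑ j ∈ univ.filter (π · = i), β j n
    have g3 : Y ≤ 1.005 * c + 50 / c * (Y - c) ^ 2 := by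
      rw [← sub_le_iff_le_add', div_mul_eq_mul_div, le_div_iff₀ hc]
      nlinarith [sq_nonneg (Y - c - c / 100)]
    have g4 := mul_le_mul_of_nonneg_left (hi.trans g3) (hw n)
    nlinarith
  refine (sum_le_sum h1).trans ?_
  rw [sum_add_distrib, ← mul_sum, ← mul_sum, sum_comm]
  have h2 : ∑ i : Fin 4, ∑ n ∈ s, w n * (∑ j ∈ univ.filter (π · = i), β j n - c) ^ 2 ≤
      4 * (c * (U * (4 * ε * c + 2 * T))) := by
    refine (sum_le_sum fun i _ => hv i).trans (le_of_eq ?_)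
    simp
  have h3 := mul_le_mul_of_nonneg_left h2 (by positivity : 0 ≤ 50 / c)
  have h4 : 50 / c * (4 * (c * (U * (4 * ε * c + 2 * T)))) = 200 * (U * (4 * ε * c + 2 * T)) := by
    field_simp
    ring
  have h5 := mul_le_mul_of_nonneg_left m0 (by positivity : 0 ≤ 1.005 * c)
  nlinarith

lemma f1_class {K : Type} (h : K → ℕ) {H : ℕ} (hH : ∀ j, h j < H)
    (hadm : ∀ p : ℕ, p.Prime → ∃ a : ℕ, ∀ j, ¬ p ∣ a + h j) :
    ∃ β : ℕ → ℕ, (∀ p : ℕ, p.Prime → ∀ j, ¬ p ∣ β p + h j) ∧ ∃ w0 : ℕ, ∀ a < H, (∀ j, h j ≠ a) →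
      ∃ p : ℕ, p.Prime ∧ p ≤ w0 ∧ p ∣ β p + a := by
  classical
  have hm : StrictMono (Nat.nth Nat.Prime) := Nat.nth_strictMono Nat.infinite_setOfPred_prime
  have key : ∀ p : ℕ, ∃ b : ℕ, (p.Prime → ∀ j, ¬ p ∣ b + h j) ∧
      ∀ a < H, (∀ j, h j ≠ a) → p = Nat.nth Nat.Prime (H + a) → p ∣ b + a := by
    intro p
    by_cases hp : ∃ a < H, (∀ j, h j ≠ a) ∧ p = Nat.nth Nat.Prime (H + a)
    · obtain ⟨a, ha, h1, h2⟩ := hp
      have h3 : H + a ≤ p := h2 ▸ hm.le_apply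
      refine ⟨p - a, fun _ j hd => ?_, fun a' _ _ h4 => ?_⟩
      · have g1 := hH j
        have g2 := h1 j
        obtain ⟨k, hk⟩ := hd
        rcases k with _ | _ | k
        · omega
        · omega
        · have : p * (k + 1 + 1) = p * k + 2 * p := by ring
          omega
      · have g : H + a = H + a' := hm.injective (h2.symm.trans h4)
        have g' : p - a + a' = p := by omega
        rw [g']
    · by_cases hq : p.Prime
      · obtain ⟨b, hb⟩ := hadm p hq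
        exact ⟨b, fun _ => hb, fun a ha h1 h2 => absurd ⟨a, ha, h1, h2⟩ hp⟩
      · exact ⟨0, fun g => absurd g hq, fun a ha h1 h2 => absurd ⟨a, ha, h1, h2⟩ hp⟩
  choose β h1 h2 using key
  exact ⟨β, h1, Nat.nth Nat.Prime (H + H), fun a ha g => ⟨_, Nat.prime_nth_prime (H + a),
    hm.monotone (by omega), h2 _ a ha g rfl⟩⟩

theorem consec {K : Type} [Fintype K] [DecidableEq K] (π : K → Fin 4) (h : K → ℕ)
    (hinj : Function.Injective h) (hadm : ∀ p : ℕ, p.Prime → ∃ a : ℕ, ∀ j, ¬ p ∣ a + h j)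
    (HB : ∀ β : ℕ → ℕ, (∀ p : ℕ, p.Prime → ∀ j, ¬ p ∣ β p + h j) → ∀ w0 : ℕ, ∃ w ≥ w0,
      ∀ n0 : ℕ, ∃ n ≥ n0, (∀ p : ℕ, p.Prime → p ≤ w → n ≡ β p [MOD p]) ∧
        ∃ j j', π j ≠ π j' ∧ (n + h j).Prime ∧ (n + h j').Prime) :
    ∃ j j', π j ≠ π j' ∧ h j < h j' ∧ Pol (h j' - h j) := by
  classical
  by_contra hn
  have hH : ∀ j, h j < univ.sup h + 1 := fun j =>
    Nat.lt_succ_of_le (le_sup (f := h) (mem_univ j))
  obtain ⟨β, hβ, w0, hw0⟩ := f1_class h hH hadm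
  obtain ⟨w, hw, HW⟩ := HB β hβ w0
  have hb : ∀ x : K × K, ∃ b : ℕ, π x.1 ≠ π x.2 → h x.1 < h x.2 → ∀ p : ℕ, p.Prime →
      (p + (h x.2 - h x.1)).Prime → (∀ q, p < q → q < p + (h x.2 - h x.1) → ¬ q.Prime) →
      p ≤ b := by
    intro x
    by_cases hx : π x.1 ≠ π x.2 ∧ h x.1 < h x.2
    · have hf : ¬ Pol (h x.2 - h x.1) := fun g => hn ⟨x.1, x.2, hx.1, hx.2, g⟩
      obtain ⟨b, hb⟩ := (Set.not_infinite.1 hf).bddAbove
      exact ⟨b, fun _ _ p g1 g2 g3 => hb ⟨g1, g2, g3⟩⟩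
    · exact ⟨0, fun g1 g2 => absurd ⟨g1, g2⟩ hx⟩
  choose b hb using hb
  obtain ⟨n, hn0, hmod, j, j', hj, p1, p2⟩ := HW (univ.sup b + w + 1)
  set S : Finset (K × K) := univ.filter fun x =>
    π x.1 ≠ π x.2 ∧ h x.1 < h x.2 ∧ (n + h x.1).Prime ∧ (n + h x.2).Prime with hS
  have hmem : ∀ x : K × K, x ∈ S ↔
      π x.1 ≠ π x.2 ∧ h x.1 < h x.2 ∧ (n + h x.1).Prime ∧ (n + h x.2).Prime := by
    intro x
    simp only [hS, mem_filter, mem_univ, true_and]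
  have hne : S.Nonempty := by
    rcases lt_trichotomy (h j) (h j') with g | g | g
    · exact ⟨(j, j'), (hmem _).2 ⟨hj, g, p1, p2⟩⟩
    · exact absurd (congrArg π (hinj g)) hj
    · exact ⟨(j', j), (hmem _).2 ⟨hj.symm, g, p2, p1⟩⟩
  obtain ⟨x, hx, hmin⟩ := exists_min_image S (fun x => h x.2 - h x.1) hne
  obtain ⟨x1, x2, x3, x4⟩ := (hmem x).1 hx
  have e : n + h x.1 + (h x.2 - h x.1) = n + h x.2 := by omega
  have hle := hb x x1 x2 (n + h x.1) x3 (e ▸ x4) fun q q1 q2 q3 => by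
    rw [e] at q2
    obtain ⟨a, rfl⟩ : ∃ a, q = n + a := ⟨q - n, by omega⟩
    by_cases ha : ∃ k, h k = a
    · obtain ⟨k, rfl⟩ := ha
      by_cases hk : π x.1 = π k
      · have := hmin (k, x.2) ((hmem _).2 ⟨hk ▸ x1, by simp only; omega, q3, x4⟩)
        simp only at this
        omega
      · have := hmin (x.1, k) ((hmem _).2 ⟨hk, by simp only; omega, x3, q3⟩)
        simp only at this
        omega
    · have g0 := hH x.2
      obtain ⟨p, g1, g2, g3⟩ := hw0 a (by omega) fun k hk => ha ⟨k, hk⟩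
      have g4 : p ∣ n + a :=
        (((hmod p g1 (g2.trans hw)).add_right a).dvd_iff dvd_rfl).2 g3
      have g5 := (Nat.prime_dvd_prime_iff_eq g1 q3).1 g4
      omega
  have := le_sup (f := b) (mem_univ x)
  omega

end Pool.Agent.Lib.MP_9227d9_nt.H5
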