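import Pool.Agent.Lib.MP_9227d9_nt.H5.M1

/-! Upper bound for the mean of the sieve weight given the divisors of some shifts. -/

open Finset

namespace Pool.Agent.Lib.MP_9227d9_nt.H5

open Pool.Agent.Lib.MP_bee098_nt

variable {ι K : Type} [Fintype ι] [DecidableEq ι] [Fintype K] [DecidableEq K]
variable (P : ι → ℕ) [hP : ∀ i, Fact (P i).Prime]

theorem collapse (J : Finset K) (o : ι → K → ℝ) {y : (K → Finset ι) → ℝ}
    {γ : K → Finset ι → ℝ} (h0 : ∀ j T, 0 ≤ γ j T) (h : ∀ T, |y T| ≤ ∏ j, γ j (T j)) :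
    ∃ y' : (K → Finset ι) → ℝ, (∀ f : ι → K → ℝ, (∀ i, ∀ j ∈ J, f i j = o i j) →
      Zf y f = Zf y' fun i j => if j ∈ J then 0 else f i j) ∧
      ∀ T, |y' T| ≤ (∏ j ∈ J, ws (fun i => |o i j|) (γ j)) *
        ∏ j, if j ∈ J then (if T j = ∅ then 1 else 0) else γ j (T j) := by
  induction J using Finset.induction_on with
  | empty => exact ⟨y, fun f _ => by simp, fun T => by simpa using h T⟩
  | insert m J hm ih =>
    obtain ⟨y', h1, h2⟩ := ih
    refine ⟨yh y' m fun i => o i m, fun f hf => ?_, fun T => ?_⟩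
    · rw [h1 f fun i j hj => hf i j (mem_insert_of_mem hj),
        Z_collapse y' m _ (fun i j => if j ∈ insert m J then 0 else f i j)
          fun i j hj => by simp [hj]]
      simp only [if_neg hm, hf _ m (mem_insert_self m J)]
    · have hG : 0 ≤ ∏ j ∈ J, ws (fun i => |o i j|) (γ j) :=
        Finset.prod_nonneg fun j _ => ws_nonneg (fun _ => abs_nonneg _) (h0 j)
      have hR : 0 ≤ ∏ j ∈ univ.erase m,
          if j ∈ J then (if T j = ∅ then (1 : ℝ) else 0) else γ j (T j) :=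
        Finset.prod_nonneg fun j _ => by split_ifs <;> simp [h0]
      have e : (∏ j, if j ∈ insert m J then (if T j = ∅ then (1 : ℝ) else 0) else γ j (T j))
          = (if T m = ∅ then 1 else 0) * ∏ j ∈ univ.erase m,
            if j ∈ J then (if T j = ∅ then (1 : ℝ) else 0) else γ j (T j) := by
        rw [← Finset.mul_prod_erase univ _ (mem_univ m), if_pos (mem_insert_self m J)]
        congr 1
        exact Finset.prod_congr rfl fun j hj => by simp [ne_of_mem_erase hj]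
      rw [e, Finset.prod_insert hm, yh]
      split_ifs with hT
      · rw [one_mul, mul_assoc, ws, Finset.sum_mul]
        refine (Finset.abs_sum_le_sum_abs _ _).trans ((Finset.sum_le_sum fun U _ => ?_).trans
          (Finset.sum_le_sum_of_subset_of_nonneg (subset_univ _) fun U _ _ =>
            mul_nonneg (mul_nonneg (h0 m U) (Finset.prod_nonneg fun i _ => abs_nonneg _))
              (mul_nonneg hG hR)))
        rw [abs_mul, Finset.abs_prod]
        refine (mul_le_mul_of_nonneg_right (h2 _)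
          (Finset.prod_nonneg fun i _ => abs_nonneg _)).trans (le_of_eq ?_)
        rw [← Finset.mul_prod_erase univ _ (mem_univ m), if_neg hm, Function.update_self,
          Finset.prod_congr rfl (s₁ := univ.erase m) fun j hj => by
            rw [Function.update_of_ne (ne_of_mem_erase hj)]]
        ring
      · simp

/-- The shift in `J` which the prime `P i` divides, if any. -/
noncomputable def m3_pat (A : Finset ι) (h : K → ℕ) (J : Finset K) (i : ι) (s : ZMod (P i)) :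
    Option K :=
  if hh : ∃ j, i ∈ A ∧ j ∈ J ∧ s + h j = 0 then some hh.choose else none

omit [Fintype ι] in
theorem m3_pat_some {A : Finset ι} {h : K → ℕ}
    (hd : ∀ i ∈ A, ∀ j j', (h j : ZMod (P i)) = h j' → j = j') (J : Finset K) (i : ι)
    (s : ZMod (P i)) (j : K) : m3_pat P A h J i s = some j ↔ i ∈ A ∧ j ∈ J ∧ s + h j = 0 := by
  unfold m3_pat
  constructor
  · intro h1
    split_ifs at h1 with h2
    exact Option.some.inj h1 ▸ h2.choose_spec
  · intro h1
    have h2 : ∃ j, i ∈ A ∧ j ∈ J ∧ s + h j = 0 := ⟨j, h1⟩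
    rw [dif_pos h2]
    exact congrArg _ (hd i h1.1 _ _ (add_left_cancel (h2.choose_spec.2.2.trans h1.2.2.symm)))

/-- The local measure attached to a pattern. -/
noncomputable def m3_mu (A B : Finset ι) (β : ∀ i, ZMod (P i)) (h : K → ℕ) (J : Finset K)
    (c : Option K) (i : ι) (s : ZMod (P i)) : ℝ :=
  (P i : ℝ)⁻¹ * (if i ∈ B ∧ s ≠ β i then 0 else 1) * if m3_pat P A h J i s = c then 1 else 0

/-- The local loss. -/
noncomputable def m3_e (A : Finset ι) (i : ι) : ℝ := if i ∈ A then 16 * ((P i : ℝ) ^ 2)⁻¹ else 0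

/-- The local mass. -/
noncomputable def m3_b (A B : Finset ι) (m : ℕ) (i : ι) : ℝ :=
  (if i ∈ B then (P i : ℝ)⁻¹ else 1) * (if i ∈ A then 1 - (P i : ℝ)⁻¹ else 1) ^ m * (1 + m3_e P A i)

omit [Fintype ι] hP in
theorem m3_e_nonneg (A : Finset ι) (i : ι) : 0 ≤ m3_e P A i := by
  unfold m3_e; split_ifs <;> positivity

omit [Fintype ι] in
theorem m3_b_nonneg (A B : Finset ι) (m : ℕ) (i : ι) : 0 ≤ m3_b P A B m i := by
  have h1 := inv_le_one_of_one_le₀ (show (1 : ℝ) ≤ P i by linarith [two_le P i])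
  have h2 := m3_e_nonneg P A i
  refine mul_nonneg (mul_nonneg ?_ (pow_nonneg ?_ _)) (by linarith)
  · split_ifs <;> positivity
  · split_ifs <;> linarith

theorem m3_num1 {q o R m c0 C Q Q' : ℝ} (hq : 0 < q) (hq8 : q ≤ 1 / 8) (ho : o * (1 - q) = q)
    (hm0 : 0 ≤ m) (hm : m ≤ 2) (hR : 1 - m * q ≤ R) (hQ : 0 ≤ Q) (hQ' : Q ≤ Q') :
    (c0 + o * C) ^ 2 - 2 * (c0 + o * C) * (o * C) + (1 + o) * o * Q - m * q * (c0 + o * C) ^ 2
      ≤ R * (1 + 16 * q ^ 2) * (c0 ^ 2 + ((1 + o) ^ 2 * o + 16 * q ^ 2) * Q') := by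
  have ho0 : 0 < o := by nlinarith
  have ho2 : o ≤ 2 * q := by nlinarith
  have ht0 : 0 ≤ m * q := by positivity
  have ht : m * q ≤ 2 * q := by nlinarith
  generalize m * q = t at *
  generalize o * C = u
  have a1 : (c0 + u) ^ 2 - 2 * (c0 + u) * u - t * (c0 + u) ^ 2 ≤ (1 - t + t ^ 2) * c0 ^ 2 := by
    nlinarith [sq_nonneg (t * c0 + u), mul_nonneg ht0 (sq_nonneg u)]
  have a2 : 1 - t + t ^ 2 ≤ R * (1 + 16 * q ^ 2) := by
    have : t ^ 2 ≤ 4 * q ^ 2 := by nlinarith
    nlinarith [mul_le_mul_of_nonneg_right (show 1 / 2 ≤ R by linarith) (sq_nonneg q)]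
  have a3 : (1 + o) * o ≤ R * ((1 + o) ^ 2 * o + 16 * q ^ 2) := by
    have b1 : (1 - 2 * q) * (1 + o) = 1 - o := by nlinarith
    have b2 : (1 + o) * o ^ 2 ≤ 8 * q ^ 2 := by nlinarith
    have b3 : (1 - 2 * q) * ((1 + o) ^ 2 * o) = (1 + o) * o - (1 + o) * o ^ 2 := by
      calc _ = (1 - 2 * q) * (1 + o) * ((1 + o) * o) := by ring
        _ = _ := by rw [b1]; ring
    have b4 : 0 ≤ (1 + o) ^ 2 * o + 16 * q ^ 2 := by positivity
    nlinarith [mul_le_mul_of_nonneg_right (show 1 - 2 * q ≤ R by linarith) b4,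
      mul_le_mul_of_nonneg_right (show 1 / 2 ≤ 1 - 2 * q by linarith) (sq_nonneg q)]
  have a4 : 0 ≤ R * ((1 + o) ^ 2 * o + 16 * q ^ 2) := le_trans (by positivity) a3
  have a5 := mul_le_mul a3 hQ' hQ a4
  have a6 := mul_le_mul_of_nonneg_right a2 (sq_nonneg c0)
  have a7 := mul_nonneg (mul_nonneg a4 (hQ.trans hQ')) (sq_nonneg q)
  nlinarith

theorem m3_num2 {q o R k c0 C Q Q' : ℝ} (hq : 0 < q) (hq8 : q ≤ 1 / 8) (ho : o * (1 - q) = q)
    (hk : k * q ≤ 1 / 8) (hR : 1 / 2 ≤ R) (hQ : 0 ≤ Q) (hQ' : Q ≤ Q') (hC : C ^ 2 ≤ k * Q) :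
    q * (c0 + o * C) ^ 2
      ≤ R * (1 + 16 * q ^ 2) * (4 * o) * (c0 ^ 2 + ((1 + o) ^ 2 * o + 16 * q ^ 2) * Q') := by
  have ho0 : 0 < o := by nlinarith
  have ho1 : q ≤ o := by nlinarith
  have ho2 : o ≤ 2 * q := by nlinarith
  have a0 : o * C ^ 2 ≤ Q := by
    rcases le_total k 0 with h | h
    · nlinarith [mul_nonneg hQ (neg_nonneg.2 h), sq_nonneg C]
    · have : o * k ≤ 1 := by nlinarith
      nlinarith [mul_le_mul_of_nonneg_left hC ho0.le]
  have a1 : o * Q ≤ ((1 + o) ^ 2 * o + 16 * q ^ 2) * Q' :=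
    mul_le_mul (by nlinarith [sq_nonneg q, mul_pos ho0 ho0, mul_pos ho0 (mul_pos ho0 ho0)]) hQ' hQ
      (by positivity)
  have a2 : (c0 + o * C) ^ 2 ≤ 2 * (c0 ^ 2 + ((1 + o) ^ 2 * o + 16 * q ^ 2) * Q') := by
    nlinarith [sq_nonneg (c0 - o * C), mul_le_mul_of_nonneg_left a0 ho0.le]
  have a3 : q * 2 ≤ R * (1 + 16 * q ^ 2) * (4 * o) := by
    have : 1 / 2 ≤ R * (1 + 16 * q ^ 2) := by nlinarith [sq_nonneg q]
    nlinarith
  calc _ ≤ q * (2 * (c0 ^ 2 + ((1 + o) ^ 2 * o + 16 * q ^ 2) * Q')) :=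
        mul_le_mul_of_nonneg_left a2 hq.le
    _ ≤ _ := by
        rw [← mul_assoc]
        exact mul_le_mul_of_nonneg_right a3 (by nlinarith [sq_nonneg (c0 + o * C)])

omit [Fintype ι] in
theorem m3_local {A B : Finset ι} (hAB : Disjoint A B) (β : ∀ i, ZMod (P i)) {h : K → ℕ}
    (hd : ∀ i ∈ A, ∀ j j', (h j : ZMod (P i)) = h j' → j = j') {J : Finset K} (hJ : J.card ≤ 2)
    (hk : 1 ≤ Fintype.card K) (hbig : ∀ i ∈ A, 8 * (Fintype.card K : ℝ) ≤ P i)
    (a : Option K) (i : ι) (c0 : ℝ) (c : K → ℝ) :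
    ∑ s, m3_mu P A B β h J a i s *
        (c0 + ∑ j, c j * if j ∈ J then 0 else fU P (fun _ => A) h i s j) ^ 2 ≤
      (m3_b P A B J.card i * a.elim 1 fun j => if j ∈ J then 4 * oA P A i else 0) *
        (c0 ^ 2 + ∑ j, (vA P A i + m3_e P A i) * c j ^ 2) := by
  have h2 := two_le P i
  have hp : (P i : ℝ) ≠ 0 := by linarith
  have hX : 0 ≤ ∑ j, (vA P A i + m3_e P A i) * c j ^ 2 := Finset.sum_nonneg fun j _ =>
    mul_nonneg (add_nonneg (vA_nonneg P A i) (m3_e_nonneg P A i)) (sq_nonneg _)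
  by_cases hi : i ∈ A
  swap
  · have e : ∀ s, m3_pat P A h J i s = none := fun s => by simp [m3_pat, hi]
    cases a with
    | some j => simp [m3_mu, e, oA, hi]
    | none =>
      have e2 : ∑ s, m3_mu P A B β h J none i s = m3_b P A B J.card i := by
        by_cases hB : i ∈ B <;> simp [m3_mu, m3_b, m3_e, e, hi, hB, hp]
      simp only [fU, fv, if_neg hi, ite_self, mul_zero, Finset.sum_const_zero, add_zero,
        Option.elim_none, mul_one]
      rw [← Finset.sum_mul, e2]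
      exact mul_le_mul_of_nonneg_left (by linarith) (m3_b_nonneg P A B _ i)
  have hB : i ∉ B := Finset.disjoint_left.1 hAB hi
  have hk1 : (1 : ℝ) ≤ Fintype.card K := by exact_mod_cast hk
  have hq : (0 : ℝ) < (P i : ℝ)⁻¹ := by positivity
  have hkq : (Fintype.card K : ℝ) * (P i : ℝ)⁻¹ ≤ 1 / 8 := by
    rw [← div_eq_mul_inv, div_le_iff₀ (by linarith)]
    linarith [hbig i hi]
  have hq8 : (P i : ℝ)⁻¹ ≤ 1 / 8 := by nlinarith
  have ho : om (P i) * (1 - (P i : ℝ)⁻¹) = (P i : ℝ)⁻¹ := by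
    have := om_mul P i
    field_simp
    linarith
  have hpo : (P i : ℝ) * om (P i) = 1 + om (P i) := by linarith [om_mul P i]
  have hm : (J.card : ℝ) ≤ 2 := by exact_mod_cast hJ
  have hR : 1 - J.card * (P i : ℝ)⁻¹ ≤ (1 - (P i : ℝ)⁻¹) ^ J.card := by
    have := one_add_mul_le_pow (a := -(P i : ℝ)⁻¹) (by linarith) J.card
    simpa [sub_eq_add_neg] using this
  have hQ : 0 ≤ ∑ j ∈ Jᶜ, c j ^ 2 := Finset.sum_nonneg fun _ _ => sq_nonneg _
  have hQ' : ∑ j ∈ Jᶜ, c j ^ 2 ≤ ∑ j, c j ^ 2 :=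
    Finset.sum_le_sum_of_subset_of_nonneg (subset_univ _) fun _ _ _ => sq_nonneg _
  obtain ⟨e, he⟩ : ∃ e : ZMod (P i) → K → ℝ,
      e = fun (s : ZMod (P i)) j => if s + h j = 0 then 1 else 0 := ⟨_, rfl⟩
  have e1 : ∀ s, (c0 + ∑ j, c j * if j ∈ J then 0 else fU P (fun _ => A) h i s j)
      = (c0 + om (P i) * ∑ j ∈ Jᶜ, c j) - P i * om (P i) * ∑ j ∈ Jᶜ, c j * e s j := by
    intro s
    rw [← Finset.sum_subset (subset_univ Jᶜ) fun j _ hj => by simp [notMem_compl.1 hj],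
      add_sub_assoc, Finset.mul_sum, Finset.mul_sum, ← Finset.sum_sub_distrib]
    congr 1
    refine Finset.sum_congr rfl fun j hj => ?_
    simp only [if_neg (mem_compl.1 hj), fU, fv, if_pos hi, he]
    ring
  have e2 : ∀ (s : ZMod (P i)) j0, s + h j0 = 0 → ∀ j, e s j = if j = j0 then 1 else 0 := by
    intro s j0 h0 j
    rw [he]
    exact if_congr ⟨fun h1 => hd i hi _ _ (add_left_cancel (h1.trans h0.symm)),
      fun h1 => h1 ▸ h0⟩ rfl rfl
  have e3 : ∀ s : ZMod (P i), ∀ j0 ∈ J, s + h j0 = 0 → ∑ j ∈ Jᶜ, c j * e s j = 0 :=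
    fun s j0 hj h0 => Finset.sum_eq_zero fun j hj' => by
      rw [e2 s j0 h0, if_neg fun h1 : j = j0 => mem_compl.1 hj' (h1 ▸ hj), mul_zero]
  have e4 : ∀ j, ∑ s, (P i : ℝ)⁻¹ * e s j = (P i : ℝ)⁻¹ := fun j => by
    simp [he, add_eq_zero_iff_eq_neg]
  have e5 : vA P A i + m3_e P A i = (1 + om (P i)) ^ 2 * om (P i) + 16 * (P i : ℝ)⁻¹ ^ 2 := by
    simp only [vA, m3_e, if_pos hi, ← hpo, inv_pow]
    ring
  have e6 : m3_b P A B J.card i = (1 - (P i : ℝ)⁻¹) ^ J.card * (1 + 16 * (P i : ℝ)⁻¹ ^ 2) := by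
    simp [m3_b, m3_e, hi, hB]
  simp only [e1]
  rw [← Finset.mul_sum, e5, e6]
  cases a with
  | some j0 =>
    by_cases hj : j0 ∈ J
    swap
    · simp [m3_mu, m3_pat_some P hd, hj]
    rw [Finset.sum_eq_single (-(h j0 : ZMod (P i))) (fun s _ hs => by
      simp [m3_mu, m3_pat_some P hd, add_eq_zero_iff_eq_neg, hs]) (by simp),
      e3 _ j0 hj (by simp)]
    have := m3_num2 (c0 := c0) hq hq8 ho hkq (le_trans (by nlinarith) hR) hQ hQ'
      (sq_sum_le_card_mul_sum_sq.trans (mul_le_mul_of_nonneg_right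
        (by exact_mod_cast Finset.card_le_univ Jᶜ) hQ))
    simpa [m3_mu, m3_pat_some P hd, hi, hj, hB, oA] using this
  | none =>
    obtain ⟨a, ha⟩ : ∃ a, a = c0 + om (P i) * ∑ j ∈ Jᶜ, c j := ⟨_, rfl⟩
    have e7 : ∀ s, m3_mu P A B β h J none i s * (a - P i * om (P i) * ∑ j ∈ Jᶜ, c j * e s j) ^ 2
        = (P i : ℝ)⁻¹ * (a - P i * om (P i) * ∑ j ∈ Jᶜ, c j * e s j) ^ 2
          - a ^ 2 * ∑ j ∈ J, (P i : ℝ)⁻¹ * e s j := by
      intro s
      cases hs : m3_pat P A h J i s with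
      | none =>
        rw [Finset.sum_eq_zero (s := J) fun j hj => by
          rw [he]
          simp only [mul_eq_zero, ite_eq_right_iff, one_ne_zero]
          refine Or.inr fun h1 => ?_
          rw [(m3_pat_some P hd J i s j).2 ⟨hi, hj, h1⟩] at hs
          simp at hs]
        simp [m3_mu, hs, hB]
      | some j0 =>
        obtain ⟨_, hj, h0⟩ := (m3_pat_some P hd J i s j0).1 hs
        rw [e3 s j0 hj h0]
        simp [m3_mu, hs, e2 s j0 h0, hj, mul_comm]
    rw [← ha]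
    simp only [e7]
    rw [Finset.sum_sub_distrib, ← Finset.mul_sum, ← Finset.mul_sum, Finset.sum_comm,
      Finset.mul_sum, gram (fun _ => (P i : ℝ)⁻¹) Jᶜ e (P i : ℝ)⁻¹ (by simp [hp]) (fun j _ => e4 j)
      (fun s j _ j' _ => by
        by_cases h0 : s + h j = 0
        · rw [e2 s j h0, e2 s j h0]
          by_cases h1 : j = j'
          · simp [h1]
          · simp [h1, Ne.symm h1]
        · simp [he, h0])]
    simp only [e4, Finset.sum_const, nsmul_eq_mul, Option.elim_none, mul_one]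
    refine le_trans (le_of_eq ?_) (m3_num1 (c0 := c0) (C := ∑ j ∈ Jᶜ, c j) hq hq8 ho
      (Nat.cast_nonneg _) hm hR hQ hQ')
    rw [← ha, ← hpo]
    field_simp

theorem m3_fixed {A : Finset ι} {L : ℝ} {g : Finset ι → ℝ} (g0 : ∀ T, 0 ≤ g T) (hg : Antitone g)
    {B : Finset ι} (hAB : Disjoint A B) (β : ∀ i, ZMod (P i)) {h : K → ℕ}
    (hd : ∀ i ∈ A, ∀ j j', (h j : ZMod (P i)) = h j' → j = j') {J : Finset K} (hJ : J.card ≤ 2)
    (hk : 1 ≤ Fintype.card K) (hbig : ∀ i ∈ A, 8 * (Fintype.card K : ℝ) ≤ P i)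
    (c : ι → Option K) :
    ∑ x : ∀ i, ZMod (P i), (∏ i, m3_mu P A B β h J (c i) i (x i)) * af P A h g L x ^ 2 ≤
      (∏ i, m3_b P A B J.card i) * (G1 P A g ^ (2 * J.card) *
        ((∏ i, (1 + m3_e P A i)) * I2 P A g) ^ (Fintype.card K - J.card)) *
        ∏ j, ∏ i ∈ Ts c j, if j ∈ J then 16 * oA P A i else 0 := by
  obtain ⟨y', h1, h2⟩ := collapse J (fun i j => if c i = some j then -1 else oA P A i)
    (y := yy P g L) (γ := fun _ => g) (fun _ => g0) fun T => by
      rw [abs_of_nonneg (yy_nonneg P g0 L T)]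
      exact yy_le P g0 L T
  have hmu : ∀ i s, 0 ≤ m3_mu P A B β h J (c i) i s := fun i s => by
    unfold m3_mu
    split_ifs <;> positivity
  have ho : ∀ i j, 0 ≤ if j ∈ J then 4 * oA P A i else 0 := fun i j => by
    have := oA_nonneg P A i
    split_ifs <;> positivity
  have hb : ∀ i, 0 ≤ vA P A i + m3_e P A i := fun i =>
    add_nonneg (vA_nonneg P A i) (m3_e_nonneg P A i)
  have h3 := Z_le (fun i => m3_mu P A B β h J (c i) i)
    (fun i s j => if j ∈ J then 0 else fU P (fun _ => A) h i s j) _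
    (fun i _ => vA P A i + m3_e P A i) hmu
    (fun i => mul_nonneg (m3_b_nonneg P A B _ i) (by cases c i <;> simp [ho]))
    (fun i _ => hb i) (fun i => m3_local P hAB β hd hJ hk hbig (c i) i) y'
  have h4 := quad_le (b := fun i _ => vA P A i + m3_e P A i) (fun i _ => hb i)
    (γ := fun j T => if j ∈ J then (if T = ∅ then 1 else 0) else g T)
    (fun T => abs_nonneg (y' T)) h2
  simp only [sq_abs] at h4
  have h5 : ∏ j ∈ J, ws (fun i => |if c i = some j then -1 else oA P A i|) g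
      ≤ ∏ j ∈ J, (∏ i ∈ Ts c j, ((1 : ℝ) + 1)) * G1 P A g :=
    Finset.prod_le_prod (fun j _ => ws_nonneg (fun _ => abs_nonneg _) g0) fun j _ =>
      ws_change (Ts c j) (oA_nonneg P A) (fun _ => abs_nonneg _) g0 hg
        (fun i hi => by rw [if_neg (mt mem_Ts.2 hi), abs_of_nonneg (oA_nonneg P A i)])
        fun i hi => by simp [mem_Ts.1 hi]
  have h6 : ∏ j, ws (fun i => vA P A i + m3_e P A i)
      (fun T => (if j ∈ J then (if T = ∅ then 1 else 0) else g T) ^ 2)
      ≤ ((∏ i, (1 + m3_e P A i)) * I2 P A g) ^ (Fintype.card K - J.card) := by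
    rw [← Finset.card_compl, ← Finset.prod_const, ← Finset.prod_mul_prod_compl J,
      Finset.prod_eq_one fun j hj => by simp [ws, hj], one_mul]
    refine Finset.prod_le_prod (fun j _ => ws_nonneg hb fun _ => sq_nonneg _) fun j hj => ?_
    simp only [if_neg (mem_compl.1 hj)]
    exact ws_add (vA_nonneg P A) (m3_e_nonneg P A) (fun _ => sq_nonneg _)
      fun T T' hT => pow_le_pow_left₀ (g0 _) (hg hT) 2
  have h7 : (∏ j, ∏ i ∈ Ts c j, if j ∈ J then 16 * oA P A i else 0)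
      = (∏ i, (c i).elim 1 fun j => if j ∈ J then 4 * oA P A i else 0) *
        (∏ j ∈ J, ∏ i ∈ Ts c j, ((1 : ℝ) + 1)) ^ 2 := by
    simp only [← psi_Ts, prod_psi]
    rw [← Finset.prod_pow, ← Finset.prod_mul_prod_compl J,
      ← Finset.prod_mul_prod_compl J fun j => ∏ i ∈ Ts c j, if j ∈ J then 4 * oA P A i else 0,
      mul_right_comm, ← Finset.prod_mul_distrib]
    congr 1
    · refine Finset.prod_congr rfl fun j hj => ?_
      rw [← Finset.prod_pow, ← Finset.prod_mul_distrib]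
      exact Finset.prod_congr rfl fun i _ => by simp only [if_pos hj]; ring
    · exact Finset.prod_congr rfl fun j hj => by simp only [if_neg (mem_compl.1 hj)]
  have h8 := mul_le_mul (pow_le_pow_left₀ (Finset.prod_nonneg fun j _ =>
    ws_nonneg (fun _ => abs_nonneg _) g0) h5 2) h6
    (Finset.prod_nonneg fun j _ => ws_nonneg hb fun _ => sq_nonneg _) (sq_nonneg _)
  have h9 := h3.trans (mul_le_mul_of_nonneg_left (h4.trans h8) (Finset.prod_nonneg fun i _ =>
    mul_nonneg (m3_b_nonneg P A B _ i) (by cases c i <;> simp [ho])))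
  refine le_trans (le_of_eq (Finset.sum_congr rfl fun x _ => ?_)) (h9.trans (le_of_eq ?_))
  · by_cases hx : ∀ i, m3_pat P A h J i (x i) = c i
    · rw [af, h1 _ fun i j hj => ?_]
      have := om_mul P i
      simp only [← hx, m3_pat_some P hd, fU, fv, oA, hj, true_and]
      by_cases hi : i ∈ A
      · by_cases h0 : x i + h j = 0
        · simp only [hi, h0, if_true, true_and]
          linarith
        · simp [hi, h0]
      · simp [hi]
    · push Not at hx
      obtain ⟨i, hi⟩ := hx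
      rw [Finset.prod_eq_zero (mem_univ i) (by simp [m3_mu, hi]), zero_mul, zero_mul]
  · rw [h7, Finset.prod_mul_distrib, Finset.prod_mul_distrib, Finset.prod_const (G1 P A g)]
    ring

theorem cond_upper {A : Finset ι} {w : ℕ} {ε L : ℝ} {g : Finset ι → ℝ} (H : Sv P K A w ε g L)
    (B : Finset ι) (hAB : Disjoint A B) (β : ∀ i, ZMod (P i)) (h : K → ℕ)
    (hd : ∀ i ∈ A, ∀ j j', (h j : ZMod (P i)) = h j' → j = j') (J : Finset K) (hJ : J.card ≤ 2)
    (φ : K → Finset ι → ℝ) (hφ : ∀ j U, 0 ≤ φ j U) :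
    (Ex P fun x => Ph P A B β h g L x * ∏ j ∈ J, φ j (Uo P A (h j) x))
      ≤ (1 + ε) * (Wi P B * Vp P A ^ J.card *
        (G1 P A g ^ (2 * J.card) * I2 P A g ^ (Fintype.card K - J.card))) *
        ∏ j ∈ J, ws (fun i => 16 * oA P A i) (φ j) := by
  have hk1 : (1 : ℝ) ≤ Fintype.card K := by exact_mod_cast H.kpos
  have hw0 : (0 : ℝ) ≤ w := Nat.cast_nonneg w
  have hw : 1000 * (Fintype.card K : ℝ) ≤ ε * w := by nlinarith [H.wk]
  have hw1 : 1000 * (Fintype.card K : ℝ) ≤ w := by nlinarith [H.e1]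
  have hbig : ∀ i ∈ A, 8 * (Fintype.card K : ℝ) ≤ P i := fun i hi => by
    have : (w : ℝ) < P i := by exact_mod_cast H.big i hi
    linarith
  obtain ⟨D, hD⟩ : ∃ D, D = ∏ i, (1 + m3_e P A i) := ⟨_, rfl⟩
  have hD1 : 1 ≤ D := hD ▸ Finset.one_le_prod fun i _ => by linarith [m3_e_nonneg P A i]
  have hD2 : D ≤ Real.exp (16 / w) := hD ▸ prod_one_add_sq P H.inj A
    (by exact_mod_cast show (1 : ℝ) ≤ w by linarith) (by norm_num) (m3_e_nonneg P A)
    (fun i hi => if_neg hi) (fun i hi => (if_pos hi).le) H.big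
  have hD3 : D * D ^ (Fintype.card K - J.card) ≤ 1 + ε := by
    have a1 : D * D ^ (Fintype.card K - J.card) ≤ Real.exp (16 / w) ^ (Fintype.card K + 1) := by
      rw [← pow_succ']
      exact (pow_le_pow_right₀ hD1 (by omega)).trans (pow_le_pow_left₀ (by linarith) hD2 _)
    have a2 : ((Fintype.card K + 1 : ℕ) : ℝ) * (16 / w) ≤ ε / 2 := by
      rw [← mul_div_assoc, div_le_iff₀ (by linarith)]
      push_cast
      linarith
    rw [← Real.exp_nat_mul] at a1
    have a3 := a1.trans (Real.exp_le_exp.2 a2)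
    have a4 := Real.add_one_le_exp (-(ε / 2))
    have a5 : Real.exp (ε / 2) * Real.exp (-(ε / 2)) = 1 := by rw [← Real.exp_add]; simp
    have a6 := Real.exp_pos (ε / 2)
    have a7 : Real.exp (ε / 2) * (1 - ε / 2) ≤ 1 := by nlinarith
    nlinarith [H.e0, H.e1, mul_nonneg H.e0.le (sub_nonneg.2 H.e1)]
  have hb : ∏ i, m3_b P A B J.card i = Wi P B * Vp P A ^ J.card * D := by
    simp only [m3_b, Finset.prod_mul_distrib, Finset.prod_pow, Finset.prod_ite_mem, univ_inter,
      Wi, Vp, hD]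
  obtain ⟨M, hM⟩ : ∃ M, M = Wi P B * Vp P A ^ J.card *
    (G1 P A g ^ (2 * J.card) * I2 P A g ^ (Fintype.card K - J.card)) := ⟨_, rfl⟩
  have hM0 : 0 ≤ M := hM ▸ mul_nonneg (mul_nonneg (Finset.prod_nonneg fun i _ => by positivity)
    (pow_nonneg (Vp_pos P A).le _)) (mul_nonneg (pow_nonneg (ws_nonneg (oA_nonneg P A) H.g0) _)
      (pow_nonneg (ws_nonneg (vA_nonneg P A) fun _ => sq_nonneg _) _))
  obtain ⟨F, hF⟩ : ∃ F : K → Finset ι → ℝ, F = fun j U => (if j ∈ J then φ j U else 1) *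
    ∏ i ∈ U, if j ∈ J then 16 * oA P A i else 0 := ⟨_, rfl⟩
  have ho : ∀ i j, 0 ≤ if j ∈ J then 16 * oA P A i else 0 := fun i j => by
    have := oA_nonneg P A i
    split_ifs <;> positivity
  have hF0 : ∀ j U, 0 ≤ F j U := fun j U => by
    rw [hF]
    exact mul_nonneg (by split_ifs <;> simp [hφ]) (Finset.prod_nonneg fun i _ => ho i j)
  rw [← hM]
  calc _ = ∑ c : ι → Option K, (∏ j ∈ J, φ j (Ts c j)) * ∑ x : ∀ i, ZMod (P i),
          (∏ i, m3_mu P A B β h J (c i) i (x i)) * af P A h g L x ^ 2 := by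
        simp only [Finset.mul_sum]
        rw [Finset.sum_comm]
        refine Finset.sum_congr rfl fun x _ => ?_
        beta_reduce
        rw [Finset.sum_eq_single (fun i => m3_pat P A h J i (x i)) (fun c _ hc => by
          obtain ⟨i, hi⟩ := Function.ne_iff.1 hc
          rw [Finset.prod_eq_zero (mem_univ i) (by simp [m3_mu, hi.symm]), zero_mul, mul_zero])
          (by simp), Finset.prod_congr rfl fun j hj => show φ j (Uo P A (h j) x)
            = φ j (Ts (fun i => m3_pat P A h J i (x i)) j) by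
              congr 1
              ext i
              simp [Uo, mem_Ts, m3_pat_some P hd, hj]]
        simp only [m3_mu, if_true, mul_one, Finset.prod_mul_distrib, Ph, cl]
        ring
    _ ≤ ∑ c : ι → Option K, (1 + ε) * M * ∏ j, F j (Ts c j) := by
        refine Finset.sum_le_sum fun c _ => ?_
        have a1 : 0 ≤ ∏ j ∈ J, φ j (Ts c j) := Finset.prod_nonneg fun j _ => hφ j _
        have a2 : 0 ≤ ∏ j, ∏ i ∈ Ts c j, if j ∈ J then 16 * oA P A i else 0 :=
          Finset.prod_nonneg fun j _ => Finset.prod_nonneg fun i _ => ho i j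
        refine (mul_le_mul_of_nonneg_left (m3_fixed P H.g0 H.anti hAB β hd hJ H.kpos hbig c)
          a1).trans ?_
        simp only [hF, Finset.prod_mul_distrib, Finset.prod_ite_mem, univ_inter]
        rw [hb, ← hD, mul_pow]
        refine le_trans (le_of_eq ?_)
          (mul_le_mul_of_nonneg_right (mul_le_mul_of_nonneg_right hD3 hM0) (mul_nonneg a1 a2))
        rw [hM]
        ring
    _ ≤ _ := by
        rw [← Finset.mul_sum, sum_Dj fun T => ∏ j, F j (T j)]
        refine mul_le_mul_of_nonneg_left ((sum_Dj_le F hF0).trans (le_of_eq ?_))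
          (mul_nonneg (by linarith [H.e0]) hM0)
        rw [← Finset.prod_mul_prod_compl J, Finset.prod_eq_one (s := Jᶜ) fun j hj => by
          simpa [hF, mem_compl.1 hj, ws] using ws_one (ι := ι) fun _ => 0, mul_one]
        exact Finset.prod_congr rfl fun j hj => by simp [hF, hj, ws]

end Pool.Agent.Lib.MP_9227d9_nt.H5
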