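import Pool.Agent.Lib.MP_9227d9_nt.H5.M2
import Pool.Agent.Lib.MP_9227d9_nt.H5.M3

/-! Mean values of the sieve weight against the majorants. -/

open Finset

namespace Pool.Agent.Lib.MP_9227d9_nt.H5

open Pool.Agent.Lib.MP_bee098_nt

variable {ι K : Type} [Fintype ι] [DecidableEq ι] [Fintype K] [DecidableEq K]
variable (P : ι → ℕ) [hP : ∀ i, Fact (P i).Prime]

omit hP in
theorem f2a_four {o : ι → ℝ} (ho : ∀ i, 0 ≤ o i) {x : ℝ} (hx : 0 ≤ x) :
    ws (fun i => 16 * o i) (fun U => sel P (fun i => 64 * o i) x U ^ 4)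
      ≤ ws (fun i => 64 * o i) (fun U => sel P (fun i => 64 * o i) x U ^ 2) := by
  unfold ws
  refine Finset.sum_le_sum fun U _ => ?_
  have h1 := abs_sel_le P (o := fun i => 64 * o i) (fun i => by have := ho i; positivity) hx U
  set s := sel P (fun i => 64 * o i) x U
  have h2 : s ^ 2 ≤ 4 ^ U.card := by
    have h3 : |s| ^ 2 ≤ (2 ^ U.card) ^ 2 := pow_le_pow_left₀ (abs_nonneg _) h1 2
    rw [sq_abs, ← pow_mul, mul_comm, pow_mul] at h3
    norm_num at h3
    exact h3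
  have h4 : ∏ i ∈ U, 64 * o i = 4 ^ U.card * ∏ i ∈ U, 16 * o i := by
    rw [← Finset.prod_const, ← Finset.prod_mul_distrib]
    exact Finset.prod_congr rfl fun i _ => by ring
  have h5 : 0 ≤ ∏ i ∈ U, 16 * o i := Finset.prod_nonneg fun i _ => by have := ho i; positivity
  rw [h4]
  calc s ^ 4 * ∏ i ∈ U, 16 * o i = s ^ 2 * (s ^ 2 * ∏ i ∈ U, 16 * o i) := by ring
    _ ≤ s ^ 2 * (4 ^ U.card * ∏ i ∈ U, 16 * o i) :=
      mul_le_mul_of_nonneg_left (mul_le_mul_of_nonneg_right h2 h5) (sq_nonneg _)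

theorem ex_pack {A : Finset ι} {w : ℕ} {ε L : ℝ} {g : Finset ι → ℝ} (H : Sv P K A w ε g L)
    (B : Finset ι) (hAB : Disjoint A B) (β : ∀ i, ZMod (P i)) (h : K → ℕ)
    (hd : ∀ i ∈ A, ∀ j j', (h j : ZMod (P i)) = h j' → j = j') {x0 : ℝ} (hx0 : 0 < x0)
    (hx : ∑ i, 64 * oA P A i * Real.log (P i) ≤ ε / 2 * x0) :
    Ex P (Ph P A B β h g L) ≤ (1 + ε) * (Wi P B * I2 P A g ^ Fintype.card K) ∧
    (∀ j, (1 - ε) * (Wi P B * Vp P A * (G1 P A g ^ 2 * I2 P A g ^ (Fintype.card K - 1)))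
      ≤ Ex P fun x => Ph P A B β h g L x * SS P A x0 (h j) x ^ 2) ∧
    (∀ j j', j ≠ j' →
      (Ex P fun x => Ph P A B β h g L x * (SS P A x0 (h j) x ^ 2 * SS P A x0 (h j') x ^ 2))
      ≤ (1 + ε) ^ 3 * (Wi P B * Vp P A ^ 2 * (G1 P A g ^ 4 * I2 P A g ^ (Fintype.card K - 2)))) ∧
    (∀ j, (Ex P fun x => Ph P A B β h g L x * SS P A x0 (h j) x ^ 4)
      ≤ (1 + ε) ^ 2 * (Wi P B * Vp P A * (G1 P A g ^ 2 * I2 P A g ^ (Fintype.card K - 1)))) := by
  have ho := oA_nonneg P A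
  have ho64 : ∀ i, 0 ≤ 64 * oA P A i := fun i => by have := ho i; positivity
  have ho16 : ∀ i, 0 ≤ 16 * oA P A i := fun i => by have := ho i; positivity
  have he := H.e0
  have hm : ws (fun i => 64 * oA P A i) (fun U => sel P (fun i => 64 * oA P A i) x0 U ^ 2)
      ≤ 1 + ε := sel_markov P ho64 hx0 H.e1 hx
  have h2 : ws (fun i => 16 * oA P A i) (fun U => sel P (fun i => 64 * oA P A i) x0 U ^ 2)
      ≤ 1 + ε :=
    (ws_mono ho16 (fun i => by have := ho i; linarith) (fun T => sq_nonneg _)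
      fun T => le_rfl).trans hm
  have h2' : 0 ≤ ws (fun i => 16 * oA P A i)
      (fun U => sel P (fun i => 64 * oA P A i) x0 U ^ 2) := ws_nonneg ho16 fun T => sq_nonneg _
  have h4 : ws (fun i => 16 * oA P A i) (fun U => sel P (fun i => 64 * oA P A i) x0 U ^ 4)
      ≤ 1 + ε := (f2a_four P ho hx0.le).trans hm
  have hW : 0 ≤ Wi P B := Finset.prod_nonneg fun i _ => by positivity
  have hV : 0 ≤ Vp P A := (Vp_pos P A).le
  have hG : 0 ≤ G1 P A g := ws_nonneg ho H.g0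
  have hI : 0 ≤ I2 P A g := ws_nonneg (vA_nonneg P A) fun T => sq_nonneg _
  refine ⟨?_, fun j => ?_, fun j j' hj => ?_, fun j => ?_⟩
  · have h0 := cond_upper P H B hAB β h hd ∅ (by simp) (fun _ _ => 1) fun _ _ => zero_le_one
    simpa using h0
  · exact ex_lower P H B hAB β h hd j (fun U => sel P (fun i => 64 * oA P A i) x0 U ^ 2)
      (fun U => sq_nonneg _) (by rw [sel_empty P ho64 hx0.le]; norm_num)
  · have h0 := cond_upper P H B hAB β h hd {j, j'} (by rw [card_pair hj])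
      (fun _ U => sel P (fun i => 64 * oA P A i) x0 U ^ 2) fun _ _ => sq_nonneg _
    simp only [prod_pair hj, card_pair hj] at h0
    refine le_trans h0 ?_
    have h5 := mul_le_mul h2 h2 h2' (by linarith)
    refine (mul_le_mul_of_nonneg_left h5 (by positivity)).trans (le_of_eq ?_)
    ring
  · have h0 := cond_upper P H B hAB β h hd {j} (by simp)
      (fun _ U => sel P (fun i => 64 * oA P A i) x0 U ^ 4) fun _ _ => by positivity
    simp only [prod_singleton, card_singleton] at h0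
    refine le_trans h0 ?_
    refine (mul_le_mul_of_nonneg_left h4 (by positivity)).trans (le_of_eq ?_)
    ring

end Pool.Agent.Lib.MP_9227d9_nt.H5
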