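import Pool.Agent.Lib.MP_9227d9_nt.H5.K8

/-! Products of two squared divisor sums in a residue class. -/

open Finset

namespace Pool.Agent.Lib.MP_9227d9_nt.H5

open Pool.Agent.Lib.MP_bee098_nt

theorem k9_sq (s : Finset ℕ) (lam : ℕ → ℝ) (m : ℕ) :
    Qf s lam m ^ 2 = ∑ d ∈ s ×ˢ s, if d.1.lcm d.2 ∣ m then lam d.1 * lam d.2 else 0 := by
  unfold Qf
  rw [sq, sum_filter, sum_mul_sum, sum_product]
  refine sum_congr rfl fun a _ => sum_congr rfl fun b _ => ?_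
  simp only [Nat.lcm_dvd_iff]
  by_cases ha : a ∣ m <;> by_cases hb : b ∣ m <;> simp [ha, hb]

theorem k9_lcm_pos {y R : ℕ} {d : ℕ × ℕ} (hd : d ∈ Rough y R ×ˢ Rough y R) :
    0 < d.1.lcm d.2 := by
  obtain ⟨h1, h2⟩ := mem_product.1 hd
  exact Nat.lcm_pos (mem_Rough.1 h1).1.1 (mem_Rough.1 h2).1.1

theorem k9_prime {y R : ℕ} {d : ℕ × ℕ} (hd : d ∈ Rough y R ×ˢ Rough y R) {p : ℕ}
    (hp : p.Prime) (h : p ∣ d.1.lcm d.2) : y < p := by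
  obtain ⟨h1, h2⟩ := mem_product.1 hd
  rw [mem_Rough] at h1 h2
  rcases (hp.dvd_mul.1 (h.trans (Nat.lcm_dvd_mul _ _))) with h3 | h3
  · exact h1.2.2 p (Nat.mem_primeFactors.2 ⟨hp, h3, by omega⟩)
  · exact h2.2.2 p (Nat.mem_primeFactors.2 ⟨hp, h3, by omega⟩)

theorem k9_cop {y R : ℕ} {d : ℕ × ℕ} (hd : d ∈ Rough y R ×ˢ Rough y R) {q0 : ℕ}
    (hqy : ∀ p : ℕ, p.Prime → p ∣ q0 → p ≤ y) : q0.Coprime (d.1.lcm d.2) := by
  refine Nat.Coprime.symm (Nat.coprime_of_dvd fun p hp h1 h2 => ?_)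
  exact absurd (k9_prime hd hp h1) (not_lt.2 (hqy p hp h2))

theorem k9_crt {q L : ℕ} (hL : 0 < L) (h : q.Coprime L) (b δ : ℕ) :
    ∃ c : ℕ, ∀ m : ℕ, m ≡ c [MOD q * L] ↔ m ≡ b [MOD q] ∧ L ∣ m + δ := by
  obtain ⟨c, h1, h2⟩ := Nat.chineseRemainder h b (δ * (L - 1))
  refine ⟨c, fun m => ?_⟩
  have h3 : c + δ ≡ 0 [MOD L] := by
    have h4 : δ * (L - 1) + δ = δ * L := by
      obtain ⟨k, rfl⟩ : ∃ k, L = k + 1 := ⟨L - 1, by omega⟩
      simp [mul_add]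
    have h5 := h2.add_right δ
    rw [h4] at h5
    exact h5.trans ((Nat.modEq_zero_iff_dvd).2 (dvd_mul_left _ _))
  rw [← Nat.modEq_and_modEq_iff_modEq_mul h, ← Nat.modEq_zero_iff_dvd]
  constructor
  · rintro ⟨a1, a2⟩
    exact ⟨a1.trans h1, (a2.add_right δ).trans h3⟩
  · rintro ⟨a1, a2⟩
    exact ⟨a1.trans h1.symm, Nat.ModEq.add_right_cancel' δ (a2.trans h3.symm)⟩

theorem k9_wt {X : ℝ} (hX : 0 < X) {d : ℕ} (hd : 0 < d) {u : ℕ} (hu : 0 < u) :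
    wt X (d * u) = wt (X / d) u := by
  have h1 : (d : ℝ) ≠ 0 := by exact_mod_cast hd.ne'
  have h2 : (u : ℝ) ≠ 0 := by exact_mod_cast hu.ne'
  unfold wt
  rw [Nat.cast_mul, Real.log_mul h1 h2, Real.log_div hX.ne' h1]
  congr 1
  ring

theorem k9_pair {E d : ℕ} (hE : 0 < E) (hd0 : 0 < d) (hd : d.Coprime E) (c : ℕ) {X : ℝ}
    (hX : 1 < X) {Y : ℕ} (hY : 16 * X ≤ Y) :
    ‖((∑ m ∈ (Ioc 0 Y).filter (fun m => m ≡ c [MOD E] ∧ d ∣ m), wt X m - 9 * X / (E * d) : ℝ) : ℂ)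
      - ∑ k ∈ (Fq E).erase 0, (E : ℂ)⁻¹ * eZ E (-((k : ZMod E) * c * (d : ZMod E)⁻¹)) *
        ∑ u ∈ Ioc 0 Y, (wt X (d * u) : ℂ) * eZ E ((k : ZMod E) * (u : ZMod E))‖ ≤ 2 / E := by
  have hX0 : 0 < X := by linarith
  have hd' : (1 : ℝ) ≤ d := by exact_mod_cast hd0
  have hE' : (0 : ℝ) < E := by exact_mod_cast hE
  have h1 : |∑ u ∈ Ioc 0 Y, wt (X / d) u - 9 * (X / d)| ≤ 2 :=
    wt_sum (by positivity) (le_trans (by
      have := div_le_self hX0.le hd'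
      linarith) hY)
  have h2 : ∑ u ∈ Ioc 0 Y, wt X (d * u) = ∑ u ∈ Ioc 0 Y, wt (X / d) u :=
    sum_congr rfl fun u hu => k9_wt hX0 hd0 (mem_Ioc.1 hu).1
  rw [Complex.ofReal_sub, class_fourier hE hd0 hd c hX hY, ← add_sum_erase _ _ (zero_mem_Fq E)]
  simp only [Int.cast_zero, zero_mul, neg_zero, eZ_zero, mul_one]
  rw [show ∀ a b c : ℂ, a + b - c - b = a - c from fun a b c => by ring]
  have h3 : (E : ℂ)⁻¹ * ∑ u ∈ Ioc 0 Y, (wt X (d * u) : ℂ) - ((9 * X / (E * d) : ℝ) : ℂ) =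
      (((∑ u ∈ Ioc 0 Y, wt (X / d) u - 9 * (X / d)) / E : ℝ) : ℂ) := by
    rw [← h2]
    push_cast
    ring
  rw [h3, Complex.norm_real, Real.norm_eq_abs, abs_div, abs_of_pos hE']
  exact div_le_div_of_nonneg_right h1 hE'.le

theorem k9_card (y R : ℕ) : (Rough y R).card ≤ R := by
  unfold Rough
  exact (card_filter_le _ _).trans (by simp)

theorem k9_harm (y R : ℕ) :
    ∑ e ∈ Rough y R ×ˢ Rough y R, (1 : ℝ) / e.1 ≤ R * (1 + Real.log R) := by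
  rw [sum_product]
  simp only [sum_const, nsmul_eq_mul]
  rw [← mul_sum]
  have h1 : ∑ a ∈ Rough y R, (1 : ℝ) / a ≤ 1 + Real.log R := by
    refine le_trans ?_ (harmonic_le_one_add_log R)
    rw [harmonic_eq_sum_Icc]
    push_cast
    simp only [one_div]
    exact sum_le_sum_of_subset_of_nonneg (filter_subset _ _) fun _ _ _ => by positivity
  exact mul_le_mul (by exact_mod_cast k9_card y R) h1
    (sum_nonneg fun _ _ => by positivity) (by positivity)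

theorem k9_expand (s : Finset ℕ) (lam lam' : ℕ → ℝ) (δ q0 b : ℕ) (X : ℝ) (Y : ℕ) :
    ∑ m ∈ (Ioc 0 Y).filter (· ≡ b [MOD q0]), wt X m * (Qf s lam m ^ 2 * Qf s lam' (m + δ) ^ 2)
      - 9 * X / q0 * gam s lam lam' =
    ∑ e ∈ s ×ˢ s, lam' e.1 * lam' e.2 * ∑ d ∈ s ×ˢ s, lam d.1 * lam d.2 *
      (∑ m ∈ (Ioc 0 Y).filter
          (fun m => (m ≡ b [MOD q0] ∧ e.1.lcm e.2 ∣ m + δ) ∧ d.1.lcm d.2 ∣ m), wt X m
        - if (d.1.lcm d.2).Coprime (e.1.lcm e.2) then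
          9 * X / (((q0 * e.1.lcm e.2 : ℕ) : ℝ) * (d.1.lcm d.2 : ℕ)) else 0) := by
  have h1 : ∑ m ∈ (Ioc 0 Y).filter (· ≡ b [MOD q0]),
      wt X m * (Qf s lam m ^ 2 * Qf s lam' (m + δ) ^ 2) =
      ∑ e ∈ s ×ˢ s, ∑ d ∈ s ×ˢ s, lam' e.1 * lam' e.2 * (lam d.1 * lam d.2 *
        ∑ m ∈ (Ioc 0 Y).filter
          (fun m => (m ≡ b [MOD q0] ∧ e.1.lcm e.2 ∣ m + δ) ∧ d.1.lcm d.2 ∣ m), wt X m) := by
    have h0 : ∀ m : ℕ, (if m ≡ b [MOD q0] then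
        wt X m * (Qf s lam m ^ 2 * Qf s lam' (m + δ) ^ 2) else 0) =
        ∑ e ∈ s ×ˢ s, ∑ d ∈ s ×ˢ s, lam' e.1 * lam' e.2 * (lam d.1 * lam d.2 *
          if (m ≡ b [MOD q0] ∧ e.1.lcm e.2 ∣ m + δ) ∧ d.1.lcm d.2 ∣ m then wt X m else 0) := by
      intro m
      split_ifs with hm
      · rw [k9_sq, k9_sq, mul_comm (∑ d ∈ s ×ˢ s, _), sum_mul_sum, mul_sum]
        refine sum_congr rfl fun e _ => ?_
        rw [mul_sum]
        refine sum_congr rfl fun d _ => ?_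
        by_cases h1 : e.1.lcm e.2 ∣ m + δ <;> by_cases h2 : d.1.lcm d.2 ∣ m <;>
          simp [hm, h1, h2]
        ring
      · simp [hm]
    simp only [sum_filter, h0]
    rw [sum_comm]
    refine sum_congr rfl fun e _ => ?_
    rw [sum_comm]
    refine sum_congr rfl fun d _ => ?_
    rw [mul_sum, mul_sum]
  have h2 : 9 * X / q0 * gam s lam lam' =
      ∑ e ∈ s ×ˢ s, ∑ d ∈ s ×ˢ s, lam' e.1 * lam' e.2 * (lam d.1 * lam d.2 *
        if (d.1.lcm d.2).Coprime (e.1.lcm e.2) then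
          9 * X / (((q0 * e.1.lcm e.2 : ℕ) : ℝ) * (d.1.lcm d.2 : ℕ)) else 0) := by
    unfold gam
    rw [sum_comm, mul_sum]
    refine sum_congr rfl fun e _ => ?_
    rw [mul_sum]
    refine sum_congr rfl fun d _ => ?_
    split_ifs
    · push_cast
      ring
    · simp
  rw [h1, h2, ← sum_sub_distrib]
  refine sum_congr rfl fun e _ => ?_
  rw [← sum_sub_distrib, mul_sum]
  refine sum_congr rfl fun d _ => ?_
  ring

theorem k9_inner {y R : ℕ} {T : ℝ} {lam : ℕ → ℝ} (hl : ∀ D, |lam D| ≤ T) {δ : ℕ} (hδ0 : 0 < δ)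
    (hδ : δ ≤ y) {q0 : ℕ} (hq0 : 0 < q0) (hqy : ∀ p : ℕ, p.Prime → p ∣ q0 → p ≤ y) (b : ℕ)
    {X : ℝ} (hX : 1 < X) {Y : ℕ} (hY : 16 * X ≤ Y) {e : ℕ × ℕ}
    (he : e ∈ Rough y R ×ˢ Rough y R) {c : ℕ}
    (hc : ∀ m : ℕ, m ≡ c [MOD q0 * e.1.lcm e.2] ↔ m ≡ b [MOD q0] ∧ e.1.lcm e.2 ∣ m + δ) :
    |∑ d ∈ Rough y R ×ˢ Rough y R, lam d.1 * lam d.2 *
      (∑ m ∈ (Ioc 0 Y).filter
          (fun m => (m ≡ b [MOD q0] ∧ e.1.lcm e.2 ∣ m + δ) ∧ d.1.lcm d.2 ∣ m), wt X m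
        - if (d.1.lcm d.2).Coprime (e.1.lcm e.2) then
          9 * X / (((q0 * e.1.lcm e.2 : ℕ) : ℝ) * (d.1.lcm d.2 : ℕ)) else 0)| ≤
      2 * T ^ 2 * (R : ℝ) ^ 2 * (1 / e.1) +
      ‖∑ d ∈ (Rough y R ×ˢ Rough y R).filter
          (fun d => (d.1.lcm d.2).Coprime (q0 * e.1.lcm e.2)), ((lam d.1 * lam d.2 : ℝ) : ℂ) *
        ∑ k ∈ (Fq (q0 * e.1.lcm e.2)).erase 0, ((q0 * e.1.lcm e.2 : ℕ) : ℂ)⁻¹ *
          eZ (q0 * e.1.lcm e.2) (-((k : ZMod (q0 * e.1.lcm e.2)) * c *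
            ((d.1.lcm d.2 : ℕ) : ZMod (q0 * e.1.lcm e.2))⁻¹)) *
          ∑ u ∈ Ioc 0 Y, (wt X (d.1.lcm d.2 * u) : ℂ) * eZ (q0 * e.1.lcm e.2)
            ((k : ZMod (q0 * e.1.lcm e.2)) * (u : ZMod (q0 * e.1.lcm e.2)))‖ := by
  have hT : 0 ≤ T := (abs_nonneg _).trans (hl 0)
  have hL := k9_lcm_pos he
  have hE : 0 < q0 * e.1.lcm e.2 := Nat.mul_pos hq0 hL
  have he1 : 0 < e.1 := (mem_Rough.1 (mem_product.1 he).1).1.1
  have hle : e.1 ≤ q0 * e.1.lcm e.2 :=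
    Nat.le_of_dvd hE ((Nat.dvd_lcm_left _ _).trans (dvd_mul_left _ _))
  set S := Rough y R ×ˢ Rough y R with hS
  set E := q0 * e.1.lcm e.2 with hEdef
  set a : ℕ × ℕ → ℝ := fun d => ∑ m ∈ (Ioc 0 Y).filter
    (fun m => m ≡ c [MOD E] ∧ d.1.lcm d.2 ∣ m), wt X m - 9 * X / (E * (d.1.lcm d.2 : ℕ)) with ha
  set o : ℕ × ℕ → ℂ := fun d => ∑ k ∈ (Fq E).erase 0, (E : ℂ)⁻¹ *
    eZ E (-((k : ZMod E) * c * ((d.1.lcm d.2 : ℕ) : ZMod E)⁻¹)) *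
      ∑ u ∈ Ioc 0 Y, (wt X (d.1.lcm d.2 * u) : ℂ) * eZ E ((k : ZMod E) * (u : ZMod E)) with ho
  have h1 : ∑ d ∈ S, lam d.1 * lam d.2 *
      (∑ m ∈ (Ioc 0 Y).filter
          (fun m => (m ≡ b [MOD q0] ∧ e.1.lcm e.2 ∣ m + δ) ∧ d.1.lcm d.2 ∣ m), wt X m
        - if (d.1.lcm d.2).Coprime (e.1.lcm e.2) then
          9 * X / ((E : ℝ) * (d.1.lcm d.2 : ℕ)) else 0) =
      ∑ d ∈ S.filter (fun d => (d.1.lcm d.2).Coprime E), lam d.1 * lam d.2 * a d := by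
    rw [sum_filter (fun d : ℕ × ℕ => (d.1.lcm d.2).Coprime E)]
    refine sum_congr rfl fun d hd => ?_
    by_cases h : (d.1.lcm d.2).Coprime (e.1.lcm e.2)
    · rw [if_pos h, if_pos (Nat.Coprime.mul_right (k9_cop hd hqy).symm h)]
      simp only [ha, hc]
    · rw [if_neg h, if_neg (fun h' => h (Nat.Coprime.coprime_mul_left_right h'))]
      rw [filter_false_of_mem, sum_empty, sub_zero, mul_zero]
      rintro m _ ⟨⟨_, h2⟩, h3⟩
      apply h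
      refine Nat.coprime_of_dvd fun p hp h4 h5 => ?_
      have h6 : p ∣ δ := (Nat.dvd_add_right (h4.trans h3)).1 (h5.trans h2)
      have h7 := Nat.le_of_dvd hδ0 h6
      have h8 := k9_prime hd hp h4
      omega
  rw [h1, ← Real.norm_eq_abs, ← Complex.norm_real]
  have h2 : ((∑ d ∈ S.filter (fun d => (d.1.lcm d.2).Coprime E), lam d.1 * lam d.2 * a d : ℝ) : ℂ)
      = ∑ d ∈ S.filter (fun d => (d.1.lcm d.2).Coprime E),
          ((lam d.1 * lam d.2 : ℝ) : ℂ) * (a d - o d) +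
        ∑ d ∈ S.filter (fun d => (d.1.lcm d.2).Coprime E), ((lam d.1 * lam d.2 : ℝ) : ℂ) * o d := by
    rw [← sum_add_distrib, Complex.ofReal_sum]
    refine sum_congr rfl fun d _ => ?_
    rw [Complex.ofReal_mul]
    ring
  rw [h2]
  refine (norm_add_le _ _).trans (add_le_add ?_ le_rfl)
  have h3 : ∀ d ∈ S.filter (fun d => (d.1.lcm d.2).Coprime E),
      ‖((lam d.1 * lam d.2 : ℝ) : ℂ) * (a d - o d)‖ ≤ T ^ 2 * (2 * (1 / e.1)) := by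
    intro d hd
    obtain ⟨hd1, hd2⟩ := mem_filter.1 hd
    rw [norm_mul, Complex.norm_real, Real.norm_eq_abs, abs_mul, sq]
    refine mul_le_mul (mul_le_mul (hl _) (hl _) (abs_nonneg _) hT)
      ((k9_pair hE (k9_lcm_pos hd1) hd2 c hX hY).trans ?_) (norm_nonneg _) (by positivity)
    rw [mul_one_div]
    exact div_le_div_of_nonneg_left (by norm_num) (by exact_mod_cast he1) (by exact_mod_cast hle)
  refine (norm_sum_le _ _).trans ((sum_le_card_nsmul _ _ _ h3).trans ?_)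
  have h4 : ((S.filter (fun d => (d.1.lcm d.2).Coprime E)).card : ℝ) ≤ (R : ℝ) ^ 2 := by
    have h5 : (S.filter (fun d => (d.1.lcm d.2).Coprime E)).card ≤ R ^ 2 := by
      refine (card_filter_le _ _).trans ?_
      rw [hS, card_product, sq]
      exact Nat.mul_le_mul (k9_card y R) (k9_card y R)
    exact_mod_cast h5
  rw [nsmul_eq_mul]
  calc _ ≤ (R : ℝ) ^ 2 * (T ^ 2 * (2 * (1 / e.1))) :=
        mul_le_mul_of_nonneg_right h4 (by positivity)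
    _ = _ := by ring

theorem k9_log {z : ℕ} (hz : 2 ≤ z) : (1 : ℝ) / 2 ≤ Real.log z := by
  have h1 := Real.log_two_gt_d9
  have h2 : Real.log 2 ≤ Real.log z := Real.log_le_log (by norm_num) (by exact_mod_cast hz)
  linarith

theorem k9_outer {α : Type} (S : Finset α) {w a f g : α → ℝ} {W C A B : ℝ} (hW : 0 ≤ W)
    (hC : 0 ≤ C) (hw : ∀ e ∈ S, |w e| ≤ W) (ha : ∀ e ∈ S, |a e| ≤ C * f e + g e)
    (hf : ∑ e ∈ S, f e ≤ A) (hg : ∑ e ∈ S, g e ≤ B) :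
    |∑ e ∈ S, w e * a e| ≤ W * (C * A + B) := by
  calc _ ≤ ∑ e ∈ S, W * (C * f e + g e) := by
        refine (abs_sum_le_sum_abs _ _).trans (sum_le_sum fun e he => ?_)
        rw [abs_mul]
        exact mul_le_mul (hw e he) (ha e he) (abs_nonneg _) hW
    _ ≤ _ := by
        rw [← mul_sum, sum_add_distrib, ← mul_sum]
        gcongr

theorem K_core {y z : ℕ} (hz : 2 ≤ z) {T : ℝ} (hT1 : 1 ≤ T) (hT : DivB y z T) {lam lam' : ℕ → ℝ}
    (hl : ∀ D, |lam D| ≤ T) (hl' : ∀ D, |lam' D| ≤ T) {δ : ℕ} (hδ0 : 0 < δ) (hδ : δ ≤ y)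
    {q0 : ℕ} (hq0 : 0 < q0) (hq : q0 ≤ z) (hqy : ∀ p : ℕ, p.Prime → p ∣ q0 → p ≤ y) (b : ℕ)
    {X : ℝ} (hX : 1 < X) {Y : ℕ} (hY : 16 * X ≤ Y) :
    |∑ m ∈ (Ioc 0 Y).filter (· ≡ b [MOD q0]), wt X m *
        (Qf (Rough y (z ^ 104)) lam m ^ 2 * Qf (Rough y (z ^ 104)) lam' (m + δ) ^ 2)
      - 9 * X / q0 * gam (Rough y (z ^ 104)) lam lam'|
      ≤ 3 * T ^ 5 * (z : ℝ) ^ 391 * (300 * Real.log z) ^ 4 := by
  have hT0 : 0 ≤ T := by linarith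
  have hex : ∀ e : ℕ × ℕ, ∃ c : ℕ, e ∈ Rough y (z ^ 104) ×ˢ Rough y (z ^ 104) →
      ∀ m : ℕ, m ≡ c [MOD q0 * e.1.lcm e.2] ↔ m ≡ b [MOD q0] ∧ e.1.lcm e.2 ∣ m + δ := by
    intro e
    by_cases he : e ∈ Rough y (z ^ 104) ×ˢ Rough y (z ^ 104)
    · obtain ⟨c, hc⟩ := k9_crt (k9_lcm_pos he) (k9_cop he hqy) b δ
      exact ⟨c, fun _ => hc⟩
    · exact ⟨0, fun h => absurd h he⟩
  choose c hc using hex
  have hcc : ∀ e ∈ Rough y (z ^ 104) ×ˢ Rough y (z ^ 104), (c e).Coprime (e.1.lcm e.2) := by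
    intro e he
    refine Nat.coprime_of_dvd fun p hp h4 h5 => ?_
    have h2 := ((hc e he (c e)).1 (Nat.ModEq.refl _)).2
    have h6 : p ∣ δ := (Nat.dvd_add_right h4).1 (h5.trans h2)
    have h7 := Nat.le_of_dvd hδ0 h6
    have h8 := k9_prime he hp h5
    omega
  have hoff := off_zero hz hT1 hT hl hq0 hq c hcc (X := X) (by linarith) Y
  rw [k9_expand]
  have hL := k9_log hz
  have hz' : (2 : ℝ) ≤ z := by exact_mod_cast hz
  refine (k9_outer _ (W := T ^ 2) (by positivity) (by positivity) (fun e _ => ?_)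
    (fun e he => k9_inner hl hδ0 hδ hq0 hqy b hX hY he (hc e he)) (k9_harm y (z ^ 104))
    hoff).trans ?_
  · rw [abs_mul, sq]
    exact mul_le_mul (hl' _) (hl' _) (abs_nonneg _) hT0
  push_cast
  rw [Real.log_pow]
  push_cast
  have h2 : 2 * T ^ 2 * ((z : ℝ) ^ 104) ^ 2 * ((z : ℝ) ^ 104 * (1 + 104 * Real.log z)) ≤
      T ^ 3 * (z : ℝ) ^ 391 * (300 * Real.log z) ^ 4 := by
    have a1 : T ^ 2 ≤ T ^ 3 := pow_le_pow_right₀ hT1 (by norm_num)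
    have a2 : (z : ℝ) ^ 312 ≤ (z : ℝ) ^ 391 := pow_le_pow_right₀ (by linarith) (by norm_num)
    have a3 : 2 * (1 + 104 * Real.log z) ≤ (300 * Real.log z) ^ 4 :=
      le_trans (by linarith) (le_self_pow₀ (by linarith) (by norm_num))
    calc _ = T ^ 2 * (z : ℝ) ^ 312 * (2 * (1 + 104 * Real.log z)) := by ring
      _ ≤ _ := by gcongr
  calc _ ≤ T ^ 2 * (T ^ 3 * (z : ℝ) ^ 391 * (300 * Real.log z) ^ 4 +
        2 * T ^ 3 * (z : ℝ) ^ 391 * (300 * Real.log z) ^ 4) :=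
        mul_le_mul_of_nonneg_left (add_le_add h2 le_rfl) (by positivity)
    _ = _ := by ring

theorem k9_shift (g : ℕ → ℝ) {h Y : ℕ} (hg : ∀ m, g m ≠ 0 → h < m ∧ m ≤ Y) :
    ∑ n ∈ Ioc 0 Y, g (n + h) = ∑ m ∈ Ioc 0 Y, g m := by
  refine sum_bij_ne_zero (fun n _ _ => n + h) (fun n hn h0 => ?_) (fun a _ _ b _ _ hab => ?_)
    (fun m hm h0 => ?_) (fun _ _ _ => rfl)
  · have := hg _ h0
    rw [mem_Ioc]
    omega
  · exact Nat.add_right_cancel hab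
  · obtain ⟨h1, h2⟩ := hg m h0
    have h3 : m - h + h = m := by omega
    exact ⟨m - h, mem_Ioc.2 (by omega), by rwa [h3], h3⟩

theorem K_final {y z : ℕ} (hz : 2 ≤ z) (hyz : y ≤ z) {T : ℝ} (hT1 : 1 ≤ T) (hT : DivB y z T)
    {lam lam' : ℕ → ℝ} (hl : ∀ D, |lam D| ≤ T) (hl' : ∀ D, |lam' D| ≤ T) {h h' : ℕ} (hh : h < h')
    (hh' : h' ≤ y) {q0 : ℕ} (hq0 : 0 < q0) (hq : q0 ≤ z)
    (hqy : ∀ p : ℕ, p.Prime → p ∣ q0 → p ≤ y) (b : ℕ) {X : ℝ} (hX : (z : ℝ) ^ 400 ≤ X)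
    (hX' : X ≤ (z : ℝ) ^ 404) {Y : ℕ} (hY : 16 * X ≤ Y) :
    |∑ n ∈ (Ioc 0 Y).filter (· ≡ b [MOD q0]), wt X n *
        (Qf (Rough y (z ^ 104)) lam (n + h) ^ 2 * Qf (Rough y (z ^ 104)) lam' (n + h') ^ 2)
      - 9 * X * gam (Rough y (z ^ 104)) lam lam' / q0| ≤ EK z T := by
  have hT0 : 0 ≤ T := by linarith
  have hz' : (2 : ℝ) ≤ z := by exact_mod_cast hz
  have hz1 : (1 : ℝ) ≤ z := by linarith
  have hhz : (h' : ℝ) ≤ z := by exact_mod_cast hh'.trans hyz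
  have hhh : (h : ℝ) < h' := by exact_mod_cast hh
  have hp : ∀ k : ℕ, (2 : ℝ) ^ k * z ≤ (z : ℝ) ^ (k + 1) := fun k => by
    rw [pow_succ]
    exact mul_le_mul_of_nonneg_right (pow_le_pow_left₀ (by norm_num) hz' k) (by linarith)
  have hX2 : 2 * (z : ℝ) ≤ X := by
    have a1 := hp 1
    have a2 : (z : ℝ) ^ (1 + 1) ≤ (z : ℝ) ^ 400 := pow_le_pow_right₀ hz1 (by norm_num)
    linarith
  have hX1 : 1 < X := by linarith
  have hbig : 16 * X + z ≤ (z : ℝ) ^ 600 := by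
    have a1 : (2 : ℝ) ^ 5 * (z : ℝ) ^ 404 ≤ (z : ℝ) ^ 5 * (z : ℝ) ^ 404 :=
      mul_le_mul_of_nonneg_right (pow_le_pow_left₀ (by norm_num) hz' 5) (by positivity)
    have a2 : (z : ℝ) ^ 5 * (z : ℝ) ^ 404 ≤ (z : ℝ) ^ 600 := by
      rw [← pow_add]
      exact pow_le_pow_right₀ hz1 (by norm_num)
    linarith
  set F : ℕ → ℝ := fun m => Qf (Rough y (z ^ 104)) lam m ^ 2 *
    Qf (Rough y (z ^ 104)) lam' (m + (h' - h)) ^ 2 with hF
  have hcore := K_core hz hT1 hT hl hl' (δ := h' - h) (by omega) (by omega) hq0 hq hqy (b + h)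
    hX1 hY
  have e1 : ∑ m ∈ (Ioc 0 Y).filter (· ≡ b + h [MOD q0]), wt X m * F m =
      ∑ n ∈ (Ioc 0 Y).filter (· ≡ b [MOD q0]), wt X (n + h) * F (n + h) := by
    rw [sum_filter, sum_filter,
      ← k9_shift (fun m => if m ≡ b + h [MOD q0] then wt X m * F m else 0) (h := h)]
    · refine sum_congr rfl fun n _ => ?_
      have : n + h ≡ b + h [MOD q0] ↔ n ≡ b [MOD q0] :=
        ⟨Nat.ModEq.add_right_cancel' h, Nat.ModEq.add_right h⟩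
      simp only [this]
    · intro m hm
      have h1 : wt X m ≠ 0 := fun h0 => hm (by simp [h0])
      obtain ⟨h2, h3⟩ := wt_support hX1 h1
      have h4 : (h : ℝ) < m := by linarith
      have h5 : (m : ℝ) ≤ Y := h3.trans hY
      exact ⟨by exact_mod_cast h4, by exact_mod_cast h5⟩
  have e2 : ∀ n : ℕ, Qf (Rough y (z ^ 104)) lam (n + h) ^ 2 *
      Qf (Rough y (z ^ 104)) lam' (n + h') ^ 2 = F (n + h) := fun n => by
    simp only [hF]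
    rw [show n + h + (h' - h) = n + h' by omega]
  have e3 : |∑ n ∈ (Ioc 0 Y).filter (· ≡ b [MOD q0]), wt X n * F (n + h) -
      ∑ n ∈ (Ioc 0 Y).filter (· ≡ b [MOD q0]), wt X (n + h) * F (n + h)| ≤ 32 * h * T ^ 8 := by
    rw [← sum_sub_distrib]
    refine (abs_sum_le_sum_abs _ _).trans ((sum_le_sum_of_subset_of_nonneg (filter_subset _ _)
      fun _ _ _ => abs_nonneg _).trans ?_)
    refine le_trans (sum_le_sum fun n hn => ?_) (le_trans (le_of_eq (sum_mul _ _ _).symm)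
      (mul_le_mul_of_nonneg_right (wt_shift hX1 (h := h) (by linarith) Y) (by positivity)))
    rw [← sub_mul, abs_mul, abs_sub_comm]
    by_cases h0 : wt X (n + h) - wt X n = 0
    · simp [h0]
    have hn0 := (mem_Ioc.1 hn).1
    have h1 : (n : ℝ) ≤ 16 * X := by
      by_cases h2 : wt X n = 0
      · have h3 := (wt_support hX1 (fun h4 => h0 (by rw [h2, h4, sub_zero]))).2
        push_cast at h3
        linarith [Nat.cast_nonneg (α := ℝ) h]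
      · exact (wt_support hX1 h2).2
    have h2 : n + h' ≤ z ^ 600 := by
      have : ((n + h' : ℕ) : ℝ) ≤ ((z ^ 600 : ℕ) : ℝ) := by
        push_cast
        linarith
      exact_mod_cast this
    refine mul_le_mul_of_nonneg_left ?_ (abs_nonneg _)
    rw [← e2, abs_mul, abs_pow, abs_pow]
    calc _ ≤ (T ^ 2) ^ 2 * (T ^ 2) ^ 2 := by
          gcongr
          · exact abs_Qf_le hT hl (by omega) (by omega)
          · exact abs_Qf_le hT hl' (by omega) h2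
      _ = _ := by ring
  simp only [e2]
  change |∑ m ∈ (Ioc 0 Y).filter (· ≡ b + h [MOD q0]), wt X m * F m - _| ≤ _ at hcore
  rw [e1] at hcore
  have hL := k9_log hz
  have hZ : 32 * (h : ℝ) ≤ (z : ℝ) ^ 391 * (300 * Real.log z) ^ 4 := by
    have a1 := hp 5
    have a2 : (z : ℝ) ^ (5 + 1) ≤ (z : ℝ) ^ 391 := pow_le_pow_right₀ hz1 (by norm_num)
    have a3 : (1 : ℝ) ≤ (300 * Real.log z) ^ 4 := one_le_pow₀ (by linarith)
    have a4 : (z : ℝ) ^ 391 ≤ (z : ℝ) ^ 391 * (300 * Real.log z) ^ 4 :=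
      le_mul_of_one_le_right (by positivity) a3
    linarith
  have a5 : T ^ 5 ≤ T ^ 8 := pow_le_pow_right₀ hT1 (by norm_num)
  have a6 : 32 * h * T ^ 8 ≤ (z : ℝ) ^ 391 * (300 * Real.log z) ^ 4 * T ^ 8 :=
    mul_le_mul_of_nonneg_right hZ (by positivity)
  have a7 : T ^ 5 * ((z : ℝ) ^ 391 * (300 * Real.log z) ^ 4) ≤
      T ^ 8 * ((z : ℝ) ^ 391 * (300 * Real.log z) ^ 4) :=
    mul_le_mul_of_nonneg_right a5 (by positivity)
  rw [show 9 * X * gam (Rough y (z ^ 104)) lam lam' / q0 =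
    9 * X / q0 * gam (Rough y (z ^ 104)) lam lam' by ring]
  refine (abs_sub_le _ _ _).trans ((add_le_add e3 hcore).trans ?_)
  unfold EK
  linarith

end Pool.Agent.Lib.MP_9227d9_nt.H5
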