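import Pool.Agent.Lib.MP_9227d9_nt.H5.DefsM

/-! Transfer from residue vectors to integers. -/

open Finset

namespace Pool.Agent.Lib.MP_9227d9_nt.H5

open Pool.Agent.Lib.MP_bee098_nt

variable {ι K : Type} [Fintype ι] [DecidableEq ι] [Fintype K] [DecidableEq K]
variable (P : ι → ℕ) [hP : ∀ i, Fact (P i).Prime]

omit hP in
theorem Lev.mono {Z Z' Λ Λ' : ℝ} {Φ : (∀ i, ZMod (P i)) → ℝ} (h : Lev P Z Λ Φ) (hZ : Z ≤ Z')
    (hΛ : Λ ≤ Λ') : Lev P Z' Λ' Φ := by
  obtain ⟨α, s, c, ψ, T, h1, h2, h3, h4, h5⟩ := h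
  exact ⟨α, s, c, ψ, T, h1, h2, fun a ha => (h3 a ha).trans hZ, h4.trans hΛ, h5⟩

omit hP in
theorem Lev.abs_le {Z Λ : ℝ} {Φ : (∀ i, ZMod (P i)) → ℝ} (h : Lev P Z Λ Φ)
    (x : ∀ i, ZMod (P i)) : |Φ x| ≤ Λ := by
  obtain ⟨α, s, c, ψ, T, h1, -, -, h4, h5⟩ := h
  rw [h5]
  refine (Finset.abs_sum_le_sum_abs _ _).trans ((Finset.sum_le_sum fun a _ => ?_).trans h4)
  rw [abs_mul, Finset.abs_prod]
  exact mul_le_of_le_one_right (abs_nonneg _)
    (Finset.prod_le_one (fun _ _ => abs_nonneg _) fun i _ => h1 a i _)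

omit hP in
theorem Lev.mul {Z Z' Λ Λ' : ℝ} {Φ Φ' : (∀ i, ZMod (P i)) → ℝ} (h : Lev P Z Λ Φ)
    (h' : Lev P Z' Λ' Φ') : Lev P (Z + Z') (Λ * Λ') fun x => Φ x * Φ' x := by
  obtain ⟨α, s, c, ψ, T, h1, h2, h3, h4, h5⟩ := h
  obtain ⟨α', s', c', ψ', T', k1, k2, k3, k4, k5⟩ := h'
  refine ⟨α × α', s ×ˢ s', fun a => c a.1 * c' a.2, fun a i t => ψ a.1 i t * ψ' a.2 i t,
    fun a => T a.1 ∪ T' a.2, fun a i t => ?_, fun a i hi t => ?_, fun a ha => ?_, ?_, fun x => ?_⟩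
  · rw [abs_mul]
    exact mul_le_one₀ (h1 _ _ _) (abs_nonneg _) (k1 _ _ _)
  · rw [mem_union, not_or] at hi
    show ψ a.1 i t * ψ' a.2 i t = 1
    rw [h2 _ _ hi.1, k2 _ _ hi.2, mul_one]
  · rw [mem_product] at ha
    exact (lp_union P _ _).trans (add_le_add (h3 _ ha.1) (k3 _ ha.2))
  · simp only [abs_mul]
    rw [Finset.sum_product' (f := fun a b => |c a| * |c' b|), ← Finset.sum_mul_sum]
    exact mul_le_mul h4 k4 (Finset.sum_nonneg fun _ _ => abs_nonneg _)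
      ((Finset.sum_nonneg fun _ _ => abs_nonneg _).trans h4)
  · show Φ x * Φ' x = _
    rw [h5, k5, Finset.sum_mul_sum, Finset.sum_product]
    refine Finset.sum_congr rfl fun a _ => Finset.sum_congr rfl fun b _ => ?_
    rw [Finset.prod_mul_distrib]
    ring

omit hP in
theorem lev_cl (B : Finset ι) (β : ∀ i, ZMod (P i)) : Lev P (lp P B) 1 (cl P B β) := by
  refine ⟨Unit, {()}, fun _ => 1, fun _ i t => if i ∈ B ∧ t ≠ β i then 0 else 1, fun _ => B,
    fun _ i t => ?_, fun _ i hi t => if_neg fun h => hi h.1, fun _ _ => le_rfl, by simp,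
    fun x => by simp [cl]⟩
  beta_reduce
  split_ifs <;> simp

theorem lev_af (hinj : Function.Injective P) (A : Finset ι) (h : K → ℕ) {g : Finset ι → ℝ}
    (h0 : ∀ T, 0 ≤ g T) (h2 : ∀ T, g T ≤ 2) (L : ℝ) :
    Lev P L (2 ^ Fintype.card K * Real.exp (2 * L + Fintype.card K)) (af P A h g L) := by
  have hs : ∀ T : K → Finset ι, yy P g L T ≠ 0 → ∑ j, lp P (T j) ≤ L := fun T hT => by
    by_contra h1
    exact hT (if_neg h1)
  refine ⟨K → Finset ι, (Dj ι K).filter fun T => yy P g L T ≠ 0, yy P g L,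
    fun T i t => psi T i (fU P (fun _ => A) h i t), fun T => univ.biUnion T,
    fun T i t => abs_psi_le T i (abs_fU_le P _ h i t), fun T i hi t => psi_eq_one hi _,
    fun T hT => (lp_biUnion P univ T).trans (hs T (mem_filter.1 hT).2), ?_, fun x => ?_⟩
  · exact (Finset.sum_le_sum_of_subset_of_nonneg (filter_subset _ _)
      fun _ _ _ => abs_nonneg _).trans (rankin P hinj (abs_yy P h0 h2 L) hs)
  · rw [af, Zf]
    refine (Finset.sum_filter_of_ne (p := fun T => yy P g L T ≠ 0) fun T _ hT h1 => hT ?_).symm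
    rw [h1, zero_mul]

theorem t1_count (hinj : Function.Injective P) (x : ℝ) :
    ∑ T : Finset ι, cut P x T ≤ Real.exp (2 * x + 1) := by
  have h := rankin (K := Unit) P hinj (y := fun T => cut P x (T ())) (B := 1) (L := x)
    (fun T => by rw [abs_of_nonneg (cut_nonneg P x _)]; exact cut_le P x _)
    (fun T hT => by
      rw [Fintype.sum_unique]
      by_contra h1
      exact hT (if_neg h1))
  have e : Dj ι Unit = univ := by simp [Dj]
  rw [e, one_mul, Fintype.card_unit, Nat.cast_one] at h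
  refine le_trans (le_of_eq ?_) h
  refine (Fintype.sum_equiv (Equiv.funUnique Unit (Finset ι)) _ _ fun T => ?_).symm
  rw [abs_of_nonneg (cut_nonneg P x _)]
  rfl

theorem lev_sel (hinj : Function.Injective P) (A : Finset ι) (a : ℕ) {o : ι → ℝ}
    (ho : ∀ i, 0 ≤ o i) (ho1 : ∀ i, o i ≤ 1) {x : ℝ} (hx : 0 ≤ x) :
    Lev P x (Real.exp (2 * x + 1)) fun t => sel P o x (Uo P A a t) := by
  have hG : 1 ≤ ws o (cut P x) := by
    have := ws_empty ho (cut_nonneg P x)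
    rwa [cut, if_pos (by simpa [MP_bee098_nt.lp] using hx)] at this
  have hG0 : 0 ≤ (ws o (cut P x))⁻¹ := inv_nonneg.2 (by linarith)
  have hG1 : (ws o (cut P x))⁻¹ ≤ 1 := inv_le_one_of_one_le₀ hG
  refine ⟨Finset ι, univ.filter fun T => cut P x T ≠ 0, fun T => (ws o (cut P x))⁻¹ * cut P x T,
    fun T i t => if i ∈ T then (if i ∈ A ∧ t + a = 0 then -1 else o i) else 1, fun T => T,
    fun T i t => ?_, fun T i hi t => if_neg hi, fun T hT => ?_, ?_, fun t => ?_⟩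
  · beta_reduce
    split_ifs
    · simp
    · rw [abs_of_nonneg (ho i)]; exact ho1 i
    · simp
  · by_contra h1
    exact (mem_filter.1 hT).2 (if_neg h1)
  · refine le_trans ?_ (t1_count P hinj x)
    refine (Finset.sum_le_sum_of_subset_of_nonneg (filter_subset _ _)
      fun _ _ _ => abs_nonneg _).trans (Finset.sum_le_sum fun T _ => ?_)
    rw [abs_of_nonneg (mul_nonneg hG0 (cut_nonneg P x T))]
    exact mul_le_of_le_one_left (cut_nonneg P x T) hG1
  · show sel P o x (Uo P A a t) = _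
    beta_reduce
    rw [sel, Finset.mul_sum, Finset.sum_filter_of_ne (p := fun T => cut P x T ≠ 0)
      fun T _ hT h1 => hT (by rw [h1, mul_zero, zero_mul])]
    refine Finset.sum_congr rfl fun T _ => ?_
    rw [Finset.prod_ite_mem, univ_inter, mul_assoc]
    simp only [Uo, mem_filter]

theorem t1_per {q : ℕ} (hq : 0 < q) {F : ℕ → ℝ} {μ : ℝ} (hF : Per q F μ) (s : Finset ℕ)
    (ω : ℕ → ℝ) {M E : ℝ} (h : ∀ b : ℕ, |∑ n ∈ s.filter (· ≡ b [MOD q]), ω n - M / (q : ℝ)| ≤ E) :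
    |∑ n ∈ s, ω n * F n - M * μ| ≤ q * E := by
  have hq' : (q : ℝ) ≠ 0 := by exact_mod_cast hq.ne'
  have e1 : ∑ n ∈ s, ω n * F n = ∑ b ∈ range q, F b * ∑ n ∈ s.filter (· ≡ b [MOD q]), ω n := by
    rw [← Finset.sum_fiberwise_of_maps_to (s := s) (t := range q) (g := fun n => n % q)
      fun n _ => mem_range.2 (Nat.mod_lt _ hq)]
    refine Finset.sum_congr rfl fun b hb => ?_
    have hb' : b % q = b := Nat.mod_eq_of_lt (mem_range.1 hb)
    rw [Finset.mul_sum]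
    refine Finset.sum_congr (Finset.filter_congr fun n _ => by rw [Nat.ModEq, hb']) fun n hn => ?_
    have h1 : n % q = b % q := (mem_filter.1 hn).2
    rw [mul_comm, ← hF.1.map_mod_nat n, h1, hb']
  have e2 : M * μ = ∑ b ∈ range q, F b * (M / q) := by
    rw [← Finset.sum_mul, hF.2.1]
    field_simp
  rw [e1, e2, ← Finset.sum_sub_distrib]
  refine (Finset.abs_sum_le_sum_abs _ _).trans ?_
  calc _ ≤ ∑ b ∈ range q, E := by
        refine Finset.sum_le_sum fun b _ => ?_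
        rw [← mul_sub, abs_mul]
        exact (mul_le_of_le_one_left (abs_nonneg _) (hF.2.2 b)).trans (h b)
    _ = _ := by simp

theorem t1_term (hinj : Function.Injective P) (ψ : ∀ i, ZMod (P i) → ℝ) (hψ : ∀ i t, |ψ i t| ≤ 1)
    (T : Finset ι) (hT : ∀ i ∉ T, ∀ t, ψ i t = 1) (s : Finset ℕ) (ω : ℕ → ℝ) {M E : ℝ}
    (h : ∀ b : ℕ,
      |∑ n ∈ s.filter (· ≡ b [MOD ∏ i ∈ T, P i]), ω n - M / ((∏ i ∈ T, P i : ℕ) : ℝ)| ≤ E) :
    |∑ n ∈ s, ω n * ∏ i, ψ i n - M * ∏ i, (∑ t, ψ i t) / P i| ≤ Real.exp (lp P T) * E := by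
  have hper := per_finset (𝕜 := ℝ) P hinj ψ hψ T
  have e1 : ∀ n : ℕ, ∏ i, ψ i n = ∏ i ∈ T, ψ i n := fun n =>
    (Finset.prod_subset (subset_univ T) fun i _ hi => hT i hi _).symm
  have e2 : ∏ i, (∑ t, ψ i t) / P i = ∏ i ∈ T, (∑ t, ψ i t) / P i := by
    refine (Finset.prod_subset (subset_univ T) fun i _ hi => ?_).symm
    simp only [hT i hi, Finset.sum_const, Finset.card_univ, ZMod.card, nsmul_eq_mul, mul_one]
    exact div_self (by exact_mod_cast (hP i).out.ne_zero)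
  simp only [e1, e2]
  rw [exp_lp, ← Nat.cast_prod]
  exact t1_per (Finset.prod_pos fun i _ => (hP i).out.pos) hper s ω h

theorem transfer (hinj : Function.Injective P) {Z Λ : ℝ} {Φ : (∀ i, ZMod (P i)) → ℝ}
    (hΦ : Lev P Z Λ Φ) (s : Finset ℕ) (ω : ℕ → ℝ) {M E : ℝ} (hE : 0 ≤ E)
    (h : ∀ T : Finset ι, lp P T ≤ Z → ∀ b : ℕ,
      |∑ n ∈ s.filter (· ≡ b [MOD ∏ i ∈ T, P i]), ω n - M / ((∏ i ∈ T, P i : ℕ) : ℝ)| ≤ E) :
    |∑ n ∈ s, ω n * Φ (res P n) - M * Ex P Φ| ≤ Λ * Real.exp Z * E := by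
  obtain ⟨α, S, c, ψ, T, h1, h2, h3, h4, h5⟩ := hΦ
  have e1 : Ex P Φ = ∑ a ∈ S, c a * ∏ i, (∑ t, ψ a i t) / P i := by
    simp only [Ex, h5, Finset.mul_sum]
    rw [Finset.sum_comm]
    refine Finset.sum_congr rfl fun a _ => ?_
    simp only [Finset.sum_div]
    rw [Fintype.prod_sum, Finset.mul_sum]
    refine Finset.sum_congr rfl fun x _ => ?_
    simp only [div_eq_mul_inv]
    rw [Finset.prod_mul_distrib]
    ring
  have e2 : ∑ n ∈ s, ω n * Φ (res P n) = ∑ a ∈ S, c a * ∑ n ∈ s, ω n * ∏ i, ψ a i n := by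
    simp only [h5, res, Finset.mul_sum]
    rw [Finset.sum_comm]
    exact Finset.sum_congr rfl fun a _ => Finset.sum_congr rfl fun n _ => by ring
  rw [e1, e2, Finset.mul_sum, ← Finset.sum_sub_distrib]
  refine (Finset.abs_sum_le_sum_abs _ _).trans ?_
  calc _ ≤ ∑ a ∈ S, |c a| * (Real.exp Z * E) := by
        refine Finset.sum_le_sum fun a ha => ?_
        rw [mul_left_comm M, ← mul_sub, abs_mul]
        refine mul_le_mul_of_nonneg_left ?_ (abs_nonneg _)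
        exact (t1_term P hinj (ψ a) (h1 a) (T a) (h2 a) s ω (h _ (h3 a ha))).trans
          (mul_le_mul_of_nonneg_right (Real.exp_le_exp.2 (h3 a ha)) hE)
    _ ≤ Λ * (Real.exp Z * E) := by
        rw [← Finset.sum_mul]
        exact mul_le_mul_of_nonneg_right h4 (mul_nonneg (Real.exp_pos _).le hE)
    _ = _ := by ring

end Pool.Agent.Lib.MP_9227d9_nt.H5
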