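import Pool.Agent.Lib.MP_9227d9_nt.H5.F2a
import Pool.Agent.Lib.MP_9227d9_nt.H5.T1
import Pool.Agent.Lib.MP_9227d9_nt.H5.K9

/-! Moments of the majorants at one scale. -/

open Finset

namespace Pool.Agent.Lib.MP_9227d9_nt.H5

open Pool.Agent.Lib.MP_bee098_nt

variable {ι K : Type} [Fintype ι] [DecidableEq ι] [Fintype K] [DecidableEq K]
variable (P : ι → ℕ) [hP : ∀ i, Fact (P i).Prime]

omit hP in
theorem f2b_cl_nonneg (B : Finset ι) (β x : ∀ i, ZMod (P i)) : 0 ≤ cl P B β x :=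
  Finset.prod_nonneg fun i _ => by split_ifs <;> norm_num

omit [DecidableEq ι] hP in
theorem f2b_congr {Z Λ : ℝ} {Φ Φ' : (∀ i, ZMod (P i)) → ℝ} (h : Lev P Z Λ Φ)
    (e : ∀ x, Φ' x = Φ x) : Lev P Z Λ Φ' := by
  rwa [show Φ' = Φ from funext e]

theorem Ph_nonneg (A B : Finset ι) (β : ∀ i, ZMod (P i)) (h : K → ℕ) (g : Finset ι → ℝ) (L : ℝ)
    (x : ∀ i, ZMod (P i)) : 0 ≤ Ph P A B β h g L x :=
  mul_nonneg (f2b_cl_nonneg P B β x) (sq_nonneg _)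

theorem f2b_lev_Ph {A : Finset ι} {w : ℕ} {ε L : ℝ} {g : Finset ι → ℝ} (H : Sv P K A w ε g L)
    (B : Finset ι) (β : ∀ i, ZMod (P i)) (h : K → ℕ) :
    Lev P (lp P B + 2 * L) ((2 ^ Fintype.card K * Real.exp (2 * L + Fintype.card K)) ^ 2)
      (Ph P A B β h g L) := by
  have h1 := lev_af P H.inj A h H.g0 H.g2 L
  refine f2b_congr P (((lev_cl P B β).mul P (h1.mul P h1)).mono P (le_of_eq (by ring))
    (le_of_eq (by ring))) fun x => ?_
  rw [Ph, sq]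

theorem Ph_le {A : Finset ι} {w : ℕ} {ε L : ℝ} {g : Finset ι → ℝ} (H : Sv P K A w ε g L)
    (B : Finset ι) (β : ∀ i, ZMod (P i)) (h : K → ℕ) (x : ∀ i, ZMod (P i)) :
    Ph P A B β h g L x ≤ (2 ^ Fintype.card K * Real.exp (2 * L + Fintype.card K)) ^ 2 :=
  (le_abs_self _).trans ((f2b_lev_Ph P H B β h).abs_le P x)

omit [DecidableEq K] in
theorem f2b_lev_SS {A : Finset ι} {w : ℕ} {ε L : ℝ} {g : Finset ι → ℝ} (H : Sv P K A w ε g L)
    {x0 : ℝ} (hx0 : 0 ≤ x0) (a : ℕ) :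
    Lev P (2 * x0) (Real.exp (2 * x0 + 1) ^ 2) fun x => SS P A x0 a x ^ 2 := by
  have hk : (1 : ℝ) ≤ Fintype.card K := by exact_mod_cast H.kpos
  have hw : (1000 : ℝ) ≤ w := by
    have h1 := H.wk
    have h2 := mul_le_mul_of_nonneg_right H.e1 (Nat.cast_nonneg (α := ℝ) w)
    nlinarith
  have h1 : Lev P x0 (Real.exp (2 * x0 + 1)) (SS P A x0 a) := by
    refine lev_sel P H.inj A a (fun i => mul_nonneg (by norm_num) (oA_nonneg P A i))
      (fun i => ?_) hx0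
    unfold oA
    split_ifs with hi
    · have h2 : (w : ℝ) < P i := by exact_mod_cast H.big i hi
      have h3 := om_mul P i
      have h4 := om_pos P i
      nlinarith
    · norm_num
  exact f2b_congr P ((h1.mul P h1).mono P (le_of_eq (by ring)) (le_of_eq (by ring)))
    fun x => sq _

theorem f2b_EK_nonneg {z : ℕ} (T : ℝ) : 0 ≤ EK z T := by
  unfold EK; positivity

theorem f2b_tr (hinj : Function.Injective P) {y z : ℕ} (hPy : ∀ i, P i ≤ y) (hz : 2 ≤ z)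
    (hyz : y ≤ z) {Z : ℝ} (hZ : Real.exp Z ≤ z) {T : ℝ} (hT1 : 1 ≤ T) (hT : DivB y z T)
    {lam lam' : ℕ → ℝ} (hl : ∀ D, |lam D| ≤ T) (hl' : ∀ D, |lam' D| ≤ T) {a a' : ℕ}
    (ha : a < a') (ha' : a' ≤ y) {X : ℝ} (hX : (z : ℝ) ^ 400 ≤ X) (hX' : X ≤ (z : ℝ) ^ 404)
    {Y : ℕ} (hY : 16 * X ≤ Y) {Φ : (∀ i, ZMod (P i)) → ℝ} (hΦ : Lev P Z z Φ) :
    |∑ n ∈ Ioc 0 Y, wt X n * (Qf (Rough y (z ^ 104)) lam (n + a) ^ 2 *
        Qf (Rough y (z ^ 104)) lam' (n + a') ^ 2) * Φ (res P n)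
      - 9 * X * gam (Rough y (z ^ 104)) lam lam' * Ex P Φ| ≤ (z : ℝ) ^ 2 * EK z T := by
  have hE := f2b_EK_nonneg (z := z) T
  refine (transfer P hinj hΦ (Ioc 0 Y) _ hE fun S hS b => ?_).trans ?_
  · refine K_final hz hyz hT1 hT hl hl' ha ha' (Finset.prod_pos fun i _ => (hP i).out.pos) ?_
      (fun p hp hd => ?_) b hX hX' hY
    · have h1 := (Real.exp_le_exp.2 hS).trans hZ
      rw [exp_lp] at h1
      exact_mod_cast h1
    · obtain ⟨i, -, hi⟩ := (Prime.dvd_finsetProd_iff hp.prime _).1 hd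
      exact ((Nat.prime_dvd_prime_iff_eq hp (hP i).out).1 hi).le.trans (hPy i)
  · refine mul_le_mul_of_nonneg_right ?_ hE
    rw [sq]
    exact mul_le_mul_of_nonneg_left hZ (Nat.cast_nonneg z)

theorem f2b_Ex_nonneg {Φ : (∀ i, ZMod (P i)) → ℝ} (h : ∀ x, 0 ≤ Φ x) : 0 ≤ Ex P Φ :=
  Finset.sum_nonneg fun x _ =>
    mul_nonneg (Finset.prod_nonneg fun i _ => inv_nonneg.2 (Nat.cast_nonneg _)) (h x)

theorem f2b_eps {ε : ℝ} (e0 : 0 < ε) (hε : ε ≤ 1 / 10) :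
    (1 + ε) ^ 4 ≤ 1 + 9 * ε ∧ (1 + ε) ^ 2 + ε ≤ 2 := by
  have h8 : (1 + ε) ^ 2 ≤ 1 + 3 * ε := by nlinarith
  have h9 := pow_le_pow_left₀ (sq_nonneg _) h8 2
  constructor <;> nlinarith

theorem f2b_size {z n a : ℕ} (hz : 2 ≤ z) {X : ℝ} (hX' : X ≤ (z : ℝ) ^ 404) (hn : n ≤ 16 * X)
    (ha : a ≤ z) : n + a ≤ z ^ 600 := by
  have hz2 : (2 : ℝ) ≤ z := by exact_mod_cast hz
  have a2 : (a : ℝ) ≤ z := by exact_mod_cast ha
  have a3 : (z : ℝ) ≤ (z : ℝ) ^ 404 := le_self_pow₀ (by linarith) (by norm_num)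
  have a4 : (2 : ℝ) ^ 5 ≤ (z : ℝ) ^ 196 :=
    (pow_le_pow_left₀ (by norm_num) hz2 5).trans (pow_le_pow_right₀ (by linarith) (by norm_num))
  have a5 : (z : ℝ) ^ 600 = (z : ℝ) ^ 196 * (z : ℝ) ^ 404 := by rw [← pow_add]
  have a6 := mul_le_mul_of_nonneg_right a4 (show 0 ≤ (z : ℝ) ^ 404 by positivity)
  have a7 : (n : ℝ) + a ≤ (z : ℝ) ^ 600 := by linarith
  exact_mod_cast a7

theorem moments_scale {A : Finset ι} {w : ℕ} {ε L : ℝ} {g : Finset ι → ℝ} (H : Sv P K A w ε g L)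
    (hε : ε ≤ 1 / 10) (B : Finset ι) (hAB : Disjoint A B) (β : ∀ i, ZMod (P i)) (h : K → ℕ)
    (hinj : Function.Injective h) (hd : ∀ i ∈ A, ∀ j j', (h j : ZMod (P i)) = h j' → j = j')
    {x0 : ℝ} (hx0 : 0 < x0) (hx : ∑ i, 64 * oA P A i * Real.log (P i) ≤ ε / 2 * x0) {y z : ℕ}
    (hPy : ∀ i, P i ≤ y) (hhy : ∀ j, h j < y) (hz : 2 ≤ z) (hyz : y ≤ z)
    (hey : Real.exp (48 / y) ≤ 1 + ε) (hZ : Real.exp (lp P B + 2 * L + 4 * x0) ≤ z)
    (hΛ : (2 ^ Fintype.card K * Real.exp (2 * L + Fintype.card K)) ^ 2 *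
      Real.exp (2 * x0 + 1) ^ 4 ≤ z) {T : ℝ} (hT1 : 1 ≤ T) (hT : DivB y z T) {lam : ℕ → ℝ} {G : ℝ}
    (hG : 1 ≤ G) (hl : ∀ D, |lam D| ≤ T) (γ1 : gam (Rough y (z ^ 104)) lam one1 = G⁻¹)
    (γ2 : gam (Rough y (z ^ 104)) lam lam ≤ Real.exp (48 / y) * G⁻¹ ^ 2)
    (herr : (z : ℝ) ^ 2 * EK z T ≤ ε * ((z : ℝ) ^ 400 * (Wi P B * (Vp P A / G) ^ 2))) {X : ℝ}
    (hX : (z : ℝ) ^ 400 ≤ X) (hX' : X ≤ (z : ℝ) ^ 404) {Y : ℕ} (hY : 16 * X ≤ Y) {U ρ : ℝ}
    (hU : U = 9 * X * (Wi P B * I2 P A g ^ Fintype.card K))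
    (hρ : ρ = Vp P A * G1 P A g ^ 2 / (I2 P A g * G)) :
    ∑ n ∈ Ioc 0 Y, wt X n * Ph P A B β h g L (res P n) ≤ (1 + 10 * ε) * U ∧
    (∀ j, (1 - 10 * ε) * (ρ * U) ≤ ∑ n ∈ Ioc 0 Y, wt X n * Ph P A B β h g L (res P n) *
      bt P A x0 (Rough y (z ^ 104)) lam (h j) n) ∧
    (∀ j j', j ≠ j' → ∑ n ∈ Ioc 0 Y, wt X n * Ph P A B β h g L (res P n) *
      (bt P A x0 (Rough y (z ^ 104)) lam (h j) n * bt P A x0 (Rough y (z ^ 104)) lam (h j') n)
        ≤ (1 + 10 * ε) * (ρ ^ 2 * U)) ∧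
    (∀ j, ∑ n ∈ Ioc 0 Y, wt X n * Ph P A B β h g L (res P n) *
      bt P A x0 (Rough y (z ^ 104)) lam (h j) n ^ 2 ≤ 2 * T ^ 4 * (ρ * U)) := by
  obtain ⟨E0, E1, E2, E3⟩ := ex_pack P H B hAB β h hd hx0 hx
  have e0 := H.e0
  have hz1 : 1 ≤ z ^ 104 := Nat.one_le_pow _ _ (by omega)
  have hz2 : (2 : ℝ) ≤ z := by exact_mod_cast hz
  have hX1 : 1 < X := lt_of_lt_of_le (one_lt_pow₀ (by linarith) (by norm_num)) hX
  have hX0 : 0 < X := by linarith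
  have hG0 : 0 < G := by linarith
  have hg1 : 1 ≤ G1 P A g := H.g1.trans (ws_empty (oA_nonneg P A) H.g0)
  have hI : 1 ≤ I2 P A g := (one_le_pow₀ H.g1).trans
    (ws_empty (γ := fun T => g T ^ 2) (vA_nonneg P A) fun T => sq_nonneg _)
  have hV0 := Vp_pos P A
  have hV1 : Vp P A ≤ 1 := Finset.prod_le_one
    (fun i _ => by linarith [inv_le_one_of_one_le₀ (show (1 : ℝ) ≤ P i by linarith [two_le P i])])
    fun i _ => by linarith [inv_nonneg.2 (Nat.cast_nonneg (α := ℝ) (P i))]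
  have hW : 0 ≤ Wi P B := Finset.prod_nonneg fun i _ => inv_nonneg.2 (Nat.cast_nonneg _)
  have ho : ∀ D, |one1 D| ≤ T := fun D => by
    unfold one1; split_ifs <;> simp <;> linarith
  have hLP := f2b_lev_Ph P H B β h
  have hLS := f2b_lev_SS P H hx0.le
  have hex : 1 ≤ Real.exp (2 * x0 + 1) := Real.one_le_exp (by linarith)
  set Λ := (2 ^ Fintype.card K * Real.exp (2 * L + Fintype.card K)) ^ 2 with hΛdef
  have hΛ0 : 0 ≤ Λ := sq_nonneg _
  have L0 : Lev P (lp P B + 2 * L + 4 * x0) z (Ph P A B β h g L) :=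
    hLP.mono P (by linarith) ((le_mul_of_one_le_right hΛ0 (one_le_pow₀ hex)).trans hΛ)
  have L1 : ∀ a, Lev P (lp P B + 2 * L + 4 * x0) z
      fun x => Ph P A B β h g L x * SS P A x0 a x ^ 2 := fun a =>
    (hLP.mul P (hLS a)).mono P (by linarith)
      ((mul_le_mul_of_nonneg_left (pow_le_pow_right₀ hex (by norm_num)) hΛ0).trans hΛ)
  have L2 : ∀ a a', Lev P (lp P B + 2 * L + 4 * x0) z
      fun x => Ph P A B β h g L x * (SS P A x0 a x ^ 2 * SS P A x0 a' x ^ 2) := fun a a' =>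
    (hLP.mul P ((hLS a).mul P (hLS a'))).mono P (by linarith) ((le_of_eq (by ring)).trans hΛ)
  have TR := fun {lam lam' : ℕ → ℝ} (hl : ∀ D, |lam D| ≤ T) (hl' : ∀ D, |lam' D| ≤ T) {a a' : ℕ}
    (ha : a < a') (ha' : a' ≤ y) {Φ : (∀ i, ZMod (P i)) → ℝ}
    (hΦ : Lev P (lp P B + 2 * L + 4 * x0) z Φ) =>
    abs_le.1 ((f2b_tr P H.inj hPy hz hyz hZ hT1 hT hl hl' ha ha' hX hX' hY hΦ).trans herr)
  set u := Vp P A / G with hu
  have hu0 : 0 < u := div_pos hV0 hG0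
  have hu1 : u ≤ 1 := (div_le_one hG0).2 (hV1.trans hG)
  set δ := ε * ((z : ℝ) ^ 400 * (Wi P B * u ^ 2)) with hδ
  have hδ2 : ∀ c, u ^ 2 ≤ c → δ ≤ ε * (9 * X * (Wi P B * c)) := fun c hc =>
    mul_le_mul_of_nonneg_left (mul_le_mul (by linarith) (mul_le_mul_of_nonneg_left hc hW)
      (by positivity) (by linarith)) e0.le
  have hρU : ρ * U = 9 * X * G⁻¹ *
      (Wi P B * Vp P A * (G1 P A g ^ 2 * I2 P A g ^ (Fintype.card K - 1))) := by
    obtain ⟨k, hk⟩ := Nat.exists_eq_add_of_le' H.kpos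
    rw [hρ, hU, hk, Nat.add_sub_cancel]
    field_simp
    ring
  have hδρ : δ ≤ ε * (ρ * U) := by
    refine (hδ2 (u * (G1 P A g ^ 2 * I2 P A g ^ (Fintype.card K - 1))) ?_).trans (le_of_eq ?_)
    · rw [sq]
      exact mul_le_mul_of_nonneg_left
        (hu1.trans (one_le_mul_of_one_le_of_one_le (one_le_pow₀ hg1) (one_le_pow₀ hI))) hu0.le
    · rw [hρU, hu]
      ring
  have hρU0 : 0 ≤ ρ * U := by rw [hρU]; positivity
  have hXG : 0 ≤ 9 * X * G⁻¹ := by positivity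
  refine ⟨?_, fun j => ?_, ?_, fun j => ?_⟩
  · obtain ⟨j⟩ : Nonempty K := Fintype.card_pos_iff.1 H.kpos
    have h1 := (TR ho ho (a := 0) (a' := 1) one_pos (by have := hhy j; omega) L0).2
    simp only [Qf_one1 hz1, gam_one1 hz1, one_pow, mul_one] at h1
    have h2 := hδ2 (I2 P A g ^ Fintype.card K)
      ((pow_le_one₀ hu0.le hu1).trans (one_le_pow₀ hI))
    have h3 := mul_le_mul_of_nonneg_left E0 (show 0 ≤ 9 * X by linarith)
    have h4 : 0 ≤ ε * U := by rw [hU]; positivity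
    rw [← hU] at h2
    have h5 : 9 * X * ((1 + ε) * (Wi P B * I2 P A g ^ Fintype.card K)) = (1 + ε) * U := by
      rw [hU]; ring
    linarith
  · have h1 := (TR hl ho (Nat.lt_succ_self (h j)) (hhy j) (L1 (h j))).1
    simp only [Qf_one1 hz1, one_pow, mul_one, γ1] at h1
    have h3 := mul_le_mul_of_nonneg_left (E1 j) hXG
    have h4 := mul_nonneg e0.le hρU0
    have h5 : ∑ n ∈ Ioc 0 Y, wt X n * Ph P A B β h g L (res P n) *
        bt P A x0 (Rough y (z ^ 104)) lam (h j) n = ∑ n ∈ Ioc 0 Y, wt X n *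
        Qf (Rough y (z ^ 104)) lam (n + h j) ^ 2 *
          (Ph P A B β h g L (res P n) * SS P A x0 (h j) (res P n) ^ 2) :=
      Finset.sum_congr rfl fun n _ => by rw [bt]; ring
    have h6 : 9 * X * G⁻¹ * ((1 - ε) * (Wi P B * Vp P A *
        (G1 P A g ^ 2 * I2 P A g ^ (Fintype.card K - 1)))) = (1 - ε) * (ρ * U) := by
      rw [hρU]; ring
    linarith
  · have key : ∀ j j', h j < h j' → ∑ n ∈ Ioc 0 Y, wt X n * Ph P A B β h g L (res P n) *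
        (bt P A x0 (Rough y (z ^ 104)) lam (h j) n * bt P A x0 (Rough y (z ^ 104)) lam (h j') n)
          ≤ (1 + 10 * ε) * (ρ ^ 2 * U) := fun j j' hlt => by
      have hne : j ≠ j' := fun e => hlt.ne (by rw [e])
      have h1 := (TR hl hl hlt (hhy j').le (L2 (h j) (h j'))).2
      have hn := f2b_Ex_nonneg P (Φ := fun x => Ph P A B β h g L x *
        (SS P A x0 (h j) x ^ 2 * SS P A x0 (h j') x ^ 2)) fun x =>
          mul_nonneg (Ph_nonneg P A B β h g L x) (by positivity)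
      have hγ : gam (Rough y (z ^ 104)) lam lam ≤ (1 + ε) * G⁻¹ ^ 2 :=
        γ2.trans (mul_le_mul_of_nonneg_right hey (sq_nonneg _))
      have h3 := mul_le_mul (mul_le_mul_of_nonneg_left hγ (show 0 ≤ 9 * X by linarith))
        (E2 j j' hne) hn (by positivity)
      have hρ2 : ρ ^ 2 * U = 9 * X *
          (Wi P B * (u ^ 2 * (G1 P A g ^ 4 * I2 P A g ^ (Fintype.card K - 2)))) := by
        obtain ⟨k, hk⟩ := Nat.exists_eq_add_of_le' (Fintype.one_lt_card_iff.2 ⟨j, j', hne⟩)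
        rw [hρ, hU, hu, hk, Nat.add_sub_cancel]
        field_simp
        ring
      have h2 := hδ2 _ (le_mul_of_one_le_right (sq_nonneg u) (one_le_mul_of_one_le_of_one_le
        (one_le_pow₀ (n := 4) hg1) (one_le_pow₀ (n := Fintype.card K - 2) hI)))
      rw [← hρ2] at h2
      have h4 : 0 ≤ ρ ^ 2 * U := by rw [hρ2]; positivity
      have h5 : ∑ n ∈ Ioc 0 Y, wt X n * Ph P A B β h g L (res P n) *
          (bt P A x0 (Rough y (z ^ 104)) lam (h j) n * bt P A x0 (Rough y (z ^ 104)) lam (h j') n)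
          = ∑ n ∈ Ioc 0 Y, wt X n * (Qf (Rough y (z ^ 104)) lam (n + h j) ^ 2 *
            Qf (Rough y (z ^ 104)) lam (n + h j') ^ 2) * (Ph P A B β h g L (res P n) *
              (SS P A x0 (h j) (res P n) ^ 2 * SS P A x0 (h j') (res P n) ^ 2)) :=
        Finset.sum_congr rfl fun n _ => by rw [bt, bt]; ring
      have h6 : 9 * X * ((1 + ε) * G⁻¹ ^ 2) * ((1 + ε) ^ 3 * (Wi P B * Vp P A ^ 2 *
          (G1 P A g ^ 4 * I2 P A g ^ (Fintype.card K - 2)))) = (1 + ε) ^ 4 * (ρ ^ 2 * U) := by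
        rw [hρ2, hu]; ring
      have h8 := mul_le_mul_of_nonneg_right (f2b_eps e0 hε).1 h4
      linarith
    intro j j' hne
    rcases lt_or_gt_of_ne (hinj.ne hne) with hlt | hlt
    · exact key j j' hlt
    · simpa only [mul_comm (bt P A x0 _ lam (h j') _)] using key j' j hlt
  · have L3 : Lev P (lp P B + 2 * L + 4 * x0) z
        fun x => Ph P A B β h g L x * SS P A x0 (h j) x ^ 4 :=
      f2b_congr P (L2 (h j) (h j)) fun x => by ring
    have h1 := (TR hl ho (Nat.lt_succ_self (h j)) (hhy j) L3).2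
    simp only [Qf_one1 hz1, one_pow, mul_one, γ1] at h1
    have h3 := mul_le_mul_of_nonneg_left (E3 j) hXG
    have h5 : ∑ n ∈ Ioc 0 Y, wt X n * Ph P A B β h g L (res P n) *
        bt P A x0 (Rough y (z ^ 104)) lam (h j) n ^ 2 ≤ T ^ 4 * ∑ n ∈ Ioc 0 Y, wt X n *
        Qf (Rough y (z ^ 104)) lam (n + h j) ^ 2 *
          (Ph P A B β h g L (res P n) * SS P A x0 (h j) (res P n) ^ 4) := by
      rw [Finset.mul_sum]
      refine Finset.sum_le_sum fun n hn => ?_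
      by_cases hw : wt X n = 0
      · simp [hw]
      have hn0 : 0 < n := (mem_Ioc.1 hn).1
      have hn1 := f2b_size hz hX' (wt_support hX1 hw).2 ((hhy j).le.trans hyz)
      have hq := abs_Qf_le hT hl (by omega : 0 < n + h j) hn1
      have hq2 : Qf (Rough y (z ^ 104)) lam (n + h j) ^ 2 ≤ T ^ 4 := by
        rw [← sq_abs, show T ^ 4 = (T ^ 2) ^ 2 by ring]
        exact pow_le_pow_left₀ (abs_nonneg _) hq 2
      have hp : 0 ≤ wt X n * Qf (Rough y (z ^ 104)) lam (n + h j) ^ 2 *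
          (Ph P A B β h g L (res P n) * SS P A x0 (h j) (res P n) ^ 4) :=
        mul_nonneg (mul_nonneg (wt_nonneg X n) (sq_nonneg _))
          (mul_nonneg (Ph_nonneg P A B β h g L _) (by positivity))
      refine (le_of_eq ?_).trans (mul_le_mul_of_nonneg_right hq2 hp)
      rw [bt]; ring
    have h6 : 9 * X * G⁻¹ * ((1 + ε) ^ 2 * (Wi P B * Vp P A *
        (G1 P A g ^ 2 * I2 P A g ^ (Fintype.card K - 1)))) = (1 + ε) ^ 2 * (ρ * U) := by
      rw [hρU]; ring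
    have h8 := mul_le_mul_of_nonneg_right (f2b_eps e0 hε).2 hρU0
    refine h5.trans ((mul_le_mul_of_nonneg_left (show _ ≤ 2 * (ρ * U) by linarith)
      (by positivity)).trans (le_of_eq (by ring)))

end Pool.Agent.Lib.MP_9227d9_nt.H5
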