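import Pool.Agent.Lib.MP_9227d9_nt.H5.DefsM

/-! Restriction to a residue class modulo the small primes. -/

open Finset

namespace Pool.Agent.Lib.MP_9227d9_nt.H5

open Pool.Agent.Lib.MP_bee098_nt

variable {ι K : Type} [Fintype ι] [DecidableEq ι] [Fintype K] [DecidableEq K]
variable (P : ι → ℕ) [hP : ∀ i, Fact (P i).Prime]

/-- Local Fourier coefficients after the restriction to a class. -/
noncomputable def p6a_co (B : Finset ι) (b : ∀ i, ZMod (P i)) (α : ∀ i, Option (ZMod (P i)))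
    (i : ι) (ψ : DirichletCharacter ℂ (P i)) : ℂ :=
  if i ∈ B then kap (some (b i)) ψ + om (P i) * kap none ψ else kap (α i) ψ

theorem p6a_none {p : ℕ} [Fact p.Prime] (s : ZMod p) :
    ∑ ψ : DirichletCharacter ℂ p, kap none ψ * loc ψ s = 1 := by
  rw [Finset.sum_eq_single 1 (fun ψ _ h => by simp [kap, h]) (by simp)]
  simp [kap, loc]

omit [Fintype ι] [DecidableEq ι] in
theorem p6a_kap_some (i : ι) (a : ZMod (P i)) (ψ : DirichletCharacter ℂ (P i)) :
    ‖kap (some a) ψ‖ ≤ om (P i) := by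
  simp only [kap]
  split_ifs
  · simpa using (om_pos P i).le
  · rw [norm_mul, RCLike.norm_conj, Complex.norm_real, Real.norm_of_nonneg (om_pos P i).le]
    exact mul_le_of_le_one_right (om_pos P i).le (ψ.norm_le_one a)

theorem p6a_expand (B : Finset ι) (b : ∀ i, ZMod (P i)) (hb : ∀ i ∈ B, b i ≠ 0) (s : Finset ℕ)
    (a : ℕ → ℝ) (hu : ∀ n ∈ s, a n ≠ 0 → ∀ i, (n : ZMod (P i)) ≠ 0)
    (α : ∀ i, Option (ZMod (P i))) (hα : ∀ i ∈ B, α i = none) :
    Ec P (Psi P s fun n => a n * cl P B b (res P n)) α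
      = ∑ χ : Ch P, (∏ i, p6a_co P B b α i (χ i)) * Psi P s a χ := by
  simp only [Ec, Psi, Finset.mul_sum]
  rw [Finset.sum_comm, Finset.sum_comm (s := univ)]
  refine Finset.sum_congr rfl fun n hn => ?_
  by_cases h0 : a n = 0
  · simp [h0]
  have key : ∀ (r : ℂ) (κ : ∀ i, DirichletCharacter ℂ (P i) → ℂ),
      ∑ χ : Ch P, (∏ i, κ i (χ i)) * (r * Xc P χ n)
        = r * ∏ i, ∑ ψ, κ i ψ * loc ψ (n : ZMod (P i)) := fun r κ => by
    rw [Fintype.prod_sum, Finset.mul_sum]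
    refine Finset.sum_congr rfl fun χ _ => ?_
    rw [Xc, Finset.prod_mul_distrib]
    ring
  rw [key _ fun i ψ => kap (α i) ψ, key _ (p6a_co P B b α), Complex.ofReal_mul, mul_assoc, cl,
    Complex.ofReal_prod, ← Finset.prod_mul_distrib]
  congr 1
  refine Finset.prod_congr rfl fun i _ => ?_
  by_cases hi : i ∈ B
  · simp only [p6a_co, hi, if_true, true_and, add_mul, Finset.sum_add_distrib, mul_assoc,
      ← Finset.mul_sum, hα i hi, p6a_none, kap_sum (hb i hi) (hu n hn h0 i), res]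
    by_cases h : (n : ZMod (P i)) = b i <;> simp [h]
  · simp [p6a_co, hi]

theorem p6a_norm (B S : Finset ι) (hS : Disjoint S B) (b : ∀ i, ZMod (P i))
    (α : ∀ i, Option (ZMod (P i))) (hα : ∀ i, α i ≠ none ↔ i ∈ S) (χ : Ch P) :
    ‖∏ i, p6a_co P B b α i (χ i)‖ ≤
      if cs P χ \ B = S then (∏ i ∈ B, om (P i)) * ∏ i ∈ S, om (P i) else 0 := by
  rw [norm_prod]
  split_ifs with h
  · rw [← Finset.prod_union hS.symm, ← Finset.univ_inter (B ∪ S), ← Finset.prod_ite_mem]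
    refine Finset.prod_le_prod (fun _ _ => norm_nonneg _) fun i _ => ?_
    have h1 := hα i
    by_cases hi : i ∈ B
    · simp only [p6a_co, hi, if_true, mem_union, true_or]
      by_cases h2 : χ i = 1
      · simp [kap, h2, abs_of_pos (om_pos P i)]
      · simpa [kap, h2] using p6a_kap_some P i (b i) (χ i)
    · simp only [p6a_co, hi, if_false, mem_union, false_or]
      cases h2 : α i with
      | none =>
        have : i ∉ S := by simpa [h2] using h1
        simp only [kap, this, if_false]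
        split_ifs <;> simp
      | some a =>
        have : i ∈ S := by simpa [h2] using h1
        simpa [this] using p6a_kap_some P i a (χ i)
  · obtain ⟨i, hi⟩ : ∃ i, ¬ (χ i ≠ 1 ∧ i ∉ B ↔ i ∈ S) := by
      by_contra h1
      push Not at h1
      exact h (by ext i; simp [cs, h1 i])
    refine le_of_eq (Finset.prod_eq_zero (mem_univ i) ?_)
    have h1 := hα i
    have h3 : i ∈ S → i ∉ B := fun h => Finset.disjoint_left.1 hS h
    cases h2 : α i with
    | none =>
      have h4 : i ∉ S := by simpa [h2] using h1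
      have h5 : χ i ≠ 1 ∧ i ∉ B := by tauto
      simp [p6a_co, h5.2, h2, kap, h5.1]
    | some a =>
      have h4 : i ∈ S := by simpa [h2] using h1
      have h5 : χ i = 1 := by tauto
      simp [p6a_co, h3 h4, h2, kap, h5]

theorem p6a_wgt_nonneg (B : Finset ι) {c : ℝ} (hc : 0 ≤ c) (χ : Ch P) : 0 ≤ wgt P B c χ :=
  Finset.prod_nonneg fun i _ => mul_nonneg hc (om_pos P i).le

theorem class_main (B : Finset ι) (b : ∀ i, ZMod (P i)) (hb : ∀ i ∈ B, b i ≠ 0) (s : Finset ℕ)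
    (a : ℕ → ℝ) (hu : ∀ n ∈ s, a n ≠ 0 → ∀ i, (n : ZMod (P i)) ≠ 0) {c L : ℝ} (hc : 0 ≤ c)
    (hL : 0 ≤ L) : (∏ i ∈ B, om (P i)) * (∑ n ∈ s, a n - Esum P B c L (Psi P s a))
      ≤ ∑ n ∈ s, a n * cl P B b (res P n) := by
  have h1 := p6a_expand P B b hb s a hu (fun _ => none) (fun _ _ => rfl)
  have hone : ∀ f : ℕ → ℝ, Psi P s f (fun _ => 1) = ((∑ n ∈ s, f n : ℝ) : ℂ) := fun f => by
    simp [Psi, Xc, loc]
  have h2 : ∀ Ψ : Ch P → ℂ, Ec P Ψ (fun _ => none) = Ψ fun _ => 1 := fun Ψ => by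
    rw [Ec, Finset.sum_eq_single (fun _ => 1 : Ch P)]
    · simp [kap]
    · intro χ _ hχ
      obtain ⟨i, hi⟩ := Function.ne_iff.1 hχ
      rw [Finset.prod_eq_zero (mem_univ i) (by simp [kap, hi]), zero_mul]
    · simp
  have h3 : ∏ i, p6a_co P B b (fun _ => none) i ((fun _ => 1 : Ch P) i)
      = ((∏ i ∈ B, om (P i) : ℝ) : ℂ) := by
    rw [Complex.ofReal_prod, ← Finset.univ_inter B, ← Finset.prod_ite_mem]
    refine Finset.prod_congr rfl fun i _ => ?_
    simp [p6a_co, kap]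
  rw [h2, hone, ← Finset.add_sum_erase univ _ (mem_univ (fun _ => 1 : Ch P)), h3, hone,
    ← sub_eq_iff_eq_add', ← Complex.ofReal_mul, ← Complex.ofReal_sub] at h1
  have h4 := congrArg (‖·‖) h1
  simp only [Complex.norm_real, Real.norm_eq_abs] at h4
  have h5 : ‖∑ χ ∈ univ.erase (fun _ => 1 : Ch P),
      (∏ i, p6a_co P B b (fun _ => none) i (χ i)) * Psi P s a χ‖
      ≤ (∏ i ∈ B, om (P i)) * Esum P B c L (Psi P s a) := by
    rw [Esum, Finset.mul_sum, Finset.sum_filter]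
    have ho : 0 ≤ ∏ i ∈ B, om (P i) := Finset.prod_nonneg fun i _ => (om_pos P i).le
    have hn : ∀ χ : Ch P, 0 ≤ (if cs P χ ≠ ∅ ∧ lp P (cs P χ \ B) ≤ L then
        (∏ i ∈ B, om (P i)) * (wgt P B c χ * ‖Psi P s a χ‖) else 0) := fun χ => by
      have := p6a_wgt_nonneg P B hc χ
      split_ifs <;> positivity
    refine (norm_sum_le _ _).trans (le_trans (Finset.sum_le_sum fun χ hχ => ?_)
      (Finset.sum_le_sum_of_subset_of_nonneg (erase_subset _ _) fun χ _ _ => hn χ))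
    have h6 := p6a_norm P B ∅ (disjoint_empty_left B) b (fun _ => none) (by simp) χ
    rw [norm_mul]
    by_cases h7 : cs P χ \ B = ∅
    · have h8 : cs P χ ≠ ∅ := fun h => (mem_erase.1 hχ).1 (funext fun i => by
        simpa [cs] using Finset.eq_empty_iff_forall_notMem.1 h i)
      rw [if_pos h7, Finset.prod_empty, mul_one] at h6
      rw [if_pos ⟨h8, by rw [h7]; exact (Finset.sum_empty).trans_le hL⟩, wgt, h7, Finset.prod_empty, one_mul]
      exact mul_le_mul_of_nonneg_right h6 (norm_nonneg _)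
    · rw [if_neg h7] at h6
      exact le_trans (mul_nonpos_of_nonpos_of_nonneg h6 (norm_nonneg _)) (hn χ)
  rw [← h4] at h5
  have := (abs_le.1 h5).1
  rw [mul_sub]
  linarith

theorem class_err (B : Finset ι) (b : ∀ i, ZMod (P i)) (hb : ∀ i ∈ B, b i ≠ 0) (s : Finset ℕ)
    (a : ℕ → ℝ) (hu : ∀ n ∈ s, a n ≠ 0 → ∀ i, (n : ZMod (P i)) ≠ 0) (h : K → ℕ) (m : K) {C : ℝ}
    (hC : 0 ≤ C) (L : ℝ) : Er P B h m L C (Psi P s fun n => a n * cl P B b (res P n))
      ≤ (∏ i ∈ B, om (P i)) * Esum P B (Fintype.card K * C) L (Psi P s a) := by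
  have ho : ∀ S : Finset ι, 0 ≤ ∏ i ∈ S, om (P i) := fun S =>
    Finset.prod_nonneg fun i _ => (om_pos P i).le
  let Φ : Finset ι → ℝ := fun S => C ^ S.card * ∑ χ ∈ univ.filter (fun χ : Ch P => cs P χ \ B = S),
    ((∏ i ∈ B, om (P i)) * ∏ i ∈ S, om (P i)) * ‖Psi P s a χ‖
  have hΦ : ∀ S, 0 ≤ Φ S := fun S => mul_nonneg (pow_nonneg hC _)
    (Finset.sum_nonneg fun χ _ => mul_nonneg (mul_nonneg (ho B) (ho S)) (norm_nonneg _))
  refine le_trans (Finset.sum_le_sum fun ρ hρ => ?_) ((sum_Rs P B m L Φ hΦ).trans ?_)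
  · obtain ⟨-, h1, -⟩ := (mem_filter.1 hρ).2
    have h3 : ∀ i, al P h m ρ i ≠ none ↔ i ∈ sp ρ := fun i => by simp [al, sp]
    refine mul_le_mul_of_nonneg_left ?_ (pow_nonneg hC _)
    rw [p6a_expand P B b hb s a hu _ (fun i hi => by
      by_contra h4
      exact Finset.disjoint_left.1 h1 ((h3 i).1 h4) hi), Finset.sum_filter]
    refine (norm_sum_le _ _).trans (Finset.sum_le_sum fun χ _ => ?_)
    rw [norm_mul]
    refine (mul_le_mul_of_nonneg_right (p6a_norm P B _ h1 b _ h3 χ) (norm_nonneg _)).trans ?_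
    split_ifs <;> simp
  · have e : ∀ S, (Fintype.card K : ℝ) ^ S.card * Φ S
        = ∑ χ ∈ univ.filter (fun χ : Ch P => cs P χ \ B = S),
          (∏ i ∈ B, om (P i)) * (wgt P B (Fintype.card K * C) χ * ‖Psi P s a χ‖) := fun S => by
      simp only [Φ, Finset.mul_sum]
      refine Finset.sum_congr rfl fun χ hχ => ?_
      rw [wgt, (mem_filter.1 hχ).2, Finset.prod_mul_distrib, Finset.prod_const, mul_pow]
      ring
    simp only [e]
    rw [Finset.sum_fiberwise_eq_sum_filter, Esum, Finset.mul_sum]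
    refine Finset.sum_le_sum_of_subset_of_nonneg (fun χ hχ => ?_) fun χ _ _ =>
      mul_nonneg (ho B) (mul_nonneg (p6a_wgt_nonneg P B (by positivity) χ) (norm_nonneg _))
    simp only [mem_filter, mem_univ, true_and] at hχ ⊢
    exact ⟨fun h => hχ.1 (by simp [h]), hχ.2.2⟩

end Pool.Agent.Lib.MP_9227d9_nt.H5
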