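import Pool.Agent.Lib.MP_9227d9_nt.H5.P5
import Pool.Agent.Lib.MP_9227d9_nt.H5.P6a

/-! The lower bound for the sieve weight on shifted primes in a class. -/

open Finset

namespace Pool.Agent.Lib.MP_9227d9_nt.H5

open Pool.Agent.Lib.MP_bee098_nt

variable {ι K : Type} [Fintype ι] [DecidableEq ι] [Fintype K] [DecidableEq K]
variable (P : ι → ℕ) [hP : ∀ i, Fact (P i).Prime]

omit [Fintype ι] [DecidableEq ι] in
theorem f3_om (B : Finset ι) : ∏ i ∈ B, om (P i) = Wi P B / Vp P B := by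
  unfold Wi Vp
  rw [← Finset.prod_div_distrib]
  refine Finset.prod_congr rfl fun i _ => ?_
  have h := two_le P i
  have h1 : (P i : ℝ) - 1 ≠ 0 := by linarith
  have h2 : (P i : ℝ) ≠ 0 := by linarith
  unfold om
  field_simp

omit hP in
theorem f3_cl_nonneg (B : Finset ι) (β x : ∀ i, ZMod (P i)) : 0 ≤ cl P B β x :=
  Finset.prod_nonneg fun i _ => by split_ifs <;> norm_num

theorem f3_cl_shift (B : Finset ι) (β : ∀ i, ZMod (P i)) {n c : ℕ} (hc : c ≤ n) :
    cl P B (fun i => β i + c) (res P n) = cl P B β (res P (n - c)) := by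
  unfold cl res
  refine Finset.prod_congr rfl fun i _ => ?_
  rw [Nat.cast_sub hc]
  simp only [ne_eq, sub_eq_iff_eq_add]

theorem s2_final {A : Finset ι} {w : ℕ} {ε L : ℝ} {g : Finset ι → ℝ} (H : Sv P K A w ε g L)
    (B : Finset ι) (hAB : Disjoint A B) (β : ∀ i, ZMod (P i)) (h : K → ℕ)
    (hd : ∀ i ∈ A, ∀ j j', (h j : ZMod (P i)) = h j' → j = j') (m : K)
    (hβ : ∀ i ∈ B, β i + h m ≠ 0) (s : Finset ℕ) (a : ℕ → ℝ) (ha : ∀ n, 0 ≤ a n)
    (hu : ∀ n ∈ s, a n ≠ 0 → h m ≤ n ∧ ∀ i, (n : ZMod (P i)) ≠ 0)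
    (hmain : 9 * (1 - ε) ≤ ∑ n ∈ s, a n)
    (hE : Esum P B (Fintype.card K * Cc K) (2 * L) (Psi P s a) ≤ ε) :
    9 * (1 - 3 * ε) * (Wi P B / Vp P B * (G1 P A g ^ 2 * I2 P A g ^ (Fintype.card K - 1)))
      ≤ ∑ n ∈ s, a n * Ph P A B β h g L (res P (n - h m)) := by
  have hC : 0 ≤ Cc K := by unfold Cc; positivity
  have he := H.e0
  have he1 := H.e1
  have hL := H.Lpos
  have hu' : ∀ n ∈ s, a n ≠ 0 → ∀ i, (n : ZMod (P i)) ≠ 0 := fun n hn h0 => (hu n hn h0).2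
  have h1 := s2_gen P H B hAB h hd m s (fun n => a n * cl P B (fun i => β i + h m) (res P n))
    (fun n => mul_nonneg (ha n) (f3_cl_nonneg P _ _ _))
    fun n hn h0 => hu n hn (left_ne_zero_of_mul h0)
  have h2 := class_main P B (fun i => β i + h m) hβ s a hu'
    (c := Fintype.card K * Cc K) (L := 2 * L) (by positivity) (by linarith)
  have h3 := class_err P B (fun i => β i + h m) hβ s a hu' h m hC (2 * L)
  have hO : 0 ≤ ∏ i ∈ B, om (P i) := Finset.prod_nonneg fun i _ => (om_pos P i).le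
  have hI : 0 ≤ I2 P A g := ws_nonneg (vA_nonneg P A) fun T => sq_nonneg _
  have hM : 0 ≤ G1 P A g ^ 2 * I2 P A g ^ (Fintype.card K - 1) := by positivity
  rw [← f3_om]
  set O := ∏ i ∈ B, om (P i)
  set M := G1 P A g ^ 2 * I2 P A g ^ (Fintype.card K - 1)
  set S := ∑ n ∈ s, a n * cl P B (fun i => β i + h m) (res P n)
  set E := Er P B h m (2 * L) (Cc K)
    (Psi P s fun n => a n * cl P B (fun i => β i + h m) (res P n))
  have h4 : O * (9 - 10 * ε) ≤ S :=
    le_trans (mul_le_mul_of_nonneg_left (by linarith) hO) h2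
  have h5 : E ≤ O * ε := h3.trans (mul_le_mul_of_nonneg_left hE hO)
  have h6 : 9 * (1 - 3 * ε) * O ≤ (1 - ε) * S - 3 * E := by
    have h7 := mul_le_mul_of_nonneg_left h4 (sub_nonneg.2 he1)
    have h8 : 0 ≤ O * ε := mul_nonneg hO he.le
    have h9 : 0 ≤ O * ε * ε := mul_nonneg h8 he.le
    nlinarith
  calc 9 * (1 - 3 * ε) * (O * M) = M * (9 * (1 - 3 * ε) * O) := by ring
    _ ≤ M * ((1 - ε) * S - 3 * E) := mul_le_mul_of_nonneg_left h6 hM
    _ ≤ _ := h1
    _ = _ := by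
      refine Finset.sum_congr rfl fun n hn => ?_
      by_cases h0 : a n = 0
      · simp [h0]
      · rw [f3_cl_shift P B β (hu n hn h0).1, Ph, mul_assoc]

end Pool.Agent.Lib.MP_9227d9_nt.H5
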