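import Pool.Agent.Lib.MP_9227d9_nt.H5.DefsM

/-! Numerical inequalities between the parameters. -/

open Finset

namespace Pool.Agent.Lib.MP_9227d9_nt.H5

open Pool.Agent.Lib.MP_bee098_nt

variable {ι : Type} [Fintype ι] [DecidableEq ι] (P : ι → ℕ) [hP : ∀ i, Fact (P i).Prime]

omit [DecidableEq ι] in
theorem f6_enum {y : ℕ} (hE : Enum P y) (f : ℕ → ℝ) :
    ∏ i, f (P i) = ∏ p ∈ y.primesLE, f p ∧ ∑ i, f (P i) = ∑ p ∈ y.primesLE, f p := by
  classical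
  have e : univ.image P = y.primesLE := by
    ext p
    rw [mem_image, Nat.mem_primesLE]
    constructor
    · rintro ⟨i, -, rfl⟩
      exact ⟨hE.2.2 i, (hP i).out⟩
    · intro h
      obtain ⟨i, hi⟩ := hE.2.1 p h.2 h.1
      exact ⟨i, mem_univ _, hi⟩
  rw [← e, Finset.prod_image hE.1.injOn, Finset.sum_image hE.1.injOn]
  exact ⟨rfl, rfl⟩

theorem f6_odds {y : ℕ} (hE : Enum P y) (hy : 4 ≤ y) (A : Finset ι) :
    ∑ i, 64 * oA P A i * Real.log (P i) ≤ 256 * Real.log y := by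
  have h1 := sum_log_div_le (n := y) (by omega)
  rw [← (f6_enum P hE fun p => Real.log p / p).2] at h1
  have h2 : Real.log 4 ≤ Real.log y := Real.log_le_log (by norm_num) (by exact_mod_cast hy)
  calc _ ≤ ∑ i, 128 * (Real.log (P i) / P i) := by
        refine Finset.sum_le_sum fun i _ => ?_
        have h3 : oA P A i ≤ 2 * (P i : ℝ)⁻¹ := (oA_le P A i).trans (by
          split_ifs
          · rfl
          · positivity)
        have h4 := Real.log_natCast_nonneg (P i)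
        calc _ ≤ 64 * (2 * (P i : ℝ)⁻¹) * Real.log (P i) := by gcongr
          _ = _ := by rw [div_eq_mul_inv]; ring
    _ ≤ _ := by rw [← Finset.mul_sum]; linarith

omit [Fintype ι] [DecidableEq ι] in
theorem f6_Wi (B : Finset ι) : Wi P B = (Real.exp (lp P B))⁻¹ := by
  rw [exp_lp, Wi, Finset.prod_inv_distrib]

theorem f6_err {y a : ℕ} {T W V G : ℝ} (ha : 2 ≤ a) (hy : 3 ≤ y) (hT : 1 ≤ T)
    (hW : (y : ℝ)⁻¹ ≤ W) (hV : (2 * Real.exp 5 * Real.log y)⁻¹ ≤ V) (hG0 : 0 < G)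
    (hG : G ≤ 2 * Real.exp 5 * Real.log ((y ^ a) ^ 104 : ℕ)) (c4 : 10 ^ 32 * T ^ 8 * a ^ 6 ≤ y) :
    ((y ^ a : ℕ) : ℝ) ^ 2 * EK (y ^ a) T ≤ 1 / 10 ^ 7 * (((y ^ a : ℕ) : ℝ) ^ 400 *
      (W * (V / G) ^ 2)) := by
  have hy' : (3 : ℝ) ≤ y := by exact_mod_cast hy
  have ha' : (2 : ℝ) ≤ a := by exact_mod_cast ha
  obtain ⟨L, hL⟩ : ∃ L, L = Real.log y := ⟨_, rfl⟩
  have hL0 : 0 < L := hL ▸ Real.log_pos (by linarith)
  have hLy : L ≤ y := hL ▸ Real.log_le_self (by linarith)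
  have e5 : Real.exp 5 ≤ 150 := by
    have h1 : Real.exp 5 = Real.exp 1 ^ 5 := by rw [← Real.exp_nat_mul]; norm_num
    have h2 := Real.exp_one_lt_d9
    rw [h1]
    exact (pow_le_pow_left₀ (Real.exp_pos 1).le h2.le 5).trans (by norm_num)
  have e50 := Real.exp_pos 5
  have hz : (y : ℝ) ^ 2 ≤ ((y ^ a : ℕ) : ℝ) := by
    push_cast
    exact pow_le_pow_right₀ (by linarith) ha
  have l1 : Real.log ((y ^ a : ℕ) : ℝ) = a * L := by push_cast; rw [Real.log_pow, hL]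
  have l2 : Real.log ((y ^ a) ^ 104 : ℕ) = 104 * (a * L) := by
    rw [Nat.cast_pow, Real.log_pow, l1]; norm_num
  rw [l2] at hG
  rw [← hL] at hV
  rw [EK, l1]
  generalize ((y ^ a : ℕ) : ℝ) = z at *
  have hz0 : 0 < z := lt_of_lt_of_le (by positivity) hz
  have h1 : (300 * y * (300 * (104 * (a * y))) : ℝ)⁻¹ ≤ V / G := by
    rw [mul_inv, div_eq_mul_inv V]
    refine mul_le_mul (le_trans ?_ hV) ?_ (by positivity) (le_trans (by positivity) hV)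
    · refine inv_anti₀ (by positivity) ?_
      gcongr
      linarith
    · refine inv_anti₀ hG0 (hG.trans ?_)
      gcongr
      linarith
  have h2 : (y : ℝ)⁻¹ * ((300 * y * (300 * (104 * (a * y))) : ℝ)⁻¹) ^ 2 ≤ W * (V / G) ^ 2 :=
    mul_le_mul hW (pow_le_pow_left₀ (by positivity) h1 2) (by positivity)
      (le_trans (by positivity) hW)
  refine le_trans ?_ (mul_le_mul_of_nonneg_left (mul_le_mul_of_nonneg_left h2 (by positivity))
    (by norm_num))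
  have h3 : (y : ℝ) ^ 10 ≤ z ^ 7 := by
    calc _ = ((y : ℝ) ^ 2) ^ 5 := by ring
      _ ≤ z ^ 5 := by gcongr
      _ ≤ _ := pow_le_pow_right₀ (by nlinarith) (by norm_num)
  rw [inv_pow, ← mul_inv, ← div_eq_mul_inv, ← mul_div_assoc, le_div_iff₀ (by positivity)]
  calc _ ≤ z ^ 2 * (4 * T ^ 8 * z ^ 391 * (300 * (a * y)) ^ 4) *
        (y * (300 * y * (300 * (104 * (a * y)))) ^ 2) := by gcongr
    _ = 4 * 300 ^ 8 * 104 ^ 2 / 10 ^ 32 * (z ^ 393 * ((10 ^ 32 * T ^ 8 * a ^ 6) * y ^ 9)) := by ring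
    _ ≤ 1 / 10 ^ 7 * (z ^ 393 * (y * y ^ 9)) := by
        gcongr ?_ * (z ^ 393 * (?_ * y ^ 9))
        norm_num
    _ = 1 / 10 ^ 7 * (z ^ 393 * y ^ 10) := by ring
    _ ≤ 1 / 10 ^ 7 * (z ^ 393 * z ^ 7) := by gcongr
    _ = _ := by ring

theorem f6_card (t : ℕ) (i : Fin 4) :
    (univ.filter fun j : Fin 4 × Fin t => j.1 = i).card = t := by
  rw [show (univ.filter fun j : Fin 4 × Fin t => j.1 = i) = {i} ×ˢ univ by
    ext ⟨j1, j2⟩; simp [eq_comm]]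
  simp

theorem f6_exp48 {y : ℝ} (hy : 10 ^ 32 ≤ y) : Real.exp (48 / y) ≤ 1 + 1 / 10 ^ 7 := by
  have hy0 : 0 < y := by linarith
  have h1 : (48 : ℝ) / y ≤ 1 / (2 * 10 ^ 7) := by
    rw [div_le_div_iff₀ hy0 (by norm_num)]; linarith
  have h2 := Real.exp_bound_div_one_sub_of_interval (x := 48 / y) (by positivity) (by linarith)
  refine h2.trans ?_
  rw [div_le_iff₀ (by linarith)]
  linarith

theorem f6_lev {L a b c : ℝ} (hL : 0 ≤ L) (hc : c ≤ Real.exp L) (hb : b + 1 ≤ a) :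
    c * Real.exp (b * L) ≤ Real.exp (a * L) := by
  refine (mul_le_mul_of_nonneg_right hc (Real.exp_pos _).le).trans ?_
  rw [← Real.exp_add, Real.exp_le_exp]
  nlinarith

theorem f6_hky {t : ℕ} {y : ℝ} (c3 : (2 ^ (4 * t) * Real.exp (4 * t)) ^ 2 * Real.exp 4 ≤ y) :
    ((4 * t : ℕ) : ℝ) ≤ y := by
  refine le_trans ?_ c3
  have h1 := Real.add_one_le_exp (4 * t : ℝ)
  have h0 : (0 : ℝ) ≤ t := Nat.cast_nonneg t
  have h3 : Real.exp (4 * t) ≤ 2 ^ (4 * t) * Real.exp (4 * t) :=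
    le_mul_of_one_le_left (Real.exp_pos _).le (one_le_pow₀ one_le_two)
  have h4 := le_self_pow₀ (a := 2 ^ (4 * t) * Real.exp (4 * t)) (by linarith) two_ne_zero
  have h5 := le_mul_of_one_le_right (sq_nonneg (2 ^ (4 * t) * Real.exp (4 * t)))
    (Real.one_le_exp (show (0 : ℝ) ≤ 4 by norm_num))
  push_cast
  linarith

theorem f6_small {k y z X Z T : ℝ} (hk : k ≤ y) (hy : 32 ≤ y) (hyz : y ≤ z) (hX : z ^ 400 ≤ X)
    (hZ : y⁻¹ ≤ Z) (hT : 1 ≤ T) : k * (32 * y * z) ≤ 9 * X * Z * T := by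
  have hy0 : 0 < y := by linarith
  have hz1 : 1 ≤ z := by linarith
  have h1 : z ^ 5 ≤ X := (pow_le_pow_right₀ hz1 (by norm_num)).trans hX
  have h2 : y * (y * (32 * y * z)) ≤ z ^ 5 := by
    calc _ ≤ z * (z * (z * z * z)) := by gcongr; linarith
      _ = _ := by ring
  have hX0 : 0 < X := lt_of_lt_of_le (by positivity) h1
  have hZ0 : 0 < Z := lt_of_lt_of_le (by positivity) hZ
  calc _ ≤ y * (32 * y * z) := by gcongr
    _ = y * (y * (32 * y * z)) * y⁻¹ := by field_simp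
    _ ≤ X * Z := by gcongr; exact h2.trans h1
    _ ≤ _ := by nlinarith [mul_pos hX0 hZ0]

theorem f6_scales {a L v z : ℝ} (ha : 1 ≤ a) (hL : 1 ≤ L) (h16 : 16 ≤ Real.exp L)
    (hz : Real.exp (a * L) = z) (hv1 : 400 * a * L ≤ v)
    (hv2 : v ≤ 400 * a * L + (66 : ℕ) * (400 * a * L / 6600)) :
    z ^ 400 ≤ Real.exp v ∧ Real.exp v ≤ z ^ 404 ∧ 2 * z ^ 104 ≤ Real.exp v ∧
      Real.log (16 * Real.exp v) ≤ 405 * (a * L) := by
  have ez : ∀ n : ℕ, Real.exp (n * (a * L)) = z ^ n := fun n => by rw [Real.exp_nat_mul, hz]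
  have hv3 : v ≤ 404 * (a * L) := by push_cast at hv2; linarith
  have h1 : L ≤ a * L := by nlinarith
  have h2 : 16 ≤ z := h16.trans (hz ▸ Real.exp_le_exp.2 h1)
  have hX : z ^ 400 ≤ Real.exp v := by rw [← ez, Real.exp_le_exp]; push_cast; linarith
  refine ⟨hX, by rw [← ez, Real.exp_le_exp]; push_cast; linarith, le_trans ?_ hX, ?_⟩
  · calc _ ≤ z * z ^ 104 := by gcongr; linarith
      _ = z ^ 105 := by ring
      _ ≤ _ := pow_le_pow_right₀ (by linarith) (by norm_num)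
  · rw [Real.log_mul (by norm_num) (Real.exp_pos v).ne', Real.log_exp]
    have h3 : Real.log 16 ≤ L := (Real.log_le_iff_le_exp (by norm_num)).2 h16
    linarith

theorem f6_lt {t J C l L : ℝ} (ht : 1 ≤ t) (hJ : 1 ≤ J) (hC : 1 ≤ C) (hl : 0 < l)
    (h : 32 * (4 * t) * J * C * l = 1 / 10 ^ 7 * L) : l < L := by
  have h2 : 1 ≤ t * J * C := one_le_mul_of_one_le_of_one_le
    (one_le_mul_of_one_le_of_one_le ht hJ) hC
  nlinarith [mul_le_mul_of_nonneg_right h2 hl.le]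

theorem f6_end {t J C l a L T W VB VA G I g Ik : ℝ} (ht : 0 < t) (hJ0 : 0 < J) (hC : 0 < C)
    (hl : 0 < l) (ha : 0 < a) (hL : 0 < L) (hT : 1 ≤ T) (hW : 0 < W) (hVB : 0 < VB)
    (hVA : 0 < VA) (hI : 0 < I) (hIk : 0 < Ik) (hlL : 32 * (4 * t) * J * C * l = 1 / 10 ^ 7 * L)
    (hJ : 10 ^ 17 * C ^ 2 * a * T ≤ J) (g1 : J * l * VB ≤ g) (g2 : I ≤ 8 * l * (C * VB))
    (hG : 104 * (a * L) * (VB * VA) ≤ G)
    (h : 4 * t * (9 * (1 - 3 * (1 / 10 ^ 7)) * (W / VB * (g ^ 2 * Ik))) ≤ 405 * (a * L) *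
      (9 * (W * (Ik * I)) * ((1 + 10 * (1 / 10 ^ 7)) * (1.005 * (t * (VA * g ^ 2 / (I * G))))
        + 200 * (4 * (10 * (1 / 10 ^ 7)) * (t * (VA * g ^ 2 / (I * G))) + 2 * T) + T))) :
    False := by
  obtain ⟨μ, hμ⟩ : ∃ μ, μ = t * g ^ 2 / (VB * I * (405 * (a * L))) := ⟨_, rfl⟩
  have h1 : t * (VA * g ^ 2 / (I * G)) ≤ 405 / 104 * μ := by
    calc _ ≤ t * (VA * g ^ 2 / (I * (104 * (a * L) * (VB * VA)))) := by gcongr
      _ = _ := by rw [hμ]; field_simp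
  have h2 : 5100 * T ≤ μ := by
    rw [hμ, le_div_iff₀ (by positivity)]
    have e : L = 10 ^ 7 * (32 * (4 * t) * J * C * l) := by rw [hlL]; ring
    calc _ ≤ 5100 * T * (VB * (8 * l * (C * VB)) * (405 * (a * L))) := by gcongr
      _ = 5100 * 8 * 405 * 128 / 10 ^ 10 * ((10 ^ 17 * C ^ 2 * a * T) *
          (t * J * (l * VB) ^ 2)) := by rw [e]; ring
      _ ≤ 1 * (J * (t * J * (l * VB) ^ 2)) := by
          gcongr ?_ * (?_ * _)
          norm_num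
      _ = t * (J * l * VB) ^ 2 := by ring
      _ ≤ _ := by gcongr
  generalize t * (VA * g ^ 2 / (I * G)) = c at h h1
  have h3 : 4 * (1 - 3 * (1 / 10 ^ 7)) * μ ≤ (1 + 10 * (1 / 10 ^ 7)) * (1.005 * c)
      + 200 * (4 * (10 * (1 / 10 ^ 7)) * c + 2 * T) + T := by
    generalize (1 + 10 * (1 / 10 ^ 7)) * (1.005 * c)
      + 200 * (4 * (10 * (1 / 10 ^ 7)) * c + 2 * T) + T = Θ at h
    refine le_of_mul_le_mul_left (a := 405 * (a * L) * (9 * (W * (Ik * I)))) ?_ (by positivity)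
    refine le_trans (le_of_eq ?_) (h.trans (le_of_eq (by ring)))
    rw [hμ]
    field_simp
  norm_num at h3
  linarith

end Pool.Agent.Lib.MP_9227d9_nt.H5
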