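import Pool.Agent.Lib.MP_9227d9_nt.H5.W1

/-! Averaging over the scale. -/

open Finset

namespace Pool.Agent.Lib.MP_9227d9_nt.H5

open Pool.Agent.Lib.MP_bee098_nt

variable {l : ℝ}

theorem ker_cont (l : ℝ) (r : ℕ) : Continuous (ker l r) := by
  induction r with
  | zero => exact Real.continuous_exp.mul tri_cont
  | succ r ih =>
    exact continuous_const.mul
      (intervalIntegral.continuous_parametric_intervalIntegral_of_continuous'
        (f := fun z v => ker l r (z - v)) (ih.comp (continuous_fst.sub continuous_snd)) 0 l)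

theorem ker_nonneg (hl : 0 < l) (r : ℕ) (z : ℝ) : 0 ≤ ker l r z := by
  induction r generalizing z with
  | zero => exact mul_nonneg (Real.exp_pos z).le (tri_nonneg z)
  | succ r ih =>
    exact mul_nonneg (inv_pos.2 hl).le (intervalIntegral.integral_nonneg hl.le fun v _ => ih _)

theorem ker_support (hl : 0 < l) (r : ℕ) {z : ℝ} (h : ker l r z ≠ 0) :
    0 ≤ z ∧ z ≤ 2 * Real.log 4 + r * l := by
  induction r generalizing z with
  | zero =>
    by_contra hc
    refine h (mul_eq_zero_of_right _ (tri_eq_zero ?_))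
    simpa only [Nat.cast_zero, zero_mul, add_zero, not_and_or, not_le] using hc
  | succ r ih =>
    by_contra hc
    refine h (mul_eq_zero_of_right _ ?_)
    rw [intervalIntegral.integral_congr (g := fun _ => 0) fun v hv => ?_]
    · simp
    · rw [Set.uIcc_of_le hl.le] at hv
      by_contra h0
      obtain ⟨h1, h2⟩ := ih h0
      refine hc ⟨by linarith [hv.1], ?_⟩
      push_cast
      linarith [hv.2]

theorem ker_one (hl : 0 < l) {z : ℝ} (h1 : 2 * Real.log 4 ≤ z) (h2 : z ≤ l) :
    ker l 1 z = 9 / l := by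
  have ha := log4_pos
  have hc := ker_cont l 0
  have e4 : Real.exp (Real.log 4) = 4 := Real.exp_log (by norm_num)
  have e16 : Real.exp (2 * Real.log 4) = 16 := by
    rw [two_mul, Real.exp_add, e4]; norm_num
  have i1 : ∫ t in (z - l)..0, ker l 0 t = 0 := by
    rw [intervalIntegral.integral_congr (g := fun _ => 0) fun t ht => ?_]
    · simp
    · rw [Set.uIcc_of_le (by linarith)] at ht
      refine mul_eq_zero_of_right _ ?_
      rw [tri_eq, abs_of_nonpos (by linarith [ht.2]), max_eq_left (by linarith [ht.2])]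
  have i4 : ∫ t in (2 * Real.log 4)..z, ker l 0 t = 0 := by
    rw [intervalIntegral.integral_congr (g := fun _ => 0) fun t ht => ?_]
    · simp
    · rw [Set.uIcc_of_le h1] at ht
      refine mul_eq_zero_of_right _ ?_
      rw [tri_eq, abs_of_nonneg (by linarith [ht.1]), max_eq_left (by linarith [ht.1])]
  have i2 : ∫ t in (0 : ℝ)..Real.log 4, ker l 0 t = 4 * Real.log 4 - 3 := by
    rw [intervalIntegral.integral_congr (g := fun t => Real.exp t * t) fun t ht => ?_,
      intervalIntegral.integral_eq_sub_of_hasDerivAt (f := fun t => Real.exp t * (t - 1))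
        (fun t _ => ?_) (Continuous.intervalIntegrable (by fun_prop) _ _)]
    · simp only [e4, Real.exp_zero]; ring
    · exact ((Real.hasDerivAt_exp t).fun_mul ((hasDerivAt_id' t).sub_const 1)).congr_deriv
        (by ring)
    · rw [Set.uIcc_of_le ha.le] at ht
      change Real.exp t * tri t = Real.exp t * t
      rw [tri_eq, abs_of_nonpos (by linarith [ht.2]), max_eq_right (by linarith [ht.1])]
      ring
  have i3 : ∫ t in (Real.log 4)..(2 * Real.log 4), ker l 0 t = 12 - 4 * Real.log 4 := by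
    rw [intervalIntegral.integral_congr (g := fun t => Real.exp t * (2 * Real.log 4 - t))
        fun t ht => ?_,
      intervalIntegral.integral_eq_sub_of_hasDerivAt
        (f := fun t => Real.exp t * (2 * Real.log 4 + 1 - t))
        (fun t _ => ?_) (Continuous.intervalIntegrable (by fun_prop) _ _)]
    · simp only [e4, e16]; ring
    · exact ((Real.hasDerivAt_exp t).fun_mul
        ((hasDerivAt_id' t).const_sub (2 * Real.log 4 + 1))).congr_deriv (by ring)
    · rw [Set.uIcc_of_le (by linarith)] at ht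
      change Real.exp t * tri t = Real.exp t * (2 * Real.log 4 - t)
      rw [tri_eq, abs_of_nonneg (by linarith [ht.1]), max_eq_right (by linarith [ht.2])]
      ring
  change l⁻¹ * ∫ v in (0 : ℝ)..l, ker l 0 (z - v) = 9 / l
  rw [intervalIntegral.integral_comp_sub_left (ker l 0) z, sub_zero,
    ← intervalIntegral.integral_add_adjacent_intervals (b := 0) (hc.intervalIntegrable _ _)
      (hc.intervalIntegrable _ _),
    ← intervalIntegral.integral_add_adjacent_intervals (a := 0) (b := Real.log 4)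
      (hc.intervalIntegrable _ _) (hc.intervalIntegrable _ _),
    ← intervalIntegral.integral_add_adjacent_intervals (a := Real.log 4) (b := 2 * Real.log 4)
      (hc.intervalIntegrable _ _) (hc.intervalIntegrable _ _), i1, i2, i3, i4]
  ring

theorem nu_nonneg (hl : 0 < l) (r : ℕ) (u : ℝ) (n : ℕ) : 0 ≤ nu l r u n := by
  exact div_nonneg (ker_nonneg hl r _) n.cast_nonneg

theorem nu_zero (l u : ℝ) {n : ℕ} (hn : 0 < n) :
    nu l 0 u n = Real.exp (-u) * wt (Real.exp u) n := by
  have hn' : (0 : ℝ) < n := by exact_mod_cast hn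
  change Real.exp (Real.log n - u) * tri (Real.log n - u) / n = _
  rw [wt, Real.log_exp, sub_eq_add_neg, Real.exp_add, Real.exp_log hn']
  field_simp

theorem nu_support (hl : 0 < l) (r : ℕ) {u : ℝ} {n : ℕ} (h : nu l r u n ≠ 0) :
    Real.exp u ≤ n ∧ (n : ℝ) ≤ 16 * Real.exp (u + r * l) := by
  obtain ⟨h1, h2⟩ := div_ne_zero_iff.1 h
  have hn : (0 : ℝ) < n := n.cast_nonneg.lt_of_ne' h2
  obtain ⟨h3, h4⟩ := ker_support hl r h1
  have e4 : Real.exp (Real.log 4) = 4 := Real.exp_log (by norm_num)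
  have e16 : Real.exp (2 * Real.log 4) = 16 := by
    rw [two_mul, Real.exp_add, e4]; norm_num
  constructor
  · rw [← Real.le_log_iff_exp_le hn]; linarith
  · rw [← e16, ← Real.exp_add, ← Real.log_le_iff_le_exp hn]; linarith

theorem nu_mul (l : ℝ) (r : ℕ) (u : ℝ) {m n : ℕ} (hm : 0 < m) (hn : 0 < n) :
    nu l r u (m * n) = nu l r (u - Real.log m) n / m := by
  have hm' : (m : ℝ) ≠ 0 := by exact_mod_cast hm.ne'
  have hn' : (n : ℝ) ≠ 0 := by exact_mod_cast hn.ne'
  rw [nu, nu, Nat.cast_mul, Real.log_mul hm' hn', div_div, mul_comm (n : ℝ)]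
  congr 2
  ring

theorem p1_cont (l : ℝ) (r : ℕ) (u : ℝ) (n : ℕ) : Continuous fun v => nu l r (u + v) n :=
  ((ker_cont l r).comp (by fun_prop)).div_const _

theorem p1_contC (l : ℝ) (r : ℕ) (u : ℝ) (s : Finset ℕ) (c : ℕ → ℂ) :
    Continuous fun v => ∑ n ∈ s, c n * (nu l r (u + v) n : ℂ) :=
  continuous_finsetSum _ fun n _ =>
    continuous_const.mul (Complex.continuous_ofReal.comp (p1_cont l r u n))

theorem p1_succ (l : ℝ) (r : ℕ) (u : ℝ) (n : ℕ) :
    nu l (r + 1) u n = l⁻¹ * ∫ v in (0 : ℝ)..l, nu l r (u + v) n := by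
  simp only [nu, ker, intervalIntegral.integral_div, sub_sub, mul_div_assoc]

theorem p1_succC (l : ℝ) (r : ℕ) (u : ℝ) (s : Finset ℕ) (c : ℕ → ℂ) :
    ∑ n ∈ s, c n * (nu l (r + 1) u n : ℂ) =
      l⁻¹ • ∫ v in (0 : ℝ)..l, ∑ n ∈ s, c n * (nu l r (u + v) n : ℂ) := by
  have hc : ∀ n, Continuous fun v => c n * (nu l r (u + v) n : ℂ) := fun n =>
    continuous_const.mul (Complex.continuous_ofReal.comp (p1_cont l r u n))
  rw [intervalIntegral.integral_finsetSum fun n _ => (hc n).intervalIntegrable _ _, smul_sum]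
  refine sum_congr rfl fun n _ => ?_
  rw [p1_succ, intervalIntegral.integral_const_mul, intervalIntegral.integral_ofReal,
    Complex.real_smul]
  push_cast
  ring

theorem p1_avg (hl : 0 < l) {f : ℝ → ℝ} (hf : Continuous f) {b : ℝ}
    (h : ∀ v, 0 ≤ v → v ≤ l → f v ≤ b) : l⁻¹ * ∫ v in (0 : ℝ)..l, f v ≤ b := by
  have := intervalIntegral.integral_mono_on (μ := MeasureTheory.volume) hl.le
    (hf.intervalIntegrable _ _) (continuous_const (y := b).intervalIntegrable _ _)
    fun v hv => h v hv.1 hv.2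
  rw [intervalIntegral.integral_const, sub_zero, smul_eq_mul] at this
  rwa [inv_mul_le_iff₀ hl]

theorem nu_sum_le (hl : 0 < l) (s : Finset ℕ) (c : ℕ → ℝ) (r1 r : ℕ) (u b : ℝ)
    (h : ∀ v, u ≤ v → v ≤ u + r * l → ∑ n ∈ s, c n * nu l r1 v n ≤ b) :
    ∑ n ∈ s, c n * nu l (r1 + r) u n ≤ b := by
  induction r generalizing u with
  | zero => exact h u le_rfl (by simp)
  | succ r ih =>
    have e : ∑ n ∈ s, c n * nu l (r1 + (r + 1)) u n =
        l⁻¹ * ∫ v in (0 : ℝ)..l, ∑ n ∈ s, c n * nu l (r1 + r) (u + v) n := by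
      have hc : ∀ n, Continuous fun v => c n * nu l (r1 + r) (u + v) n := fun n =>
        continuous_const.mul (p1_cont l _ u n)
      rw [intervalIntegral.integral_finsetSum fun n _ => (hc n).intervalIntegrable _ _, mul_sum]
      refine sum_congr rfl fun n _ => ?_
      rw [← add_assoc, p1_succ, intervalIntegral.integral_const_mul]
      ring
    rw [e]
    refine p1_avg hl (continuous_finsetSum _ fun n _ => continuous_const.mul (p1_cont l _ u n))
      fun v h1 h2 => ih _ fun v' h3 h4 => h v' (by linarith) ?_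
    push_cast
    linarith

theorem nu_norm_le (hl : 0 < l) {Φ : Type} (F : Finset Φ) (ω : Φ → ℝ) (hω : ∀ x ∈ F, 0 ≤ ω x)
    (s : Finset ℕ) (c : Φ → ℕ → ℂ) (r : ℕ) (u b : ℝ)
    (h : ∀ v, u ≤ v → v ≤ u + r * l → ∑ x ∈ F, ω x * ‖∑ n ∈ s, c x n * (nu l 0 v n : ℂ)‖ ≤ b) :
    ∑ x ∈ F, ω x * ‖∑ n ∈ s, c x n * (nu l r u n : ℂ)‖ ≤ b := by
  induction r generalizing u with
  | zero => exact h u le_rfl (by simp)
  | succ r ih =>
    have hc : ∀ x, Continuous fun v => ω x * ‖∑ n ∈ s, c x n * (nu l r (u + v) n : ℂ)‖ :=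
      fun x => continuous_const.mul (p1_contC l r u s (c x)).norm
    calc _ ≤ ∑ x ∈ F, l⁻¹ * ∫ v in (0 : ℝ)..l,
          ω x * ‖∑ n ∈ s, c x n * (nu l r (u + v) n : ℂ)‖ := by
          refine sum_le_sum fun x hx => ?_
          rw [p1_succC, norm_smul, Real.norm_of_nonneg (inv_pos.2 hl).le,
            intervalIntegral.integral_const_mul, mul_left_comm]
          exact mul_le_mul_of_nonneg_left (mul_le_mul_of_nonneg_left
            (intervalIntegral.norm_integral_le_integral_norm hl.le) (hω x hx)) (inv_pos.2 hl).le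
      _ = l⁻¹ * ∫ v in (0 : ℝ)..l,
          ∑ x ∈ F, ω x * ‖∑ n ∈ s, c x n * (nu l r (u + v) n : ℂ)‖ := by
          rw [intervalIntegral.integral_finsetSum fun x _ => (hc x).intervalIntegrable _ _,
            mul_sum]
      _ ≤ b := by
          refine p1_avg hl (continuous_finsetSum _ fun x _ => hc x)
            fun v h1 h2 => ih _ fun v' h3 h4 => h v' (by linarith) ?_
          push_cast
          linarith

theorem nu_le (hl : 0 < l) (r : ℕ) (u : ℝ) (n : ℕ) : nu l r u n ≤ 2 * Real.exp (-u) := by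
  rcases Nat.eq_zero_or_pos n with rfl | hn
  · rw [nu, Nat.cast_zero, div_zero]; positivity
  have h4 : Real.log 4 ≤ 2 := by
    have := Real.log_le_sub_one_of_pos (two_pos (α := ℝ))
    rw [show (4 : ℝ) = 2 ^ 2 by norm_num, Real.log_pow]
    push_cast
    linarith
  have := nu_sum_le hl {n} (fun _ => 1) 0 r u (2 * Real.exp (-u)) fun v h1 _ => by
    rw [sum_singleton, one_mul, nu_zero l v hn, mul_comm]
    exact mul_le_mul ((wt_le _ _).trans h4) (Real.exp_le_exp.2 (by linarith)) (Real.exp_pos _).le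
      two_pos.le
  simpa using this

theorem nu_lip (hl : 0 < l) (s : Finset ℕ) (c : ℕ → ℂ) (r : ℕ) {a b B : ℝ} (hab : a ≤ b)
    (h : ∀ v, a ≤ v → v ≤ b + l → ‖∑ n ∈ s, c n * (nu l r v n : ℂ)‖ ≤ B) :
    ‖∑ n ∈ s, c n * (nu l (r + 1) b n : ℂ) - ∑ n ∈ s, c n * (nu l (r + 1) a n : ℂ)‖
      ≤ 2 * B * (b - a) / l := by
  set G : ℝ → ℂ := fun v => ∑ n ∈ s, c n * (nu l r v n : ℂ) with hG
  have hc : Continuous G := by simpa only [zero_add] using p1_contC l r 0 s c
  have e : ∀ u, ∑ n ∈ s, c n * (nu l (r + 1) u n : ℂ) = l⁻¹ • ∫ v in u..(u + l), G v := fun u => by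
    rw [p1_succC, intervalIntegral.integral_comp_add_left G u, add_zero]
  have h1 : ‖∫ v in (a + l)..(b + l), G v‖ ≤ B * (b - a) := by
    have := intervalIntegral.norm_integral_le_of_norm_le_const (a := a + l) (b := b + l) (C := B)
      (f := G) fun v hv => by
        rw [Set.uIoc_of_le (by linarith)] at hv
        exact h v (by linarith [hv.1]) hv.2
    rwa [add_sub_add_right_eq_sub, abs_of_nonneg (sub_nonneg.2 hab)] at this
  have h2 : ‖∫ v in a..b, G v‖ ≤ B * (b - a) := by
    have := intervalIntegral.norm_integral_le_of_norm_le_const (a := a) (b := b) (C := B)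
      (f := G) fun v hv => by
        rw [Set.uIoc_of_le hab] at hv
        exact h v hv.1.le (by linarith [hv.2])
    rwa [abs_of_nonneg (sub_nonneg.2 hab)] at this
  rw [e, e, ← smul_sub, intervalIntegral.integral_interval_sub_interval_comm'
    (hc.intervalIntegrable _ _) (hc.intervalIntegrable _ _) (hc.intervalIntegrable _ _), norm_smul,
    Real.norm_of_nonneg (inv_pos.2 hl).le, div_eq_inv_mul]
  refine mul_le_mul_of_nonneg_left ((norm_sub_le _ _).trans ?_) (inv_pos.2 hl).le
  linarith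

end Pool.Agent.Lib.MP_9227d9_nt.H5
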