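import Pool.Agent.Lib.MP_9227d9_nt.H5.Q2

/-! The Selberg majorant on the large primes. -/

open Finset

namespace Pool.Agent.Lib.MP_9227d9_nt.H5

open Pool.Agent.Lib.MP_bee098_nt

section Aux

variable {ι : Type} [Fintype ι] [DecidableEq ι] (P : ι → ℕ) [hP : ∀ i, Fact (P i).Prime]

omit [Fintype ι] [DecidableEq ι] in
theorem q3_dvd (hinj : Function.Injective P) {i : ι} {T : Finset ι} :
    P i ∣ ∏ j ∈ T, P j ↔ i ∈ T := by
  refine ⟨fun h => ?_, fun h => Finset.dvd_prod_of_mem _ h⟩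
  obtain ⟨j, hj, h1⟩ := ((hP i).out.prime.dvd_finsetProd_iff _).1 h
  rwa [hinj ((Nat.prime_dvd_prime_iff_eq (hP i).out (hP j).out).1 h1)]

omit [Fintype ι] [DecidableEq ι] in
theorem q3_prod_dvd (hinj : Function.Injective P) {T : Finset ι} {n : ℕ} (h : ∀ i ∈ T, P i ∣ n) :
    ∏ i ∈ T, P i ∣ n := by
  have := Finset.prod_primes_dvd (s := T.image P) n (fun p hp => by
    obtain ⟨i, _, rfl⟩ := mem_image.1 hp
    exact (hP i).out.prime) fun p hp => by
    obtain ⟨i, hi, rfl⟩ := mem_image.1 hp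
    exact h i hi
  rwa [Finset.prod_image hinj.injOn] at this

omit [Fintype ι] [DecidableEq ι] in
theorem q3_pos (T : Finset ι) : 0 < ∏ i ∈ T, P i := Finset.prod_pos fun i _ => (hP i).out.pos

omit [Fintype ι] [DecidableEq ι] in
theorem q3_pf (hinj : Function.Injective P) (T : Finset ι) :
    (∏ i ∈ T, P i).primeFactors = T.image P := by
  rw [← Finset.prod_image (f := fun p : ℕ => p) hinj.injOn]
  exact Nat.primeFactors_prod fun p hp => by
    obtain ⟨i, _, rfl⟩ := mem_image.1 hp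
    exact (hP i).out

omit [Fintype ι] [DecidableEq ι] in
theorem q3_sqf (hinj : Function.Injective P) (T : Finset ι) : Squarefree (∏ i ∈ T, P i) :=
  Finset.squarefree_prod_of_pairwise_isCoprime (fun i _ j _ h => Nat.coprime_iff_isRelPrime.1
    ((Nat.coprime_primes (hP i).out (hP j).out).2 (hinj.ne h))) fun i _ => (hP i).out.squarefree

omit [Fintype ι] in
theorem q3_lcm (hinj : Function.Injective P) (T U : Finset ι) :
    (∏ i ∈ T, P i).lcm (∏ i ∈ U, P i) = ∏ i ∈ T ∪ U, P i := by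
  refine Nat.dvd_antisymm (Nat.lcm_dvd (Finset.prod_dvd_prod_of_subset _ _ _ subset_union_left)
    (Finset.prod_dvd_prod_of_subset _ _ _ subset_union_right)) (q3_prod_dvd P hinj fun i hi => ?_)
  rcases mem_union.1 hi with h | h
  · exact (Finset.dvd_prod_of_mem _ h).trans (Nat.dvd_lcm_left _ _)
  · exact (Finset.dvd_prod_of_mem _ h).trans (Nat.dvd_lcm_right _ _)

omit [Fintype ι] [DecidableEq ι] in
theorem q3_cop (hinj : Function.Injective P) (T U : Finset ι) :
    (∏ i ∈ T, P i).Coprime (∏ i ∈ U, P i) ↔ Disjoint T U := by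
  rw [Nat.coprime_prod_left_iff, Finset.disjoint_left]
  exact forall₂_congr fun i _ => by rw [(hP i).out.coprime_iff_not_dvd, q3_dvd P hinj]

omit [DecidableEq ι] in
theorem q3_sp (hinj : Function.Injective P) (T : Finset ι) :
    (univ.filter fun i => P i ∣ ∏ j ∈ T, P j) = T := by
  ext i; simp [q3_dvd P hinj]

omit [DecidableEq ι] in
theorem q3_rough {y R : ℕ} (hE : Enum P R) (hR : 0 < R) {D : ℕ} : D ∈ Rough y R ↔
    ∃ T, T ⊆ univ.filter (fun i => y < P i) ∧ lp P T ≤ Real.log R ∧ ∏ i ∈ T, P i = D := by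
  have key : ∀ T : Finset ι, lp P T ≤ Real.log R ↔ ∏ i ∈ T, P i ≤ R := fun T => by
    rw [Real.le_log_iff_exp_le (by exact_mod_cast hR), exp_lp]
    exact_mod_cast Iff.rfl
  rw [mem_Rough]
  constructor
  · rintro ⟨⟨h1, h2⟩, h3, h4⟩
    have h5 : ∏ i ∈ univ.filter (fun i => P i ∣ D), P i = D := by
      rw [← Finset.prod_image (f := fun p : ℕ => p) hE.1.injOn]
      refine Eq.trans (Finset.prod_congr ?_ fun _ _ => rfl) (Nat.prod_primeFactors_of_squarefree h3)
      ext p
      simp only [mem_image, mem_filter, mem_univ, true_and, Nat.mem_primeFactors]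
      constructor
      · rintro ⟨i, hi, rfl⟩
        exact ⟨(hP i).out, hi, by omega⟩
      · rintro ⟨g1, g2, -⟩
        obtain ⟨i, rfl⟩ := hE.2.1 p g1 ((Nat.le_of_dvd h1 g2).trans h2)
        exact ⟨i, g2, rfl⟩
    refine ⟨_, fun i hi => mem_filter.2 ⟨mem_univ _, h4 _ ?_⟩, (key _).2 (h5.trans_le h2), h5⟩
    exact Nat.mem_primeFactors.2 ⟨(hP i).out, (mem_filter.1 hi).2, by omega⟩
  · rintro ⟨T, h1, h2, rfl⟩
    refine ⟨⟨q3_pos P T, (key T).1 h2⟩, q3_sqf P hE.1 T, fun p hp => ?_⟩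
    rw [q3_pf P hE.1] at hp
    obtain ⟨i, hi, rfl⟩ := mem_image.1 hp
    exact (mem_filter.1 (h1 hi)).2

theorem q3_sum {y R : ℕ} (hE : Enum P R) (hR : 0 < R) (o : ι → ℝ) (F : ℕ → ℝ) :
    ∑ D ∈ Rough y R, (if D ∈ Rough y R then
      lamS P o (Real.log R) (univ.filter fun i => P i ∣ D) else 0) * F D =
      ∑ T ∈ (univ.filter fun i => y < P i).powerset,
        lamS P o (Real.log R) T * F (∏ i ∈ T, P i) := by
  have h1 : Rough y R = (((univ.filter fun i => y < P i).powerset).filter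
      fun T => lp P T ≤ Real.log R).image fun T => ∏ i ∈ T, P i := by
    ext D
    simp only [q3_rough P hE hR, mem_image, mem_filter, mem_powerset, and_assoc]
  rw [Finset.sum_congr rfl fun D hD => by rw [if_pos hD], h1, Finset.sum_image
    (fun T _ U _ h => by rw [← q3_sp P hE.1 T, ← q3_sp P hE.1 U]; simp only [h])]
  simp only [q3_sp P hE.1]
  exact Finset.sum_filter_of_ne fun T _ h => lamS_support P o _ (left_ne_zero_of_mul h)

end Aux

theorem q3_gam (s : Finset ℕ) (lam lam' : ℕ → ℝ) : gam s lam lam' =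
    ∑ a ∈ s, lam a * ∑ b ∈ s, lam b * ∑ c ∈ s, lam' c * ∑ d ∈ s, lam' d *
      if (a.lcm b).Coprime (c.lcm d) then ((a.lcm b : ℝ))⁻¹ * ((c.lcm d : ℝ))⁻¹ else 0 := by
  simp only [gam, Finset.sum_product, Finset.mul_sum]
  refine Finset.sum_congr rfl fun a _ => Finset.sum_congr rfl fun b _ =>
    Finset.sum_congr rfl fun c _ => Finset.sum_congr rfl fun d _ => ?_
  split_ifs
  · rw [div_eq_mul_inv, mul_inv]; ring
  · simp

theorem q3_one {s : Finset ℕ} (h : 1 ∈ s) (F : ℕ → ℝ) : ∑ a ∈ s, one1 a * F a = F 1 := by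
  simp [one1, h]

theorem Q_pack {y R : ℕ} (hy : 3 ≤ y) (hR : y ≤ R) : ∃ (lam : ℕ → ℝ) (G : ℝ), 1 ≤ G ∧
    Real.log R * ∏ p ∈ y.primesLE, (1 - (p : ℝ)⁻¹) ≤ G ∧ G ≤ 2 * Real.exp 5 * Real.log R ∧
    lam 1 = 1 ∧ (∀ D, D ∉ Rough y R → lam D = 0) ∧ (∀ D, |lam D| ≤ 2 ^ D.primeFactors.card) ∧
    gam (Rough y R) lam one1 = G⁻¹ ∧
    gam (Rough y R) lam lam ≤ Real.exp (48 / y) * G⁻¹ ^ 2 := by
  let P : R.primesLE → ℕ := Subtype.val
  have hP : ∀ i, Fact (P i).Prime := fun i => ⟨(Nat.mem_primesLE.1 i.2).2⟩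
  have hE : Enum P R := ⟨Subtype.val_injective,
    fun p hp h => ⟨⟨p, Nat.mem_primesLE.2 ⟨h, hp⟩⟩, rfl⟩, fun i => (Nat.mem_primesLE.1 i.2).1⟩
  have hR0 : 0 < R := by omega
  have hx : 0 ≤ Real.log R := Real.log_natCast_nonneg R
  obtain ⟨A, hA⟩ : ∃ A, A = univ.filter fun i => y < P i := ⟨_, rfl⟩
  have ho := oA_nonneg P A
  have ho1 : ∀ i, oA P A i ≤ 1 := fun i => by
    unfold oA om
    split_ifs
    · exact inv_le_one_of_one_le₀ (by linarith [two_le P i])
    · exact zero_le_one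
  have h1 : 1 ∈ Rough y R := mem_Rough.2 ⟨⟨le_rfl, hR0⟩, squarefree_one, by simp⟩
  have hs := q3_sum P (y := y) hE hR0 (oA P A)
  rw [← hA] at hs
  refine ⟨fun D => if D ∈ Rough y R then
      lamS P (oA P A) (Real.log R) (univ.filter fun i => P i ∣ D) else 0,
    ws (oA P A) (cut P (Real.log R)), one_le_ws_cut P ho hx, ?_, ?_, ?_, fun D hD => if_neg hD,
    fun D => ?_, ?_, ?_⟩
  · refine le_trans (le_of_eq ?_) (ws_low P hE.1 (fun p hp h => hE.2.1 p hp ?_) A)
    · congr 1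
      rw [Vp, ← Finset.prod_image (f := fun p : ℕ => 1 - (p : ℝ)⁻¹) hE.1.injOn]
      refine Finset.prod_congr ?_ fun _ _ => rfl
      ext p
      simp only [hA, mem_image, mem_compl, mem_filter, mem_univ, true_and, not_lt,
        Nat.mem_primesLE]
      constructor
      · rintro ⟨g1, g2⟩
        obtain ⟨i, rfl⟩ := hE.2.1 p g2 (g1.trans hR)
        exact ⟨i, g1, rfl⟩
      · rintro ⟨i, hi, rfl⟩
        exact ⟨hi, (hP i).out⟩
    · rw [Real.exp_log (by exact_mod_cast hR0)] at h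
      exact_mod_cast h
  · refine (ws_mono ho (v' := fun i => om (P i)) (γ' := fun _ => 1) (fun i => ?_)
      (fun _ => zero_le_one) (cut_le P _)).trans ?_
    · unfold oA
      split_ifs
      · rfl
      · exact (om_pos P i).le
    · rw [ws_one]
      refine le_trans (le_of_eq (Finset.prod_congr rfl fun i _ => ?_))
        (prod_inv_le P hE.1 univ (hy.trans hR) fun i _ => hE.2.2 i)
      have := two_le P i
      have h2 : (P i : ℝ) - 1 ≠ 0 := by linarith
      unfold om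
      field_simp
      ring
  · have := q3_sp P hE.1 ∅
    rw [Finset.prod_empty] at this
    simp only [if_pos h1, this]
    exact lamS_empty P ho hx
  · beta_reduce
    split_ifs with hD
    · obtain ⟨T, -, -, rfl⟩ := (q3_rough P hE hR0).1 hD
      rw [q3_sp P hE.1, q3_pf P hE.1, Finset.card_image_of_injective _ hE.1]
      exact abs_lamS_le P ho ho1 hx T
    · rw [abs_zero]; positivity
  · rw [q3_gam, ← single_eval P A hx]
    simp only [q3_one h1, hs]
    simp only [q3_lcm P hE.1, Nat.lcm_self, Nat.coprime_one_right_eq_true, if_true,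
      Nat.cast_one, inv_one, mul_one, Finset.sum_product, Finset.mul_sum, Nat.cast_prod,
      Finset.prod_inv_distrib, mul_assoc]
  · refine le_trans (le_of_eq ?_) (pair_eval P hE.1 A (y := y) (by omega)
      (fun i hi => by rw [hA] at hi; exact (mem_filter.1 hi).2) hx)
    rw [q3_gam]
    simp only [hs]
    simp only [q3_lcm P hE.1, q3_cop P hE.1, Finset.sum_product, Finset.mul_sum, Nat.cast_prod,
      Finset.prod_inv_distrib]
    refine Finset.sum_congr rfl fun a _ => Finset.sum_congr rfl fun b _ =>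
      Finset.sum_congr rfl fun c _ => Finset.sum_congr rfl fun d _ => ?_
    split_ifs
    · ring
    · simp

end Pool.Agent.Lib.MP_9227d9_nt.H5
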