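import Pool.Agent.Lib.MP_9227d9_nt.H5.F6a
import Pool.Agent.Lib.MP_9227d9_nt.H5.F6b
import Pool.Agent.Lib.MP_9227d9_nt.H5.F2b
import Pool.Agent.Lib.MP_9227d9_nt.H5.F3
import Pool.Agent.Lib.MP_9227d9_nt.H5.Q3
import Pool.Agent.Lib.MP_9227d9_nt.H5.P1

/-! Primes in two different parts at one scale. -/

open Finset

namespace Pool.Agent.Lib.MP_9227d9_nt.H5

open Pool.Agent.Lib.MP_bee098_nt

variable {ι : Type} [Fintype ι] [DecidableEq ι] (P : ι → ℕ) [hP : ∀ i, Fact (P i).Prime]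

theorem f6_up {y w a t z : ℕ} {L : ℝ} {g : Finset ι → ℝ} (hE : Enum P y) (B : Finset ι)
    (H : Sv P (Fin 4 × Fin t) Bᶜ w (1 / 10 ^ 7) g L) (hL : L = Real.log y) (hz : z = y ^ a)
    (h : Fin 4 × Fin t → ℕ) (hinj : Function.Injective h) (hh : ∀ j, h j < y)
    (hd : ∀ i ∈ Bᶜ, ∀ j j', (h j : ZMod (P i)) = h j' → j = j') (β : ∀ i, ZMod (P i))
    (ha : 10 ^ 11 ≤ a) (ht0 : 0 < t) {T : ℝ} (hT1 : 1 ≤ T) (hDiv : DivB y z T) {lam : ℕ → ℝ}
    {G : ℝ} (hG1 : 1 ≤ G) (hG3 : G ≤ 2 * Real.exp 5 * Real.log (z ^ 104 : ℕ)) (hl1 : lam 1 = 1)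
    (hlam : ∀ D, |lam D| ≤ T) (γ1 : gam (Rough y (z ^ 104)) lam one1 = G⁻¹)
    (γ2 : gam (Rough y (z ^ 104)) lam lam ≤ Real.exp (48 / y) * G⁻¹ ^ 2)
    (c2 : Real.exp (lp P B) ≤ y) (c3 : (2 ^ (4 * t) * Real.exp (4 * t)) ^ 2 * Real.exp 4 ≤ y)
    (c4 : 10 ^ 32 * T ^ 8 * a ^ 6 ≤ y) (hy : 10 ^ 32 ≤ y) (hg : 0 < G1 P Bᶜ g)
    (hno : ∀ n ≥ y, (∀ i ∈ B, (n : ZMod (P i)) = β i) → ∀ j j' : Fin 4 × Fin t, j.1 ≠ j'.1 →
      (n + h j).Prime → ¬ (n + h j').Prime) {ρ Z : ℝ}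
    (hρ : ρ = Vp P Bᶜ * G1 P Bᶜ g ^ 2 / (I2 P Bᶜ g * G))
    (hZ : Z = Wi P B * I2 P Bᶜ g ^ Fintype.card (Fin 4 × Fin t)) :
    ∑ n ∈ Ioc 0 (16 * y ^ (404 * a)), (∑ j, pw n * Ph P Bᶜ B β h g L (res P (n - h j))) *
      nu (400 * a * L / 6600) (0 + 66) (400 * a * L) n ≤ 405 * (a * L) * (9 * Z *
        ((1 + 10 * (1 / 10 ^ 7)) * (1.005 * (t * ρ))
          + 200 * (4 * (10 * (1 / 10 ^ 7)) * (t * ρ) + 2 * T ^ 4) + T ^ 4)) := by
  have hk : Fintype.card (Fin 4 × Fin t) = 4 * t := by simp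
  have hy' : (10 : ℝ) ^ 32 ≤ y := by exact_mod_cast hy
  have ha' : (10 : ℝ) ^ 11 ≤ a := by exact_mod_cast ha
  have hy0 : (0 : ℝ) < y := by linarith
  have eL : Real.exp L = y := by rw [hL, Real.exp_log hy0]
  have hL1 : 1 ≤ L := by
    rw [← Real.exp_le_exp, eL]; linarith [Real.exp_one_lt_three]
  have ez : Real.exp (a * L) = z := by rw [Real.exp_nat_mul, eL, hz]; push_cast; rfl
  have hyz : y ≤ z := by rw [hz]; exact Nat.le_self_pow (by omega) y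
  have hyz' : (y : ℝ) ≤ z := by exact_mod_cast hyz
  have hzR : z ≤ z ^ 104 := Nat.le_self_pow (by norm_num) z
  have hzR' : (z : ℝ) ≤ z ^ 104 := by exact_mod_cast hzR
  have hY : ((16 * y ^ (404 * a) : ℕ) : ℝ) = 16 * (z : ℝ) ^ 404 := by
    rw [hz]; push_cast; rw [← pow_mul, mul_comm a]
  have hx0 : 0 < 512 * 10 ^ 7 * L := by positivity
  have hx := (f6_odds P hE (by omega) Bᶜ).trans
    (show _ ≤ 1 / 10 ^ 7 / 2 * (512 * 10 ^ 7 * L) by rw [← hL]; linarith)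
  have hZ1 : Real.exp (lp P B + 2 * L + 4 * (512 * 10 ^ 7 * L)) ≤ z := by
    rw [show lp P B + 2 * L + 4 * (512 * 10 ^ 7 * L) = lp P B + (2 + 4 * (512 * 10 ^ 7)) * L by
      ring, Real.exp_add, ← ez]
    exact f6_lev (by linarith) (eL ▸ c2) (by linarith)
  have hΛ1 : (2 ^ Fintype.card (Fin 4 × Fin t) * Real.exp (2 * L + Fintype.card (Fin 4 × Fin t)))
      ^ 2 * Real.exp (2 * (512 * 10 ^ 7 * L) + 1) ^ 4 ≤ z := by
    rw [hk, ← ez]
    refine le_trans (le_of_eq ?_) (f6_lev (b := 4 + 8 * (512 * 10 ^ 7)) (by linarith) (eL ▸ c3)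
      (by linarith))
    simp only [mul_pow, ← Real.exp_nat_mul, mul_assoc, ← Real.exp_add]
    congr 2
    push_cast
    ring
  have hΛ2 : ∀ x, Ph P Bᶜ B β h g L x ≤ z := fun x => (Ph_le P H B β h x).trans
    (le_trans (le_mul_of_one_le_right (by positivity) (one_le_pow₀ (Real.one_le_exp
      (by positivity)))) hΛ1)
  have hVA := Vp_pos P Bᶜ
  have hWy : (y : ℝ)⁻¹ ≤ Wi P B := by rw [f6_Wi]; exact inv_anti₀ (Real.exp_pos _) c2
  have hW0 : 0 < Wi P B := lt_of_lt_of_le (by positivity) hWy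
  have hI1 : 1 ≤ I2 P Bᶜ g := le_trans (one_le_pow₀ H.g1)
    (ws_empty (γ := fun T => g T ^ 2) (vA_nonneg P Bᶜ) fun _ => sq_nonneg _)
  have herr := f6_err (y := y) (a := a) (T := T) (W := Wi P B) (V := Vp P Bᶜ) (G := G) (by omega)
    (by omega) hT1 hWy (by
      have h1 := prod_inv_le P hE.1 Bᶜ (n := y) (by omega) fun i _ => hE.2.2 i
      rw [Finset.prod_inv_distrib] at h1
      exact inv_le_of_inv_le₀ hVA h1) (by linarith) (hz ▸ hG3) c4
  rw [← hz] at herr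
  have hρ0 : 0 < ρ := by rw [hρ]; positivity
  have hZy : (y : ℝ)⁻¹ ≤ Z := by
    rw [hZ]; exact hWy.trans (le_mul_of_one_le_right hW0.le (one_le_pow₀ hI1))
  have hZ0 : 0 < Z := lt_of_lt_of_le (by positivity) hZy
  have hky : ((Fintype.card (Fin 4 × Fin t) : ℕ) : ℝ) ≤ y := hk ▸ f6_hky c3
  have hy32 : (32 : ℝ) ≤ y := by linarith
  have hlp : 0 < 400 * a * L / 6600 := by positivity
  refine nu_sum_le hlp _ _ 0 66 _ _ fun v hv1 hv2 => ?_
  obtain ⟨hX, hX', hz6, hl16⟩ := f6_scales (by linarith) hL1 (by linarith) ez hv1 hv2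
  obtain ⟨m0, m1, m2, m3⟩ := moments_scale P H (by norm_num) B disjoint_compl_left β h hinj hd
    hx0 hx hE.2.2 hh (by omega) hyz (f6_exp48 hy') hZ1 hΛ1 hT1 hDiv hG1 hlam γ1 γ2 herr hX hX'
    (Y := 16 * y ^ (404 * a)) (by rw [hY]; linarith) rfl hρ
  rw [← hZ] at m0 m1 m2 m3
  have hs := f6_scale (fun j : Fin 4 × Fin t => j.1) ht0 (f6_card t) h (fun j => (hh j).le)
    (X := Real.exp v) (by linarith only [hz6, hzR', hyz', hy32])
    (by linarith only [hz6, hzR', hyz']) (16 * y ^ (404 * a))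
    (fun n => Ph P Bᶜ B β h g L (res P n)) (fun n => Ph_nonneg P _ _ _ _ _ _ _) (fun n => hΛ2 _)
    (fun j n => bt P Bᶜ (512 * 10 ^ 7 * L) (Rough y (z ^ 104)) lam (h j) n)
    (fun j n => by unfold bt; positivity) (fun j n hn hp => by
      have h1 : z ^ 104 < n + h j := by
        have h0 : (z : ℝ) ^ 104 < n := by linarith only [hn, hz6, hzR', hyz', hy32]
        have : z ^ 104 < n := by exact_mod_cast h0
        omega
      have h2 : Uo P Bᶜ (h j) (res P n) = ∅ := filter_eq_empty_iff.2 fun i _ => by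
        have := cast_ne_zero P hp (i := i) (((hE.2.2 i).trans (hyz.trans hzR)).trans_lt h1)
        simpa [res] using this
      rw [bt, SS, h2, sel_empty P (fun i => mul_nonneg (by norm_num) (oA_nonneg P _ i)) hx0.le,
        Qf_prime (by omega) lam hp h1, hl1]
      norm_num) (fun n hn h1 j j' hp hp' => by
      by_contra h2
      have h3 : y ≤ n := by
        exact_mod_cast (by linarith only [hn, hz6, hzR', hyz', hy32] : (y : ℝ) ≤ n)
      refine hno n h3 (fun i hi => ?_) j j' h2 hp hp'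
      by_contra h4
      exact left_ne_zero_of_mul h1 (Finset.prod_eq_zero (mem_univ i) (if_pos ⟨hi, h4⟩)))
    (by positivity) hρ0 (by norm_num) m0 m1 m2 m3
  have hsm := f6_small hky hy32 hyz' hX hZy (one_le_pow₀ (n := 4) hT1)
  have hΘ0 : 0 ≤ (1 + 10 * (1 / 10 ^ 7)) * (1.005 * (t * ρ))
    + 200 * (4 * (10 * (1 / 10 ^ 7)) * (t * ρ) + 2 * T ^ 4) := by positivity
  generalize (1 + 10 * (1 / 10 ^ 7)) * (1.005 * (t * ρ))
    + 200 * (4 * (10 * (1 / 10 ^ 7)) * (t * ρ) + 2 * T ^ 4) = Θ at hs hΘ0 ⊢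
  calc _ = Real.exp (-v) * ∑ n ∈ Ioc 0 (16 * y ^ (404 * a)),
        (∑ j, pw n * Ph P Bᶜ B β h g L (res P (n - h j))) * wt (Real.exp v) n := by
        rw [Finset.mul_sum]
        refine Finset.sum_congr rfl fun n hn => ?_
        rw [nu_zero _ _ (mem_Ioc.1 hn).1]
        ring
    _ ≤ Real.exp (-v) * (405 * (a * L) *
          (9 * Real.exp v * Z * Θ + 9 * Real.exp v * Z * T ^ 4)) := by
        refine mul_le_mul_of_nonneg_left (hs.trans ?_) (Real.exp_pos _).le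
        exact mul_le_mul hl16 (add_le_add_right hsm _) (by positivity) (by positivity)
    _ = _ := by rw [Real.exp_neg]; field_simp

theorem core4 {y w a t J : ℕ} (hE : Enum P y) (B : Finset ι) (hB : ∀ i, i ∈ B ↔ P i ≤ w)
    (h : Fin 4 × Fin t → ℕ) (hinj : Function.Injective h) (hh : ∀ j, h j ≤ w)
    (β : ∀ i, ZMod (P i)) (hβ : ∀ i ∈ B, ∀ j, β i + h j ≠ 0) (ha : 10 ^ 11 ≤ a) {T : ℝ}
    (hT : (2 : ℝ) ^ (600 * a) ≤ T) (hJt : 2 ^ J ≤ t)
    (hJ : 10 ^ 17 * (2 * Real.exp 13) ^ 2 * a * T ^ 4 ≤ J) (hw : 10 ^ 10 * (4 * t) ^ 2 ≤ w)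
    (c1 : w ≤ Real.exp (Real.log y / (10 ^ 7 * (32 * (4 * t) * J * (2 * Real.exp 13)))))
    (c2 : Real.exp (lp P B) ≤ y) (c3 : (2 ^ (4 * t) * Real.exp (4 * t)) ^ 2 * Real.exp 4 ≤ y)
    (c4 : 10 ^ 32 * T ^ 8 * a ^ 6 ≤ y)
    (c5 : 9 * (1 - 1 / 10 ^ 7) ≤ ∑ n ∈ Ioc 0 (16 * y ^ (404 * a)), pa (400 * a * Real.log y) n)
    (c6 : Esum P B (Fintype.card (Fin 4 × Fin t) * Cc (Fin 4 × Fin t)) (2 * Real.log y)
      (Psi P (Ioc 0 (16 * y ^ (404 * a))) (pa (400 * a * Real.log y))) ≤ 1 / 10 ^ 7) :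
    ∃ n ≥ y, (∀ i ∈ B, (n : ZMod (P i)) = β i) ∧
      ∃ j j' : Fin 4 × Fin t, j.1 ≠ j'.1 ∧ (n + h j).Prime ∧ (n + h j').Prime := by
  by_contra hno
  push Not at hno
  obtain ⟨C, hC⟩ : ∃ C, C = 2 * Real.exp 13 := ⟨_, rfl⟩
  rw [← hC] at hJ c1
  have hC1 : 1 ≤ C := by linarith only [hC, Real.add_one_le_exp 13]
  have hk : Fintype.card (Fin 4 × Fin t) = 4 * t := by simp
  have ht0 : 0 < t := lt_of_lt_of_le (by positivity) hJt
  have ht1 : (1 : ℝ) ≤ t := by exact_mod_cast ht0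
  have hT1 : 1 ≤ T := (one_le_pow₀ one_le_two).trans hT
  have ha' : (10 : ℝ) ^ 11 ≤ a := by exact_mod_cast ha
  have ha1 : (1 : ℝ) ≤ a := le_trans (by norm_num) ha'
  have hT4 : 1 ≤ T ^ 4 := one_le_pow₀ hT1
  have hJ1 : (1 : ℝ) ≤ J := le_trans (one_le_mul_of_one_le_of_one_le
    (one_le_mul_of_one_le_of_one_le (one_le_mul_of_one_le_of_one_le (by norm_num)
      (one_le_pow₀ hC1)) ha1) hT4) hJ
  have hJ0 : 0 < J := by exact_mod_cast (by linarith only [hJ1] : (0 : ℝ) < J)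
  have hy' : (10 : ℝ) ^ 32 ≤ y := le_trans (le_trans (le_mul_of_one_le_right (by norm_num)
    (one_le_pow₀ hT1)) (le_mul_of_one_le_right (by positivity) (one_le_pow₀ ha1))) c4
  have hy : 10 ^ 32 ≤ y := by exact_mod_cast hy'
  have hy0 : (0 : ℝ) < y := by linarith only [hy']
  obtain ⟨L, hL⟩ : ∃ L, L = Real.log y := ⟨_, rfl⟩
  have eL : Real.exp L = y := by rw [hL, Real.exp_log hy0]
  have hL1 : 1 ≤ L := by
    rw [← Real.exp_le_exp, eL]; linarith only [hy', Real.exp_one_lt_three]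
  obtain ⟨l, hl⟩ : ∃ l, l = L / (10 ^ 7 * (32 * (4 * t) * J * C)) := ⟨_, rfl⟩
  rw [← hL, ← hl] at c1
  have hl0 : 0 < l := by rw [hl]; positivity
  have hlL : 32 * (4 * t) * J * C * l = 1 / 10 ^ 7 * L := by rw [hl]; field_simp
  have hwy : w < y := by
    have h2 := c1.trans_lt (Real.exp_lt_exp.2 (f6_lt ht1 hJ1 hC1 hl0 hlL))
    rw [eL] at h2
    exact_mod_cast h2
  obtain ⟨H, g1, g2⟩ := f6_sv (K := Fin 4 × Fin t) P hE B hB hC (e := 1 / 10 ^ 7) (l := l)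
    (by norm_num) (by norm_num) hJ0 (by rw [hk]; omega) (by
      have : ((10 ^ 10 * (4 * t) ^ 2 : ℕ) : ℝ) ≤ w := by exact_mod_cast hw
      rw [hk]; push_cast at this ⊢; linarith only [this]) (by linarith only [hL, hL1]) (by
      rw [hk, ← hL]; push_cast; exact hlL) c1
  rw [← hL] at H c5 c6
  generalize gf P J l = g at H g1 g2
  obtain ⟨z, hz⟩ : ∃ z, z = y ^ a := ⟨_, rfl⟩
  have hyz : y ≤ z := by rw [hz]; exact Nat.le_self_pow (by omega) y
  have hzR : z ≤ z ^ 104 := Nat.le_self_pow (by norm_num) z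
  obtain ⟨lam, G, hG1, hG2, hG3, hl1, hl2, hl3, γ1, γ2⟩ := Q_pack (y := y) (R := z ^ 104)
    (by omega) (hyz.trans hzR)
  have hDiv : DivB y z T := fun M h0 h1 => le_trans (by
    exact_mod_cast rough_div (R := z ^ 104) (a := 600 * a) (by omega) h0
      (by rwa [hz, ← pow_mul, mul_comm a] at h1)) hT
  have hlam : ∀ D, |lam D| ≤ T := fun D => by
    by_cases hD : D ∈ Rough y (z ^ 104)
    · refine (hl3 D).trans (le_trans (pow_le_pow_right₀ one_le_two ?_) hT)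
      exact (rough_omega (a := a * 104) (by omega) hD (by rw [hz, pow_mul])).trans (by omega)
    · rw [hl2 D hD, abs_zero]; linarith only [hT1]
  have hd : ∀ i ∈ Bᶜ, ∀ j j', (h j : ZMod (P i)) = h j' → j = j' := fun i hi j j' e =>
    hinj (Nat.ModEq.eq_of_lt_of_lt ((ZMod.natCast_eq_natCast_iff _ _ _).1 e)
      ((hh j).trans_lt (H.big i hi)) ((hh j').trans_lt (H.big i hi)))
  have hVB := Vp_pos P B
  have hVA := Vp_pos P Bᶜ
  have hW0 : 0 < Wi P B := by rw [f6_Wi]; positivity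
  have hI1 : 1 ≤ I2 P Bᶜ g := le_trans (one_le_pow₀ H.g1)
    (ws_empty (γ := fun T => g T ^ 2) (vA_nonneg P Bᶜ) fun _ => sq_nonneg _)
  have hG10 : 0 < G1 P Bᶜ g := lt_of_lt_of_le (by positivity) g1
  have up := f6_up P hE B H hL hz h hinj (fun j => (hh j).trans_lt hwy) hd β ha ht0 hT1 hDiv hG1
    hG3 hl1 hlam γ1 γ2 c2 c3 c4 hy hG10 hno rfl rfl
  have hlp : 0 < 400 * a * L / 6600 := by positivity
  have lo : ∀ j, 9 * (1 - 3 * (1 / 10 ^ 7)) * (Wi P B / Vp P B *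
      (G1 P Bᶜ g ^ 2 * I2 P Bᶜ g ^ (Fintype.card (Fin 4 × Fin t) - 1))) ≤
      ∑ n ∈ Ioc 0 (16 * y ^ (404 * a)), pa (400 * a * L) n *
        Ph P Bᶜ B β h g L (res P (n - h j)) := fun j =>
    s2_final P H B disjoint_compl_left β h hd j (fun i hi => hβ i hi j) _ _
      (fun n => mul_nonneg (pw_nonneg n) (nu_nonneg hlp _ _ _)) (fun n _ hn => by
        have h1 : n.Prime := by
          by_contra h2
          exact left_ne_zero_of_mul hn (if_neg h2)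
        have h2 := (nu_support hlp _ (right_ne_zero_of_mul hn)).1
        have h3 : (y : ℝ) < n := by
          refine lt_of_lt_of_le ?_ h2
          rw [← eL, Real.exp_lt_exp]
          nlinarith only [ha1, hL1]
        have h4 : y < n := by exact_mod_cast h3
        exact ⟨((hh j).trans hwy.le).trans h4.le, fun i => cast_ne_zero P h1
          ((hE.2.2 i).trans_lt h4)⟩) c5 c6
  have tot := Finset.card_nsmul_le_sum univ _ _ fun j _ => lo j
  rw [Finset.sum_comm, card_univ, nsmul_eq_mul] at tot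
  have tot2 := tot.trans (le_trans (le_of_eq (Finset.sum_congr rfl fun n _ => by
    rw [Finset.sum_mul]
    exact Finset.sum_congr rfl fun j _ => by rw [pa]; ring)) up)
  have eI : I2 P Bᶜ g ^ Fintype.card (Fin 4 × Fin t)
      = I2 P Bᶜ g ^ (Fintype.card (Fin 4 × Fin t) - 1) * I2 P Bᶜ g := by
    rw [← pow_succ, Nat.sub_add_cancel H.kpos]
  rw [eI] at tot2
  have hIk : 0 < I2 P Bᶜ g ^ (Fintype.card (Fin 4 × Fin t) - 1) := by positivity
  generalize I2 P Bᶜ g ^ (Fintype.card (Fin 4 × Fin t) - 1) = Ik at tot2 hIk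
  rw [hk, Nat.cast_mul, Nat.cast_ofNat] at tot2
  have hG4 : 104 * (a * L) * (Vp P B * Vp P Bᶜ) ≤ G := by
    refine le_trans (le_of_eq ?_) hG2
    rw [← (f6_enum P hE fun p => 1 - (p : ℝ)⁻¹).1, Vp, Vp, Finset.prod_mul_prod_compl, hz, hL,
      Nat.cast_pow, Nat.cast_pow, Real.log_pow, Real.log_pow]
    norm_num
  exact f6_end (by linarith only [ht1]) (by linarith only [hJ1]) (by linarith only [hC1]) hl0
    (by linarith only [ha1]) (by linarith only [hL1]) hT4 hW0 hVB hVA (by linarith only [hI1]) hIk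
    hlL hJ g1 g2 hG4 tot2

end Pool.Agent.Lib.MP_9227d9_nt.H5
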