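import Pool.Agent.Lib.MP_9227d9_nt.H5.Defs

/-! Properties of the triangle weight. -/

open Finset

namespace Pool.Agent.Lib.MP_9227d9_nt.H5

open Pool.Agent.Lib.MP_bee098_nt

theorem tri_eq (z : ℝ) : tri z = max 0 (Real.log 4 - |z - Real.log 4|) := by
  have e : ∀ u, ind u * ind (z - u) =
      (Set.Icc (max 0 (z - Real.log 4)) (min (Real.log 4) z)).indicator 1 u := by
    intro u
    rw [ind_eq, ind_eq, Set.indicator_apply]
    simp only [Set.mem_Icc, max_le_iff, le_min_iff, Pi.one_apply]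
    split_ifs with h1 h2 h3 h4 h5
    · simp
    · exact absurd ⟨⟨h1.1, by linarith [h2.2]⟩, h1.2, by linarith [h2.1]⟩ h3
    · exact absurd ⟨by linarith [h4.2.2], by linarith [h4.1.2]⟩ h2
    · simp
    all_goals first | exact absurd ⟨by tauto, by tauto⟩ h1 | simp
  simp only [tri, e]
  rw [MeasureTheory.integral_indicator_one measurableSet_Icc, Real.volume_real_Icc, max_comm]
  congr 1
  rcases le_total z (Real.log 4) with h | h
  · rw [min_eq_right h, max_eq_left (by linarith), abs_of_nonpos (by linarith)]; ring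
  · rw [min_eq_left h, max_eq_right (by linarith), abs_of_nonneg (by linarith)]

theorem tri_lip (a b : ℝ) : |tri a - tri b| ≤ |a - b| := by
  rw [tri_eq, tri_eq, max_comm 0, max_comm 0]
  refine (abs_max_sub_max_le_abs _ _ _).trans ?_
  rw [sub_sub_sub_cancel_left, abs_sub_comm]
  refine (abs_abs_sub_abs_le_abs_sub _ _).trans ?_
  rw [sub_sub_sub_cancel_right]

theorem tri_cont : Continuous tri := by
  rw [show tri = fun z => max 0 (Real.log 4 - |z - Real.log 4|) from funext tri_eq]
  fun_prop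

theorem wt_sum {X : ℝ} (hX : 0 < X) {Y : ℕ} (hY : 16 * X ≤ Y) :
    |∑ u ∈ Ioc 0 Y, wt X u - 9 * X| ≤ 2 := by
  have e0 : (fun v => ind v * (3 * X * Real.exp v)) =
      (Set.Icc 0 (Real.log 4)).indicator fun v => 3 * X * Real.exp v := by
    funext v
    rw [ind_eq, Set.indicator_apply]
    simp only [Set.mem_Icc, ite_mul, one_mul, zero_mul]
  have i0 : MeasureTheory.Integrable fun v => ind v * (3 * X * Real.exp v) := by
    rw [e0, MeasureTheory.integrable_indicator_iff measurableSet_Icc]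
    exact Continuous.integrableOn_Icc (by fun_prop)
  have e1 : 9 * X = ∫ v, ind v * (3 * X * Real.exp v) := by
    rw [e0, MeasureTheory.integral_indicator measurableSet_Icc,
      MeasureTheory.integral_Icc_eq_integral_Ioc, ← intervalIntegral.integral_of_le log4_pos.le,
      intervalIntegral.integral_const_mul, integral_exp, Real.exp_log (by norm_num), Real.exp_zero]
    ring
  have i1 : MeasureTheory.Integrable fun v =>
      ∑ u ∈ Ioc 0 Y, ind v * ind (Real.log u - Real.log X - v) :=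
    MeasureTheory.integrable_finsetSum _ fun u _ => tri_integrable _
  have e2 : ∑ u ∈ Ioc 0 Y, wt X u =
      ∫ v, ∑ u ∈ Ioc 0 Y, ind v * ind (Real.log u - Real.log X - v) :=
    (MeasureTheory.integral_finsetSum _ fun u _ => tri_integrable _).symm
  have l4 : Real.log 4 ≤ 2 := by
    rw [show (4 : ℝ) = 2 ^ 2 by norm_num, Real.log_pow]
    have := Real.log_two_lt_d9
    push_cast; linarith
  rw [e1, e2, ← MeasureTheory.integral_sub i1 i0]
  refine le_trans ?_ (integral_ind.trans_le l4)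
  rw [← Real.norm_eq_abs]
  refine MeasureTheory.norm_integral_le_of_norm_le ind_integrable
    (Filter.Eventually.of_forall fun v => ?_)
  rw [← mul_sum, ← mul_sub, norm_mul, Real.norm_of_nonneg (ind_nonneg v)]
  by_cases hv : 0 ≤ v ∧ v ≤ Real.log 4
  swap
  · rw [ind_eq, if_neg hv, zero_mul]
  refine mul_le_of_le_one_right (ind_nonneg v) ?_
  have hy : 0 < X * Real.exp v := by positivity
  have h4 : Real.exp v ≤ 4 := by
    rw [← Real.exp_log (show (0 : ℝ) < 4 by norm_num)]; exact Real.exp_le_exp.2 hv.2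
  have e3 : ∑ u ∈ Ioc 0 Y, ind (Real.log u - Real.log X - v) =
      ∑ u ∈ Ioc 0 Y, if u ∈ Ico ⌈X * Real.exp v⌉₊ (⌊4 * (X * Real.exp v)⌋₊ + 1) then 1 else 0 :=
    sum_congr rfl fun u hu => by
      rw [← ind_log hy (mem_Ioc.1 hu).1, Real.log_mul hX.ne' (Real.exp_pos v).ne', Real.log_exp,
        sub_sub]
  have h5 : ⌊4 * (X * Real.exp v)⌋₊ ≤ Y := Nat.floor_le_of_le (by nlinarith)
  have h6 : 0 < ⌈X * Real.exp v⌉₊ := Nat.ceil_pos.2 hy
  have h7 : ⌈X * Real.exp v⌉₊ ≤ ⌊4 * (X * Real.exp v)⌋₊ + 1 :=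
    Nat.ceil_le.2 (by have := Nat.lt_floor_add_one (4 * (X * Real.exp v)); push_cast; linarith)
  rw [e3, sum_ite_mem, inter_eq_right.2 (fun u hu => by
    rw [mem_Ico] at hu; rw [mem_Ioc]; omega), sum_const, Nat.card_Ico, nsmul_eq_mul, mul_one,
    Nat.cast_sub h7, Real.norm_eq_abs, abs_le]
  have a1 := Nat.lt_floor_add_one (4 * (X * Real.exp v))
  have a2 := Nat.floor_le (show 0 ≤ 4 * (X * Real.exp v) by positivity)
  have a3 := Nat.le_ceil (X * Real.exp v)
  have a4 := Nat.ceil_lt_add_one hy.le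
  push_cast
  constructor <;> linarith

theorem wt_shift {X : ℝ} (hX : 1 < X) {h : ℕ} (hh : 2 * (h : ℝ) ≤ X) (Y : ℕ) :
    ∑ n ∈ Ioc 0 Y, |wt X (n + h) - wt X n| ≤ 32 * h := by
  have hX0 : 0 < X := by linarith
  have h0 : (0 : ℝ) ≤ h := Nat.cast_nonneg h
  have key : ∀ n ∈ Ioc 0 Y, |wt X (n + h) - wt X n| ≤
      if n ∈ Ioc 0 ⌊16 * X⌋₊ then 2 * h / X else 0 := by
    intro n hn
    have hn' : (0 : ℝ) < n := by exact_mod_cast (mem_Ioc.1 hn).1
    by_cases h1 : X / 2 ≤ n ∧ (n : ℝ) ≤ 16 * X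
    · rw [if_pos (mem_Ioc.2 ⟨(mem_Ioc.1 hn).1, Nat.le_floor h1.2⟩)]
      refine (tri_lip _ _).trans ?_
      rw [sub_sub_sub_cancel_right, Nat.cast_add, ← Real.log_div (by positivity) hn'.ne',
        abs_of_nonneg (Real.log_nonneg (by rw [le_div_iff₀ hn']; linarith))]
      refine (Real.log_le_sub_one_of_pos (by positivity)).trans ?_
      rw [div_sub_one hn'.ne', div_le_div_iff₀ hn' hX0]
      nlinarith [h1.1]
    · have z1 : wt X n = 0 := by
        by_contra hc
        have := wt_support hX hc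
        exact h1 ⟨by linarith [this.1], this.2⟩
      have z2 : wt X (n + h) = 0 := by
        by_contra hc
        have := wt_support hX hc
        rw [Nat.cast_add] at this
        exact h1 ⟨by linarith [this.1], by linarith [this.2]⟩
      rw [z1, z2, sub_zero, abs_zero]
      split_ifs
      · positivity
      · rfl
  refine (sum_le_sum key).trans ?_
  rw [sum_ite_mem, sum_const, nsmul_eq_mul]
  have h2 : ((Ioc 0 Y ∩ Ioc 0 ⌊16 * X⌋₊).card : ℝ) ≤ 16 * X := by
    refine le_trans ?_ (Nat.floor_le (by positivity))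
    exact_mod_cast (card_le_card inter_subset_right).trans (by simp)
  calc _ ≤ 16 * X * (2 * h / X) := mul_le_mul_of_nonneg_right h2 (by positivity)
    _ = 32 * h := by field_simp; ring

theorem shift_primes {X : ℝ} (hX : 1 < X) {h : ℕ} (hh : 2 * (h : ℝ) ≤ X) (Y : ℕ) (Φ : ℕ → ℝ)
    {Λ : ℝ} (h0 : ∀ n, 0 ≤ Φ n) (h1 : ∀ n, Φ n ≤ Λ) :
    ∑ n ∈ Ioc 0 Y, pw n * wt X n * Φ (n - h) ≤ Real.log (16 * X) *
      (∑ n ∈ Ioc 0 Y, wt X n * Φ n * (if (n + h).Prime then 1 else 0) + 32 * h * Λ) := by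
  have hL : 0 ≤ Real.log (16 * X) := Real.log_nonneg (by linarith)
  have hΛ : 0 ≤ Λ := (h0 0).trans (h1 0)
  have s1 : ∑ n ∈ Ioc 0 Y, pw n * wt X n * Φ (n - h) ≤
      ∑ n ∈ Ioc (0 + h) (Y + h), pw n * wt X n * Φ (n - h) := by
    rw [← sum_filter_ne_zero]
    refine sum_le_sum_of_subset_of_nonneg (fun n hn => ?_)
      fun n _ _ => mul_nonneg (mul_nonneg (pw_nonneg n) (wt_nonneg X n)) (h0 _)
    rw [mem_filter, mem_Ioc] at hn
    have h2 := (wt_support hX (right_ne_zero_of_mul (left_ne_zero_of_mul hn.2))).1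
    have h3 : 2 * h ≤ n := by exact_mod_cast hh.trans h2
    rw [mem_Ioc]; omega
  rw [← map_add_right_Ioc, sum_map] at s1
  simp only [addRightEmbedding_apply, Nat.add_sub_cancel] at s1
  refine s1.trans ((sum_le_sum (g := fun n => Real.log (16 * X) * (wt X n * Φ n *
    (if (n + h).Prime then 1 else 0) + |wt X (n + h) - wt X n| * Λ)) fun n _ => ?_).trans ?_)
  · have a1 := wt_nonneg X n
    have a2 := h0 n
    have a3 := abs_nonneg (wt X (n + h) - wt X n)
    by_cases hz : wt X (n + h) = 0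
    · rw [hz, mul_zero, zero_mul]
      split_ifs <;> positivity
    rw [pw]
    split_ifs with hp
    · rw [mul_assoc, mul_one]
      refine mul_le_mul (Real.log_le_log (by exact_mod_cast hp.pos) (wt_support hX hz).2) ?_
        (mul_nonneg (wt_nonneg _ _) a2) hL
      nlinarith [le_abs_self (wt X (n + h) - wt X n), h1 n]
    · rw [zero_mul, zero_mul]
      positivity
  · rw [← mul_sum, sum_add_distrib, ← sum_mul]
    exact mul_le_mul_of_nonneg_left (add_le_add le_rfl
      (mul_le_mul_of_nonneg_right (wt_shift hX hh Y) hΛ)) hL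

theorem sep_bound {Φ α : Type} (F : Finset Φ) (s : Φ → Finset α) (c : Φ → α → ℂ)
    (m n : Φ → α → ℕ) {X : ℝ} (hX : 0 < X) {R : ℕ}
    (hm : ∀ x ∈ F, ∀ a ∈ s x, 0 < m x a ∧ m x a ≤ R ∧ 0 < n x a) {C : ℝ}
    (h : ∀ v : ℝ, ∑ x ∈ F, ‖∑ a ∈ s x, c x a * ((ind (Real.log (m x a) - v) *
      ind (Real.log (n x a) - Real.log X + v) : ℝ) : ℂ)‖ ≤ C) :
    ∑ x ∈ F, ‖∑ a ∈ s x, c x a * (wt X (m x a * n x a) : ℂ)‖ ≤ C * (Real.log R + Real.log 4) := by
  let f : Φ → ℝ → ℂ := fun x v => ∑ a ∈ s x, c x a * ((ind (Real.log (m x a) - v) *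
      ind (Real.log (n x a) - Real.log X + v) : ℝ) : ℂ)
  have i1 : ∀ x a, MeasureTheory.Integrable fun v => c x a * ((ind (Real.log (m x a) - v) *
      ind (Real.log (n x a) - Real.log X + v) : ℝ) : ℂ) :=
    fun x a => (ind_mul_integrable _ _).ofReal.const_mul _
  have i2 : ∀ x, MeasureTheory.Integrable (f x) := fun x =>
    MeasureTheory.integrable_finsetSum _ fun a _ => i1 x a
  have e1 : ∀ x ∈ F, ∑ a ∈ s x, c x a * (wt X (m x a * n x a) : ℂ) = ∫ v, f x v := by
    intro x hx
    rw [MeasureTheory.integral_finsetSum _ fun a _ => i1 x a]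
    refine Finset.sum_congr rfl fun a ha => ?_
    have hm' : (m x a : ℝ) ≠ 0 := by exact_mod_cast (hm x hx a ha).1.ne'
    have hn' : (n x a : ℝ) ≠ 0 := by exact_mod_cast (hm x hx a ha).2.2.ne'
    rw [MeasureTheory.integral_const_mul, integral_complex_ofReal, ← tri_add, wt, Nat.cast_mul,
      Real.log_mul hm' hn', add_sub_assoc]
  have hlY : 0 ≤ Real.log R := Real.log_natCast_nonneg R
  calc _ ≤ ∑ x ∈ F, ∫ v, ‖f x v‖ := Finset.sum_le_sum fun x hx => by
        rw [e1 x hx]; exact MeasureTheory.norm_integral_le_integral_norm _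
    _ = ∫ v, ∑ x ∈ F, ‖f x v‖ :=
        (MeasureTheory.integral_finsetSum _ fun x _ => (i2 x).norm).symm
    _ ≤ ∫ v, (Set.Icc (-Real.log 4) (Real.log R)).indicator (fun _ => C) v := by
        refine MeasureTheory.integral_mono
          (MeasureTheory.integrable_finsetSum _ fun x _ => (i2 x).norm)
          ((MeasureTheory.integrable_indicator_iff measurableSet_Icc).2
            (MeasureTheory.integrableOn_const (by simp))) fun v => ?_
        by_cases hv : v ∈ Set.Icc (-Real.log 4) (Real.log R)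
        · rw [Set.indicator_of_mem hv]
          exact h v
        · rw [Set.indicator_of_notMem hv]
          refine (Finset.sum_eq_zero fun x hx => ?_).le
          rw [norm_eq_zero]
          refine Finset.sum_eq_zero fun a ha => ?_
          have h1 : 0 ≤ Real.log (m x a) := Real.log_natCast_nonneg _
          have h2 : Real.log (m x a) ≤ Real.log R := Real.log_le_log
            (by exact_mod_cast (hm x hx a ha).1) (by exact_mod_cast (hm x hx a ha).2.1)
          rw [ind_eq, if_neg]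
          · simp
          · intro h3
            exact hv ⟨by linarith [h3.2], by linarith [h3.1]⟩
    _ = _ := by
        rw [MeasureTheory.integral_indicator_const _ measurableSet_Icc]
        simp only [Real.volume_real_Icc, smul_eq_mul]
        rw [max_eq_left (by linarith [log4_pos])]
        ring

end Pool.Agent.Lib.MP_9227d9_nt.H5
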