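import Pool.Agent.Lib.MP_9227d9_nt.H5.F1
import Pool.Agent.Lib.MP_9227d9_nt.H5.W1
import Pool.Agent.Lib.MP_9227d9_nt.H5.DefsM

/-! The choice of the cutoff, and the upper bound at one scale. -/

open Finset

namespace Pool.Agent.Lib.MP_9227d9_nt.H5

open Pool.Agent.Lib.MP_bee098_nt

variable {ι K : Type} [Fintype ι] [DecidableEq ι] [Fintype K] [DecidableEq K]
variable (P : ι → ℕ) [hP : ∀ i, Fact (P i).Prime]

omit [DecidableEq K] in
theorem f6_sv {y w J : ℕ} (hE : Enum P y) (B : Finset ι) (hB : ∀ i, i ∈ B ↔ P i ≤ w) {e l C : ℝ}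
    (hC : C = 2 * Real.exp 13) (he0 : 0 < e) (he1 : e ≤ 1) (hJ : 0 < J)
    (hJk : 2 ^ J ≤ Fintype.card K) (hw : 1000 * (Fintype.card K : ℝ) ^ 2 ≤ e * w)
    (hL : 0 < Real.log y) (hl : 32 * Fintype.card K * J * C * l = e * Real.log y)
    (c1 : w ≤ Real.exp l) :
    Sv P K Bᶜ w e (gf P J l) (Real.log y) ∧ J * l * Vp P B ≤ G1 P Bᶜ (gf P J l) ∧
      I2 P Bᶜ (gf P J l) ≤ 8 * l * (C * Vp P B) := by
  obtain ⟨hinj, hs, hPy⟩ := hE
  obtain ⟨L, hLL⟩ : ∃ L, L = Real.log y := ⟨_, rfl⟩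
  have hy0 : (0 : ℝ) < y := by
    rcases Nat.eq_zero_or_pos y with h | h
    · simp [h] at hL
    · exact_mod_cast h
  have eL : Real.exp L = y := by rw [hLL, Real.exp_log hy0]
  rw [← hLL] at hL hl ⊢
  set k : ℝ := (Fintype.card K : ℝ) with hk
  have hk1 : 1 ≤ Fintype.card K := le_trans Nat.one_le_two_pow hJk
  have hk1' : 1 ≤ k := by rw [hk]; exact_mod_cast hk1
  have hC1 : 1 ≤ C := by linarith [Real.add_one_le_exp 13]
  have hJ1 : (1 : ℝ) ≤ J := by exact_mod_cast hJ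
  have hw0 : (0 : ℝ) ≤ w := Nat.cast_nonneg w
  have hw3 : (3 : ℝ) ≤ w := by nlinarith
  have hl0 : 0 < l := by
    have h1 : 0 < 32 * k * J * C := by positivity
    exact (mul_pos_iff_of_pos_left h1).1 (hl ▸ mul_pos he0 hL)
  have hJl : 2 ^ J * l ≤ L / 2 := by
    have h1 : (2 : ℝ) ^ J ≤ k := by rw [hk]; exact_mod_cast hJk
    have h2 : 1 ≤ J * C := by nlinarith
    have h3 : 0 < k * l := by positivity
    nlinarith [mul_le_mul_of_nonneg_right h1 hl0.le, mul_le_mul_of_nonneg_left h2 h3.le,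
      mul_le_mul_of_nonneg_right he1 hL.le]
  have hjl : ∀ j < J, l ≤ 2 ^ j * l ∧ 2 ^ j * l ≤ L := fun j hj =>
    ⟨le_mul_of_one_le_left hl0.le (one_le_pow₀ one_le_two), le_trans (by
      gcongr; norm_num) (hJl.trans (by linarith))⟩
  have hs' : ∀ x ≤ L, ∀ p : ℕ, p.Prime → p ≤ Real.exp x → ∃ i, P i = p := fun x hx p hp h1 =>
    hs p hp (by exact_mod_cast h1.trans ((Real.exp_le_exp.2 hx).trans eL.le))
  have hV0 := Vp_pos P B
  have low : ∀ j < J, 2 ^ j * l * Vp P B ≤ ws (oA P Bᶜ) (cut P (2 ^ j * l)) := fun j hj => by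
    simpa using ws_low P hinj (hs' _ (hjl j hj).2) Bᶜ
  have up : ∀ j < J, ws (vA P Bᶜ) (cut P (2 ^ j * l)) ≤ 2 ^ j * l * (C * Vp P B) := fun j hj => by
    have h1 : w ≤ Real.exp (2 ^ j * l) := c1.trans (Real.exp_le_exp.2 (hjl j hj).1)
    rw [hC]
    exact ws_up P hinj Bᶜ B disjoint_compl_left
      (fun i hi => le_trans (by exact_mod_cast (hB i).1 hi) h1) (hw3.trans h1)
  have g1 := gf_low P J low
  obtain ⟨g2, g3⟩ := gf_up P J hl0.le (by positivity) (vA_nonneg P Bᶜ) up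
  have g4 : l * Vp P B ≤ I2 P Bᶜ (gf P J l) := by
    simpa [I2] using (low 0 hJ).trans (ws_mono (oA_nonneg P Bᶜ) (oA_le_vA P Bᶜ)
      (fun _ => sq_nonneg _) fun T => by simpa using cut_le_gf P hJ l T)
  refine ⟨⟨hinj, fun i hi => not_le.1 fun h1 => mem_compl.1 hi ((hB i).2 h1), hk1, he0, he1, hw,
    gf_nonneg P J l, gf_le P J l, ?_, gf_anti P J l, hL,
    fun T hT => (gf_support P J hl0.le T hT).trans hJl, ?_⟩, g1, g2⟩
  · have h1 := cut_le_gf P hJ l (∅ : Finset ι)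
    have h2 : cut P l (∅ : Finset ι) = 1 := by simp [cut, MP_bee098_nt.lp, hl0.le]
    have h3 := gf_nonneg P J l (∅ : Finset ι)
    nlinarith
  · calc _ ≤ 8 * k * (4 * J * l ^ 2 * (C * Vp P B)) := by gcongr
      _ = (32 * k * J * C * l) * (l * Vp P B) := by ring
      _ ≤ _ := by rw [hl]; gcongr

theorem f6_scale (π : K → Fin 4) {t : ℕ} (ht0 : 0 < t)
    (ht : ∀ i, (univ.filter (π · = i)).card = t) (h : K → ℕ) {y : ℕ} (hh : ∀ j, h j ≤ y) {X : ℝ}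
    (hX : 1 < X) (hyX : 2 * (y : ℝ) ≤ X) (Y : ℕ) (Φ : ℕ → ℝ) {Λ : ℝ} (h0 : ∀ n, 0 ≤ Φ n)
    (h1 : ∀ n, Φ n ≤ Λ) (β : K → ℕ → ℝ) (hβ0 : ∀ j n, 0 ≤ β j n)
    (hβ1 : ∀ j (n : ℕ), X ≤ n → (n + h j).Prime → β j n = 1)
    (hno : ∀ n : ℕ, X ≤ n → Φ n ≠ 0 → ∀ j j', (n + h j).Prime → (n + h j').Prime → π j = π j')
    {U ρ ε T : ℝ} (hU : 0 ≤ U) (hρ : 0 < ρ) (hε : 0 ≤ ε)
    (m0 : ∑ n ∈ Ioc 0 Y, wt X n * Φ n ≤ (1 + ε) * U)
    (m1 : ∀ j, (1 - ε) * (ρ * U) ≤ ∑ n ∈ Ioc 0 Y, wt X n * Φ n * β j n)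
    (m2 : ∀ j j', j ≠ j' →
      ∑ n ∈ Ioc 0 Y, wt X n * Φ n * (β j n * β j' n) ≤ (1 + ε) * (ρ ^ 2 * U))
    (m3 : ∀ j, ∑ n ∈ Ioc 0 Y, wt X n * Φ n * β j n ^ 2 ≤ 2 * T * (ρ * U)) :
    ∑ n ∈ Ioc 0 Y, (∑ j, pw n * Φ (n - h j)) * wt X n ≤ Real.log (16 * X) *
      (U * ((1 + ε) * (1.005 * (t * ρ)) + 200 * (4 * ε * (t * ρ) + 2 * T))
        + Fintype.card K * (32 * y * Λ)) := by
  have hc := conc π ht0 ht (Ioc 0 Y) (fun n => wt X n * Φ n)
    (fun n => mul_nonneg (wt_nonneg X n) (h0 n)) β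
    (fun n => ∑ j, if (n + h j).Prime then 1 else 0) (fun n _ hn => by
      have hXn := (wt_support hX (left_ne_zero_of_mul hn)).1
      by_cases h2 : ∃ j, (n + h j).Prime
      · obtain ⟨j0, hj0⟩ := h2
        refine ⟨π j0, ?_⟩
        rw [Finset.sum_filter]
        refine Finset.sum_le_sum fun j _ => ?_
        by_cases h3 : (n + h j).Prime
        · rw [if_pos h3, if_pos (hno n hXn (right_ne_zero_of_mul hn) j j0 h3 hj0),
            hβ1 j n hXn h3]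
        · rw [if_neg h3]
          split_ifs
          · exact hβ0 j n
          · rfl
      · push Not at h2
        refine ⟨0, ?_⟩
        rw [Finset.sum_eq_zero fun j _ => if_neg (h2 j)]
        exact Finset.sum_nonneg fun j _ => hβ0 j n) hU hρ hε m0 m1 m2 m3
  have hΛ : 0 ≤ Λ := (h0 0).trans (h1 0)
  have hl : 0 ≤ Real.log (16 * X) := Real.log_nonneg (by linarith)
  calc _ = ∑ j, ∑ n ∈ Ioc 0 Y, pw n * wt X n * Φ (n - h j) := by
        rw [Finset.sum_comm]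
        refine Finset.sum_congr rfl fun n _ => ?_
        rw [Finset.sum_mul]
        exact Finset.sum_congr rfl fun j _ => by ring
    _ ≤ ∑ j, Real.log (16 * X) * (∑ n ∈ Ioc 0 Y, wt X n * Φ n *
          (if (n + h j).Prime then 1 else 0) + 32 * y * Λ) := by
        refine Finset.sum_le_sum fun j _ => ?_
        have h2 : (h j : ℝ) ≤ y := by exact_mod_cast hh j
        refine (shift_primes hX (by linarith) Y Φ h0 h1).trans ?_
        gcongr
    _ ≤ _ := by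
        rw [← Finset.mul_sum, Finset.sum_add_distrib, Finset.sum_const, card_univ, nsmul_eq_mul,
          Finset.sum_comm]
        simp only [← Finset.mul_sum]
        gcongr

end Pool.Agent.Lib.MP_9227d9_nt.H5
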