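import Pool.Agent.Lib.MP_9227d9_nt.H5.DefsM

/-! Large conductors and real characters. -/

open Finset

namespace Pool.Agent.Lib.MP_9227d9_nt.H5

open Pool.Agent.Lib.MP_bee098_nt

theorem p6b_card {p : ℕ} [Fact p.Prime] :
    ((univ.filter fun χ : DirichletCharacter ℂ p => χ ^ 2 = 1).card : ℝ) ≤ 2 := by
  have : IsCyclic (DirichletCharacter ℂ p) :=
    (DirichletCharacter.mulEquiv_units ℂ p).some.isCyclic.2 inferInstance
  have h := IsCyclic.card_pow_eq_one_le (α := DirichletCharacter ℂ p) (n := 2) two_pos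
  exact_mod_cast h

theorem p6b_loc {ι : Type} (P : ι → ℕ) [∀ i, Fact (P i).Prime] {c : ℝ} (hc : 0 ≤ c) (i : ι) :
    (c * om (P i)) ^ 2 * Real.exp (Real.log (P i) / 2)
      ≤ 4 * c ^ 2 * ((P i : ℝ) ^ (3 / 2 : ℝ))⁻¹ := by
  have h2 := two_le P i
  have h0 : (0 : ℝ) < P i := by linarith
  have h1 : (P i : ℝ) ^ (3 / 2 : ℝ) * Real.exp (Real.log (P i) / 2) = (P i : ℝ) ^ 2 := by
    rw [Real.rpow_def_of_pos h0, ← Real.exp_add, show Real.log (P i) * (3 / 2) + Real.log (P i) / 2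
      = (2 : ℕ) * Real.log (P i) by push_cast; ring, Real.exp_nat_mul, Real.exp_log h0]
  have h3 : 0 < (P i : ℝ) ^ (3 / 2 : ℝ) := Real.rpow_pos_of_pos h0 _
  have h4 := om_pos P i
  calc _ ≤ (c * (2 * (P i : ℝ)⁻¹)) ^ 2 * Real.exp (Real.log (P i) / 2) := by
        gcongr
        exact om_le P i
    _ = _ := by
        rw [eq_mul_inv_iff_mul_eq₀ h3.ne', mul_assoc, mul_comm (Real.exp _), h1]
        field_simp
        norm_num

theorem real_tail {c : ℝ} (hc : 0 ≤ c) : ∃ C1 : ℝ, 0 ≤ C1 ∧ ∀ (ι : Type) [Fintype ι]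
    [DecidableEq ι] (P : ι → ℕ) [∀ i, Fact (P i).Prime], Function.Injective P →
      ∀ (B : Finset ι) (F0 : ℝ), 0 < F0 → ∑ χ ∈ univ.filter
        (fun χ : Ch P => (∀ i, χ i ^ 2 = 1) ∧ F0 < lp P (cs P χ \ B)), wgt P B c χ ^ 2
          ≤ 2 ^ B.card * C1 / F0 := by
  have hs : Summable fun n : ℕ => ((n : ℝ) ^ (3 / 2 : ℝ))⁻¹ :=
    Real.summable_nat_rpow_inv.2 (by norm_num)
  refine ⟨2 * Real.exp (8 * c ^ 2 * ∑' n : ℕ, ((n : ℝ) ^ (3 / 2 : ℝ))⁻¹), by positivity, ?_⟩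
  intro ι _ _ P hP hinj B F0 hF
  let g : ι → ℝ := fun i => 4 * c ^ 2 * ((P i : ℝ) ^ (3 / 2 : ℝ))⁻¹
  have hg : ∀ i, 0 ≤ g i := fun i => by simp only [g]; positivity
  let f : ∀ i, DirichletCharacter ℂ (P i) → ℝ := fun i χ =>
    if χ ^ 2 = 1 then (if χ ≠ 1 ∧ i ∉ B then g i else 1) else 0
  have hf : ∀ i χ, 0 ≤ f i χ := fun i χ => by
    have := hg i
    simp only [f]; split_ifs <;> positivity
  have h1 : ∀ i, ∑ χ, f i χ ≤ (if i ∈ B then 2 else 1) * Real.exp (2 * g i) := fun i => by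
    have h2 := Real.add_one_le_exp (2 * g i)
    have h3 := hg i
    have h4 := p6b_card (p := P i)
    simp only [f]
    rw [← Finset.sum_filter]
    split_ifs with h
    · simp only [h, not_true, and_false, if_false, Finset.sum_const, nsmul_eq_mul]
      nlinarith
    · calc _ ≤ ∑ χ ∈ univ.filter fun χ : DirichletCharacter ℂ (P i) => χ ^ 2 = 1,
            ((if χ = 1 then 1 else 0) + g i) := by
            refine Finset.sum_le_sum fun χ _ => ?_
            by_cases h5 : χ = 1 <;> simp [h5, h, h3]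
        _ ≤ _ := by
            rw [Finset.sum_add_distrib, Finset.sum_ite_eq', Finset.sum_const, nsmul_eq_mul]
            split_ifs <;> nlinarith
  have h2 : ∑ i, 2 * g i ≤ 8 * c ^ 2 * ∑' n : ℕ, ((n : ℝ) ^ (3 / 2 : ℝ))⁻¹ := by
    have h3 := hs.sum_le_tsum (univ.image P) fun n _ => by positivity
    rw [Finset.sum_image hinj.injOn] at h3
    refine le_trans (le_of_eq ?_) (mul_le_mul_of_nonneg_left h3 (by positivity))
    rw [Finset.mul_sum]
    exact Finset.sum_congr rfl fun i _ => by simp only [g]; ring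
  rw [le_div_iff₀ hF, Finset.sum_mul]
  calc _ ≤ ∑ χ ∈ univ.filter
        (fun χ : Ch P => (∀ i, χ i ^ 2 = 1) ∧ F0 < lp P (cs P χ \ B)), 2 * ∏ i, f i (χ i) := by
        refine Finset.sum_le_sum fun χ hχ => ?_
        obtain ⟨h3, h4⟩ := (mem_filter.1 hχ).2
        have e : ∏ i, f i (χ i) = ∏ i ∈ cs P χ \ B, g i := by
          rw [show cs P χ \ B = univ.filter fun i => χ i ≠ 1 ∧ i ∉ B by ext; simp [cs],
            Finset.prod_filter]
          exact Finset.prod_congr rfl fun i _ => if_pos (h3 i)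
        have h5 : F0 ≤ 2 * Real.exp (lp P (cs P χ \ B) / 2) := by
          linarith [Real.add_one_le_exp (lp P (cs P χ \ B) / 2)]
        calc _ ≤ wgt P B c χ ^ 2 * (2 * Real.exp (lp P (cs P χ \ B) / 2)) := by gcongr
          _ = 2 * ∏ i ∈ cs P χ \ B, (c * om (P i)) ^ 2 * Real.exp (Real.log (P i) / 2) := by
              rw [MP_bee098_nt.lp, Finset.sum_div, Real.exp_sum, wgt, ← Finset.prod_pow,
                Finset.prod_mul_distrib (f := fun i => (c * om (P i)) ^ 2)]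
              ring
          _ ≤ _ := by
              rw [e]
              exact mul_le_mul_of_nonneg_left (Finset.prod_le_prod (fun _ _ => by positivity)
                fun i _ => p6b_loc P hc i) zero_le_two
    _ ≤ 2 * ∏ i, ∑ χ, f i χ := by
        rw [← Finset.mul_sum, Fintype.prod_sum]
        exact mul_le_mul_of_nonneg_left (Finset.sum_le_sum_of_subset_of_nonneg (subset_univ _)
          fun χ _ _ => Finset.prod_nonneg fun i _ => hf _ _) zero_le_two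
    _ ≤ 2 * ∏ i, (if i ∈ B then 2 else 1) * Real.exp (2 * g i) :=
        mul_le_mul_of_nonneg_left (Finset.prod_le_prod
          (fun i _ => Finset.sum_nonneg fun χ _ => hf i χ) fun i _ => h1 i) zero_le_two
    _ ≤ _ := by
        rw [Finset.prod_mul_distrib, ← Real.exp_sum, Finset.prod_ite_mem, univ_inter,
          Finset.prod_const, mul_left_comm]
        gcongr

variable {ι : Type} [Fintype ι] [DecidableEq ι] (P : ι → ℕ) [hP : ∀ i, Fact (P i).Prime]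

theorem wgt_nonneg (B : Finset ι) {c : ℝ} (hc : 0 ≤ c) (χ : Ch P) : 0 ≤ wgt P B c χ :=
  Finset.prod_nonneg fun i _ => mul_nonneg hc (om_pos P i).le

theorem wgt_le (B : Finset ι) {c : ℝ} (hc : 0 ≤ c) (hB : ∀ i ∉ B, 4 * c ^ 2 ≤ P i) (χ : Ch P) :
    wgt P B c χ ≤ Real.exp (-(lp P (cs P χ \ B) / 2)) := by
  have h3 : wgt P B c χ ^ 2 ≤ Real.exp (-(lp P (cs P χ \ B) / 2)) ^ 2 := by
    calc _ = ∏ i ∈ cs P χ \ B, (c * om (P i)) ^ 2 := by rw [wgt, Finset.prod_pow]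
      _ ≤ ∏ i ∈ cs P χ \ B, (P i : ℝ)⁻¹ := by
          refine Finset.prod_le_prod (fun _ _ => sq_nonneg _) fun i hi => ?_
          have h4 := hB i (mem_sdiff.1 hi).2
          have h5 := pow_le_pow_left₀ (om_pos P i).le (om_le P i) 2
          have h6 := two_le P i
          calc _ = c ^ 2 * om (P i) ^ 2 := by ring
            _ ≤ (P i / 4) * (2 * (P i : ℝ)⁻¹) ^ 2 := by gcongr; linarith
            _ = _ := by field_simp; norm_num
      _ = _ := by
          rw [Finset.prod_inv_distrib, ← exp_lp, ← Real.exp_neg, ← Real.exp_nat_mul]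
          congr 1
          push_cast
          ring
  exact (pow_le_pow_iff_left₀ (wgt_nonneg P B hc χ) (Real.exp_pos _).le two_ne_zero).1 h3

omit [Fintype ι] hP in
theorem p6b_lp (S B : Finset ι) : lp P S ≤ lp P (S \ B) + lp P B :=
  (lp_mono P (show S ⊆ S \ B ∪ B by rw [sdiff_union_self_eq_union]; exact subset_union_left)).trans
    (lp_union P _ _)

theorem esum_big (B : Finset ι) {c : ℝ} (hc : 0 ≤ c) (hB : ∀ i ∉ B, 4 * c ^ 2 ≤ P i)
    (L F F0 : ℝ) {η : ℝ} (hη : 0 < η) (Ψ : Ch P → ℂ) :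
    ∑ χ ∈ univ.filter (fun χ : Ch P => (cs P χ ≠ ∅ ∧ lp P (cs P χ \ B) ≤ L) ∧
      (F < lp P (cs P χ \ B) ∨ (∀ i, χ i ^ 2 = 1) ∧ F0 < lp P (cs P χ \ B))), wgt P B c χ * ‖Ψ χ‖
      ≤ Real.exp (-(F / 2)) * ∑ χ ∈ Fc P (L + lp P B), ‖Ψ χ‖
        + η * ∑ χ ∈ Fc P (L + lp P B), ‖Ψ χ‖ ^ 2 + η⁻¹ * ∑ χ ∈ univ.filter
          (fun χ : Ch P => (∀ i, χ i ^ 2 = 1) ∧ F0 < lp P (cs P χ \ B)), wgt P B c χ ^ 2 := by
  simp only [Fc, Finset.sum_filter, Finset.mul_sum, ← Finset.sum_add_distrib]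
  refine Finset.sum_le_sum fun χ _ => ?_
  have h0 := wgt_nonneg P B hc χ
  have h1 := norm_nonneg (Ψ χ)
  by_cases h : (cs P χ ≠ ∅ ∧ lp P (cs P χ \ B) ≤ L) ∧
      (F < lp P (cs P χ \ B) ∨ (∀ i, χ i ^ 2 = 1) ∧ F0 < lp P (cs P χ \ B))
  · have h2 : cs P χ ≠ ∅ ∧ lp P (cs P χ) ≤ L + lp P B :=
      ⟨h.1.1, (p6b_lp P _ B).trans (add_le_add_left h.1.2 _)⟩
    rw [if_pos h, if_pos h2, if_pos h2]
    rcases h.2 with h3 | h3
    · have h4 : wgt P B c χ ≤ Real.exp (-(F / 2)) :=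
        (wgt_le P B hc hB χ).trans (Real.exp_le_exp.2 (by linarith))
      refine (mul_le_mul_of_nonneg_right h4 h1).trans ?_
      rw [add_assoc]
      refine le_add_of_nonneg_right ?_
      split_ifs <;> positivity
    · rw [if_pos h3, add_assoc]
      refine le_trans ?_ (le_add_of_nonneg_left (by positivity))
      generalize ‖Ψ χ‖ = a at *
      generalize wgt P B c χ = b at *
      have e : η * a ^ 2 + η⁻¹ * b ^ 2 - 2 * (b * a) = (η * a - b) ^ 2 / η := by field_simp; ring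
      have h4 : 0 ≤ (η * a - b) ^ 2 / η := by positivity
      have h5 : 0 ≤ b * a := by positivity
      linarith
  · rw [if_neg h]
    split_ifs <;> positivity

theorem esum_rest (hinj : Function.Injective P) (B : Finset ι) {c : ℝ} (hc : 0 ≤ c)
    (hB : ∀ i ∉ B, 4 * c ^ 2 ≤ P i) (L F F0 : ℝ) {δ : ℝ} (hδ : 0 ≤ δ) (Ψ : Ch P → ℂ)
    (h : ∀ χ : Ch P, cs P χ ≠ ∅ → lp P (cs P χ) ≤ F + lp P B →
      ((∃ i, χ i ^ 2 ≠ 1) ∨ lp P (cs P χ) ≤ F0 + lp P B) → ‖Ψ χ‖ ≤ δ) :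
    ∑ χ ∈ univ.filter (fun χ : Ch P => (cs P χ ≠ ∅ ∧ lp P (cs P χ \ B) ≤ L) ∧
      ¬ (F < lp P (cs P χ \ B) ∨ (∀ i, χ i ^ 2 = 1) ∧ F0 < lp P (cs P χ \ B))), wgt P B c χ * ‖Ψ χ‖
      ≤ Real.exp (3 * (F + lp P B) + 1) * δ := by
  refine le_trans ?_ (mul_le_mul_of_nonneg_right (card_Fc P hinj (F + lp P B)) hδ)
  rw [← nsmul_eq_mul, ← Finset.sum_const]
  simp only [Fc, Finset.sum_filter]
  refine Finset.sum_le_sum fun χ _ => ?_
  by_cases h1 : (cs P χ ≠ ∅ ∧ lp P (cs P χ \ B) ≤ L) ∧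
      ¬ (F < lp P (cs P χ \ B) ∨ (∀ i, χ i ^ 2 = 1) ∧ F0 < lp P (cs P χ \ B))
  · obtain ⟨h3, h4⟩ := not_or.1 h1.2
    have h5 := p6b_lp P (cs P χ) B
    have h2 : cs P χ ≠ ∅ ∧ lp P (cs P χ) ≤ F + lp P B := ⟨h1.1.1, by linarith [not_lt.1 h3]⟩
    rw [if_pos h1, if_pos h2]
    have h6 : wgt P B c χ ≤ 1 := (wgt_le P B hc hB χ).trans
      (Real.exp_le_one_iff.2 (by linarith [lp_nonneg P (cs P χ \ B)]))
    refine (mul_le_of_le_one_left (norm_nonneg _) h6).trans (h χ h2.1 h2.2 ?_)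
    rcases not_and_or.1 h4 with h7 | h7
    · exact Or.inl (not_forall.1 h7)
    · exact Or.inr (by linarith [not_lt.1 h7])
  · rw [if_neg h1]
    split_ifs
    · exact hδ
    · rfl

theorem scale_moments {y a : ℕ} (hE : Enum P y) (ha : 1 ≤ a) {L' : ℝ} (hL' : 0 ≤ L')
    (hy : 100 ≤ y) (hL : L' ≤ 3 * Real.log y) {X : ℝ} (hX : (y : ℝ) ^ (400 * a) ≤ X)
    (hX' : X ≤ (y : ℝ) ^ (404 * a)) :
    ∑ χ ∈ Fc P L', ‖Ps P X (16 * y ^ (404 * a)) χ‖ ≤ 200 * (400 * a * Real.log y) ^ 2 * X ∧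
    ∑ χ ∈ Fc P L', ‖Ps P X (16 * y ^ (404 * a)) χ‖ ^ 2 ≤ 10 ^ 6 * Real.exp 13 * a * X ^ 2 := by
  obtain ⟨hinj, hs, hPr⟩ := hE
  have hr' : (100 : ℝ) ≤ y := by exact_mod_cast hy
  have hr1 : (1 : ℝ) ≤ y := by linarith
  have hr0 : (0 : ℝ) < y := by linarith
  have ha' : (1 : ℝ) ≤ a := by exact_mod_cast ha
  obtain ⟨L, hLe⟩ : ∃ L, L = Real.log y := ⟨_, rfl⟩
  rw [← hLe] at hL ⊢
  have eL : Real.exp L = y := by rw [hLe, Real.exp_log hr0]
  have en : ∀ n : ℕ, Real.exp (n * L) = y ^ n := fun n => by rw [Real.exp_nat_mul, eL]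
  have e3 := Real.exp_one_lt_three
  have hL1 : 2 ≤ L := by
    rw [← Real.exp_le_exp, eL, show (2 : ℝ) = 1 + 1 by norm_num, Real.exp_add]
    nlinarith [Real.exp_pos 1]
  have hLr : L ≤ y := by linarith [Real.add_one_le_exp L]
  obtain ⟨R, hR⟩ : ∃ R : ℝ, R = y ^ (404 * a) := ⟨_, rfl⟩
  have hR1 : 1 ≤ R := hR ▸ one_le_pow₀ hr1
  have pw : ∀ b : ℕ, b < 400 * a → 100 * (y : ℝ) ^ b ≤ X := fun b hb =>
    le_trans (le_trans (by rw [pow_succ']; gcongr) (pow_le_pow_right₀ hr1 (Nat.succ_le_of_lt hb)))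
      hX
  have hX1 : 100 ≤ X := by simpa using pw 0 (by omega)
  have lg : ∀ x : ℝ, 0 < x → x ≤ 17 * R → Real.log x ≤ 405 * a * L := fun x h0 h => by
    rw [Real.log_le_iff_le_exp h0]
    have h1 := en (405 * a)
    push_cast at h1
    refine h.trans (le_trans ?_ h1.symm.le)
    refine le_trans ?_ (pow_le_pow_right₀ hr1 (show 404 * a + 1 ≤ 405 * a by omega))
    rw [pow_succ', hR]
    gcongr
    linarith
  have l4 : Real.log 4 ≤ 1.4 := by
    rw [show (4 : ℝ) = 2 ^ 2 by norm_num, Real.log_pow]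
    push_cast
    linarith [Real.log_two_lt_d9]
  have l40 := log4_pos
  have ex : ∀ (n : ℕ) (s t : ℝ), s ≤ n * L + t → Real.exp s ≤ y ^ n * Real.exp t :=
    fun n s t h => by rw [← en, ← Real.exp_add]; exact Real.exp_le_exp.2 h
  have haL : 2 ≤ a * L := by nlinarith
  constructor
  · have h := Ps_mean P hinj L' (U := y ^ 16) (by exact_mod_cast
      (show (4 : ℝ) ≤ y ^ 16 by linarith [le_self_pow₀ hr1 (show 16 ≠ 0 by norm_num)])) (by
        have h1 := ex 15 (5 * L' + 1) 1 (by push_cast; linarith)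
        push_cast
        rw [pow_succ _ 15]
        nlinarith [pow_pos hr0 15]) (X := X)
      (by push_cast; nlinarith [pw 16 (by omega), pow_pos hr0 16])
      (Y := 16 * y ^ (404 * a)) (by push_cast; linarith)
    refine h.trans ?_
    push_cast
    rw [← hR]
    have h1 := lg (16 * R + 1) (by positivity) (by linarith)
    have lY := lg (16 * R) (by positivity) (by linarith)
    have lY0 : 0 ≤ Real.log (16 * R) := Real.log_nonneg (by linarith)
    have h2 : √(16 * R) ≤ 4 * y ^ (202 * a) := Real.sqrt_le_iff.2 ⟨by positivity, le_of_eq (by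
      rw [hR, show 404 * a = 202 * a * 2 by ring, pow_mul]; ring)⟩
    have h3 : ((y : ℝ) ^ 16) ^ 3 ≤ X := by
      rw [← pow_mul]; nlinarith [pw (16 * 3) (by omega), pow_pos hr0 (16 * 3)]
    have h4 : 0 ≤ Real.log (16 * R + 1) := Real.log_nonneg (by linarith)
    have h5 : Real.exp (3 * L' + 1) ≤ y ^ 9 * 3 :=
      (ex 9 _ 1 (by push_cast; linarith)).trans (by gcongr)
    have h6 : (y : ℝ) ^ 9 * y ^ (202 * a) ≤ X := by
      rw [← pow_add]; nlinarith [pw (9 + 202 * a) (by omega), pow_pos hr0 (9 + 202 * a)]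
    calc _ ≤ (32 * X + 2 * X) * (405 * a * L) * (405 * a * L + a * L)
          + y ^ 9 * 3 * (2 * (4 * y ^ (202 * a)) * (405 * a * L) * (a * L)) := by
          gcongr <;> linarith
      _ = 5590620 * (a * L) ^ 2 * X + 9720 * (a * L) ^ 2 * (y ^ 9 * y ^ (202 * a)) := by ring
      _ ≤ 5590620 * (a * L) ^ 2 * X + 9720 * (a * L) ^ 2 * X := by gcongr
      _ ≤ _ := by nlinarith [mul_nonneg (sq_nonneg (a * L)) (show 0 ≤ X by linarith)]
  · obtain ⟨Y, hY⟩ : ∃ Y : ℕ, Y = ⌊16 * X⌋₊ := ⟨_, rfl⟩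
    have hY1 : (Y : ℝ) ≤ 16 * X := hY ▸ Nat.floor_le (by linarith)
    have hY0 : (0 : ℝ) < Y := by
      have := Nat.lt_floor_add_one (16 * X)
      rw [← hY] at this
      linarith
    have e : ∀ χ, Ps P X (16 * y ^ (404 * a)) χ = Ps P X Y χ := fun χ => by
      refine (Finset.sum_subset (Ioc_subset_Ioc_right ?_) fun n hn hn' => ?_).symm
      · exact_mod_cast (show (Y : ℝ) ≤ 16 * y ^ (404 * a) by linarith)
      · by_contra h
        have h1 := (aw_support (show 1 < X by linarith)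
          (Complex.ofReal_ne_zero.1 (left_ne_zero_of_mul h))).2.2
        exact hn' (mem_Ioc.2 ⟨(mem_Ioc.1 hn).1, hY ▸ Nat.le_floor h1⟩)
    simp only [e]
    have h := Ps_second P hinj (L := L) (fun p hp h => hs p hp (by exact_mod_cast eL ▸ h))
      (fun i => by rw [eL]; exact_mod_cast hPr i) (by linarith) hL'
      (X := X) (by nlinarith [pw 1 (by omega)]) Y
    refine h.trans ?_
    have h1 : Real.exp (5 * L' + 6 * L + 3) ≤ y ^ 21 * Real.exp 13 :=
      ex 21 _ 13 (by push_cast; linarith)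
    have h2 : 4 * (y : ℝ) ^ 21 ≤ X / L := by
      rw [le_div_iff₀ (by linarith)]
      calc _ ≤ 100 * y ^ 21 * (y : ℝ) := by gcongr; norm_num
        _ ≤ _ := by rw [mul_assoc, ← pow_succ]; exact pw 22 (by omega)
    have lY := lg Y hY0 (by linarith)
    have lY0 := Real.log_natCast_nonneg Y
    have hL0 : 0 < L := by linarith
    calc _ ≤ (16 * X * (2 * Real.exp 13 / L) + X / L * Real.exp 13) *
          (405 * a * L * (16 * X) * 1.4 ^ 3) := by
          have h3 : 4 * Real.exp (5 * L' + 6 * L + 3) ≤ X / L * Real.exp 13 :=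
            (mul_le_mul_of_nonneg_left h1 (by norm_num)).trans (by rw [← mul_assoc]; gcongr)
          have h4 : 0 ≤ X := by linarith
          gcongr
      _ = 33 * 405 * 16 * 1.4 ^ 3 * (Real.exp 13 * a * X ^ 2) := by field_simp; ring
      _ ≤ _ := by rw [mul_assoc (10 ^ 6 : ℝ), mul_assoc (10 ^ 6 : ℝ)]; gcongr; norm_num

end Pool.Agent.Lib.MP_9227d9_nt.H5
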