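import Pool.Agent.Lib.MP_9227d9_nt.H5.P1
import Pool.Agent.Lib.MP_9227d9_nt.H5.DefsM
import Pool.Agent.Lib.MP_a3366f_nt.An5

/-! The main term of the averaged prime sum, and Dirichlet characters of families. -/

open Finset

namespace Pool.Agent.Lib.MP_9227d9_nt.H5

open Pool.Agent.Lib.MP_bee098_nt

theorem p7_mertens : ∃ C : ℝ, 0 ≤ C ∧ ∀ M N : ℕ, 1 ≤ M → M ≤ N →
    Real.log N - Real.log M - C ≤ ∑ n ∈ Ioc M N, pw n / n := by
  obtain ⟨C, hC⟩ := Pool.Agent.Lib.MP_a3366f_nt.mertens_primes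
  have e : ∀ N : ℕ, ∑ p ∈ (Ioc 0 N).filter Nat.Prime, Real.log p / p =
      ∑ n ∈ Ioc 0 N, pw n / n := fun N => by
    rw [sum_filter]
    refine sum_congr rfl fun n _ => ?_
    unfold pw
    split_ifs <;> simp
  refine ⟨2 * C, by linarith [(abs_nonneg _).trans (hC 1 le_rfl)], fun M N hM hN => ?_⟩
  have h1 := abs_le.1 (hC M hM)
  have h2 := abs_le.1 (hC N (hM.trans hN))
  rw [e] at h1 h2
  have h3 := sum_Ioc_consecutive (fun n : ℕ => pw n / n) (Nat.zero_le M) hN
  linarith [h1.2, h2.1]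

theorem p7_one : ∃ K : ℝ, 0 ≤ K ∧ ∀ l v : ℝ, 17 ≤ l → 0 ≤ v → ∀ Y : ℕ, Real.exp (v + l) ≤ Y →
    9 / l * (l - K) ≤ ∑ n ∈ Ioc 0 Y, pw n * nu l 1 v n := by
  obtain ⟨C, hC0, hC⟩ := p7_mertens
  refine ⟨C + 17, by linarith, fun l v hl hv Y hY => ?_⟩
  have hl0 : 0 < l := by linarith
  have e1 : 1 ≤ Real.exp v := Real.one_le_exp hv
  have e2 : 1 ≤ Real.exp (v + l) := Real.one_le_exp (by linarith)
  obtain ⟨M, hM1, hM2⟩ : ∃ M : ℕ, 16 * Real.exp v ≤ M ∧ (M : ℝ) ≤ 17 * Real.exp v :=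
    ⟨⌈16 * Real.exp v⌉₊, Nat.le_ceil _, by
      linarith [Nat.ceil_lt_add_one (show 0 ≤ 16 * Real.exp v by linarith)]⟩
  obtain ⟨N, hN1, hN2⟩ : ∃ N : ℕ, (N : ℝ) ≤ Real.exp (v + l) ∧ Real.exp (v + l) ≤ 2 * N := by
    refine ⟨⌊Real.exp (v + l)⌋₊, Nat.floor_le (by linarith), ?_⟩
    have h1 := Nat.lt_floor_add_one (Real.exp (v + l))
    have h2 : (1 : ℝ) ≤ ⌊Real.exp (v + l)⌋₊ := by exact_mod_cast Nat.floor_pos.2 e2
    linarith
  have hM0 : (0 : ℝ) < M := by linarith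
  have hN0 : (0 : ℝ) < N := by linarith
  have a1 : Real.log M ≤ 16 + v := by
    have := Real.log_le_log hM0 hM2
    rw [Real.log_mul (by norm_num) (by positivity), Real.log_exp] at this
    linarith [Real.log_le_sub_one_of_pos (show (0 : ℝ) < 17 by norm_num)]
  have a2 : v + l ≤ 1 + Real.log N := by
    have := Real.log_le_log (by positivity) hN2
    rw [Real.log_mul (by norm_num) hN0.ne', Real.log_exp] at this
    linarith [Real.log_le_sub_one_of_pos (show (0 : ℝ) < 2 by norm_num)]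
  have hMN : M ≤ N := by
    exact_mod_cast (Real.log_le_log_iff hM0 hN0).1 (by linarith)
  have h1 := hC M N (by exact_mod_cast (show (1 : ℝ) ≤ M by linarith)) hMN
  calc 9 / l * (l - (C + 17)) ≤ 9 / l * ∑ n ∈ Ioc M N, pw n / n :=
        mul_le_mul_of_nonneg_left (by linarith) (by positivity)
    _ = ∑ n ∈ Ioc M N, pw n * nu l 1 v n := by
        rw [mul_sum]
        refine sum_congr rfl fun n hn => ?_
        obtain ⟨g1, g2⟩ := mem_Ioc.1 hn
        have g3 : (M : ℝ) ≤ n := by exact_mod_cast g1.le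
        have g4 : (n : ℝ) ≤ N := by exact_mod_cast g2
        rw [nu, ker_one hl0]
        · ring
        · have := Real.log_le_log (by positivity) (hM1.trans g3)
          rw [Real.log_mul (by norm_num) (by positivity), Real.log_exp,
            show (16 : ℝ) = 4 ^ 2 by norm_num, Real.log_pow] at this
          push_cast at this
          linarith
        · have := Real.log_le_log (by linarith) (g4.trans hN1)
          rw [Real.log_exp] at this
          linarith
    _ ≤ _ := sum_le_sum_of_subset_of_nonneg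
        (Ioc_subset_Ioc (Nat.zero_le M) (by exact_mod_cast hN1.trans hY))
        fun n _ _ => mul_nonneg (pw_nonneg n) (nu_nonneg hl0 _ _ _)

theorem main_ge {ε : ℝ} (hε : 0 < ε) : ∀ᶠ L : ℝ in Filter.atTop, ∀ Y : ℕ,
    16 * Real.exp (1.01 * L) ≤ Y → 9 * (1 - ε) ≤ ∑ n ∈ Ioc 0 Y, pa L n := by
  obtain ⟨K, hK0, hK⟩ := p7_one
  filter_upwards [Filter.eventually_ge_atTop (6600 * 17),
    Filter.eventually_ge_atTop (6600 * (K / ε))] with L h1 h2 Y hY
  have hl : 17 ≤ L / 6600 := by linarith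
  have hl0 : 0 < L / 6600 := by linarith
  have h3 : K ≤ L / 6600 * ε := (div_le_iff₀ hε).1 (by linarith)
  have h4 := nu_sum_le hl0 (Ioc 0 Y) (fun n => -pw n) 1 65 L (-(9 * (1 - ε))) fun v v1 v2 => by
    have g1 := hK (L / 6600) v hl (by linarith) Y (by
      have := Real.exp_le_exp.2 (show v + L / 6600 ≤ 1.01 * L by push_cast at v2; linarith)
      linarith [Real.exp_pos (1.01 * L)])
    have g2 : 9 * (1 - ε) ≤ 9 / (L / 6600) * (L / 6600 - K) := by
      rw [div_mul_eq_mul_div, le_div_iff₀ hl0]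
      linarith
    simp only [neg_mul, sum_neg_distrib]
    linarith
  simp only [neg_mul, sum_neg_distrib, neg_le_neg_iff] at h4
  exact h4

theorem p7_prod {κ : Type} {q : ℕ} (s : Finset κ) (f : κ → DirichletCharacter ℂ q) {x : ZMod q}
    (hx : IsUnit x) : (∏ i ∈ s, f i) x = ∏ i ∈ s, f i x := by
  classical
  induction s using Finset.induction_on with
  | empty => simpa using MulChar.one_apply hx
  | insert a s ha ih => rw [prod_insert ha, prod_insert ha, MulChar.mul_apply, ih]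

variable {ι : Type} [Fintype ι] [DecidableEq ι] (P : ι → ℕ) [hP : ∀ i, Fact (P i).Prime]

theorem p7_point (hinj : Function.Injective P) (χ : Ch P) (i₀ : ι) (a : (ZMod (P i₀))ˣ) :
    ∃ n : ℕ, Xc P χ n = χ i₀ a := by
  obtain ⟨n, hn⟩ := Nat.chineseRemainderOfFinset
    (fun i => if i = i₀ then (a : ZMod (P i₀)).val else 1) P univ
    (fun i _ => (hP i).out.ne_zero)
    fun i _ j _ hij => (Nat.coprime_primes (hP i).out (hP j).out).2 (hinj.ne hij)
  refine ⟨n, ?_⟩
  rw [Xc, Finset.prod_eq_single i₀ (fun i _ hi => ?_) fun h => absurd (mem_univ _) h]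
  · have := (ZMod.natCast_eq_natCast_iff _ _ _).2 (hn i₀ (mem_univ _))
    rw [if_pos rfl, ZMod.natCast_zmod_val] at this
    rw [this, loc_unit _ a.ne_zero]
  · have := (ZMod.natCast_eq_natCast_iff _ _ _).2 (hn i (mem_univ _))
    rw [if_neg hi, Nat.cast_one] at this
    rw [this, loc_unit _ one_ne_zero, map_one]

theorem Xc_dirichlet (hinj : Function.Injective P) (χ : Ch P) (h : cs P χ ≠ ∅) :
    ∃ (q : ℕ) (_ : NeZero q) (ψ : DirichletCharacter ℂ q), (q : ℝ) = Real.exp (lp P (cs P χ)) ∧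
      ψ ≠ 1 ∧ ((∃ i, χ i ^ 2 ≠ 1) → ψ ^ 2 ≠ 1) ∧ ∀ n : ℕ, Xc P χ n = ψ n := by
  obtain ⟨ψ, hψ⟩ : ∃ ψ : DirichletCharacter ℂ (∏ i ∈ cs P χ, P i), ∀ n : ℕ, Xc P χ n = ψ n := by
    refine ⟨∏ i : cs P χ, DirichletCharacter.changeLevel (dvd_prod_of_mem P i.2) (χ i),
      fun n => ?_⟩
    by_cases hn : n.Coprime (∏ i ∈ cs P χ, P i)
    · rw [p7_prod _ _ ((ZMod.isUnit_iff_coprime _ _).2 hn), Xc,
        ← prod_subset (subset_univ (cs P χ)) fun i _ hi => ?_, ← prod_coe_sort]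
      · refine prod_congr rfl fun i _ => ?_
        have := DirichletCharacter.changeLevel_eq_cast_of_dvd' (χ i) (dvd_prod_of_mem P i.2)
          (Nat.isCoprime_iff_coprime.2 hn)
        rw [Int.cast_natCast, Int.cast_natCast] at this
        rw [this, loc, if_neg (mem_filter.1 i.2).2]
      · rw [loc, if_pos]
        by_contra e
        exact hi (mem_filter.2 ⟨mem_univ _, e⟩)
    · rw [MulChar.map_nonunit _ (mt (ZMod.isUnit_iff_coprime _ _).1 hn)]
      rw [Nat.coprime_prod_right_iff] at hn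
      push Not at hn
      obtain ⟨i, hi, hn⟩ := hn
      refine prod_eq_zero (mem_univ i) ?_
      rw [loc, if_neg (mem_filter.1 hi).2,
        MulChar.map_nonunit _ (mt (ZMod.isUnit_iff_coprime _ _).1 hn)]
  have key : ∀ e i, e ≠ 0 → χ i ^ e ≠ 1 → ψ ^ e ≠ 1 := fun e i he h1 h2 => by
    obtain ⟨a, ha⟩ := MulChar.ne_one_iff.1 h1
    obtain ⟨n, hn⟩ := p7_point P hinj χ i a
    rw [hψ] at hn
    have hu : IsUnit (n : ZMod (∏ i ∈ cs P χ, P i)) := by
      by_contra hu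
      rw [MulChar.map_nonunit _ hu] at hn
      exact (a.isUnit.map (χ i)).ne_zero hn.symm
    rw [MulChar.pow_apply_coe, ← hn, ← MulChar.pow_apply' _ he, h2, MulChar.one_apply hu] at ha
    exact ha rfl
  refine ⟨_, ⟨prod_ne_zero_iff.2 fun i _ => (hP i).out.ne_zero⟩, ψ, ?_, ?_,
    fun ⟨i, hi⟩ => key 2 i two_ne_zero hi, hψ⟩
  · rw [MP_bee098_nt.lp, Real.exp_sum, Nat.cast_prod]
    exact prod_congr rfl fun i _ => (Real.exp_log (by exact_mod_cast (hP i).out.pos)).symm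
  · obtain ⟨i, hi⟩ := nonempty_iff_ne_empty.2 h
    simpa using key 1 i one_ne_zero (by simpa using (mem_filter.1 hi).2)

end Pool.Agent.Lib.MP_9227d9_nt.H5
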