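import Pool.Agent.Lib.MP_9227d9_nt.H5.P4
import Pool.Agent.Lib.MP_9227d9_nt.H5.P6b
import Pool.Agent.Lib.MP_9227d9_nt.H5.P7

/-! The error term is small. -/

open Finset

namespace Pool.Agent.Lib.MP_9227d9_nt.H5

open Pool.Agent.Lib.MP_bee098_nt

section

variable {ι : Type} [Fintype ι] [DecidableEq ι] (P : ι → ℕ) [hP : ∀ i, Fact (P i).Prime]

omit [Fintype ι] [DecidableEq ι] hP in
theorem p6c_card (hinj : Function.Injective P) {B : Finset ι} {w : ℕ}
    (hB : ∀ i, i ∈ B ↔ P i ≤ w) : B.card ≤ w + 1 :=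
  (card_le_card_of_injOn P (fun i hi => mem_range.2 (Nat.lt_succ_of_le ((hB i).1 hi)))
    hinj.injOn).trans (card_range (w + 1)).le

omit [Fintype ι] [DecidableEq ι] hP in
theorem p6c_lp (hinj : Function.Injective P) {B : Finset ι} {w : ℕ}
    (hB : ∀ i, i ∈ B ↔ P i ≤ w) : lp P B ≤ (w + 1) * w := by
  refine (Finset.sum_le_card_nsmul _ _ (w : ℝ) fun i hi => (Real.log_le_self
    (Nat.cast_nonneg _)).trans (by exact_mod_cast (hB i).1 hi)).trans ?_
  rw [nsmul_eq_mul]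
  gcongr
  exact_mod_cast p6c_card P hinj hB

omit [DecidableEq ι] in
theorem p6c_scale (l v : ℝ) (Y : ℕ) (χ : Ch P) :
    ∑ n ∈ Ioc 0 Y, ((pw n : ℂ) * Xc P χ n) * (nu l 0 v n : ℂ)
      = (Real.exp (-v) : ℝ) * Ps P (Real.exp v) Y χ := by
  rw [Ps, Finset.mul_sum]
  refine Finset.sum_congr rfl fun n hn => ?_
  rw [nu_zero l v (mem_Ioc.1 hn).1, aw, pw]
  split_ifs
  · push_cast; ring
  · simp

omit [DecidableEq ι] in
theorem p6c_psi (L : ℝ) (s : Finset ℕ) (χ : Ch P) :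
    Psi P s (pa L) χ = ∑ n ∈ s, ((pw n : ℂ) * Xc P χ n) * (nu (L / 6600) 66 L n : ℂ) := by
  refine Finset.sum_congr rfl fun n _ => ?_
  rw [pa]; push_cast; ring

theorem p6c_big {y a : ℕ} (hE : Enum P y) (ha : 1 ≤ a) (hy : 100 ≤ y) (B : Finset ι) {c : ℝ}
    (hc : 0 ≤ c) (hB : ∀ i ∉ B, 4 * c ^ 2 ≤ P i) (hlB : lp P B ≤ Real.log y) (F F0 : ℝ) {η : ℝ}
    (hη : 0 < η) :
    ∑ χ ∈ univ.filter (fun χ : Ch P => (cs P χ ≠ ∅ ∧ lp P (cs P χ \ B) ≤ 2 * Real.log y) ∧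
      (F < lp P (cs P χ \ B) ∨ (∀ i, χ i ^ 2 = 1) ∧ F0 < lp P (cs P χ \ B))),
        wgt P B c χ * ‖Psi P (Ioc 0 (16 * y ^ (404 * a))) (pa (400 * a * Real.log y)) χ‖
      ≤ Real.exp (-(F / 2)) * (200 * (400 * a * Real.log y) ^ 2)
        + η * (10 ^ 6 * Real.exp 13 * a) + η⁻¹ * ∑ χ ∈ univ.filter
          (fun χ : Ch P => (∀ i, χ i ^ 2 = 1) ∧ F0 < lp P (cs P χ \ B)), wgt P B c χ ^ 2 := by
  have hy' : (100 : ℝ) ≤ y := by exact_mod_cast hy
  have ha' : (1 : ℝ) ≤ a := by exact_mod_cast ha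
  have hl : 0 < Real.log y := Real.log_pos (by linarith)
  have en : ∀ n : ℕ, Real.exp (n * Real.log y) = (y : ℝ) ^ n := fun n => by
    rw [Real.exp_nat_mul, Real.exp_log (by linarith)]
  simp only [p6c_psi]
  refine nu_norm_le (by positivity) _ _ (fun χ _ => wgt_nonneg P B hc χ) _ _ 66 _ _
    fun v h1 h2 => ?_
  simp only [p6c_scale]
  have hX : (y : ℝ) ^ (400 * a) ≤ Real.exp v := by
    rw [← en, Real.exp_le_exp]; push_cast; exact h1
  have hX' : Real.exp v ≤ (y : ℝ) ^ (404 * a) := by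
    rw [← en, Real.exp_le_exp]; push_cast at h2 ⊢; linarith
  obtain ⟨m1, m2⟩ := scale_moments P hE ha (L' := 2 * Real.log y + lp P B)
    (by linarith [lp_nonneg P B]) hy (by linarith) hX hX'
  have e1 : Real.exp (-v) * Real.exp v = 1 := by rw [← Real.exp_add]; simp
  have e0 := Real.exp_pos (-v)
  refine (esum_big P B hc hB _ F F0 hη _).trans (add_le_add_left (add_le_add
    (mul_le_mul_of_nonneg_left ?_ (Real.exp_pos _).le) (mul_le_mul_of_nonneg_left ?_ hη.le)) _)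
  · simp only [norm_mul, Complex.norm_real, Real.norm_of_nonneg e0.le, ← Finset.mul_sum]
    refine (mul_le_mul_of_nonneg_left m1 e0.le).trans (le_of_eq ?_)
    rw [mul_left_comm, e1, mul_one]
  · simp only [norm_mul, Complex.norm_real, Real.norm_of_nonneg e0.le, mul_pow, ← Finset.mul_sum]
    refine (mul_le_mul_of_nonneg_left m2 (by positivity)).trans (le_of_eq ?_)
    rw [mul_left_comm, ← mul_pow, e1, one_pow, mul_one]

end

theorem esum_small (a w : ℕ) (ha : 1 ≤ a) {c : ℝ} (hc : 0 ≤ c) (hw : 4 * c ^ 2 ≤ w) {ε : ℝ}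
    (hε : 0 < ε) : ∀ᶠ y : ℕ in Filter.atTop, ∀ (ι : Type) [Fintype ι] [DecidableEq ι] (P : ι → ℕ)
      [∀ i, Fact (P i).Prime] (B : Finset ι), Enum P y → (∀ i, i ∈ B ↔ P i ≤ w) →
        Esum P B c (2 * Real.log y)
          (Psi P (Ioc 0 (16 * y ^ (404 * a))) (pa (400 * a * Real.log y))) ≤ ε := by
  obtain ⟨C1, hC1, hT⟩ := real_tail hc
  have ha' : (1 : ℝ) ≤ a := by exact_mod_cast ha
  obtain ⟨η, hη⟩ : ∃ η, η = ε / (8 * (10 ^ 6 * Real.exp 13 * a)) := ⟨_, rfl⟩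
  have hη0 : 0 < η := by rw [hη]; positivity
  obtain ⟨F0, hF0⟩ : ∃ F0, F0 = η⁻¹ * (2 ^ (w + 1) * C1) * 8 / ε + 1 := ⟨_, rfl⟩
  have hF00 : 0 < F0 := by rw [hF0]; positivity
  obtain ⟨b, hb⟩ : ∃ b : ℝ, b = (w + 1) * w := ⟨_, rfl⟩
  have hlog : Filter.Tendsto (fun y : ℕ => Real.log y) Filter.atTop Filter.atTop :=
    Real.tendsto_log_atTop.comp tendsto_natCast_atTop_atTop
  have hL : Filter.Tendsto (fun y : ℕ => 400 * a * Real.log y) Filter.atTop Filter.atTop :=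
    hlog.const_mul_atTop (by positivity)
  filter_upwards [Filter.eventually_ge_atTop 100, hlog.eventually_ge_atTop b,
    hL.eventually (small_char ⌈Real.exp (F0 + b)⌉₊), hL.eventually_ge_atTop (Real.exp b),
    hL.eventually_ge_atTop (1600 / ε), hL.eventually_ge_atTop 1,
    hL.eventually_ge_atTop (2 * Real.exp (3 * b + 1) / ε)] with y hy a1 a2 a3 a4 a5 a6
  intro ι _ _ P _ B hE hB
  have hy' : (100 : ℝ) ≤ y := by exact_mod_cast hy
  have en : ∀ n : ℕ, Real.exp (n * Real.log y) = (y : ℝ) ^ n := fun n => by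
    rw [Real.exp_nat_mul, Real.exp_log (by linarith)]
  have hlB : lp P B ≤ b := hb ▸ p6c_lp P hE.1 hB
  have hB' : ∀ i ∉ B, 4 * c ^ 2 ≤ P i := fun i hi =>
    hw.trans (by exact_mod_cast (not_le.1 fun h => hi ((hB i).2 h)).le)
  have big := p6c_big P hE ha hy B hc hB' (hlB.trans a1) (6 * Real.log (400 * a * Real.log y)) F0 hη0
  have y1 : 16 * Real.exp (1.01 * (400 * a * Real.log y)) ≤ (16 * y ^ (404 * a) : ℕ) := by
    push_cast
    rw [← en]
    refine le_of_eq ?_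
    congr 2
    push_cast
    ring
  have y2 : ((16 * y ^ (404 * a) : ℕ) : ℝ) ≤ Real.exp (1.5 * (400 * a * Real.log y)) := by
    rw [show 1.5 * (400 * a * Real.log y) = (600 * a : ℕ) * Real.log y by push_cast; ring, en]
    push_cast
    calc _ ≤ y * (y : ℝ) ^ (404 * a) := by gcongr; linarith
      _ = (y : ℝ) ^ (404 * a + 1) := by ring
      _ ≤ _ := pow_le_pow_right₀ (by linarith) (by omega)
  generalize 400 * a * Real.log y = L at *
  have hL0 : 0 < L := by linarith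
  have eL : ∀ n : ℕ, Real.exp (n * Real.log L) = L ^ n := fun n => by
    rw [Real.exp_nat_mul, Real.exp_log hL0]
  have rest := esum_rest P hE.1 B hc hB' (2 * Real.log y) (6 * Real.log L) F0
    (δ := (L ^ 20)⁻¹) (by positivity) (Psi P (Ioc 0 (16 * y ^ (404 * a))) (pa L))
    (fun χ h1 h2 h3 => by
      obtain ⟨q, hq, ψ, g1, g2, g3, g4⟩ := Xc_dirichlet P hE.1 χ h1
      simp only [Psi, g4]
      refine a2 q ψ ?_ g2 (h3.imp g3 fun h => ?_) _ y1 y2
      · rw [g1]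
        calc _ ≤ Real.exp ((6 : ℕ) * Real.log L + b) := by
              rw [Real.exp_le_exp]; push_cast; linarith
          _ ≤ L ^ 6 * L := by rw [Real.exp_add, eL]; gcongr
          _ = _ := by ring
      · refine Nat.cast_le (α := ℝ).1 (le_trans ?_ (Nat.le_ceil _))
        rw [g1, Real.exp_le_exp]
        linarith)
  rw [Esum, ← Finset.sum_filter_add_sum_filter_not _ (fun χ : Ch P =>
    6 * Real.log L < lp P (cs P χ \ B) ∨ (∀ i, χ i ^ 2 = 1) ∧ F0 < lp P (cs P χ \ B)),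
    filter_filter, filter_filter]
  have t1 : Real.exp (-(6 * Real.log L / 2)) * (200 * L ^ 2) ≤ ε / 8 := by
    rw [show -(6 * Real.log L / 2) = -((3 : ℕ) * Real.log L) by push_cast; ring, Real.exp_neg, eL,
      inv_mul_le_iff₀ (by positivity)]
    rw [div_le_iff₀ hε] at a4
    nlinarith [mul_le_mul_of_nonneg_left a4 (sq_nonneg L)]
  have t2 : η * (10 ^ 6 * Real.exp 13 * a) ≤ ε / 8 := by
    rw [hη]; refine le_of_eq ?_; field_simp
  have t3 : η⁻¹ * ∑ χ ∈ univ.filter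
      (fun χ : Ch P => (∀ i, χ i ^ 2 = 1) ∧ F0 < lp P (cs P χ \ B)), wgt P B c χ ^ 2 ≤ ε / 8 := by
    refine (mul_le_mul_of_nonneg_left (hT ι P hE.1 B F0 hF00) (inv_pos.2 hη0).le).trans ?_
    have h1 : (2 : ℝ) ^ B.card ≤ 2 ^ (w + 1) :=
      pow_le_pow_right₀ one_le_two (p6c_card P hE.1 hB)
    rw [← mul_div_assoc, div_le_iff₀ hF00]
    calc _ ≤ η⁻¹ * (2 ^ (w + 1) * C1) := by gcongr
      _ ≤ η⁻¹ * (2 ^ (w + 1) * C1) + ε / 8 := by linarith
      _ = _ := by rw [hF0]; field_simp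
  have t4 : Real.exp (3 * (6 * Real.log L + lp P B) + 1) * (L ^ 20)⁻¹ ≤ ε / 2 := by
    rw [← div_eq_mul_inv, div_le_iff₀ (by positivity)]
    rw [div_le_iff₀ hε] at a6
    calc _ ≤ Real.exp ((18 : ℕ) * Real.log L + (3 * b + 1)) := by
          rw [Real.exp_le_exp]; push_cast; linarith
      _ = L ^ 18 * Real.exp (3 * b + 1) := by rw [Real.exp_add, eL]
      _ ≤ L ^ 19 * (L * ε / 2) := by
          gcongr
          · norm_num
          · linarith
      _ = _ := by ring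
  linarith

end Pool.Agent.Lib.MP_9227d9_nt.H5
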