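import Pool.Agent.Lib.MP_9227d9_nt.H5.F6
import Pool.Agent.Lib.MP_9227d9_nt.H5.P6c
import Pool.Agent.Lib.MP_9227d9_nt.H5.C1

/-! Four parts suffice. -/

open Finset

namespace Pool.Agent.Lib.MP_9227d9_nt.H5

open Pool.Agent.Lib.MP_bee098_nt

theorem thmB : ∃ t : ℕ, ∀ h : Fin 4 × Fin t → ℕ, Function.Injective h → ∀ β : ℕ → ℕ,
    (∀ p : ℕ, p.Prime → ∀ j, ¬ p ∣ β p + h j) → ∀ w0 : ℕ, ∃ w ≥ w0, ∀ n0 : ℕ, ∃ n ≥ n0,
      (∀ p : ℕ, p.Prime → p ≤ w → n ≡ β p [MOD p]) ∧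
        ∃ j j' : Fin 4 × Fin t, j.1 ≠ j'.1 ∧ (n + h j).Prime ∧ (n + h j').Prime := by
  obtain ⟨a, ha⟩ : ∃ a : ℕ, 10 ^ 11 ≤ a := ⟨_, le_rfl⟩
  obtain ⟨T, hT⟩ : ∃ T : ℝ, (2 : ℝ) ^ (600 * a) ≤ T := ⟨_, le_rfl⟩
  obtain ⟨J, hJ⟩ := exists_nat_ge (10 ^ 17 * (2 * Real.exp 13) ^ 2 * a * T ^ 4)
  obtain ⟨t, hJt⟩ : ∃ t : ℕ, 2 ^ J ≤ t := ⟨_, le_rfl⟩
  refine ⟨t, fun h hinj β hβ w0 => ?_⟩
  obtain ⟨c, hc⟩ : ∃ c : ℝ, c = Fintype.card (Fin 4 × Fin t) * Cc (Fin 4 × Fin t) := ⟨_, rfl⟩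
  have hc0 : 0 ≤ c := by rw [hc, Cc]; positivity
  obtain ⟨w, w1, w2, w3, w4⟩ : ∃ w : ℕ, w0 ≤ w ∧ 10 ^ 10 * (4 * t) ^ 2 ≤ w ∧ univ.sup h ≤ w ∧
      4 * c ^ 2 ≤ w :=
    ((Filter.eventually_ge_atTop _).and ((Filter.eventually_ge_atTop _).and
      ((Filter.eventually_ge_atTop _).and
        (tendsto_natCast_atTop_atTop.eventually_ge_atTop _)))).exists
  refine ⟨w, w1, fun n0 => ?_⟩
  have ha1 : 1 ≤ a := le_trans (by norm_num) ha
  have ha0 : (0 : ℝ) < a := by exact_mod_cast ha1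
  have hT0 : 0 < T := lt_of_lt_of_le (by positivity) hT
  have hJ0 : (0 : ℝ) < J := lt_of_lt_of_le (by positivity) hJ
  have ht0 : (0 : ℝ) < t := by
    have : 0 < t := lt_of_lt_of_le (by positivity) hJt
    exact_mod_cast this
  have hlog : Filter.Tendsto (fun y : ℕ => Real.log y) Filter.atTop Filter.atTop :=
    Real.tendsto_log_atTop.comp tendsto_natCast_atTop_atTop
  have e1 : ∀ᶠ y : ℕ in Filter.atTop,
      (w : ℝ) ≤ Real.exp (Real.log y / (10 ^ 7 * (32 * (4 * t) * J * (2 * Real.exp 13)))) :=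
    (Real.tendsto_exp_atTop.comp (hlog.atTop_div_const (by positivity))).eventually_ge_atTop _
  have e5 := (hlog.const_mul_atTop (r := (400 : ℝ) * a) (by positivity)).eventually
    (main_ge (ε := (1 : ℝ) / 10 ^ 7) (by norm_num))
  obtain ⟨y, c1, c2, c3, c4, c5, c6, c7, c8⟩ := (e1.and
    ((tendsto_natCast_atTop_atTop.eventually_ge_atTop (Real.exp ((w + 1) * w))).and
    ((tendsto_natCast_atTop_atTop.eventually_ge_atTop
      ((2 ^ (4 * t) * Real.exp (4 * t)) ^ 2 * Real.exp 4 : ℝ)).and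
    ((tendsto_natCast_atTop_atTop.eventually_ge_atTop (10 ^ 32 * T ^ 8 * a ^ 6 : ℝ)).and
    (e5.and ((esum_small a w ha1 hc0 w4 (ε := 1 / 10 ^ 7) (by norm_num)).and
    ((Filter.eventually_ge_atTop n0).and (Filter.eventually_ge_atTop (w + 1))))))))).exists
  let P : y.primesLE → ℕ := Subtype.val
  have hP : ∀ i, Fact (P i).Prime := fun i => ⟨(Nat.mem_primesLE.1 i.2).2⟩
  have hE : Enum P y := ⟨Subtype.val_injective, fun p hp h =>
    ⟨⟨p, Nat.mem_primesLE.2 ⟨h, hp⟩⟩, rfl⟩, fun i => (Nat.mem_primesLE.1 i.2).1⟩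
  let B := univ.filter fun i => P i ≤ w
  have hB : ∀ i, i ∈ B ↔ P i ≤ w := fun i => by simp [B]
  have hlB : lp P B ≤ (w + 1) * w := by
    have h1 : B.card ≤ w + 1 := by
      rw [← Finset.card_range (w + 1)]
      exact Finset.card_le_card_of_injOn P
        (fun i hi => by simpa [Nat.lt_succ_iff] using (hB i).1 hi) hE.1.injOn
    have h2 : lp P B ≤ B.card • (w : ℝ) := Finset.sum_le_card_nsmul _ _ _ fun i hi =>
      (Real.log_le_self (Nat.cast_nonneg _)).trans (by exact_mod_cast (hB i).1 hi)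
    rw [nsmul_eq_mul] at h2
    refine h2.trans (mul_le_mul_of_nonneg_right ?_ (Nat.cast_nonneg _))
    exact_mod_cast h1
  have hy0 : (0 : ℝ) < y := by
    have : 0 < y := by omega
    exact_mod_cast this
  obtain ⟨n, n1, n2, n3⟩ := core4 P hE B hB h hinj
    (fun j => (Finset.le_sup (f := h) (mem_univ j)).trans w3) (fun i => (β (P i) : ZMod (P i)))
    (fun i _ j e => hβ _ (hP i).out j (by
      rw [← ZMod.natCast_eq_zero_iff]; push_cast; exact e)) ha hT hJt hJ w2 c1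
    ((Real.exp_le_exp.2 hlB).trans c2) c3 c4 (c5 _ (by
      rw [show 1.01 * (400 * a * Real.log y) = ((404 * a : ℕ) : ℝ) * Real.log y by
        push_cast; ring, Real.exp_nat_mul, Real.exp_log hy0]
      push_cast; rfl)) (by rw [← hc]; exact c6 _ P B hE hB)
  refine ⟨n, c7.trans n1, fun p hp hpw => ?_, n3⟩
  obtain ⟨i, rfl⟩ := hE.2.1 p hp (by omega)
  exact (ZMod.natCast_eq_natCast_iff _ _ _).1 (n2 i ((hB i).2 hpw))

theorem thmA : ∃ t : ℕ, ∀ h : Fin 4 × Fin t → ℕ, Function.Injective h →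
    (∀ p : ℕ, p.Prime → ∃ a : ℕ, ∀ j, ¬ p ∣ a + h j) →
      ∃ j j' : Fin 4 × Fin t, j.1 ≠ j'.1 ∧ h j < h j' ∧ Pol (h j' - h j) := by
  obtain ⟨t, ht⟩ := thmB
  exact ⟨t, fun h hinj hadm => consec (fun j => j.1) h hinj hadm (ht h hinj)⟩

theorem pol_density {d : ℕ} (hd : 1 ≤ d) {ε : ℝ} (hε : 0 < ε) : ∃ N0 : ℕ, ∀ N ≥ N0, ∀ M : ℕ,
    (1 / 3 - ε) * N ≤ ({m : ℕ | M < m ∧ m ≤ M + N ∧ Pol (2 * d * m)}.ncard : ℝ) := by
  obtain ⟨t, ht⟩ := thmA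
  refine density (fun m => Pol (2 * d * m)) t (fun h hinj hadm => ?_) hε
  have hd2 : 0 < 2 * d := by omega
  obtain ⟨j, j', h1, h2, h3⟩ := ht (fun j => 2 * d * h j)
    (fun j j' e => hinj (Nat.eq_of_mul_eq_mul_left hd2 e)) (fun p hp => by
      by_cases hpd : p ∣ d
      · refine ⟨1, fun j e => hp.one_lt.ne' (Nat.dvd_one.1 ?_)⟩
        exact (Nat.dvd_add_left ((hpd.mul_left 2).mul_right _)).1 e
      · obtain ⟨a, ha⟩ := hadm p hp
        refine ⟨d * a, fun j e => ?_⟩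
        rw [show d * a + 2 * d * h j = d * (a + 2 * h j) by ring] at e
        exact ((Nat.Prime.dvd_mul hp).1 e).elim hpd (ha j))
  exact ⟨j, j', h1, Nat.lt_of_mul_lt_mul_left h2, by rwa [Nat.mul_sub]⟩

end Pool.Agent.Lib.MP_9227d9_nt.H5
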