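import Pool.Agent.Lib.MP_9227d9_nt.H5.Defs

/-! Counting rough divisors and solutions of a reciprocal equation. -/

open Finset

namespace Pool.Agent.Lib.MP_9227d9_nt.H5

open Pool.Agent.Lib.MP_bee098_nt

theorem rough_dvd {y R D d : ℕ} (hD : D ∈ Rough y R) (h : d ∣ D) : d ∈ Rough y R := by
  rw [mem_Rough] at hD ⊢
  obtain ⟨⟨h1, h2⟩, h3, h4⟩ := hD
  refine ⟨⟨Nat.pos_of_dvd_of_pos h h1, (Nat.le_of_dvd h1 h).trans h2⟩, h3.squarefree_of_dvd h,
    fun p hp => h4 p (Nat.primeFactors_mono h (by omega) hp)⟩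

theorem rough_omega {y R D a : ℕ} (hy : 2 ≤ y) (hD : D ∈ Rough y R) (hR : R ≤ y ^ a) :
    D.primeFactors.card ≤ a := by
  rw [mem_Rough] at hD
  obtain ⟨⟨h1, h2⟩, h3, h4⟩ := hD
  have h5 : y ^ D.primeFactors.card ≤ ∏ p ∈ D.primeFactors, p :=
    Finset.pow_card_le_prod _ _ _ fun p hp => (h4 p hp).le
  rw [Nat.prod_primeFactors_of_squarefree h3] at h5
  exact (Nat.pow_le_pow_iff_right (by omega : 1 < y)).1 (h5.trans (h2.trans hR))

theorem rough_div {y R a M : ℕ} (hy : 2 ≤ y) (hM : 0 < M) (hMa : M ≤ y ^ a) :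
    ((Rough y R).filter (· ∣ M)).card ≤ 2 ^ a := by
  set S := M.primeFactors.filter (y < ·) with hS
  have h1 : y ^ S.card ≤ ∏ p ∈ S, p :=
    Finset.pow_card_le_prod _ _ _ fun p hp => (mem_filter.1 hp).2.le
  have h2 : ∏ p ∈ S, p ∣ M :=
    (Finset.prod_dvd_prod_of_subset _ _ _ (filter_subset _ _)).trans (Nat.prod_primeFactors_dvd M)
  have h3 : S.card ≤ a :=
    (Nat.pow_le_pow_iff_right (by omega : 1 < y)).1 (h1.trans ((Nat.le_of_dvd hM h2).trans hMa))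
  have h4 : ((Rough y R).filter (· ∣ M)).card ≤ S.powerset.card := by
    refine Finset.card_le_card_of_injOn (fun D => D.primeFactors) ?_ ?_
    · intro D hD
      simp only [coe_filter, Set.mem_ofPred_eq] at hD
      obtain ⟨hD, hd⟩ := hD
      rw [mem_Rough] at hD
      simp only [coe_powerset, Set.mem_preimage, Set.mem_powerset_iff, coe_subset]
      intro p hp
      exact mem_filter.2 ⟨Nat.primeFactors_mono hd hM.ne' hp, hD.2.2 p hp⟩
    · intro D hD E hE h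
      simp only [coe_filter, Set.mem_ofPred_eq] at hD hE
      have hD' := (mem_Rough.1 hD.1).2.1
      have hE' := (mem_Rough.1 hE.1).2.1
      simp only at h
      rw [← Nat.prod_primeFactors_of_squarefree hD', ← Nat.prod_primeFactors_of_squarefree hE', h]
  rw [card_powerset] at h4
  exact h4.trans (Nat.pow_le_pow_right (by norm_num) h3)

theorem k2_one_mem {y R : ℕ} (hR : 1 ≤ R) : 1 ∈ Rough y R := by
  rw [mem_Rough]
  exact ⟨⟨le_rfl, hR⟩, squarefree_one, by simp⟩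

theorem Qf_one1 {y R : ℕ} (hR : 1 ≤ R) (m : ℕ) : Qf (Rough y R) one1 m = 1 := by
  unfold Qf one1
  rw [Finset.sum_ite_eq', if_pos (mem_filter.2 ⟨k2_one_mem hR, one_dvd m⟩)]

theorem gam_one1 {y R : ℕ} (hR : 1 ≤ R) : gam (Rough y R) one1 one1 = 1 := by
  have h1 : ((1, 1) : ℕ × ℕ) ∈ Rough y R ×ˢ Rough y R :=
    mem_product.2 ⟨k2_one_mem hR, k2_one_mem hR⟩
  have h0 : ∀ d : ℕ × ℕ, d ≠ (1, 1) → one1 d.1 * one1 d.2 = 0 := by
    rintro ⟨a, b⟩ hd
    unfold one1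
    by_cases ha : a = 1
    · by_cases hb : b = 1
      · exact absurd (by rw [ha, hb]) hd
      · simp [hb]
    · simp [ha]
  unfold gam
  rw [Finset.sum_eq_single_of_mem _ h1, Finset.sum_eq_single_of_mem _ h1]
  · simp [one1]
  · intro e _ he
    rw [h0 e he]
    simp
  · intro d _ hd
    refine Finset.sum_eq_zero fun e _ => ?_
    rw [h0 d hd]
    simp

theorem Qf_prime {y R : ℕ} (hR : 1 ≤ R) (lam : ℕ → ℝ) {p : ℕ} (hp : p.Prime) (h : R < p) :
    Qf (Rough y R) lam p = lam 1 := by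
  unfold Qf
  have : (Rough y R).filter (· ∣ p) = {1} := by
    ext D
    simp only [mem_filter, mem_singleton]
    constructor
    · rintro ⟨h1, h2⟩
      rcases (Nat.dvd_prime hp).1 h2 with h3 | h3
      · exact h3
      · have := (mem_Rough.1 h1).1.2
        omega
    · rintro rfl
      exact ⟨k2_one_mem hR, one_dvd p⟩
  rw [this, sum_singleton]

theorem abs_Qf_le {y z : ℕ} {T : ℝ} (hT : DivB y z T) {lam : ℕ → ℝ} (hl : ∀ D, |lam D| ≤ T)
    {m : ℕ} (h0 : 0 < m) (h1 : m ≤ z ^ 600) : |Qf (Rough y (z ^ 104)) lam m| ≤ T ^ 2 := by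
  have hT0 : 0 ≤ T := (abs_nonneg _).trans (hl 0)
  unfold Qf
  refine (Finset.abs_sum_le_sum_abs _ _).trans ?_
  refine (Finset.sum_le_card_nsmul _ _ T fun D _ => hl D).trans ?_
  rw [nsmul_eq_mul, sq]
  exact mul_le_mul_of_nonneg_right (hT m h0 h1) hT0

theorem k2_red {a b c d : ℕ} (hc : 1 ≤ c) (h : Nq ((a, b), (c, d)) = 0) :
    (a + b) * c.gcd d * (c / c.gcd d) * (d / c.gcd d) =
      a * b * (c / c.gcd d) + a * b * (d / c.gcd d) := by
  have hg : 0 < c.gcd d := Nat.gcd_pos_of_pos_left d hc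
  obtain ⟨c', hc'⟩ := Nat.gcd_dvd_left c d
  obtain ⟨d', hd'⟩ := Nat.gcd_dvd_right c d
  generalize c.gcd d = g at hg hc' hd' ⊢
  subst hc' hd'
  rw [Nat.mul_div_cancel_left _ hg, Nat.mul_div_cancel_left _ hg]
  refine Nat.eq_of_mul_eq_mul_left hg ?_
  simp only [Nq] at h
  zify
  push_cast at h
  linear_combination h

theorem k2_fibre {y z : ℕ} (hz : 2 ≤ z) {T : ℝ} (hT : DivB y z T) {s : Finset ℕ}
    (hs : s ⊆ Rough y (z ^ 104)) {a b : ℕ} (ha : a ∈ s) (hb : b ∈ s) :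
    ((((s ×ˢ s)).filter fun e => Nq ((a, b), e) = 0).card : ℝ) ≤ T ^ 2 := by
  obtain ⟨⟨ha1, ha2⟩, -⟩ := mem_Rough.1 (hs ha)
  obtain ⟨⟨hb1, hb2⟩, -⟩ := mem_Rough.1 (hs hb)
  set F := (Rough y (z ^ 104)).filter (· ∣ a * b) with hF
  have hab : a * b ≤ z ^ 600 := by
    calc a * b ≤ z ^ 104 * z ^ 104 := Nat.mul_le_mul ha2 hb2
      _ = z ^ 208 := by rw [← pow_add]
      _ ≤ z ^ 600 := Nat.pow_le_pow_right (by omega) (by norm_num)
  have hFT : (F.card : ℝ) ≤ T := hT _ (Nat.mul_pos ha1 hb1) hab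
  have h4 : (((s ×ˢ s)).filter fun e => Nq ((a, b), e) = 0).card ≤ (F ×ˢ F).card := by
    refine Finset.card_le_card_of_injOn
      (fun e => (e.1 / e.1.gcd e.2, e.2 / e.1.gcd e.2)) ?_ ?_
    · rintro ⟨c, d⟩ he
      simp only [coe_filter, Set.mem_ofPred_eq, mem_product] at he
      obtain ⟨⟨hc, hd⟩, he⟩ := he
      have hc1 := (mem_Rough.1 (hs hc)).1.1
      have hr := k2_red hc1 he
      have hcop : (c / c.gcd d).Coprime (d / c.gcd d) :=
        Nat.coprime_div_gcd_div_gcd (Nat.gcd_pos_of_pos_left d hc1)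
      simp only [coe_product, Set.mem_prod, mem_coe, hF, mem_filter]
      refine ⟨⟨rough_dvd (hs hc) (Nat.div_dvd_of_dvd (Nat.gcd_dvd_left c d)), ?_⟩,
        ⟨rough_dvd (hs hd) (Nat.div_dvd_of_dvd (Nat.gcd_dvd_right c d)), ?_⟩⟩
      · refine hcop.dvd_of_dvd_mul_right ?_
        refine (Nat.dvd_add_right (Dvd.intro_left (a * b) rfl)).1 ?_
        rw [← hr]
        exact Dvd.dvd.mul_right (Dvd.intro_left _ rfl) _
      · refine hcop.symm.dvd_of_dvd_mul_right ?_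
        refine (Nat.dvd_add_left (Dvd.intro_left (a * b) rfl)).1 ?_
        rw [← hr]
        exact Dvd.intro_left _ rfl
    · rintro ⟨c, d⟩ he ⟨c2, d2⟩ he2 h
      simp only [coe_filter, Set.mem_ofPred_eq, mem_product] at he he2
      obtain ⟨⟨hc, hd⟩, he⟩ := he
      obtain ⟨⟨hc2, hd2⟩, he2⟩ := he2
      have hc1 := (mem_Rough.1 (hs hc)).1.1
      have hd1 := (mem_Rough.1 (hs hd)).1.1
      have hc21 := (mem_Rough.1 (hs hc2)).1.1
      have hr := k2_red hc1 he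
      have hr2 := k2_red hc21 he2
      simp only [Prod.mk.injEq] at h
      obtain ⟨h1, h2⟩ := h
      rw [← h1, ← h2, ← hr] at hr2
      have hp1 : 0 < c / c.gcd d :=
        Nat.div_pos (Nat.le_of_dvd hc1 (Nat.gcd_dvd_left c d)) (Nat.gcd_pos_of_pos_left d hc1)
      have hp2 : 0 < d / c.gcd d :=
        Nat.div_pos (Nat.le_of_dvd hd1 (Nat.gcd_dvd_right c d)) (Nat.gcd_pos_of_pos_left d hc1)
      have hg : c2.gcd d2 = c.gcd d :=
        Nat.eq_of_mul_eq_mul_left (by omega : 0 < a + b)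
          (Nat.eq_of_mul_eq_mul_right hp1 (Nat.eq_of_mul_eq_mul_right hp2 hr2))
      have e1 := Nat.mul_div_cancel' (Nat.gcd_dvd_left c d)
      have e2 := Nat.mul_div_cancel' (Nat.gcd_dvd_right c d)
      have e3 := Nat.mul_div_cancel' (Nat.gcd_dvd_left c2 d2)
      have e4 := Nat.mul_div_cancel' (Nat.gcd_dvd_right c2 d2)
      rw [← h1, hg] at e3
      rw [← h2, hg] at e4
      exact Prod.ext (e1.symm.trans e3) (e2.symm.trans e4)
  rw [card_product] at h4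
  have h5 : ((((s ×ˢ s)).filter fun e => Nq ((a, b), e) = 0).card : ℝ) ≤ F.card * F.card := by
    exact_mod_cast h4
  refine h5.trans ?_
  rw [sq]
  exact mul_le_mul hFT hFT (Nat.cast_nonneg _) ((Nat.cast_nonneg _).trans hFT)

theorem count_zero {y z : ℕ} (hz : 2 ≤ z) {T : ℝ} (hT : DivB y z T) {s : Finset ℕ}
    (hs : s ⊆ Rough y (z ^ 104)) :
    ((((s ×ˢ s) ×ˢ (s ×ˢ s)).filter fun q => Nq q = 0).card : ℝ) ≤ T ^ 2 * s.card ^ 2 := by
  rw [Finset.card_filter, Finset.sum_product]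
  push_cast
  have h : ∀ d ∈ s ×ˢ s, (∑ e ∈ s ×ˢ s, if Nq (d, e) = 0 then (1 : ℝ) else 0) ≤ T ^ 2 := by
    rintro ⟨a, b⟩ hd
    rw [mem_product] at hd
    have := k2_fibre hz hT hs hd.1 hd.2
    rw [Finset.card_filter] at this
    push_cast at this
    exact this
  refine (Finset.sum_le_card_nsmul _ _ _ h).trans (le_of_eq ?_)
  rw [nsmul_eq_mul, card_product]
  push_cast
  ring

theorem k2_Nq_le {R a b c d : ℕ} (ha : a ≤ R) (hb : b ≤ R) (hc : c ≤ R) (hd : d ≤ R) :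
    |Nq ((a, b), (c, d))| ≤ 2 * (R : ℤ) ^ 3 := by
  have h : ∀ u v w : ℕ, u ≤ R → v ≤ R → w ≤ R →
      0 ≤ (u : ℤ) * v * w ∧ (u : ℤ) * v * w ≤ (R : ℤ) ^ 3 := by
    intro u v w hu hv hw
    refine ⟨by positivity, ?_⟩
    have : u * v * w ≤ R * R * R := Nat.mul_le_mul (Nat.mul_le_mul hu hv) hw
    calc (u : ℤ) * v * w ≤ (R : ℤ) * R * R := by exact_mod_cast this
      _ = (R : ℤ) ^ 3 := by ring
  have h1 := h b c d hb hc hd
  have h2 := h a c d ha hc hd
  have h3 := h a b d ha hb hd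
  have h4 := h a b c ha hb hc
  simp only [Nq]
  rw [abs_le]
  constructor <;> linarith [h1.1, h1.2, h2.1, h2.2, h3.1, h3.2, h4.1, h4.2]

theorem k2_card_rough (y R : ℕ) : (Rough y R).card ≤ R := by
  refine (card_filter_le _ _).trans ?_
  simp

theorem count_J {y z : ℕ} (hz : 2 ≤ z) {T : ℝ} (hT : DivB y z T) {s : Finset ℕ}
    (hs : s ⊆ Rough y (z ^ 104)) {k : ℤ} (hk : k ≠ 0) (hk' : |k| ≤ (z : ℤ) ^ 209) :
    ∑ e ∈ Rough y (z ^ 104) ×ˢ Rough y (z ^ 104),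
      ((((s ×ˢ s) ×ˢ (s ×ˢ s)).filter fun q => ((e.1.lcm e.2 : ℕ) : ℤ) ∣ k * Nq q).card : ℝ)
      ≤ T ^ 2 * ((z : ℝ) ^ 208 * s.card ^ 2 + s.card ^ 4) := by
  simp only [Finset.card_filter]
  push_cast
  rw [Finset.sum_comm]
  have h : ∀ q ∈ (s ×ˢ s) ×ˢ (s ×ˢ s),
      (∑ e ∈ Rough y (z ^ 104) ×ˢ Rough y (z ^ 104),
        if ((e.1.lcm e.2 : ℕ) : ℤ) ∣ k * Nq q then (1 : ℝ) else 0) ≤
        (z : ℝ) ^ 208 * (if Nq q = 0 then 1 else 0) + T ^ 2 := by
    rintro ⟨⟨a, b⟩, ⟨c, d⟩⟩ hq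
    simp only [mem_product] at hq
    obtain ⟨⟨ha, hb⟩, hc, hd⟩ := hq
    rw [Finset.sum_boole]
    by_cases h0 : Nq ((a, b), (c, d)) = 0
    · rw [if_pos h0, mul_one]
      refine le_trans ?_ (le_add_of_nonneg_right (sq_nonneg T))
      have h1 := k2_card_rough y (z ^ 104)
      have h2 : ((Rough y (z ^ 104) ×ˢ Rough y (z ^ 104)).filter fun e =>
          ((e.1.lcm e.2 : ℕ) : ℤ) ∣ k * Nq ((a, b), (c, d))).card ≤ z ^ 208 := by
        refine (card_filter_le _ _).trans ?_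
        rw [card_product]
        calc _ ≤ z ^ 104 * z ^ 104 := Nat.mul_le_mul h1 h1
          _ = z ^ 208 := by rw [← pow_add]
      exact_mod_cast h2
    · rw [if_neg h0, mul_zero, zero_add]
      set M := (k * Nq ((a, b), (c, d))).natAbs with hM
      have hM0 : 0 < M := Int.natAbs_pos.2 (mul_ne_zero hk h0)
      have hN := k2_Nq_le (mem_Rough.1 (hs ha)).1.2 (mem_Rough.1 (hs hb)).1.2
        (mem_Rough.1 (hs hc)).1.2 (mem_Rough.1 (hs hd)).1.2
      have hM1 : M ≤ z ^ 600 := by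
        have hz' : (2 : ℤ) ≤ z := by exact_mod_cast hz
        have : (M : ℤ) ≤ (z : ℤ) ^ 600 := by
          rw [hM, Int.natCast_natAbs, abs_mul]
          calc |k| * |Nq ((a, b), (c, d))| ≤ (z : ℤ) ^ 209 * (2 * ((z ^ 104 : ℕ) : ℤ) ^ 3) :=
                mul_le_mul hk' hN (abs_nonneg _) (by positivity)
            _ ≤ (z : ℤ) ^ 209 * (z * ((z ^ 104 : ℕ) : ℤ) ^ 3) := by gcongr
            _ = (z : ℤ) ^ 522 := by push_cast; ring
            _ ≤ (z : ℤ) ^ 600 := pow_le_pow_right₀ (by omega) (by norm_num)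
        exact_mod_cast this
      set F := (Rough y (z ^ 104)).filter (· ∣ M) with hF
      have hFT : (F.card : ℝ) ≤ T := hT _ hM0 hM1
      have h2 : ((Rough y (z ^ 104) ×ˢ Rough y (z ^ 104)).filter fun e =>
          ((e.1.lcm e.2 : ℕ) : ℤ) ∣ k * Nq ((a, b), (c, d))) ⊆ F ×ˢ F := by
        intro e he
        simp only [mem_filter, mem_product, hF] at he ⊢
        have h3 : e.1.lcm e.2 ∣ M := Int.natCast_dvd.1 he.2
        exact ⟨⟨he.1.1, (Nat.dvd_lcm_left _ _).trans h3⟩, he.1.2, (Nat.dvd_lcm_right _ _).trans h3⟩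
      have h4 := card_le_card h2
      rw [card_product] at h4
      refine le_trans (by exact_mod_cast h4 : _ ≤ (F.card : ℝ) * F.card) ?_
      rw [sq]
      exact mul_le_mul hFT hFT (Nat.cast_nonneg _) ((Nat.cast_nonneg _).trans hFT)
  refine (Finset.sum_le_sum h).trans ?_
  rw [Finset.sum_add_distrib, ← Finset.mul_sum, Finset.sum_boole, Finset.sum_const, nsmul_eq_mul,
    card_product, card_product]
  have h1 := count_zero hz hT hs
  have h2 : (0 : ℝ) ≤ (z : ℝ) ^ 208 := by positivity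
  have h3 := mul_le_mul_of_nonneg_left h1 h2
  push_cast
  linarith

end Pool.Agent.Lib.MP_9227d9_nt.H5
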