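import Pool.Agent.Lib.MP_9227d9_nt.H5.Defs

/-! A fourth moment bound for bilinear forms with Kloosterman fractions. -/

open Finset

namespace Pool.Agent.Lib.MP_9227d9_nt.H5

open Pool.Agent.Lib.MP_bee098_nt

theorem k3_fibre {E : ℕ} (s : Finset ℕ) {D : ℕ} (hs : ∀ a ∈ s, 0 < a ∧ a ≤ D ∧ a.Coprime E)
    (t : ZMod E) : (s.filter fun a : ℕ => (a : ZMod E)⁻¹ = t).card ≤ D / E + 1 := by
  rw [← card_range (D / E + 1)]
  refine card_le_card_of_injOn (fun a => a / E) (fun a ha => ?_) fun a ha b hb hab => ?_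
  · have h1 := (hs a (mem_filter.1 ha).1).2.1
    exact mem_coe.2 (mem_range.2 (Nat.lt_succ_of_le (Nat.div_le_div_right h1)))
  · obtain ⟨ha1, ha2⟩ := mem_filter.1 ha
    obtain ⟨hb1, hb2⟩ := mem_filter.1 hb
    have h1 := ZMod.coe_mul_inv_eq_one a (hs a ha1).2.2
    have h2 := ZMod.coe_mul_inv_eq_one b (hs b hb1).2.2
    rw [ha2] at h1
    rw [hb2] at h2
    have h3 : (a : ZMod E) = b := by linear_combination (b : ZMod E) * h1 - (a : ZMod E) * h2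
    have h4 : a % E = b % E := (ZMod.natCast_eq_natCast_iff' a b E).1 h3
    have h5 : a / E = b / E := hab
    rw [← Nat.div_add_mod a E, ← Nat.div_add_mod b E, h4, h5]

theorem k3_zero {E : ℕ} (κ : ZMod E) {a b c d : ℕ} (ha : a.Coprime E) (hb : b.Coprime E)
    (hc : c.Coprime E) (hd : d.Coprime E)
    (h : κ * ((a : ZMod E)⁻¹ + (b : ZMod E)⁻¹ - (c : ZMod E)⁻¹ - (d : ZMod E)⁻¹) = 0) :
    κ * ((Nq ((a, b), (c, d)) : ℤ) : ZMod E) = 0 := by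
  have h1 := ZMod.coe_mul_inv_eq_one a ha
  have h2 := ZMod.coe_mul_inv_eq_one b hb
  have h3 := ZMod.coe_mul_inv_eq_one c hc
  have h4 := ZMod.coe_mul_inv_eq_one d hd
  simp only [Nq]
  push_cast
  linear_combination (a * b * c * d : ZMod E) * h - κ * b * c * d * h1 - κ * a * c * d * h2
    + κ * a * b * d * h3 + κ * a * b * c * h4

theorem k3_moment {E : ℕ} [NeZero E] (κ : ZMod E) (s : Finset ℕ) (hs : ∀ a ∈ s, a.Coprime E)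
    (β : ℕ → ℂ) {T : ℝ} (hT : 0 ≤ T) (hβ : ∀ a ∈ s, ‖β a‖ ≤ T) :
    ∑ t : ZMod E, ‖∑ b ∈ s, β b * ZMod.stdAddChar (κ * t * (b : ZMod E)⁻¹)‖ ^ 4 ≤
      E * T ^ 4 *
        (((s ×ˢ s) ×ˢ (s ×ˢ s)).filter fun q => κ * ((Nq q : ℤ) : ZMod E) = 0).card := by
  have e1 : ∀ t : ZMod E,
      ((‖∑ b ∈ s, β b * ZMod.stdAddChar (κ * t * (b : ZMod E)⁻¹)‖ ^ 4 : ℝ) : ℂ) =
      ∑ q ∈ (s ×ˢ s) ×ˢ (s ×ˢ s),
        β q.1.1 * β q.1.2 * (starRingEnd ℂ (β q.2.1) * starRingEnd ℂ (β q.2.2)) *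
          ZMod.stdAddChar (t * (κ * ((q.1.1 : ZMod E)⁻¹ + (q.1.2 : ZMod E)⁻¹
            - (q.2.1 : ZMod E)⁻¹ - (q.2.2 : ZMod E)⁻¹))) := by
    intro t
    have h1 : ∀ z : ℂ, ((‖z‖ ^ 4 : ℝ) : ℂ) = z * z * (starRingEnd ℂ z * starRingEnd ℂ z) := by
      intro z
      have := Complex.mul_conj' z
      push_cast
      linear_combination (-(z * starRingEnd ℂ z) - (‖z‖ : ℂ) ^ 2) * this
    rw [h1, map_sum, sum_mul_sum, sum_mul_sum, ← sum_product', ← sum_product', sum_mul_sum,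
      ← sum_product']
    refine sum_congr rfl fun q _ => ?_
    have h2 : t * (κ * ((q.1.1 : ZMod E)⁻¹ + (q.1.2 : ZMod E)⁻¹
        - (q.2.1 : ZMod E)⁻¹ - (q.2.2 : ZMod E)⁻¹)) =
        κ * t * (q.1.1 : ZMod E)⁻¹ + κ * t * (q.1.2 : ZMod E)⁻¹
          + (-(κ * t * (q.2.1 : ZMod E)⁻¹) + -(κ * t * (q.2.2 : ZMod E)⁻¹)) := by ring
    rw [h2, AddChar.map_add_eq_mul, AddChar.map_add_eq_mul, AddChar.map_add_eq_mul,
      AddChar.map_neg_eq_conj, AddChar.map_neg_eq_conj, map_mul (starRingEnd ℂ),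
      map_mul (starRingEnd ℂ)]
    ring
  have e2 : ((∑ t : ZMod E,
      ‖∑ b ∈ s, β b * ZMod.stdAddChar (κ * t * (b : ZMod E)⁻¹)‖ ^ 4 : ℝ) : ℂ) =
      ∑ q ∈ (s ×ˢ s) ×ˢ (s ×ˢ s),
        β q.1.1 * β q.1.2 * (starRingEnd ℂ (β q.2.1) * starRingEnd ℂ (β q.2.2)) *
          if κ * ((q.1.1 : ZMod E)⁻¹ + (q.1.2 : ZMod E)⁻¹
            - (q.2.1 : ZMod E)⁻¹ - (q.2.2 : ZMod E)⁻¹) = 0 then (E : ℂ) else 0 := by
    rw [Complex.ofReal_sum]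
    simp only [e1]
    rw [sum_comm]
    refine sum_congr rfl fun q _ => ?_
    rw [← mul_sum, AddChar.sum_mulShift _ (ZMod.isPrimitive_stdAddChar E), ZMod.card]
    simp
  have e3 := congrArg norm e2
  rw [Complex.norm_real, Real.norm_of_nonneg (sum_nonneg fun t _ => by positivity)] at e3
  rw [e3, card_filter]
  push_cast
  rw [mul_sum]
  refine (norm_sum_le _ _).trans (sum_le_sum fun q hq => ?_)
  obtain ⟨h1, h2⟩ := mem_product.1 hq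
  obtain ⟨ha, hb⟩ := mem_product.1 h1
  obtain ⟨hc, hd⟩ := mem_product.1 h2
  by_cases h0 : κ * ((q.1.1 : ZMod E)⁻¹ + (q.1.2 : ZMod E)⁻¹
      - (q.2.1 : ZMod E)⁻¹ - (q.2.2 : ZMod E)⁻¹) = 0
  · rw [if_pos h0, if_pos (k3_zero κ (hs _ ha) (hs _ hb) (hs _ hc) (hs _ hd) h0)]
    simp only [norm_mul, Complex.norm_conj, Complex.norm_natCast]
    have := hβ _ ha
    have := hβ _ hb
    have := hβ _ hc
    have := hβ _ hd
    calc _ ≤ T * T * (T * T) * E := by gcongr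
      _ = _ := by ring
  · rw [if_neg h0, mul_zero, norm_zero]
    positivity

theorem bilin_holder {E : ℕ} (hE : 0 < E) (κ : ZMod E) (s : Finset ℕ) {D : ℕ}
    (hs : ∀ a ∈ s, 0 < a ∧ a ≤ D ∧ a.Coprime E) (α β : ℕ → ℂ) {T : ℝ} (hT : 0 ≤ T)
    (hα : ∀ a ∈ s, ‖α a‖ ≤ T) (hβ : ∀ a ∈ s, ‖β a‖ ≤ T) :
    ‖∑ a ∈ s, ∑ b ∈ s, α a * β b * eZ E (κ * (a : ZMod E)⁻¹ * (b : ZMod E)⁻¹)‖ ^ 4
      ≤ T ^ 8 * (D : ℝ) ^ 3 * (D + E) *
        (((s ×ˢ s) ×ˢ (s ×ˢ s)).filter fun q => κ * ((Nq q : ℤ) : ZMod E) = 0).card := by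
  have : NeZero E := ⟨hE.ne'⟩
  have hm := k3_moment κ s (fun a ha => (hs a ha).2.2) β hT hβ
  obtain ⟨f, hf⟩ : ∃ f : ZMod E → ℝ,
      f = fun t => ‖∑ b ∈ s, β b * ZMod.stdAddChar (κ * t * (b : ZMod E)⁻¹)‖ := ⟨_, rfl⟩
  have hf0 : ∀ t, 0 ≤ f t := fun t => by rw [hf]; exact norm_nonneg _
  have hm' : ∑ t, f t ^ 4 ≤ E * T ^ 4 *
      (((s ×ˢ s) ×ˢ (s ×ˢ s)).filter fun q => κ * ((Nq q : ℤ) : ZMod E) = 0).card := by
    rw [hf]; exact hm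
  have h1 : ‖∑ a ∈ s, ∑ b ∈ s, α a * β b * eZ E (κ * (a : ZMod E)⁻¹ * (b : ZMod E)⁻¹)‖
      ≤ T * ∑ a ∈ s, f (a : ZMod E)⁻¹ := by
    rw [mul_sum]
    refine (norm_sum_le _ _).trans (sum_le_sum fun a ha => ?_)
    simp only [eZ_eq, mul_assoc (α a)]
    rw [← mul_sum, norm_mul, hf]
    exact mul_le_mul_of_nonneg_right (hα a ha) (norm_nonneg _)
  have h2 : (∑ a ∈ s, f (a : ZMod E)⁻¹) ^ 4 ≤ (s.card : ℝ) ^ 3 * ∑ a ∈ s, f (a : ZMod E)⁻¹ ^ 4 :=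
    pow_sum_le_card_mul_sum_pow (fun a _ => hf0 _) 3
  have h3 : (s.card : ℝ) ≤ D := by
    have : s ⊆ Icc 1 D := fun a ha => mem_Icc.2 ⟨(hs a ha).1, (hs a ha).2.1⟩
    have h := card_le_card this
    rw [Nat.card_Icc, Nat.add_sub_cancel] at h
    exact_mod_cast h
  have h4 : ∑ a ∈ s, f (a : ZMod E)⁻¹ ^ 4 ≤ ((D / E + 1 : ℕ) : ℝ) * ∑ t, f t ^ 4 := by
    rw [← sum_fiberwise_of_maps_to (g := fun a : ℕ => (a : ZMod E)⁻¹) (t := univ)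
      (fun a _ => mem_univ _), mul_sum]
    refine sum_le_sum fun t _ => ?_
    rw [sum_congr rfl (g := fun _ => f t ^ 4) (fun a ha => by rw [(mem_filter.1 ha).2]),
      sum_const, nsmul_eq_mul]
    exact mul_le_mul_of_nonneg_right (by exact_mod_cast k3_fibre s hs t) (pow_nonneg (hf0 t) 4)
  have h5 : ((D / E + 1 : ℕ) : ℝ) * E ≤ D + E := by
    have : (D / E + 1) * E ≤ D + E := by
      rw [add_mul, one_mul]
      exact Nat.add_le_add_right (Nat.div_mul_le_self D E) E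
    exact_mod_cast this
  have h6 : 0 ≤ ∑ a ∈ s, f (a : ZMod E)⁻¹ ^ 4 := sum_nonneg fun a _ => pow_nonneg (hf0 _) 4
  generalize ((((s ×ˢ s) ×ˢ (s ×ˢ s)).filter
    fun q => κ * ((Nq q : ℤ) : ZMod E) = 0).card : ℕ) = J at hm' ⊢
  calc _ ≤ (T * ∑ a ∈ s, f (a : ZMod E)⁻¹) ^ 4 := by gcongr
    _ = T ^ 4 * (∑ a ∈ s, f (a : ZMod E)⁻¹) ^ 4 := mul_pow _ _ _
    _ ≤ T ^ 4 * ((D : ℝ) ^ 3 * ∑ a ∈ s, f (a : ZMod E)⁻¹ ^ 4) := by
      gcongr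
      exact h2.trans (by gcongr)
    _ ≤ T ^ 4 * ((D : ℝ) ^ 3 * (((D / E + 1 : ℕ) : ℝ) * (E * T ^ 4 * J))) := by
      gcongr
      exact h4.trans (by gcongr)
    _ = T ^ 8 * (D : ℝ) ^ 3 * (((D / E + 1 : ℕ) : ℝ) * E) * J := by ring
    _ ≤ _ := by gcongr

end Pool.Agent.Lib.MP_9227d9_nt.H5
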