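import Pool.Agent.Lib.MP_9227d9_nt.H5.K2
import Pool.Agent.Lib.MP_9227d9_nt.H5.K3

/-! The bilinear forms on average over the modulus. -/

open Finset

namespace Pool.Agent.Lib.MP_9227d9_nt.H5

open Pool.Agent.Lib.MP_bee098_nt

theorem k4_card (y R : ℕ) : (Rough y R).card ≤ R := by
  unfold Rough
  refine (card_filter_le _ _).trans ?_
  simp

theorem k4_mono (y : ℕ) {D R : ℕ} (h : D ≤ R) : Rough y D ⊆ Rough y R := by
  intro a ha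
  rw [mem_Rough] at ha ⊢
  exact ⟨⟨ha.1.1, ha.1.2.trans h⟩, ha.2⟩

theorem bilin_avg {y z : ℕ} (hz : 2 ≤ z) {T : ℝ} (hT1 : 1 ≤ T) (hT : DivB y z T) {D : ℕ}
    (hD : D ≤ z ^ 104) {q0 : ℕ} (hq0 : 0 < q0) (hq : q0 ≤ z) {k : ℤ} (hk : k ≠ 0)
    (hk' : |k| ≤ (z : ℤ) ^ 209) (F : Finset (ℕ × ℕ))
    (hF : F ⊆ Rough y (z ^ 104) ×ˢ Rough y (z ^ 104))
    (κ : ∀ e : ℕ × ℕ, ZMod (q0 * e.1.lcm e.2))
    (hκ : ∀ e ∈ F, ∀ N : ℤ, κ e * (N : ZMod (q0 * e.1.lcm e.2)) = 0 →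
      ((e.1.lcm e.2 : ℕ) : ℤ) ∣ k * N)
    (α β : ℕ × ℕ → ℕ → ℂ) (hα : ∀ e ∈ F, ∀ a, ‖α e a‖ ≤ T) (hβ : ∀ e ∈ F, ∀ a, ‖β e a‖ ≤ T) :
    ∑ e ∈ F, ‖∑ a ∈ (Rough y D).filter (·.Coprime (q0 * e.1.lcm e.2)),
      ∑ b ∈ (Rough y D).filter (·.Coprime (q0 * e.1.lcm e.2)), α e a * β e b *
        eZ (q0 * e.1.lcm e.2) (κ e * (a : ZMod (q0 * e.1.lcm e.2))⁻¹
          * (b : ZMod (q0 * e.1.lcm e.2))⁻¹)‖ ≤ 2 * T ^ 3 * (z : ℝ) ^ 287 * D := by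
  classical
  have hT0 : (0 : ℝ) ≤ T := by linarith
  have hz1 : (1 : ℝ) ≤ z := by exact_mod_cast (by omega : 1 ≤ z)
  have hz0 : (0 : ℝ) ≤ z := by linarith
  have hD0 : (0 : ℝ) ≤ D := Nat.cast_nonneg D
  have hDz : (D : ℝ) ≤ (z : ℝ) ^ 104 := by exact_mod_cast hD
  set s : Finset ℕ := Rough y D with hs
  set B : ℕ × ℕ → ℝ := fun e => ‖∑ a ∈ s.filter (·.Coprime (q0 * e.1.lcm e.2)),
      ∑ b ∈ s.filter (·.Coprime (q0 * e.1.lcm e.2)), α e a * β e b *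
        eZ (q0 * e.1.lcm e.2) (κ e * (a : ZMod (q0 * e.1.lcm e.2))⁻¹
          * (b : ZMod (q0 * e.1.lcm e.2))⁻¹)‖ with hB
  set J : ℕ × ℕ → ℝ := fun e =>
    ((((s ×ˢ s) ×ˢ (s ×ˢ s)).filter fun q => ((e.1.lcm e.2 : ℕ) : ℤ) ∣ k * Nq q).card : ℝ)
    with hJ
  have hB0 : ∀ e, 0 ≤ B e := fun e => norm_nonneg _
  have hJ0 : ∀ e, 0 ≤ J e := fun e => Nat.cast_nonneg _
  have h1 : ∀ e ∈ F, B e ^ 4 ≤ T ^ 8 * (D : ℝ) ^ 3 * (2 * (z : ℝ) ^ 209) * J e := by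
    intro e he
    have hm := mem_product.1 (hF he)
    have a1 := (mem_Rough.1 hm.1).1
    have a2 := (mem_Rough.1 hm.2).1
    have hl : 0 < e.1.lcm e.2 := Nat.lcm_pos a1.1 a2.1
    have hl2 : e.1.lcm e.2 ≤ z ^ 104 * z ^ 104 :=
      (Nat.lcm_le_mul a1.1 a2.1).trans (Nat.mul_le_mul a1.2 a2.2)
    have hE : 0 < q0 * e.1.lcm e.2 := Nat.mul_pos hq0 hl
    have hE2 : q0 * e.1.lcm e.2 ≤ z ^ 209 := by
      calc q0 * e.1.lcm e.2 ≤ z * (z ^ 104 * z ^ 104) := Nat.mul_le_mul hq hl2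
        _ = z ^ 209 := by ring
    have hE3 : ((q0 * e.1.lcm e.2 : ℕ) : ℝ) ≤ (z : ℝ) ^ 209 := by exact_mod_cast hE2
    have hD3 : (D : ℝ) ≤ (z : ℝ) ^ 209 := hDz.trans (pow_le_pow_right₀ hz1 (by norm_num))
    have h := bilin_holder hE (κ e) (s.filter (·.Coprime (q0 * e.1.lcm e.2))) (D := D)
      (fun a ha => by
        have h2 := mem_filter.1 ha
        have h3 := (mem_Rough.1 h2.1).1
        exact ⟨h3.1, h3.2, h2.2⟩)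
      (α e) (β e) hT0 (fun a _ => hα e he a) (fun a _ => hβ e he a)
    refine h.trans ?_
    have hc : (((((s.filter (·.Coprime (q0 * e.1.lcm e.2))) ×ˢ
        (s.filter (·.Coprime (q0 * e.1.lcm e.2)))) ×ˢ
        ((s.filter (·.Coprime (q0 * e.1.lcm e.2))) ×ˢ
        (s.filter (·.Coprime (q0 * e.1.lcm e.2))))).filter
          fun q => κ e * ((Nq q : ℤ) : ZMod (q0 * e.1.lcm e.2)) = 0).card : ℝ) ≤ J e := by
      simp only [hJ]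
      refine Nat.cast_le.2 (card_le_card ?_)
      intro q hq'
      rw [mem_filter] at hq' ⊢
      refine ⟨?_, hκ e he _ hq'.2⟩
      exact product_subset_product
        (product_subset_product (filter_subset _ _) (filter_subset _ _))
        (product_subset_product (filter_subset _ _) (filter_subset _ _)) hq'.1
    have hp : (0 : ℝ) ≤ T ^ 8 * (D : ℝ) ^ 3 := by positivity
    refine mul_le_mul (mul_le_mul_of_nonneg_left (by linarith) hp) hc (Nat.cast_nonneg _) ?_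
    positivity
  have hsc : (s.card : ℝ) ≤ D := by exact_mod_cast k4_card y D
  have hs0 : (0 : ℝ) ≤ s.card := Nat.cast_nonneg _
  have h2 : ∑ e ∈ F, J e ≤ T ^ 2 * (2 * (z : ℝ) ^ 208 * (D : ℝ) ^ 2) := by
    have h := count_J hz hT (s := s) (k4_mono y hD) hk hk'
    have h3 : ∑ e ∈ F, J e ≤ ∑ e ∈ Rough y (z ^ 104) ×ˢ Rough y (z ^ 104), J e :=
      sum_le_sum_of_subset_of_nonneg hF fun e _ _ => hJ0 e
    refine h3.trans (h.trans (mul_le_mul_of_nonneg_left ?_ (by positivity)))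
    have b1 : (s.card : ℝ) ^ 2 ≤ (D : ℝ) ^ 2 := pow_le_pow_left₀ hs0 hsc 2
    have b2 : (D : ℝ) ^ 2 ≤ (z : ℝ) ^ 208 := by
      calc (D : ℝ) ^ 2 ≤ ((z : ℝ) ^ 104) ^ 2 := pow_le_pow_left₀ hD0 hDz 2
        _ = (z : ℝ) ^ 208 := by ring
    have b3 : (s.card : ℝ) ^ 4 ≤ (z : ℝ) ^ 208 * (D : ℝ) ^ 2 := by
      calc (s.card : ℝ) ^ 4 = (s.card : ℝ) ^ 2 * (s.card : ℝ) ^ 2 := by ring
        _ ≤ (z : ℝ) ^ 208 * (D : ℝ) ^ 2 :=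
          mul_le_mul (b1.trans b2) b1 (by positivity) (by positivity)
    have b4 : (z : ℝ) ^ 208 * (s.card : ℝ) ^ 2 ≤ (z : ℝ) ^ 208 * (D : ℝ) ^ 2 :=
      mul_le_mul_of_nonneg_left b1 (by positivity)
    linarith
  have hFc : (F.card : ℝ) ≤ (z : ℝ) ^ 208 := by
    have h := card_le_card hF
    rw [card_product] at h
    have h3 : F.card ≤ z ^ 208 := by
      calc F.card ≤ z ^ 104 * z ^ 104 :=
            h.trans (Nat.mul_le_mul (k4_card _ _) (k4_card _ _))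
        _ = z ^ 208 := by ring
    exact_mod_cast h3
  have h4 : (∑ e ∈ F, B e) ^ 4 ≤ (F.card : ℝ) ^ 3 * ∑ e ∈ F, B e ^ 4 :=
    pow_sum_le_card_mul_sum_pow (fun e _ => hB0 e) 3
  have h5 : ∑ e ∈ F, B e ^ 4 ≤ T ^ 8 * (D : ℝ) ^ 3 * (2 * (z : ℝ) ^ 209) *
      (T ^ 2 * (2 * (z : ℝ) ^ 208 * (D : ℝ) ^ 2)) := by
    refine (sum_le_sum h1).trans ?_
    rw [← mul_sum]
    exact mul_le_mul_of_nonneg_left h2 (by positivity)
  have h6 : (∑ e ∈ F, B e) ^ 4 ≤ (2 * T ^ 3 * (z : ℝ) ^ 287 * D) ^ 4 := by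
    have c1 : (F.card : ℝ) ^ 3 ≤ ((z : ℝ) ^ 208) ^ 3 :=
      pow_le_pow_left₀ (Nat.cast_nonneg _) hFc 3
    have c2 : (D : ℝ) ≤ 4 * T ^ 2 * (z : ℝ) ^ 107 := by
      have d1 : (z : ℝ) ^ 104 ≤ (z : ℝ) ^ 107 := pow_le_pow_right₀ hz1 (by norm_num)
      have d2 : (1 : ℝ) ≤ 4 * T ^ 2 := by nlinarith
      calc (D : ℝ) ≤ 1 * (z : ℝ) ^ 107 := by linarith
        _ ≤ 4 * T ^ 2 * (z : ℝ) ^ 107 := mul_le_mul_of_nonneg_right d2 (by positivity)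
    calc (∑ e ∈ F, B e) ^ 4 ≤ ((z : ℝ) ^ 208) ^ 3 * (T ^ 8 * (D : ℝ) ^ 3 * (2 * (z : ℝ) ^ 209) *
          (T ^ 2 * (2 * (z : ℝ) ^ 208 * (D : ℝ) ^ 2))) :=
          h4.trans (mul_le_mul c1 h5 (sum_nonneg fun e _ => by positivity) (by positivity))
      _ = (4 * T ^ 10 * (z : ℝ) ^ 1041 * (D : ℝ) ^ 4) * D := by ring
      _ ≤ (4 * T ^ 10 * (z : ℝ) ^ 1041 * (D : ℝ) ^ 4) * (4 * T ^ 2 * (z : ℝ) ^ 107) :=
          mul_le_mul_of_nonneg_left c2 (by positivity)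
      _ = (2 * T ^ 3 * (z : ℝ) ^ 287 * D) ^ 4 := by ring
  exact (pow_le_pow_iff_left₀ (sum_nonneg fun e _ => hB0 e) (by positivity) (by norm_num)).1 h6

end Pool.Agent.Lib.MP_9227d9_nt.H5
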