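import Pool.Agent.Lib.MP_9227d9_nt.H5.Defs

/-! Moebius decomposition of least common multiples and Fourier expansion of classes. -/

open Finset

namespace Pool.Agent.Lib.MP_9227d9_nt.H5

open Pool.Agent.Lib.MP_bee098_nt

theorem k5_dvd_sum {M : Type*} [AddCommMonoid M] (R : ℕ) {m : ℕ} (hm : 0 < m) (G : ℕ → M) :
    ∑ a ∈ Icc 1 (R / m), G (m * a) = ∑ x ∈ Icc 1 R, if m ∣ x then G x else 0 := by
  rw [← sum_filter]
  refine sum_bij (fun a _ => m * a) (fun a ha => ?_) (fun a _ b _ h => ?_) (fun x hx => ?_)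
    fun _ _ => rfl
  · rw [mem_Icc, Nat.le_div_iff_mul_le hm, mul_comm] at ha
    exact mem_filter.2 ⟨mem_Icc.2 ⟨Nat.mul_pos hm ha.1, ha.2⟩, dvd_mul_right _ _⟩
  · exact Nat.eq_of_mul_eq_mul_left hm h
  · obtain ⟨h1, a, rfl⟩ := mem_filter.1 hx
    rw [mem_Icc] at h1
    exact ⟨a, mem_Icc.2 ⟨Nat.pos_of_mul_pos_left h1.1,
      (Nat.le_div_iff_mul_le hm).2 (by rw [mul_comm]; exact h1.2)⟩, rfl⟩

theorem k5_mu {R g D : ℕ} (hg : 0 < g) (hD : 0 < D) (hDR : D ≤ R) :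
    ∑ l ∈ Icc 1 R, (if g * l ∣ D then ((ArithmeticFunction.moebius l : ℤ) : ℂ) else 0) =
      if g = D then 1 else 0 := by
  by_cases h : g ∣ D
  · obtain ⟨e, rfl⟩ := h
    have he : 0 < e := Nat.pos_of_mul_pos_left hD
    have h1 : (Icc 1 R).filter (fun l => g * l ∣ g * e) = e.divisors := by
      ext l
      rw [mem_filter, mem_Icc, Nat.mul_dvd_mul_iff_left hg, Nat.mem_divisors]
      refine ⟨fun h => ⟨h.2, he.ne'⟩, fun h => ⟨⟨Nat.pos_of_dvd_of_pos h.1 he, ?_⟩, h.1⟩⟩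
      exact (Nat.le_of_dvd he h.1).trans ((Nat.le_mul_of_pos_left e hg).trans hDR)
    have h2 := congrArg (fun f : ArithmeticFunction ℤ => f e)
      ArithmeticFunction.moebius_mul_coe_zeta
    simp only [ArithmeticFunction.coe_mul_zeta_apply, ArithmeticFunction.one_apply] at h2
    rw [← sum_filter, h1, ← Int.cast_sum, h2]
    by_cases h3 : e = 1
    · simp [h3]
    · rw [if_neg h3, if_neg fun h4 => h3 (Nat.eq_of_mul_eq_mul_left hg (by omega)), Int.cast_zero]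
  · rw [if_neg fun e => h (by rw [e])]
    exact sum_eq_zero fun l _ => if_neg fun e => h ((dvd_mul_right g l).trans e)

theorem lcm_moebius (R : ℕ) (f : ℕ → ℕ → ℕ → ℂ) :
    ∑ d ∈ Icc 1 R ×ˢ Icc 1 R, f d.1 d.2 (d.1.lcm d.2) = ∑ g ∈ Icc 1 R, ∑ l ∈ Icc 1 R,
      ((ArithmeticFunction.moebius l : ℤ) : ℂ) * ∑ a ∈ Icc 1 (R / (g * l)),
        ∑ b ∈ Icc 1 (R / (g * l)), f (g * l * a) (g * l * b) (g * l ^ 2 * a * b) := by
  have h1 : ∀ g ∈ Icc 1 R, ∀ l ∈ Icc 1 R, ((ArithmeticFunction.moebius l : ℤ) : ℂ) *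
      ∑ a ∈ Icc 1 (R / (g * l)), ∑ b ∈ Icc 1 (R / (g * l)),
        f (g * l * a) (g * l * b) (g * l ^ 2 * a * b) =
      ∑ d ∈ Icc 1 R ×ˢ Icc 1 R, (if g * l ∣ d.1.gcd d.2 then
        ((ArithmeticFunction.moebius l : ℤ) : ℂ) else 0) * f d.1 d.2 (d.1 * d.2 / g) := by
    intro g hg l hl
    have g0 : 0 < g := (mem_Icc.1 hg).1
    have m0 : 0 < g * l := Nat.mul_pos g0 (mem_Icc.1 hl).1
    have e : ∀ a b, g * l ^ 2 * a * b = g * l * a * (g * l * b) / g := fun a b =>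
      (Nat.div_eq_of_eq_mul_right g0 (by ring)).symm
    simp only [e]
    rw [k5_dvd_sum R m0 fun x => ∑ b ∈ Icc 1 (R / (g * l)), f x (g * l * b) (x * (g * l * b) / g),
      sum_product, mul_sum]
    refine sum_congr rfl fun x _ => ?_
    rw [k5_dvd_sum R m0 fun y => f x y (x * y / g)]
    by_cases hx : g * l ∣ x
    · rw [if_pos hx, mul_sum]
      refine sum_congr rfl fun y _ => ?_
      by_cases hy : g * l ∣ y
      · rw [if_pos hy, if_pos (Nat.dvd_gcd hx hy)]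
      · rw [if_neg hy, if_neg fun h => hy (h.trans (Nat.gcd_dvd_right _ _)), mul_zero, zero_mul]
    · rw [if_neg hx, mul_zero]
      exact (sum_eq_zero fun y _ => by
        rw [if_neg fun h => hx (h.trans (Nat.gcd_dvd_left _ _)), zero_mul]).symm
  rw [sum_congr rfl fun g hg => (sum_congr rfl (h1 g hg)).trans sum_comm, sum_comm]
  refine sum_congr rfl fun d hd => ?_
  have hd1 := mem_Icc.1 (mem_product.1 hd).1
  have D0 : 0 < d.1.gcd d.2 := Nat.gcd_pos_of_pos_left _ hd1.1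
  have DR : d.1.gcd d.2 ≤ R := (Nat.gcd_le_left _ hd1.1).trans hd1.2
  rw [sum_congr rfl fun g hg => by rw [← sum_mul, k5_mu (mem_Icc.1 hg).1 D0 DR]]
  simp only [ite_mul, one_mul, zero_mul]
  rw [sum_ite_eq', if_pos (mem_Icc.2 ⟨D0, DR⟩)]
  rfl

theorem norm_eZ (E : ℕ) (x : ZMod E) : ‖eZ E x‖ = 1 := by
  rw [eZ, show (2 * Real.pi * Complex.I * x.val / E : ℂ) =
    ((2 * Real.pi * x.val / E : ℝ) : ℂ) * Complex.I by push_cast; ring]
  exact Complex.norm_exp_ofReal_mul_I _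

theorem eZ_zero (E : ℕ) : eZ E 0 = 1 := by
  simp [eZ]

theorem mem_Fq {E : ℕ} {k : ℤ} (h : k ∈ Fq E) : 2 * |k| ≤ E := by
  rw [Fq, mem_Icc] at h
  rcases abs_cases k with h1 | h1 <;> omega

theorem zero_mem_Fq (E : ℕ) : (0 : ℤ) ∈ Fq E := by
  rw [Fq, mem_Icc]
  omega

theorem k5_norm_sub_one {s : ℝ} (h1 : |s| ≤ 1 / 2) :
    4 * |s| ≤ ‖Complex.exp (Complex.I * (2 * Real.pi * s : ℝ)) - 1‖ := by
  have hpi := Real.pi_pos
  have h2 : |Real.pi * s| ≤ Real.pi / 2 := by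
    rw [abs_mul, abs_of_pos hpi]
    nlinarith
  have h3 := Real.mul_abs_le_abs_sin h2
  have h4 : 2 / Real.pi * |Real.pi * s| = 2 * |s| := by
    rw [abs_mul, abs_of_pos hpi]
    field_simp
  rw [Complex.norm_exp_I_mul_ofReal_sub_one, Real.norm_eq_abs, abs_mul,
    show 2 * Real.pi * s / 2 = Real.pi * s by ring, abs_two]
  linarith

theorem geo_bound {E : ℕ} (hE : 0 < E) {k : ℤ} (hk : k ≠ 0) (hk' : 2 * |k| ≤ E) (a b : ℕ) :
    ‖∑ u ∈ Ico a b, eZ E ((k : ZMod E) * (u : ZMod E))‖ ≤ E / (2 * |(k : ℝ)|) := by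
  have : NeZero E := ⟨hE.ne'⟩
  have hE' : (0 : ℝ) < E := by exact_mod_cast hE
  have hk0 : (0 : ℝ) < |(k : ℝ)| := abs_pos.2 (by exact_mod_cast hk)
  rcases le_or_gt a b with hab | hab
  swap
  · rw [Ico_eq_empty_of_le hab.le, sum_empty, norm_zero]; positivity
  have h1 : ∀ u : ℕ, eZ E ((k : ZMod E) * (u : ZMod E)) = eZ E (k : ZMod E) ^ u := fun u => by
    rw [eZ_eq, eZ_eq, mul_comm, ← nsmul_eq_mul, AddChar.map_nsmul_eq_pow]
  have h2 : 4 * (|(k : ℝ)| / E) ≤ ‖eZ E (k : ZMod E) - 1‖ := by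
    have h3 : |(k : ℝ) / E| = |(k : ℝ)| / E := by rw [abs_div, abs_of_pos hE']
    have h4 := k5_norm_sub_one (s := (k : ℝ) / E) (by
      rw [h3, div_le_div_iff₀ hE' two_pos, one_mul, mul_comm]
      exact_mod_cast hk')
    rw [h3] at h4
    rw [eZ_eq, ZMod.stdAddChar_coe]
    convert h4 using 4
    push_cast
    ring
  simp only [h1]
  have h3 := congrArg norm (geom_sum_Ico_mul (eZ E (k : ZMod E)) hab)
  have h4 := norm_sub_le (eZ E (k : ZMod E) ^ b) (eZ E (k : ZMod E) ^ a)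
  rw [← h3, norm_mul, norm_pow, norm_pow, norm_eZ, one_pow, one_pow] at h4
  have h5 := mul_le_mul_of_nonneg_left h2 (norm_nonneg (∑ u ∈ Ico a b, eZ E (k : ZMod E) ^ u))
  have h6 := h5.trans h4
  rw [le_div_iff₀ (by positivity)]
  rw [← mul_div_assoc, ← mul_div_assoc, div_le_iff₀ hE'] at h6
  linarith

theorem k5_orth {E : ℕ} (hE : 0 < E) (x : ZMod E) :
    ∑ k ∈ Fq E, eZ E ((k : ZMod E) * x) = if x = 0 then (E : ℂ) else 0 := by
  classical
  have : NeZero E := ⟨hE.ne'⟩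
  have hi : Set.InjOn (fun k : ℤ => (k : ZMod E)) (Fq E) := fun k hk k' hk' h => by
    have h1 := (ZMod.intCast_eq_intCast_iff_dvd_sub k k' E).1 h
    rw [mem_coe, Fq, mem_Icc] at hk hk'
    have := Int.eq_zero_of_abs_lt_dvd h1 (by rw [abs_lt]; constructor <;> omega)
    omega
  have hu : (Fq E).image (fun k : ℤ => (k : ZMod E)) = univ := by
    refine eq_univ_of_card _ ?_
    rw [card_image_of_injOn hi, ZMod.card, Fq, Int.card_Icc]
    omega
  rw [← sum_image (f := fun t : ZMod E => eZ E (t * x)) hi, hu]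
  simp only [eZ_eq]
  rw [AddChar.sum_mulShift x (ZMod.isPrimitive_stdAddChar E), ZMod.card]
  split_ifs <;> simp

theorem class_fourier {E d : ℕ} (hE : 0 < E) (hd0 : 0 < d) (hd : d.Coprime E) (c : ℕ) {X : ℝ}
    (hX : 1 < X) {Y : ℕ} (hY : 16 * X ≤ Y) :
    ((∑ m ∈ (Ioc 0 Y).filter (fun m => m ≡ c [MOD E] ∧ d ∣ m), wt X m : ℝ) : ℂ) =
      ∑ k ∈ Fq E, (E : ℂ)⁻¹ * eZ E (-((k : ZMod E) * c * (d : ZMod E)⁻¹)) *
        ∑ u ∈ Ioc 0 Y, (wt X (d * u) : ℂ) * eZ E ((k : ZMod E) * (u : ZMod E)) := by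
  classical
  have : NeZero E := ⟨hE.ne'⟩
  have hE' : (E : ℂ) ≠ 0 := by exact_mod_cast hE.ne'
  have h1 : ∑ m ∈ (Ioc 0 Y).filter (fun m => m ≡ c [MOD E] ∧ d ∣ m), wt X m =
      ∑ u ∈ Ioc 0 Y, if d * u ≡ c [MOD E] then wt X (d * u) else 0 := by
    have e : Ioc 0 Y = Icc 1 Y := rfl
    rw [e, sum_filter, ← sum_subset (f := fun u => if d * u ≡ c [MOD E] then wt X (d * u) else 0)
      (Icc_subset_Icc_right (Nat.div_le_self Y d)),
      k5_dvd_sum Y hd0 fun m => if m ≡ c [MOD E] then wt X m else 0]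
    · refine sum_congr rfl fun m _ => ?_
      by_cases g1 : d ∣ m <;> by_cases g2 : m ≡ c [MOD E] <;> simp [g1, g2]
    · intro u hu hu'
      rw [mem_Icc] at hu hu'
      have g1 : Y < d * u := by
        rw [mul_comm, ← Nat.div_lt_iff_lt_mul hd0]; omega
      have g2 : wt X (d * u) = 0 := by
        by_contra g
        have := (wt_support hX g).2
        have : (Y : ℝ) < (d * u : ℕ) := by exact_mod_cast g1
        linarith
      rw [g2, ite_self]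
  rw [h1, Complex.ofReal_sum]
  simp only [mul_sum]
  rw [sum_comm]
  refine sum_congr rfl fun u _ => ?_
  have h2 : ∀ k : ℤ, (E : ℂ)⁻¹ * eZ E (-((k : ZMod E) * c * (d : ZMod E)⁻¹)) *
      ((wt X (d * u) : ℂ) * eZ E ((k : ZMod E) * (u : ZMod E))) =
      (E : ℂ)⁻¹ * (wt X (d * u) : ℂ) * eZ E ((k : ZMod E) * (u - c * (d : ZMod E)⁻¹)) := fun k => by
    rw [eZ_eq, eZ_eq, eZ_eq, mul_sub, sub_eq_add_neg, AddChar.map_add_eq_mul, mul_assoc (k : ZMod E)]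
    ring
  simp only [h2]
  rw [← mul_sum, k5_orth hE]
  have h3 : (d : ZMod E) * (d : ZMod E)⁻¹ = 1 := ZMod.coe_mul_inv_eq_one d hd
  have h4 : d * u ≡ c [MOD E] ↔ (u : ZMod E) - c * (d : ZMod E)⁻¹ = 0 := by
    rw [← ZMod.natCast_eq_natCast_iff, Nat.cast_mul]
    constructor
    · intro h
      rw [← h]
      linear_combination (-(u : ZMod E)) * h3
    · intro h
      linear_combination (d : ZMod E) * h + (c : ZMod E) * h3
  by_cases g : d * u ≡ c [MOD E]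
  · rw [if_pos g, if_pos (h4.1 g)]
    field_simp
  · rw [if_neg g, if_neg fun e => g (h4.2 e), mul_zero, Complex.ofReal_zero]

end Pool.Agent.Lib.MP_9227d9_nt.H5
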