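import Pool.Agent.Lib.MP_9227d9_nt.H5.W1
import Pool.Agent.Lib.MP_9227d9_nt.H5.K4
import Pool.Agent.Lib.MP_9227d9_nt.H5.K5

/-! The contribution of the nonzero frequencies. -/

open Finset

namespace Pool.Agent.Lib.MP_9227d9_nt.H5

open Pool.Agent.Lib.MP_bee098_nt

/-- the coefficients extended by zero -/
noncomputable def k8L (s : Finset ℕ) (lam : ℕ → ℝ) (D : ℕ) : ℝ := if D ∈ s then lam D else 0

/-- the term of the frequency `k` -/
noncomputable def k8K (E : ℕ) (k : ℤ) (c : ℕ) (X : ℝ) (Y L : ℕ) : ℂ :=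
  (E : ℂ)⁻¹ * eZ E (-((k : ZMod E) * c * (L : ZMod E)⁻¹)) *
    ∑ u ∈ Ioc 0 Y, (wt X (L * u) : ℂ) * eZ E ((k : ZMod E) * (u : ZMod E))

/-- the bilinear form for fixed `g, l, k` -/
noncomputable def k8W (A s : Finset ℕ) (lam : ℕ → ℝ) (E : ℕ) (k : ℤ) (c : ℕ) (X : ℝ)
    (Y g l : ℕ) : ℂ :=
  ∑ a ∈ A, ∑ b ∈ A, ((k8L s lam (g * l * a) * k8L s lam (g * l * b) : ℝ) : ℂ) *
    k8K E k c X Y (g * l ^ 2 * a * b)

theorem k8_abs_L {s : Finset ℕ} {lam : ℕ → ℝ} {T : ℝ} (hT : 0 ≤ T) (hl : ∀ D, |lam D| ≤ T)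
    (D : ℕ) : |k8L s lam D| ≤ T := by
  unfold k8L
  split_ifs
  · exact hl D
  · simpa using hT

theorem k8_inv {E m a b : ℕ} (hm : m.Coprime E) (ha : a.Coprime E) (hb : b.Coprime E) :
    ((m * a * b : ℕ) : ZMod E)⁻¹ = (m : ZMod E)⁻¹ * (a : ZMod E)⁻¹ * (b : ZMod E)⁻¹ := by
  refine ZMod.inv_eq_of_mul_eq_one _ _ _ ?_
  have h1 := ZMod.coe_mul_inv_eq_one m hm
  have h2 := ZMod.coe_mul_inv_eq_one a ha
  have h3 := ZMod.coe_mul_inv_eq_one b hb
  push_cast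
  calc _ = ((m : ZMod E) * (m : ZMod E)⁻¹) * ((a : ZMod E) * (a : ZMod E)⁻¹) *
        ((b : ZMod E) * (b : ZMod E)⁻¹) := by ring
    _ = 1 := by rw [h1, h2, h3, one_mul, one_mul]

theorem k8_geo {E N : ℕ} (hE : 0 < E) (hN : 0 < N) {k : ℤ} (hk : k ≠ 0) (hk' : 2 * |k| ≤ E)
    {X : ℝ} (hX : 0 < X) (v : ℝ) (Y : ℕ) :
    ‖∑ u ∈ Ioc 0 Y, (ind (Real.log ((N * u : ℕ) : ℝ) - Real.log X + v) : ℂ) *
      eZ E ((k : ZMod E) * (u : ZMod E))‖ ≤ E / (2 * |(k : ℝ)|) := by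
  have hN' : (0 : ℝ) < N := by exact_mod_cast hN
  have hy : 0 < X / (N * Real.exp v) := by positivity
  set t := X / (N * Real.exp v) with ht
  have e : ∑ u ∈ Ioc 0 Y, (ind (Real.log ((N * u : ℕ) : ℝ) - Real.log X + v) : ℂ) *
      eZ E ((k : ZMod E) * (u : ZMod E)) =
      ∑ u ∈ Ico (max 1 ⌈t⌉₊) (min (Y + 1) (⌊4 * t⌋₊ + 1)), eZ E ((k : ZMod E) * (u : ZMod E)) := by
    have e1 : Ico (max 1 ⌈t⌉₊) (min (Y + 1) (⌊4 * t⌋₊ + 1)) =
        (Ioc 0 Y).filter (· ∈ Ico ⌈t⌉₊ (⌊4 * t⌋₊ + 1)) := by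
      ext u
      simp only [mem_Ico, mem_filter, mem_Ioc]
      omega
    rw [e1, sum_filter]
    refine sum_congr rfl fun u hu => ?_
    have hu0 := (mem_Ioc.1 hu).1
    have hu' : (0 : ℝ) < u := by exact_mod_cast hu0
    have e2 : Real.log ((N * u : ℕ) : ℝ) - Real.log X + v = Real.log u - Real.log t := by
      rw [ht, Nat.cast_mul, Real.log_mul hN'.ne' hu'.ne', Real.log_div hX.ne' (by positivity),
        Real.log_mul hN'.ne' (Real.exp_pos v).ne', Real.log_exp]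
      ring
    rw [e2, ind_log hy hu0]
    split_ifs <;> simp
  rw [e]
  exact geo_bound hE hk hk' _ _

theorem k8_core {y z : ℕ} (hz : 2 ≤ z) {T : ℝ} (hT1 : 1 ≤ T) (hT : DivB y z T) {lam : ℕ → ℝ}
    (hl : ∀ D, |lam D| ≤ T) {q0 : ℕ} (hq0 : 0 < q0) (hq : q0 ≤ z) (c : ℕ × ℕ → ℕ)
    {X : ℝ} (hX : 0 < X) (Y : ℕ) {g l : ℕ} (hg : 0 < g) (hl0 : 0 < l) {k : ℤ} (hk : k ≠ 0)
    (hk' : |k| ≤ (z : ℤ) ^ 209) (F : Finset (ℕ × ℕ))
    (hF : F ⊆ Rough y (z ^ 104) ×ˢ Rough y (z ^ 104))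
    (hc : ∀ e ∈ F, (c e).Coprime (e.1.lcm e.2) ∧ k ∈ Fq (q0 * e.1.lcm e.2) ∧
      (g * l ^ 2).Coprime (q0 * e.1.lcm e.2)) {D : ℕ} (hD : D ≤ z ^ 104) :
    ∑ e ∈ F, ‖k8W ((Rough y D).filter (·.Coprime (q0 * e.1.lcm e.2))) (Rough y (z ^ 104)) lam
      (q0 * e.1.lcm e.2) k (c e) X Y g l‖ ≤
      (2 * |(k : ℝ)|)⁻¹ * (2 * T ^ 3 * (z : ℝ) ^ 287 * D) *
        (Real.log ((z ^ 104 : ℕ) : ℝ) + Real.log 4) := by
  have hT0 : 0 ≤ T := zero_le_one.trans hT1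
  have hk0 : (0 : ℝ) < 2 * |(k : ℝ)| := by
    have : (k : ℝ) ≠ 0 := by exact_mod_cast hk
    positivity
  have hE : ∀ e ∈ F, 0 < q0 * e.1.lcm e.2 := fun e he => by
    obtain ⟨h1, h2⟩ := mem_product.1 (hF he)
    exact Nat.mul_pos hq0 (Nat.lcm_pos (mem_Rough.1 h1).1.1 (mem_Rough.1 h2).1.1)
  set s := Rough y (z ^ 104) with hs
  let A : ℕ × ℕ → Finset ℕ := fun e => (Rough y D).filter (·.Coprime (q0 * e.1.lcm e.2))
  let cf : ℕ × ℕ → (ℕ × ℕ) × ℕ → ℂ := fun e x =>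
    ((k8L s lam (g * l * x.1.1) * k8L s lam (g * l * x.1.2) : ℝ) : ℂ) *
      (((q0 * e.1.lcm e.2 : ℕ) : ℂ)⁻¹ * eZ (q0 * e.1.lcm e.2)
        (-((k : ZMod (q0 * e.1.lcm e.2)) * c e *
          ((g * l ^ 2 * x.1.1 * x.1.2 : ℕ) : ZMod (q0 * e.1.lcm e.2))⁻¹)) *
        eZ (q0 * e.1.lcm e.2) ((k : ZMod (q0 * e.1.lcm e.2)) * (x.2 : ZMod (q0 * e.1.lcm e.2))))
  have key := sep_bound F (fun e => (A e ×ˢ A e) ×ˢ Ioc 0 Y) cf (fun _ x => x.1.1)
    (fun _ x => g * l ^ 2 * x.1.2 * x.2) hX (R := z ^ 104)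
    (C := (2 * |(k : ℝ)|)⁻¹ * (2 * T ^ 3 * (z : ℝ) ^ 287 * D)) (fun e _ x hx => by
      obtain ⟨h1, h2⟩ := mem_product.1 hx
      obtain ⟨h3, h4⟩ := mem_product.1 h1
      have h5 := (mem_Rough.1 (mem_filter.1 h3).1).1
      have h6 := (mem_Rough.1 (mem_filter.1 h4).1).1.1
      have h7 := (mem_Ioc.1 h2).1
      exact ⟨h5.1, h5.2.trans hD, by positivity⟩) (fun v => by
      have hb := bilin_avg hz hT1 hT hD hq0 hq hk hk' F hF
        (fun e => -((k : ZMod (q0 * e.1.lcm e.2)) * c e *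
          ((g * l ^ 2 : ℕ) : ZMod (q0 * e.1.lcm e.2))⁻¹))
        (fun e he N hN => by
          obtain ⟨h1, -, h3⟩ := hc e he
          have h4 := ZMod.coe_mul_inv_eq_one _ h3
          have h5 : (((c e : ℤ) * (k * N) : ℤ) : ZMod (q0 * e.1.lcm e.2)) = 0 := by
            push_cast at h4 hN ⊢
            linear_combination (-((g : ZMod (q0 * e.1.lcm e.2)) * l ^ 2)) * hN -
              (k * c e * N : ZMod (q0 * e.1.lcm e.2)) * h4
          rw [ZMod.intCast_zmod_eq_zero_iff_dvd] at h5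
          exact (Nat.isCoprime_iff_coprime.2 h1.symm).dvd_of_dvd_mul_left
            ((Int.natCast_dvd_natCast.2 (Nat.dvd_mul_left _ _)).trans h5))
        (fun _ a => ((k8L s lam (g * l * a) * ind (Real.log a - v) : ℝ) : ℂ))
        (fun e b => (k8L s lam (g * l * b) : ℂ) * (((2 * |(k : ℝ)| / (q0 * e.1.lcm e.2 : ℕ) : ℝ) : ℂ) *
          ∑ u ∈ Ioc 0 Y, (ind (Real.log ((g * l ^ 2 * b * u : ℕ) : ℝ) - Real.log X + v) : ℂ) *
            eZ (q0 * e.1.lcm e.2) ((k : ZMod (q0 * e.1.lcm e.2)) * (u : ZMod (q0 * e.1.lcm e.2)))))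
        (fun e _ a => by
          rw [Complex.norm_real, Real.norm_eq_abs, abs_mul, abs_of_nonneg (ind_nonneg _)]
          exact (mul_le_of_le_one_right (abs_nonneg _) (ind_le_one _)).trans (k8_abs_L hT0 hl _))
        (fun e he b => by
          rcases Nat.eq_zero_or_pos b with rfl | hb
          · have : k8L s lam (g * l * 0) = 0 := if_neg fun h => by
              have := (mem_Rough.1 h).1.1
              omega
            rw [this]
            simpa using hT0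
          · have hE' : (0 : ℝ) < (q0 * e.1.lcm e.2 : ℕ) := by exact_mod_cast hE e he
            rw [norm_mul, norm_mul, Complex.norm_real, Complex.norm_real, Real.norm_eq_abs,
              Real.norm_of_nonneg (by positivity)]
            refine (mul_le_of_le_one_right (abs_nonneg _) ?_).trans (k8_abs_L hT0 hl _)
            refine (mul_le_mul_of_nonneg_left (k8_geo (N := g * l ^ 2 * b) (hE e he)
              (by positivity) hk (mem_Fq (hc e he).2.1) hX v Y) (by positivity)).trans_eq ?_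
            field_simp)
      refine le_trans (le_of_eq ?_) (mul_le_mul_of_nonneg_left hb (inv_pos.2 hk0).le)
      rw [mul_sum]
      refine sum_congr rfl fun e he => ?_
      have hE' : ((q0 * e.1.lcm e.2 : ℕ) : ℂ) ≠ 0 := by exact_mod_cast (hE e he).ne'
      have hk1 : ((|(k : ℝ)| : ℝ) : ℂ) ≠ 0 := by
        have : (k : ℝ) ≠ 0 := by exact_mod_cast hk
        exact_mod_cast (abs_pos.2 this).ne'
      rw [← Real.norm_of_nonneg (inv_pos.2 hk0).le, ← Complex.norm_real, ← norm_mul, sum_product,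
        sum_product, mul_sum]
      congr 1
      refine sum_congr rfl fun a ha => ?_
      rw [mul_sum]
      refine sum_congr rfl fun b hb => ?_
      simp only [cf]
      rw [k8_inv (hc e he).2.2 (mem_filter.1 ha).2 (mem_filter.1 hb).2]
      simp only [mul_sum, sum_mul]
      refine sum_congr rfl fun u _ => ?_
      rw [show -((k : ZMod (q0 * e.1.lcm e.2)) * c e *
          ((g * l ^ 2 : ℕ) : ZMod (q0 * e.1.lcm e.2))⁻¹) * (a : ZMod (q0 * e.1.lcm e.2))⁻¹ *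
          (b : ZMod (q0 * e.1.lcm e.2))⁻¹ = -((k : ZMod (q0 * e.1.lcm e.2)) * c e *
          (((g * l ^ 2 : ℕ) : ZMod (q0 * e.1.lcm e.2))⁻¹ * (a : ZMod (q0 * e.1.lcm e.2))⁻¹ *
          (b : ZMod (q0 * e.1.lcm e.2))⁻¹)) by ring]
      simp only [Complex.ofReal_mul, Complex.ofReal_inv, Complex.ofReal_div, Complex.ofReal_natCast,
        Complex.ofReal_ofNat]
      generalize ((q0 * e.1.lcm e.2 : ℕ) : ℂ) = E at hE' ⊢
      field_simp)
  refine le_trans (le_of_eq (sum_congr rfl fun e _ => ?_)) key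
  congr 1
  rw [k8W, sum_product, sum_product]
  refine sum_congr rfl fun a _ => sum_congr rfl fun b _ => ?_
  simp only [k8K, cf, mul_sum]
  refine sum_congr rfl fun u _ => ?_
  rw [show a * (g * l ^ 2 * b * u) = g * l ^ 2 * a * b * u by ring]
  ring

theorem k8_inner (y R E g l : ℕ) (lam : ℕ → ℝ) (G : ℕ → ℂ) :
    (∑ a ∈ Icc 1 (R / (g * l)), ∑ b ∈ Icc 1 (R / (g * l)),
      if (g * l ^ 2 * a * b).Coprime E then
        ((k8L (Rough y R) lam (g * l * a) * k8L (Rough y R) lam (g * l * b) : ℝ) : ℂ) *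
          G (g * l ^ 2 * a * b) else 0) =
    if (g * l ^ 2).Coprime E then
      ∑ a ∈ (Rough y (R / (g * l))).filter (·.Coprime E),
        ∑ b ∈ (Rough y (R / (g * l))).filter (·.Coprime E),
          ((k8L (Rough y R) lam (g * l * a) * k8L (Rough y R) lam (g * l * b) : ℝ) : ℂ) *
            G (g * l ^ 2 * a * b) else 0 := by
  have hsub : (Rough y (R / (g * l))).filter (·.Coprime E) ⊆ Icc 1 (R / (g * l)) :=
    fun a ha => mem_Icc.2 (mem_Rough.1 (mem_filter.1 ha).1).1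
  have hz : ∀ a ∈ Icc 1 (R / (g * l)), a ∉ (Rough y (R / (g * l))).filter (·.Coprime E) →
      a.Coprime E → k8L (Rough y R) lam (g * l * a) = 0 := fun a ha hn hc => if_neg fun h =>
    hn (mem_filter.2 ⟨mem_Rough.2 ⟨mem_Icc.1 ha,
      (mem_Rough.1 (rough_dvd h (Nat.dvd_mul_left _ _))).2⟩, hc⟩)
  split_ifs with h
  · symm
    refine sum_subset_zero_on_sdiff hsub (fun a ha => sum_eq_zero fun b _ => ?_) fun a ha => ?_
    · split_ifs with h1
      · rw [hz a (mem_sdiff.1 ha).1 (mem_sdiff.1 ha).2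
          (Nat.Coprime.coprime_mul_left (Nat.Coprime.coprime_mul_right h1))]
        simp
      · rfl
    · refine sum_subset_zero_on_sdiff hsub (fun b hb => ?_) fun b hb => ?_
      · split_ifs with h1
        · rw [hz b (mem_sdiff.1 hb).1 (mem_sdiff.1 hb).2 (Nat.Coprime.coprime_mul_left h1)]
          simp
        · rfl
      · rw [if_pos ((h.mul_left (mem_filter.1 ha).2).mul_left (mem_filter.1 hb).2)]
  · exact sum_eq_zero fun a _ => sum_eq_zero fun b _ => if_neg fun h1 =>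
      h (Nat.Coprime.coprime_mul_right (Nat.Coprime.coprime_mul_right h1))

theorem k8_split (y R E : ℕ) (lam : ℕ → ℝ) (c : ℕ) (X : ℝ) (Y : ℕ) {M : ℤ} (hM : (E : ℤ) ≤ M) :
    ‖∑ d ∈ (Rough y R ×ˢ Rough y R).filter (fun d => (d.1.lcm d.2).Coprime E),
      ((lam d.1 * lam d.2 : ℝ) : ℂ) * ∑ k ∈ (Fq E).erase 0, k8K E k c X Y (d.1.lcm d.2)‖ ≤
    ∑ g ∈ Icc 1 R, ∑ l ∈ Icc 1 R, ∑ k ∈ (Icc (-M) M).erase 0,
      if k ∈ Fq E ∧ (g * l ^ 2).Coprime E then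
        ‖k8W ((Rough y (R / (g * l))).filter (·.Coprime E)) (Rough y R) lam E k c X Y g l‖
      else 0 := by
  have e1 : ∑ d ∈ (Rough y R ×ˢ Rough y R).filter (fun d => (d.1.lcm d.2).Coprime E),
      ((lam d.1 * lam d.2 : ℝ) : ℂ) * ∑ k ∈ (Fq E).erase 0, k8K E k c X Y (d.1.lcm d.2) =
      ∑ d ∈ Icc 1 R ×ˢ Icc 1 R, if (d.1.lcm d.2).Coprime E then
        ((k8L (Rough y R) lam d.1 * k8L (Rough y R) lam d.2 : ℝ) : ℂ) *
          ∑ k ∈ (Fq E).erase 0, k8K E k c X Y (d.1.lcm d.2) else 0 := by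
    rw [sum_filter]
    refine sum_subset_zero_on_sdiff (product_subset_product (filter_subset _ _) (filter_subset _ _))
      (fun d hd => ?_) fun d hd => ?_
    · have h1 := (mem_sdiff.1 hd).2
      rw [mem_product, not_and_or] at h1
      rcases h1 with h1 | h1 <;> simp [k8L, h1]
    · obtain ⟨h1, h2⟩ := mem_product.1 hd
      simp only [k8L, if_pos h1, if_pos h2]
  rw [e1, lcm_moebius R fun d1 d2 L => if L.Coprime E then
    ((k8L (Rough y R) lam d1 * k8L (Rough y R) lam d2 : ℝ) : ℂ) *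
      ∑ k ∈ (Fq E).erase 0, k8K E k c X Y L else 0]
  refine (norm_sum_le _ _).trans (sum_le_sum fun g _ => (norm_sum_le _ _).trans
    (sum_le_sum fun l _ => ?_))
  rw [norm_mul, k8_inner y R E g l lam fun L => ∑ k ∈ (Fq E).erase 0, k8K E k c X Y L]
  have hμ : ‖((ArithmeticFunction.moebius l : ℤ) : ℂ)‖ ≤ 1 := by
    rw [Complex.norm_intCast]
    exact_mod_cast ArithmeticFunction.abs_moebius_le_one
  refine (mul_le_of_le_one_left (norm_nonneg _) hμ).trans ?_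
  by_cases h : (g * l ^ 2).Coprime E
  · simp only [if_pos h, and_iff_left h]
    rw [← sum_filter]
    have e2 : ((Icc (-M) M).erase 0).filter (· ∈ Fq E) = (Fq E).erase 0 := by
      ext k
      simp only [mem_filter, mem_erase, mem_Icc]
      refine ⟨fun h1 => ⟨h1.1.1, h1.2⟩, fun h1 => ⟨⟨h1.1, ?_⟩, h1.2⟩⟩
      have h2 := mem_Fq h1.2
      have h3 := abs_nonneg k
      exact abs_le.1 (by omega)
    rw [e2]
    refine le_trans (le_of_eq ?_) (norm_sum_le _ _)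
    congr 1
    simp only [k8W, mul_sum]
    rw [sum_comm (s := (Fq E).erase 0)]
    exact sum_congr rfl fun a _ => sum_comm
  · simp [h]

theorem k8_harm (n : ℕ) : ∑ i ∈ Icc 1 n, (i : ℝ)⁻¹ ≤ 1 + Real.log n := by
  have h := harmonic_le_one_add_log n
  simpa only [harmonic_eq_sum_Icc, Rat.cast_sum, Rat.cast_inv, Rat.cast_natCast] using h

theorem k8_harm2 (n : ℕ) :
    ∑ k ∈ (Icc (-(n : ℤ)) n).erase 0, (2 * |(k : ℝ)|)⁻¹ ≤ 1 + Real.log n := by
  refine le_trans (le_of_eq ?_) (k8_harm n)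
  rw [sum_erase _ (by simp), sum_Icc_of_even_eq_range (f := fun k : ℤ => (2 * |(k : ℝ)|)⁻¹)
    (fun k => by simp), range_eq_Ico, sum_eq_sum_Ico_succ_bot (by omega : 0 < n + 1), zero_add,
    Ico_add_one_right_eq_Icc]
  simp only [Nat.cast_zero, Int.cast_zero, abs_zero, mul_zero, inv_zero, zero_add, sub_zero,
    nsmul_eq_mul, mul_sum, Int.cast_natCast, Nat.abs_cast]
  refine sum_congr rfl fun i _ => ?_
  push_cast
  rw [mul_inv, ← mul_assoc, mul_inv_cancel₀ two_ne_zero, one_mul]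

theorem off_zero {y z : ℕ} (hz : 2 ≤ z) {T : ℝ} (hT1 : 1 ≤ T) (hT : DivB y z T) {lam : ℕ → ℝ}
    (hl : ∀ D, |lam D| ≤ T) {q0 : ℕ} (hq0 : 0 < q0) (hq : q0 ≤ z) (c : ℕ × ℕ → ℕ)
    (hc : ∀ e ∈ Rough y (z ^ 104) ×ˢ Rough y (z ^ 104), (c e).Coprime (e.1.lcm e.2))
    {X : ℝ} (hX : 0 < X) (Y : ℕ) :
    ∑ e ∈ Rough y (z ^ 104) ×ˢ Rough y (z ^ 104),
      ‖∑ d ∈ (Rough y (z ^ 104) ×ˢ Rough y (z ^ 104)).filter
          (fun d => (d.1.lcm d.2).Coprime (q0 * e.1.lcm e.2)), ((lam d.1 * lam d.2 : ℝ) : ℂ) *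
        ∑ k ∈ (Fq (q0 * e.1.lcm e.2)).erase 0, ((q0 * e.1.lcm e.2 : ℕ) : ℂ)⁻¹ *
          eZ (q0 * e.1.lcm e.2) (-((k : ZMod (q0 * e.1.lcm e.2)) * c e *
            ((d.1.lcm d.2 : ℕ) : ZMod (q0 * e.1.lcm e.2))⁻¹)) *
          ∑ u ∈ Ioc 0 Y, (wt X (d.1.lcm d.2 * u) : ℂ) * eZ (q0 * e.1.lcm e.2)
            ((k : ZMod (q0 * e.1.lcm e.2)) * (u : ZMod (q0 * e.1.lcm e.2)))‖
      ≤ 2 * T ^ 3 * (z : ℝ) ^ 391 * (300 * Real.log z) ^ 4 := by
  have hT0 : 0 ≤ T := zero_le_one.trans hT1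
  have hz' : (2 : ℝ) ≤ z := by exact_mod_cast hz
  have hlog : Real.log 2 ≤ Real.log z := Real.log_le_log two_pos hz'
  have hl2 := Real.log_two_gt_d9
  have hl4 : Real.log 4 = 2 * Real.log 2 := by
    rw [show (4 : ℝ) = 2 ^ 2 by norm_num, Real.log_pow]; norm_num
  have hR : Real.log ((z ^ 104 : ℕ) : ℝ) = 104 * Real.log z := by
    push_cast; rw [Real.log_pow]; norm_num
  have hM : Real.log ((z ^ 209 : ℕ) : ℝ) = 209 * Real.log z := by
    push_cast; rw [Real.log_pow]; norm_num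
  set R := z ^ 104 with hRd
  set L := Real.log z with hL
  have hL0 : 0 ≤ 300 * L := by linarith
  have h1 := k8_harm R
  have h2 := k8_harm2 (z ^ 209)
  have h3 : ∀ e ∈ Rough y R ×ˢ Rough y R, ((q0 * e.1.lcm e.2 : ℕ) : ℤ) ≤ ((z ^ 209 : ℕ) : ℤ) := by
    intro e he
    obtain ⟨a1, a2⟩ := mem_product.1 he
    have b1 := (mem_Rough.1 a1).1
    have b2 := (mem_Rough.1 a2).1
    have b3 : e.1.lcm e.2 ≤ R * R := (Nat.le_of_dvd (Nat.mul_pos b1.1 b2.1)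
      (Nat.lcm_dvd_mul _ _)).trans (Nat.mul_le_mul b1.2 b2.2)
    exact Int.ofNat_le.2 ((Nat.mul_le_mul hq b3).trans_eq (by rw [hRd]; ring))
  refine (sum_le_sum fun e he => k8_split y R _ lam (c e) X Y (h3 e he)).trans ?_
  calc _ = ∑ g ∈ Icc 1 R, ∑ l ∈ Icc 1 R,
        ∑ k ∈ (Icc (-((z ^ 209 : ℕ) : ℤ)) ((z ^ 209 : ℕ) : ℤ)).erase 0,
          ∑ e ∈ (Rough y R ×ˢ Rough y R).filter (fun e => k ∈ Fq (q0 * e.1.lcm e.2) ∧
            (g * l ^ 2).Coprime (q0 * e.1.lcm e.2)),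
            ‖k8W ((Rough y (R / (g * l))).filter (·.Coprime (q0 * e.1.lcm e.2))) (Rough y R) lam
              (q0 * e.1.lcm e.2) k (c e) X Y g l‖ := by
        rw [sum_comm]
        refine sum_congr rfl fun g _ => ?_
        rw [sum_comm]
        refine sum_congr rfl fun l _ => ?_
        rw [sum_comm]
        exact sum_congr rfl fun k _ => (sum_filter _ _).symm
    _ ≤ ∑ g ∈ Icc 1 R, ∑ l ∈ Icc 1 R,
        ∑ k ∈ (Icc (-((z ^ 209 : ℕ) : ℤ)) ((z ^ 209 : ℕ) : ℤ)).erase 0,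
          2 * T ^ 3 * (z : ℝ) ^ 391 * (300 * L) * ((g : ℝ)⁻¹ * ((l : ℝ)⁻¹ * (2 * |(k : ℝ)|)⁻¹)) := by
        refine sum_le_sum fun g hg => sum_le_sum fun l hl0 => sum_le_sum fun k hk => ?_
        have hk1 := mem_Icc.1 (mem_erase.1 hk).2
        refine (k8_core hz hT1 hT hl hq0 hq c hX Y (mem_Icc.1 hg).1 (mem_Icc.1 hl0).1
          (mem_erase.1 hk).1 (by push_cast at hk1; exact abs_le.2 hk1) _ (filter_subset _ _)
          (fun e he => ⟨hc e (mem_filter.1 he).1, (mem_filter.1 he).2⟩)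
          (Nat.div_le_self _ _)).trans ?_
        have a1 : ((R / (g * l) : ℕ) : ℝ) ≤ (z : ℝ) ^ 104 * ((g : ℝ)⁻¹ * (l : ℝ)⁻¹) := by
          refine Nat.cast_div_le.trans_eq ?_
          rw [hRd]
          push_cast
          rw [div_eq_mul_inv, mul_inv]
        have a2 : Real.log ((z ^ 104 : ℕ) : ℝ) + Real.log 4 ≤ 300 * L := by
          rw [← hRd, hR]; linarith
        calc _ ≤ (2 * |(k : ℝ)|)⁻¹ * (2 * T ^ 3 * (z : ℝ) ^ 287 *
              ((z : ℝ) ^ 104 * ((g : ℝ)⁻¹ * (l : ℝ)⁻¹))) * (300 * L) := by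
              gcongr
          _ = _ := by ring
    _ = 2 * T ^ 3 * (z : ℝ) ^ 391 * (300 * L) * ((∑ g ∈ Icc 1 R, (g : ℝ)⁻¹) *
        ((∑ l ∈ Icc 1 R, (l : ℝ)⁻¹) *
          ∑ k ∈ (Icc (-((z ^ 209 : ℕ) : ℤ)) ((z ^ 209 : ℕ) : ℤ)).erase 0, (2 * |(k : ℝ)|)⁻¹)) := by
        simp only [← mul_sum, ← sum_mul]
    _ ≤ 2 * T ^ 3 * (z : ℝ) ^ 391 * (300 * L) * ((300 * L) * ((300 * L) * (300 * L))) := by
        gcongr
        · linarith
        · linarith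
        · linarith
    _ = _ := by ring

end Pool.Agent.Lib.MP_9227d9_nt.H5
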