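import Pool.Agent.Lib.MP_9227d9_nt.H5.DefsM

/-! The one dimensional Selberg form. -/

open Finset

namespace Pool.Agent.Lib.MP_9227d9_nt.H5

open Pool.Agent.Lib.MP_bee098_nt

variable {ι : Type} [Fintype ι] [DecidableEq ι] (P : ι → ℕ)

theorem m1_sup {v : ι → ℝ} {γ : Finset ι → ℝ} (hv : ∀ i, 0 ≤ v i) (h0 : ∀ T, 0 ≤ γ T)
    (hγ : Antitone γ) (D : Finset ι) :
    ∑ T ∈ univ.filter (D ⊆ ·), γ T * ∏ i ∈ T \ D, v i ≤ ws v γ := by
  calc _ ≤ ∑ T ∈ univ.filter (D ⊆ ·), γ (T \ D) * ∏ i ∈ T \ D, v i :=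
        Finset.sum_le_sum fun T _ => mul_le_mul_of_nonneg_right (hγ sdiff_subset)
          (Finset.prod_nonneg fun i _ => hv i)
    _ ≤ _ := by
        rw [← Finset.sum_image (f := fun T => γ T * ∏ i ∈ T, v i)
          (g := fun T : Finset ι => T \ D)]
        · exact Finset.sum_le_sum_of_subset_of_nonneg (subset_univ _) fun T _ _ =>
            mul_nonneg (h0 T) (Finset.prod_nonneg fun i _ => hv i)
        · intro T hT T' hT' h
          simp only [coe_filter, mem_univ, true_and, Set.mem_ofPred_eq] at hT hT'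
          rw [← sdiff_union_of_subset hT, ← sdiff_union_of_subset hT']
          exact congrArg (· ∪ D) h

theorem m1_swap (f : Finset ι → Finset ι → ℝ) :
    ∑ T : Finset ι, ∑ S ∈ T.powerset, f T S =
      ∑ S : Finset ι, ∑ T ∈ univ.filter (S ⊆ ·), f T S :=
  Finset.sum_comm' (by simp)

omit [DecidableEq ι] in
theorem m1_one (v : ι → ℝ) : ws v (fun _ => 1) = ∏ i, (1 + v i) := by
  classical
  rw [Finset.prod_one_add, ws]
  simp

omit [DecidableEq ι] in
theorem m1_smul (v : ι → ℝ) (c : ℝ) (γ : Finset ι → ℝ) :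
    ws v (fun T => c * γ T) = c * ws v γ := by
  simp only [ws, Finset.mul_sum, mul_assoc]

omit [Fintype ι] [DecidableEq ι] in
theorem m1_cut_sq (x : ℝ) : (fun T => cut P x T ^ 2) = cut P x := by
  funext T
  unfold cut
  split_ifs <;> norm_num

/-- Finite sets as indicator vectors. -/
def m1_eqv : Finset ι ≃ (ι → Bool) where
  toFun T i := decide (i ∈ T)
  invFun f := univ.filter fun i => f i = true
  left_inv T := by ext i; simp
  right_inv f := by funext i; simp

theorem m1_tensor (ε : ℝ) {μ o a b : ι → ℝ} (hμ : ∀ i, 0 ≤ μ i) (ha : ∀ i, 0 ≤ a i)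
    (hb : ∀ i, 0 ≤ b i)
    (h : ∀ i (c0 c1 : ℝ), ε * ((c0 + c1 * o i) ^ 2 + μ i * (c0 - c1) ^ 2) ≤
      ε * (a i * (c0 ^ 2 + b i * c1 ^ 2))) (y : Finset ι → ℝ) :
    ε * ws μ (fun U => (∑ T, y T * ∏ i ∈ T, if i ∈ U then -1 else o i) ^ 2) ≤
      ε * ((∏ i, a i) * ws b fun T => y T ^ 2) := by
  have key := tensor_sign (𝕜 := ℝ) ε (S := fun _ : ι => Bool) (A := fun _ : ι => Bool)
    (fun i s => if s = true then μ i else 1)
    (fun i c s => if c = true then (if s = true then -1 else o i) else 1)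
    (fun i c => a i * if c = true then b i else 1)
    (fun i s => by split_ifs; exacts [hμ i, zero_le_one])
    (fun i c => mul_nonneg (ha i) (by split_ifs; exacts [hb i, zero_le_one]))
    (fun i c => by
      have := h i (c false) (c true)
      simp only [Fintype.sum_bool, Real.norm_eq_abs, sq_abs, if_true, Bool.false_eq_true,
        if_false]
      calc _ = ε * ((c false + c true * o i) ^ 2 + μ i * (c false - c true) ^ 2) := by ring
        _ ≤ _ := this
        _ = _ := by ring)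
    (fun σ => y (m1_eqv.symm σ))
  simp only [← (m1_eqv (ι := ι)).sum_comp, Equiv.symm_apply_apply, Real.norm_eq_abs,
    sq_abs] at key
  simp only [m1_eqv, Equiv.coe_fn_mk, decide_eq_true_eq, Finset.prod_mul_distrib,
    Fintype.prod_ite_mem] at key
  simp only [ws, Finset.mul_sum] at key ⊢
  refine le_trans (le_of_eq ?_) (key.trans (le_of_eq ?_))
  · exact Finset.sum_congr rfl fun U _ => by ring
  · exact Finset.sum_congr rfl fun U _ => by ring

theorem m1_sq (μ o : ι → ℝ) (x : ℝ) :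
    ws μ (fun U => sel P o x U ^ 2) = (ws o (cut P x))⁻¹ ^ 2 *
      ws μ (fun U => (∑ T, cut P x T * ∏ i ∈ T, if i ∈ U then -1 else o i) ^ 2) := by
  rw [← m1_smul]
  simp only [sel, mul_pow]

theorem ws_add {v d : ι → ℝ} {γ : Finset ι → ℝ} (hv : ∀ i, 0 ≤ v i) (hd : ∀ i, 0 ≤ d i)
    (h0 : ∀ T, 0 ≤ γ T) (hγ : Antitone γ) :
    ws (fun i => v i + d i) γ ≤ (∏ i, (1 + d i)) * ws v γ := by
  rw [Finset.prod_one_add, Finset.sum_mul, ws]
  have e : ∀ T : Finset ι, γ T * ∏ i ∈ T, (v i + d i) =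
      ∑ S ∈ T.powerset, (∏ i ∈ S, d i) * (γ T * ∏ i ∈ T \ S, v i) := fun T => by
    simp only [add_comm (v _)]
    rw [Finset.prod_add, Finset.mul_sum]
    exact Finset.sum_congr rfl fun S _ => by ring
  simp only [e]
  rw [m1_swap, Finset.powerset_univ]
  refine Finset.sum_le_sum fun S _ => ?_
  rw [← Finset.mul_sum]
  exact mul_le_mul_of_nonneg_left (m1_sup hv h0 hγ S) (Finset.prod_nonneg fun i _ => hd i)

theorem one_le_ws_cut {o : ι → ℝ} (ho : ∀ i, 0 ≤ o i) {x : ℝ} (hx : 0 ≤ x) :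
    1 ≤ ws o (cut P x) := by
  refine le_trans ?_ (ws_empty ho (cut_nonneg P x))
  simp [cut, MP_bee098_nt.lp, hx]

theorem sel_empty {o : ι → ℝ} (ho : ∀ i, 0 ≤ o i) {x : ℝ} (hx : 0 ≤ x) : sel P o x ∅ = 1 := by
  have h := one_le_ws_cut P ho hx
  simp only [sel, notMem_empty, if_false]
  exact inv_mul_cancel₀ (by linarith)

theorem abs_sel_le {o : ι → ℝ} (ho : ∀ i, 0 ≤ o i) {x : ℝ} (hx : 0 ≤ x) (U : Finset ι) :
    |sel P o x U| ≤ 2 ^ U.card := by
  have h := one_le_ws_cut P ho hx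
  have h1 := ws_change (v := o) (v' := fun i => if i ∈ U then 1 else o i) (b := fun _ => 1) U ho
    (fun i => by split_ifs; exacts [zero_le_one, ho i]) (cut_nonneg P x) (cut_anti P x)
    (fun i hi => by rw [if_neg hi]) (fun i hi => by rw [if_pos hi])
  rw [Finset.prod_const, one_add_one_eq_two] at h1
  rw [sel, abs_mul, abs_inv, abs_of_pos (by linarith), inv_mul_le_iff₀ (by linarith), mul_comm]
  refine (Finset.abs_sum_le_sum_abs _ _).trans (le_trans (le_of_eq ?_) h1)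
  refine Finset.sum_congr rfl fun T _ => ?_
  rw [abs_mul, abs_of_nonneg (cut_nonneg P x T), Finset.abs_prod]
  congr 1
  refine Finset.prod_congr rfl fun i _ => ?_
  by_cases hi : i ∈ U
  · simp [hi]
  · simp only [if_neg hi]
    exact abs_of_nonneg (ho i)

theorem sel_sq {o : ι → ℝ} (ho : ∀ i, 0 ≤ o i) {x : ℝ} (hx : 0 ≤ x) :
    ws o (fun U => sel P o x U ^ 2) = (∏ i, (1 + o i)) / ws o (cut P x) := by
  have h := one_le_ws_cut P ho hx
  have ha : ∀ i, 0 ≤ 1 + o i := fun i => by linarith [ho i]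
  have h1 := m1_tensor 1 (o := o) ho ha ho (fun i c0 c1 => le_of_eq (by ring)) (cut P x)
  have h2 := m1_tensor (-1) (o := o) ho ha ho (fun i c0 c1 => le_of_eq (by ring)) (cut P x)
  rw [m1_cut_sq] at h1 h2
  rw [m1_sq, show ws o (fun U => (∑ T, cut P x T * ∏ i ∈ T, if i ∈ U then -1 else o i) ^ 2) =
    (∏ i, (1 + o i)) * ws o (cut P x) by linarith]
  field_simp

theorem sel_tilt {o d : ι → ℝ} (ho : ∀ i, 0 ≤ o i) (hd : ∀ i, 0 ≤ d i) {x : ℝ} (hx : 0 ≤ x) :
    ws (fun i => o i + d i) (fun U => sel P o x U ^ 2)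
      ≤ (∏ i, (1 + o i + 2 * d i) * (1 + 2 * d i)) / ws o (cut P x) := by
  have h := one_le_ws_cut P ho hx
  have ha : ∀ i, 0 ≤ 1 + o i + 2 * d i := fun i => by linarith [ho i, hd i]
  have h1 := m1_tensor 1 (μ := fun i => o i + d i) (o := o) (a := fun i => 1 + o i + 2 * d i)
    (b := fun i => o i + 2 * d i) (fun i => by linarith [ho i, hd i]) ha
    (fun i => by linarith [ho i, hd i]) (fun i c0 c1 => by
      have g1 := mul_nonneg (hd i) (sq_nonneg (c0 + c1))
      have g2 := mul_nonneg (mul_nonneg (hd i) (add_nonneg (ho i) (hd i))) (sq_nonneg c1)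
      nlinarith) (cut P x)
  rw [m1_cut_sq, one_mul, one_mul] at h1
  have h2 := ws_add (d := fun i => 2 * d i) ho (fun i => by linarith [hd i]) (cut_nonneg P x)
    (cut_anti P x)
  have h3 := h1.trans (mul_le_mul_of_nonneg_left h2 (Finset.prod_nonneg fun i _ => ha i))
  rw [m1_sq, Finset.prod_mul_distrib]
  refine (mul_le_mul_of_nonneg_left h3 (sq_nonneg _)).trans (le_of_eq ?_)
  field_simp

theorem sel_markov {o : ι → ℝ} (ho : ∀ i, 0 ≤ o i) {x : ℝ} (hx : 0 < x) {e : ℝ} (he : e ≤ 1)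
    (h : ∑ i, o i * Real.log (P i) ≤ e / 2 * x) : ws o (fun U => sel P o x U ^ 2) ≤ 1 + e := by
  have h1 := one_le_ws_cut P ho hx.le
  have hl : ∀ i, 0 ≤ Real.log (P i) := fun i => Real.log_natCast_nonneg _
  have h2 := marg_sum (γ := fun _ => 1) ho (fun _ => zero_le_one) (fun _ _ _ => le_rfl) hl
  have h3 : 0 ≤ ws o (fun _ => 1) := ws_nonneg ho fun _ => zero_le_one
  have h4 : 0 ≤ e := by
    have := (Finset.sum_nonneg fun i _ => mul_nonneg (ho i) (hl i)).trans h
    by_contra hc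
    nlinarith
  have h5 : x * (ws o (fun _ => 1) - ws o (cut P x)) ≤
      ∑ T : Finset ι, (1 * ∏ i ∈ T, o i) * ∑ i ∈ T, Real.log (P i) := by
    rw [ws, ws, ← Finset.sum_sub_distrib, Finset.mul_sum]
    refine Finset.sum_le_sum fun T _ => ?_
    have g1 : 0 ≤ ∏ i ∈ T, o i := Finset.prod_nonneg fun i _ => ho i
    have g2 := lp_nonneg P T
    change _ ≤ _ * lp P T
    unfold cut
    split_ifs with g3
    · nlinarith
    · nlinarith [not_le.1 g3]
  simp only [mul_comm (Real.log _)] at h2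
  have h6 := (h5.trans h2).trans (mul_le_mul_of_nonneg_right h h3)
  have h7 : ws o (fun _ => 1) - ws o (cut P x) ≤ e / 2 * ws o (fun _ => 1) :=
    le_of_mul_le_mul_left (by linarith) hx
  rw [sel_sq P ho hx.le, ← m1_one, div_le_iff₀ (by linarith)]
  nlinarith [mul_nonneg (mul_nonneg h4 (sub_nonneg.2 he)) h3]

theorem sel_eq_sum (o : ι → ℝ) (x : ℝ) (U : Finset ι) :
    sel P o x U = ∑ D ∈ U.powerset, lamS P o x D := by
  have e : ∀ T : Finset ι, cut P x T * ∏ i ∈ T, (if i ∈ U then -1 else o i) =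
      ∑ D ∈ T.powerset, (if D ⊆ U then ∏ i ∈ D, -(1 + o i) else 0) *
        (cut P x T * ∏ i ∈ T \ D, o i) := fun T => by
    have e1 : ∀ i, (if i ∈ U then -1 else o i) = (if i ∈ U then -(1 + o i) else 0) + o i :=
      fun i => by split_ifs <;> ring
    simp only [e1]
    rw [Finset.prod_add, Finset.mul_sum]
    refine Finset.sum_congr rfl fun D _ => ?_
    rw [Finset.prod_ite_zero]
    by_cases hD : D ⊆ U
    · rw [if_pos hD, if_pos (fun i hi => hD hi)]; ring
    · rw [if_neg hD, if_neg (fun hh => hD fun i hi => hh i hi)]; ring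
  simp only [sel, lamS, e]
  rw [m1_swap, ← Finset.mul_sum]
  congr 1
  simp only [← Finset.mul_sum]
  simp only [ite_mul, zero_mul]
  rw [← Finset.sum_filter]
  refine Finset.sum_congr ?_ fun _ _ => rfl
  ext D
  simp

theorem lamS_empty {o : ι → ℝ} (ho : ∀ i, 0 ≤ o i) {x : ℝ} (hx : 0 ≤ x) : lamS P o x ∅ = 1 := by
  have h := one_le_ws_cut P ho hx
  simp only [lamS, empty_subset, filter_true, sdiff_empty, prod_empty, one_mul]
  exact inv_mul_cancel₀ (by linarith)

theorem abs_lamS_le {o : ι → ℝ} (ho : ∀ i, 0 ≤ o i) (ho1 : ∀ i, o i ≤ 1) {x : ℝ} (hx : 0 ≤ x)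
    (D : Finset ι) : |lamS P o x D| ≤ 2 ^ D.card := by
  have h := one_le_ws_cut P ho hx
  have h1 := m1_sup ho (cut_nonneg P x) (cut_anti P x) D
  have h2 : 0 ≤ ∑ T ∈ univ.filter (D ⊆ ·), cut P x T * ∏ i ∈ T \ D, o i :=
    Finset.sum_nonneg fun T _ => mul_nonneg (cut_nonneg P x T) (Finset.prod_nonneg fun i _ => ho i)
  have h3 : |∏ i ∈ D, -(1 + o i)| ≤ 2 ^ D.card := by
    rw [Finset.abs_prod, ← Finset.prod_const]
    refine Finset.prod_le_prod (fun i _ => abs_nonneg _) fun i _ => ?_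
    rw [abs_neg, abs_of_nonneg (by linarith [ho i])]
    linarith [ho1 i]
  rw [lamS, abs_mul, abs_inv, abs_of_pos (by linarith), inv_mul_le_iff₀ (by linarith), abs_mul,
    abs_of_nonneg h2, mul_comm]
  exact mul_le_mul h1 h3 (abs_nonneg _) (by linarith)

theorem lamS_support (o : ι → ℝ) (x : ℝ) {D : Finset ι} (h : lamS P o x D ≠ 0) : lp P D ≤ x := by
  by_contra hc
  refine h ?_
  rw [lamS, Finset.sum_eq_zero, mul_zero, mul_zero]
  intro T hT
  rw [cut, if_neg (fun g => hc ((lp_mono P (mem_filter.1 hT).2).trans g)), zero_mul]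

end Pool.Agent.Lib.MP_9227d9_nt.H5
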