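import Pool.Agent.Lib.MP_9227d9_nt.H5.P5

/-! Lower bound for the mean of the sieve weight on rough shifts. -/

open Finset

namespace Pool.Agent.Lib.MP_9227d9_nt.H5

open Pool.Agent.Lib.MP_bee098_nt

variable {ι K : Type} [Fintype ι] [DecidableEq ι] [Fintype K] [DecidableEq K]
variable (P : ι → ℕ) [hP : ∀ i, Fact (P i).Prime]

open Classical in
/-- The class of a residue. -/
noncomputable def m2_c (A : K → Finset ι) (h : K → ℕ) (i : ι) (s : ZMod (P i)) : Option K :=
  if e : ∃ j, i ∈ A j ∧ s + h j = 0 then some e.choose else none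

omit [Fintype ι] [DecidableEq K] in
theorem m2_c_eq {A : K → Finset ι} {h : K → ℕ}
    (ha : ∀ i j j', i ∈ A j → (h j : ZMod (P i)) = h j' → j = j') (i : ι) (s : ZMod (P i))
    (j : K) : m2_c P A h i s = some j ↔ i ∈ A j ∧ s + h j = 0 := by
  unfold m2_c
  split_ifs with e
  · rw [Option.some.injEq]
    exact ⟨fun h1 => h1 ▸ e.choose_spec, fun h1 => ha i _ _ e.choose_spec.1
      (add_left_cancel (e.choose_spec.2.trans h1.2.symm))⟩
  · simpa using fun h1 h2 => e ⟨j, h1, h2⟩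

/-- The local measure. -/
noncomputable def m2_mu (A B : Finset ι) (β : ∀ i, ZMod (P i)) (a : ℕ) (i : ι) (s : ZMod (P i)) :
    ℝ := (P i : ℝ)⁻¹ * (if i ∈ B ∧ s ≠ β i then 0 else 1) * if i ∈ A ∧ s + a = 0 then 0 else 1

omit [Fintype ι] [DecidableEq ι] in
theorem m2_sum_ne (i : ι) (t : ZMod (P i)) :
    ∑ s : ZMod (P i), (if s + t = 0 then (0 : ℝ) else 1) = P i - 1 := by
  have : ∀ s : ZMod (P i), (if s + t = 0 then (0 : ℝ) else 1) = 1 - if s = -t then 1 else 0 :=
    fun s => by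
      simp only [add_eq_zero_iff_eq_neg]
      split_ifs <;> simp
  simp [this, Finset.sum_sub_distrib, ZMod.card]

omit [Fintype ι] in
theorem m2_mass {A B : Finset ι} (hAB : Disjoint A B) (β : ∀ i, ZMod (P i)) (a : ℕ) (i : ι) :
    ∑ s, m2_mu P A B β a i s =
      (if i ∈ B then (P i : ℝ)⁻¹ else 1) * if i ∈ A then 1 - (P i : ℝ)⁻¹ else 1 := by
  have h2 := two_le P i
  have h0 : (P i : ℝ) ≠ 0 := by linarith
  by_cases hA : i ∈ A
  · have hB : i ∉ B := Finset.disjoint_left.1 hAB hA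
    simp only [m2_mu, hA, hB, false_and, true_and, if_false, if_true, mul_one, one_mul]
    rw [← Finset.mul_sum, m2_sum_ne]
    field_simp
  · by_cases hB : i ∈ B
    · simp [m2_mu, hA, hB]
    · simp [m2_mu, hA, hB, ZMod.card, h0]

omit [Fintype ι] [Fintype K] in
theorem m2_zero {A B : Finset ι} (hAB : Disjoint A B) (β : ∀ i, ZMod (P i)) (a b : ℕ) {i : ι}
    (hA : i ∈ A) (hab : (a : ZMod (P i)) ≠ b) (c : ZMod (P i) → Option K) (j : K)
    (hc : ∀ s, c s = some j ↔ s + b = 0) :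
    ∑ s, m2_mu P A B β a i s * et P i (some j) (c s) = 0 := by
  have hB : i ∉ B := Finset.disjoint_left.1 hAB hA
  have : ∀ s : ZMod (P i), m2_mu P A B β a i s * et P i (some j) (c s) = (P i : ℝ)⁻¹ *
      ((if s = -b then 1 else 0) - om (P i) * if s + a = 0 then 0 else 1) := fun s => by
    simp only [m2_mu, et, hA, hB, false_and, true_and, if_false, mul_one, hc]
    by_cases h1 : s + b = 0
    · have h2 : ¬ s + a = 0 := fun h2 => hab (add_left_cancel (h2.trans h1.symm))
      rw [if_pos h1, if_neg h2, if_pos (eq_neg_of_add_eq_zero_left h1)]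
      ring
    · rw [if_neg h1, if_neg fun h2 : s = -b => h1 (by rw [h2, neg_add_cancel])]
      ring
  simp only [this]
  rw [← Finset.mul_sum, Finset.sum_sub_distrib, ← Finset.mul_sum, m2_sum_ne, om_mul]
  simp

theorem ex_lower {A : Finset ι} {w : ℕ} {ε L : ℝ} {g : Finset ι → ℝ} (H : Sv P K A w ε g L)
    (B : Finset ι) (hAB : Disjoint A B) (β : ∀ i, ZMod (P i)) (h : K → ℕ)
    (hd : ∀ i ∈ A, ∀ j j', (h j : ZMod (P i)) = h j' → j = j') (m : K) (φ : Finset ι → ℝ)
    (h0 : ∀ U, 0 ≤ φ U) (h1 : φ ∅ = 1) :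
    (1 - ε) * (Wi P B * Vp P A * (G1 P A g ^ 2 * I2 P A g ^ (Fintype.card K - 1)))
      ≤ Ex P fun x => Ph P A B β h g L x * φ (Uo P A (h m) x) := by
  have hA' : ∀ j, Am A m j ⊆ A := fun j => by simp only [Am]; split_ifs <;> simp
  have hA'' : ∀ i j, i ∈ Am A m j → j ≠ m := fun i j e1 e2 => by simp [Am, e2] at e1
  have ha : ∀ i j j', i ∈ Am A m j → (h j : ZMod (P i)) = h j' → j = j' :=
    fun i j j' e => hd i (hA' j e) j j'
  set y := yh (yy P g L) m (oA P A) with hy
  have s1 : ∀ x : ∀ i, ZMod (P i), (∏ i, m2_mu P A B β (h m) i (x i)) *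
      Zf y (fun i => fC P (Am A m) i (m2_c P (Am A m) h i (x i))) ^ 2
      ≤ (∏ i, (P i : ℝ)⁻¹) * (Ph P A B β h g L x * φ (Uo P A (h m) x)) := by
    intro x
    by_cases e : ∃ i ∈ A, x i + h m = 0
    · obtain ⟨i, hi, e⟩ := e
      rw [Finset.prod_eq_zero (mem_univ i) (by simp [m2_mu, hi, e]), zero_mul]
      refine mul_nonneg (by positivity) (mul_nonneg (mul_nonneg ?_ (sq_nonneg _)) (h0 _))
      exact Finset.prod_nonneg fun i _ => by split_ifs <;> simp
    · have e' : ∀ i ∈ A, x i + h m ≠ 0 := fun i hi e1 => e ⟨i, hi, e1⟩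
      have e1 : Uo P A (h m) x = ∅ := filter_eq_empty_iff.2 e'
      have e2 : ∏ i, m2_mu P A B β (h m) i (x i) = (∏ i, (P i : ℝ)⁻¹) * cl P B β x := by
        rw [cl, ← Finset.prod_mul_distrib]
        refine Finset.prod_congr rfl fun i _ => ?_
        rw [m2_mu, if_neg fun e3 : i ∈ A ∧ x i + h m = 0 => e' i e3.1 e3.2, mul_one]
      rw [e1, h1, e2, mul_one, Ph, af, mul_assoc,
        Z_collapse (yy P g L) m (fun i => fU P (fun _ => A) h i (x i))
          (fun i => fC P (Am A m) i (m2_c P (Am A m) h i (x i))) fun i j hj => ?_]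
      · rw [show (fun i => fU P (fun _ => A) h i (x i) m) = oA P A from
          funext fun i => by
            by_cases hi : i ∈ A
            · simp [fU, fv, oA, hi, e' i hi]
            · simp [fU, fv, oA, hi]]
      · simp only [fC, fU, fv, m2_c_eq P ha]
        simp only [Am, if_neg hj]
        by_cases hi : i ∈ A <;> simp [hi]
  have s2 : ∑ x : ∀ i, ZMod (P i), (∏ i, m2_mu P A B β (h m) i (x i)) *
      Zf y (fun i => fC P (Am A m) i (m2_c P (Am A m) h i (x i))) ^ 2
      = ∑ ρ, Dc P (Am A m) y ρ * ∏ i, ∑ s, m2_mu P A B β (h m) i s *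
        et P i (ρ i) (m2_c P (Am A m) h i s) := by
    simp only [Fintype.prod_sum, Finset.mul_sum]
    rw [Finset.sum_comm]
    refine Finset.sum_congr rfl fun x _ => ?_
    rw [class_expand P (Am A m) y _ fun i j e => ((m2_c_eq P ha i _ j).1 e).1, Finset.mul_sum]
    exact Finset.sum_congr rfl fun ρ _ => by rw [Finset.prod_mul_distrib]; ring
  have s3 : ∑ ρ, Dc P (Am A m) y ρ * ∏ i, ∑ s, m2_mu P A B β (h m) i s *
        et P i (ρ i) (m2_c P (Am A m) h i s)
      = Dc P (Am A m) y (fun _ => none) * (Wi P B * Vp P A) := by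
    rw [Finset.sum_eq_single (fun _ => none) (fun ρ _ hρ => ?_) (by simp)]
    · simp only [et, mul_one, m2_mass P hAB]
      rw [Finset.prod_mul_distrib, Finset.prod_ite_mem, Finset.prod_ite_mem, univ_inter,
        univ_inter, Wi, Vp]
    · by_cases e : Dc P (Am A m) y ρ = 0
      · rw [e, zero_mul]
      obtain ⟨i, hi⟩ := Function.ne_iff.1 hρ
      obtain ⟨j, hj⟩ := Option.ne_none_iff_exists'.1 hi
      have e1 := (Dc_support P (Am A m) (yh_support P L m (oA P A)) ρ e).1 i j hj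
      rw [Finset.prod_eq_zero (mem_univ i), mul_zero]
      rw [hj]
      exact m2_zero P hAB β (h m) (h j) (hA' j e1) (fun e2 => hA'' i j e1 (ha i j m e1 e2.symm)) _ j
        fun s => by rw [m2_c_eq P ha, and_iff_right e1]
  have hWV : 0 ≤ Wi P B * Vp P A :=
    mul_nonneg (Finset.prod_nonneg fun i _ => by positivity) (Vp_pos P A).le
  refine le_trans ?_ (Finset.sum_le_sum fun x _ => s1 x)
  rw [s2, s3]
  refine le_trans (le_of_eq ?_) (mul_le_mul_of_nonneg_right (Dc_main P H m) hWV)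
  ring

end Pool.Agent.Lib.MP_9227d9_nt.H5
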