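import Pool.Agent.Lib.MP_9227d9_nt.H5.P1
import Pool.Agent.Lib.MP_bee098_nt.Vaughan

/-! Repeated averaging makes twisted prime sums small. -/

open Finset

namespace Pool.Agent.Lib.MP_9227d9_nt.H5

open Pool.Agent.Lib.MP_bee098_nt

/-- The averaged twisted prime sum. -/
noncomputable def p2F (ψ : ℕ → ℂ) (l : ℝ) (Y r : ℕ) (u : ℝ) : ℂ :=
  ∑ n ∈ Ioc 0 Y, (ArithmeticFunction.vonMangoldt n : ℂ) * ψ n * (nu l r u n : ℂ)

theorem p2_norm {l : ℝ} (hl : 0 < l) (s : Finset ℕ) (c : ℕ → ℂ) (r : ℕ) (u b : ℝ)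
    (h : ∀ v, u ≤ v → ‖∑ n ∈ s, c n * (nu l 0 v n : ℂ)‖ ≤ b) :
    ‖∑ n ∈ s, c n * (nu l r u n : ℂ)‖ ≤ b := by
  simpa using nu_norm_le hl (Φ := Unit) {()} (fun _ => 1) (by simp) s (fun _ => c) r u b
    (fun v hv _ => by simpa using h v hv)

theorem p2_triv {ψ : ℕ → ℂ} (hψ : ∀ n, ‖ψ n‖ ≤ 1) {l : ℝ} (hl : 0 < l) (Y r : ℕ) (u : ℝ) :
    ‖p2F ψ l Y r u‖ ≤ 120 := by
  refine p2_norm hl _ _ r u _ fun v _ => ?_
  have hv := Real.exp_pos v
  have l4 : Real.log 4 ≤ 1.39 := by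
    rw [show (4 : ℝ) = 2 ^ 2 by norm_num, Real.log_pow]
    have := Real.log_two_lt_d9
    push_cast; linarith
  have l0 := log4_pos
  have h1 : ∀ n ∈ Ioc 0 Y, ‖(ArithmeticFunction.vonMangoldt n : ℂ) * ψ n * (nu l 0 v n : ℂ)‖ ≤
      if n ∈ Ioc 0 ⌊16 * Real.exp v⌋₊ then
        Real.exp (-v) * Real.log 4 * ArithmeticFunction.vonMangoldt n else 0 := by
    intro n hn
    have hn0 := (mem_Ioc.1 hn).1
    have hΛ : 0 ≤ ArithmeticFunction.vonMangoldt n := ArithmeticFunction.vonMangoldt_nonneg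
    split_ifs with h
    · rw [norm_mul, norm_mul, Complex.norm_real, Complex.norm_real, Real.norm_of_nonneg hΛ,
        Real.norm_of_nonneg (nu_nonneg hl _ _ _), nu_zero l v hn0, mul_comm]
      exact mul_le_mul (mul_le_mul_of_nonneg_left (wt_le _ _) (Real.exp_pos _).le)
        (mul_le_of_le_one_right hΛ (hψ n)) (by positivity) (by positivity)
    · have : nu l 0 v n = 0 := by
        by_contra h0
        have h2 := (nu_support hl 0 h0).2
        rw [Nat.cast_zero, zero_mul, add_zero] at h2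
        exact h (mem_Ioc.2 ⟨hn0, Nat.le_floor h2⟩)
      simp [this]
  refine (norm_sum_le _ _).trans ((sum_le_sum h1).trans ?_)
  rw [← sum_filter]
  refine (sum_le_sum_of_subset_of_nonneg (t := Ioc 0 ⌊16 * Real.exp v⌋₊)
    (fun n hn => (mem_filter.1 hn).2) (fun n _ _ => mul_nonneg (by positivity)
      ArithmeticFunction.vonMangoldt_nonneg)).trans ?_
  rw [← mul_sum]
  have h2 : ∑ n ∈ Ioc 0 ⌊16 * Real.exp v⌋₊, ArithmeticFunction.vonMangoldt n ≤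
      (Real.log 4 + 4) * (16 * Real.exp v) :=
    Chebyshev.psi_le_const_mul_self (x := 16 * Real.exp v) (by positivity)
  refine (mul_le_mul_of_nonneg_left h2 (by positivity)).trans ?_
  rw [Real.exp_neg]
  calc _ = 16 * (Real.log 4 * (Real.log 4 + 4)) := by field_simp
    _ ≤ 16 * (1.39 * (1.39 + 4)) := by gcongr
    _ ≤ 120 := by norm_num

theorem p2_conv {ψ : ℕ → ℂ} (hmul : ∀ m n, ψ (m * n) = ψ m * ψ n) {l : ℝ} (hl : 0 < l)
    {Y r : ℕ} {u : ℝ} (hY : 16 * Real.exp (u + r * l) ≤ Y) :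
    ∑ N ∈ Ioc 0 Y, (Real.log N : ℂ) * ψ N * (nu l r u N : ℂ) =
      ∑ m ∈ Ioc 0 Y, ψ m / m * p2F ψ l Y r (u - Real.log m) := by
  have e1 : ∀ N ∈ Ioc 0 Y, (Real.log N : ℂ) * ψ N * (nu l r u N : ℂ) =
      ∑ x ∈ Ioc 0 Y ×ˢ Ioc 0 Y, if x.1 * x.2 = N then
        ψ x.1 * (ArithmeticFunction.vonMangoldt x.2 * ψ x.2) * (nu l r u (x.1 * x.2) : ℂ)
        else 0 := by
    intro N hN
    rw [← ArithmeticFunction.vonMangoldt_sum,
      ← Nat.sum_divisorsAntidiagonal' (fun _ b => ArithmeticFunction.vonMangoldt b),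
      Nat.divisorsAntidiagonal_eq_prod_filter_of_le (mem_Ioc.1 hN).1.ne' (mem_Ioc.1 hN).2,
      ← sum_filter]
    push_cast
    rw [sum_mul, sum_mul]
    refine sum_congr rfl fun x hx => ?_
    rw [← (mem_filter.1 hx).2, hmul]
    ring
  rw [sum_congr rfl e1, sum_comm, sum_product]
  refine sum_congr rfl fun m hm => ?_
  rw [p2F, mul_sum]
  refine sum_congr rfl fun n hn => ?_
  have hm0 := (mem_Ioc.1 hm).1
  have hn0 := (mem_Ioc.1 hn).1
  have e2 : ψ m / m * ((ArithmeticFunction.vonMangoldt n : ℂ) * ψ n *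
      (nu l r (u - Real.log m) n : ℂ)) =
      ψ m * (ArithmeticFunction.vonMangoldt n * ψ n) * (nu l r u (m * n) : ℂ) := by
    rw [nu_mul l r u hm0 hn0]
    push_cast
    ring
  rw [e2, sum_ite_eq]
  split_ifs with h
  · rfl
  · have : nu l r u (m * n) = 0 := by
      by_contra h0
      have h1 := (nu_support hl r h0).2.trans hY
      exact h (mem_Ioc.2 ⟨Nat.mul_pos hm0 hn0, by exact_mod_cast h1⟩)
    simp [this]

theorem p2_log {ψ : ℕ → ℂ} {D : ℝ} (hD : ∀ a b, ‖∑ n ∈ Ico a b, ψ n‖ ≤ D) {l u0 : ℝ}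
    (hl : 0 < l) {Y : ℕ} (hY : 1 ≤ Y) (r : ℕ) {u : ℝ} (hu : u0 ≤ u) :
    ‖∑ N ∈ Ioc 0 Y, (Real.log N : ℂ) * ψ N * (nu l r u N : ℂ)‖ ≤
      Real.exp (-u0) * D * Real.log (Y + 1) * (Real.log Y + Real.log 4) := by
  refine p2_norm hl _ _ r u _ fun v hv => ?_
  have hD0 : 0 ≤ D := (norm_nonneg _).trans (hD 0 0)
  have h1 := bilinear_bound (Φ := Unit) {()} (Real.exp_pos v) (Y := Y)
    (fun _ m => if m = 1 then 1 else 0) (fun _ n => (Real.log n : ℂ) * ψ n)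
    (C := D * Real.log (Y + 1)) (fun y _ => by
      rw [sum_singleton]
      have g1 := piece_short (a := fun m => if m = 1 then (1 : ℂ) else 0) zero_le_one (U := 1) Y
        (fun m _ => by split_ifs <;> simp) (fun m hm => by
          by_contra h
          exact hm (if_neg (by omega))) y
      have g2 := piece_mono hD log_nat_mono Real.log_natCast_nonneg Y (Real.exp v / y)
      simp only [Nat.cast_one, mul_one, Nat.cast_add] at g1 g2
      exact (mul_le_of_le_one_left (norm_nonneg _) g1).trans g2)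
  rw [sum_singleton, sum_eq_single_of_mem 1 (mem_Ioc.2 ⟨one_pos, hY⟩)
    (fun m _ hm => by simp [hm])] at h1
  simp only [if_true, one_mul] at h1
  have e : ∑ N ∈ Ioc 0 Y, (Real.log N : ℂ) * ψ N * (nu l 0 v N : ℂ) = (Real.exp (-v) : ℝ) *
      ∑ N ∈ Ioc 0 Y, (Real.log N : ℂ) * ψ N * (wt (Real.exp v) N : ℂ) := by
    rw [mul_sum]
    refine sum_congr rfl fun N hN => ?_
    rw [nu_zero l v (mem_Ioc.1 hN).1, Complex.ofReal_mul]
    ring
  rw [e, norm_mul, Complex.norm_real, Real.norm_of_nonneg (Real.exp_pos _).le, mul_assoc,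
    mul_assoc, ← mul_assoc D]
  exact mul_le_mul (Real.exp_le_exp.2 (by linarith)) h1 (norm_nonneg _) (Real.exp_pos _).le

theorem p2_abel (a τ G : ℕ → ℂ) (h : ∀ j, τ j - τ (j + 1) = a (j + 1)) {Y : ℕ} (hY : 1 ≤ Y) :
    τ 0 * G 1 = ∑ m ∈ Ioc 0 Y, a m * G m - ∑ j ∈ Ico 1 Y, τ j * (G (j + 1) - G j)
      + τ Y * G Y := by
  induction Y, hY using Nat.le_induction with
  | base => simp [← h 0]; ring
  | succ Y hY ih =>
    rw [sum_Ioc_succ_top (Nat.zero_le Y), sum_Ico_succ_top hY, ih, ← h Y]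
    ring

theorem p2_tail {N : ℕ} (hN : 1 ≤ N) (Y : ℕ) {D : ℝ} (hD : 0 ≤ D) :
    ∑ j ∈ Ico 1 Y, (if N ≤ j then 2 * D / ((j + 1 : ℕ) * j) else 0) ≤ 2 * D / N := by
  have key : ∀ Y, N ≤ Y → ∑ j ∈ Ico N Y, 2 * D / (((j + 1 : ℕ) : ℝ) * j) =
      2 * D / N - 2 * D / Y := by
    intro Y hY
    induction Y, hY using Nat.le_induction with
    | base => simp
    | succ Y hY ih =>
      have : (0 : ℝ) < Y := by exact_mod_cast (by omega : 0 < Y)
      rw [sum_Ico_succ_top hY, ih]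
      push_cast
      field_simp
      ring
  rw [← sum_filter, show (Ico 1 Y).filter (N ≤ ·) = Ico N Y by
    ext j; simp only [mem_filter, mem_Ico]; omega]
  rcases le_total N Y with h | h
  · rw [key Y h]
    exact sub_le_self _ (by positivity)
  · rw [Ico_eq_empty_of_le h, sum_empty]
    positivity

theorem p2_head {D : ℝ} (hD1 : 1 ≤ D) : ∑ j ∈ Ico 1 ⌈D⌉₊, (j : ℝ)⁻¹ ≤ 1 + Real.log D := by
  have h0 : 1 ≤ ⌈D⌉₊ := Nat.ceil_pos.2 (by linarith)
  obtain ⟨n, hn⟩ : ∃ n, ⌈D⌉₊ = n + 1 := ⟨⌈D⌉₊ - 1, by omega⟩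
  have h1 := harmonic_le_one_add_log n
  rw [harmonic_eq_sum_Icc] at h1
  push_cast at h1
  have h2 : (n : ℝ) < D := Nat.lt_ceil.1 (by omega)
  have h3 : Real.log n ≤ Real.log D := by
    rcases Nat.eq_zero_or_pos n with rfl | h
    · simpa using Real.log_nonneg hD1
    · exact Real.log_le_log (by exact_mod_cast h) h2.le
  rw [hn, show Ico 1 (n + 1) = Icc 1 n from rfl]
  linarith

theorem p2_tau {ψ : ℕ → ℂ} (hψ : ∀ n, ‖ψ n‖ ≤ 1) {D : ℝ} (hD1 : 1 ≤ D) {ℒ : ℂ}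
    (hτ : ∀ N : ℕ, 1 ≤ N → ‖ℒ - ∑ n ∈ Ico 1 N, ψ n / n‖ ≤ 2 * D / N) {j : ℕ} (hj : j < ⌈D⌉₊) :
    ‖ℒ - ∑ n ∈ Ico 1 (j + 1), ψ n / n‖ ≤ Real.log D + 3 := by
  have h0 : 1 ≤ ⌈D⌉₊ := Nat.ceil_pos.2 (by linarith)
  have h1 := hτ _ h0
  have h2 : 2 * D / ⌈D⌉₊ ≤ 2 := by
    rw [div_le_iff₀ (by exact_mod_cast h0)]
    linarith [Nat.le_ceil D]
  rw [← sum_Ico_consecutive _ (by omega : 1 ≤ j + 1) (by omega : j + 1 ≤ ⌈D⌉₊)] at h1
  have h3 : ‖∑ n ∈ Ico (j + 1) ⌈D⌉₊, ψ n / n‖ ≤ 1 + Real.log D := by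
    refine (norm_sum_le _ _).trans (le_trans ?_ (p2_head hD1))
    refine (sum_le_sum fun n _ => ?_).trans (sum_le_sum_of_subset_of_nonneg
      (Ico_subset_Ico_left (by omega)) fun n _ _ => by positivity)
    rw [norm_div, Complex.norm_natCast, div_eq_mul_inv]
    exact mul_le_of_le_one_left (by positivity) (hψ n)
  have h4 := norm_add_le (ℒ - (∑ n ∈ Ico 1 (j + 1), ψ n / n + ∑ n ∈ Ico (j + 1) ⌈D⌉₊, ψ n / n))
    (∑ n ∈ Ico (j + 1) ⌈D⌉₊, ψ n / n)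
  rw [show ∀ a b c : ℂ, a - (b + c) + c = a - b from fun a b c => by ring] at h4
  linarith

theorem p2_tau_sum {ψ : ℕ → ℂ} (hψ : ∀ n, ‖ψ n‖ ≤ 1) {D : ℝ} (hD1 : 1 ≤ D) {ℒ : ℂ}
    (hτ : ∀ N : ℕ, 1 ≤ N → ‖ℒ - ∑ n ∈ Ico 1 N, ψ n / n‖ ≤ 2 * D / N) (Y : ℕ) :
    ∑ j ∈ Ico 1 Y, ‖ℒ - ∑ n ∈ Ico 1 (j + 1), ψ n / n‖ / j ≤ (Real.log D + 3) ^ 2 := by
  have h0 : 1 ≤ ⌈D⌉₊ := Nat.ceil_pos.2 (by linarith)
  have hl := Real.log_nonneg hD1
  have h2 : 2 * D / ⌈D⌉₊ ≤ 2 := by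
    rw [div_le_iff₀ (by exact_mod_cast h0)]
    linarith [Nat.le_ceil D]
  have h3 : ∀ j ∈ Ico 1 Y, ‖ℒ - ∑ n ∈ Ico 1 (j + 1), ψ n / n‖ / j ≤
      (if j < ⌈D⌉₊ then (Real.log D + 3) * (j : ℝ)⁻¹ else 0) +
        if ⌈D⌉₊ ≤ j then 2 * D / ((j + 1 : ℕ) * j) else 0 := by
    intro j _
    rcases lt_or_ge j ⌈D⌉₊ with h | h
    · rw [if_pos h, if_neg (not_le.2 h), add_zero, div_eq_mul_inv]
      exact mul_le_mul_of_nonneg_right (p2_tau hψ hD1 hτ h) (by positivity)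
    · rw [if_neg (not_lt.2 h), if_pos h, zero_add, ← div_div]
      exact div_le_div_of_nonneg_right (hτ _ (by omega)) (by positivity)
  refine (sum_le_sum h3).trans ?_
  rw [sum_add_distrib]
  have h4 := p2_tail h0 Y (show 0 ≤ D by linarith)
  have h5 : ∑ j ∈ Ico 1 Y, (if j < ⌈D⌉₊ then (Real.log D + 3) * (j : ℝ)⁻¹ else 0) ≤
      (Real.log D + 3) * (1 + Real.log D) := by
    rw [← sum_filter, ← mul_sum]
    refine mul_le_mul_of_nonneg_left (le_trans (sum_le_sum_of_subset_of_nonneg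
      (fun j hj => ?_) fun n _ _ => by positivity) (p2_head hD1)) (by positivity)
    simp only [mem_filter, mem_Ico] at hj ⊢
    omega
  nlinarith

theorem p2_step {ψ : ℕ → ℂ} {l : ℝ} (hl : 0 < l) (Y r : ℕ) (u : ℝ) {j : ℕ} (hj : 1 ≤ j) {B : ℝ}
    (h : ∀ v, u - Real.log (j + 1 : ℕ) ≤ v → v ≤ u + l → ‖p2F ψ l Y r v‖ ≤ B) :
    ‖p2F ψ l Y (r + 1) (u - Real.log (j + 1 : ℕ)) - p2F ψ l Y (r + 1) (u - Real.log j)‖ ≤
      2 * B / l / j := by
  have hj0 : (0 : ℝ) < j := by exact_mod_cast hj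
  have h1 := log_nat_mono (Nat.le_succ j)
  have h2 := Real.log_natCast_nonneg j
  have h3 : Real.log (j + 1 : ℕ) - Real.log j ≤ (j : ℝ)⁻¹ := by
    rw [← Real.log_div (by positivity) hj0.ne']
    refine (Real.log_le_sub_one_of_pos (by positivity)).trans (le_of_eq ?_)
    push_cast
    field_simp
    ring
  simp only [Nat.succ_eq_add_one] at h1
  have hB : 0 ≤ B := (norm_nonneg _).trans (h u (by linarith) (by linarith))
  rw [norm_sub_rev]
  refine (nu_lip hl (Ioc 0 Y) (fun n => (ArithmeticFunction.vonMangoldt n : ℂ) * ψ n) r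
    (a := u - Real.log (j + 1 : ℕ)) (b := u - Real.log j) (by linarith)
    (fun v g1 g2 => h v g1 (by linarith))).trans ?_
  rw [div_right_comm, div_eq_mul_inv (2 * B)]
  gcongr
  linarith

theorem recur {ψ : ℕ → ℂ} (hmul : ∀ m n, ψ (m * n) = ψ m * ψ n) (hψ : ∀ n, ‖ψ n‖ ≤ 1) {D : ℝ}
    (hD1 : 1 ≤ D) (hD : ∀ a b, ‖∑ n ∈ Ico a b, ψ n‖ ≤ D) {ℒ : ℂ}
    (hτ : ∀ N : ℕ, 1 ≤ N → ‖ℒ - ∑ n ∈ Ico 1 N, ψ n / n‖ ≤ 2 * D / N) {c l u0 : ℝ} (hc : 0 < c)
    (hcL : c ≤ ‖ℒ‖) (hl : 0 < l) (hu0 : 0 < u0) {J0 Y : ℕ} (hJ : 1 ≤ J0)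
    (hγ : 4 * (Real.log D + 3) ^ 2 ≤ c * l) (r : ℕ) (u : ℝ) (hu : u0 + r * Real.log J0 ≤ u)
    (hY : 16 * Real.exp (u + r * l) ≤ Y) :
    ‖∑ n ∈ Ioc 0 Y, (ArithmeticFunction.vonMangoldt n : ℂ) * ψ n * (nu l r u n : ℂ)‖
      ≤ (2 * (Real.log D + 3) ^ 2 / (c * l)) ^ r * 120 +
        2 * ((Real.exp (-u0) * D * Real.log (Y + 1) * (Real.log Y + Real.log 4)
          + 120 * (4 * D / (l * J0) + 2 * D / Y)) / c) := by
  have hD0 : 0 ≤ D := by linarith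
  have hlJ := Real.log_natCast_nonneg J0
  set γ := 2 * (Real.log D + 3) ^ 2 / (c * l) with hγd
  set A := Real.exp (-u0) * D * Real.log (Y + 1) * (Real.log Y + Real.log 4) with hA
  set E := (A + 120 * (4 * D / (l * J0) + 2 * D / Y)) / c with hE
  have hA0 : 0 ≤ A := by
    have := Real.log_natCast_nonneg Y
    have := log4_pos
    have : 0 ≤ Real.log (Y + 1) := Real.log_nonneg (by simp)
    positivity
  have hE0 : 0 ≤ E := by positivity
  have hγ0 : 0 ≤ γ := by positivity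
  have hγ1 : γ ≤ 1 / 2 := by
    rw [hγd, div_le_iff₀ (by positivity)]
    linarith
  change ‖p2F ψ l Y r u‖ ≤ _
  induction r generalizing u with
  | zero => have := p2_triv hψ hl Y 0 u; rw [pow_zero]; linarith
  | succ r ih =>
    push_cast at hu hY
    have hr : (0 : ℝ) ≤ r := r.cast_nonneg
    have hY1 : 1 ≤ Y := by
      have : (0 : ℝ) < Y := lt_of_lt_of_le (by positivity) hY
      exact_mod_cast this
    have hY0 : (0 : ℝ) < Y := by exact_mod_cast hY1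
    set B := γ ^ r * 120 + 2 * E with hB
    have hB0 : 0 ≤ B := by positivity
    set τ : ℕ → ℂ := fun j => ℒ - ∑ n ∈ Ico 1 (j + 1), ψ n / n with hτd
    set G : ℕ → ℂ := fun m => p2F ψ l Y (r + 1) (u - Real.log m) with hG
    have h1 := p2_abel (fun m => ψ m / m) τ G (fun j => by
      simp only [hτd]
      rw [sum_Ico_succ_top (by omega : 1 ≤ j + 1)]
      ring) hY1
    have h2 : ‖∑ m ∈ Ioc 0 Y, ψ m / m * G m‖ ≤ A := by
      rw [← p2_conv hmul hl (by push_cast; exact hY)]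
      exact p2_log hD hl hY1 _ (by nlinarith)
    have h3 : ‖τ Y * G Y‖ ≤ 2 * D / Y * 120 := by
      rw [norm_mul]
      refine mul_le_mul ((hτ _ (by omega)).trans ?_) (p2_triv hψ hl _ _ _) (norm_nonneg _)
        (by positivity)
      gcongr
      omega
    have h4 : ∀ j ∈ Ico 1 Y, ‖τ j * (G (j + 1) - G j)‖ ≤ 2 * B / l * (‖τ j‖ / j) +
        2 * 120 / l * if J0 ≤ j then 2 * D / ((j + 1 : ℕ) * j) else 0 := by
      intro j hj
      have hj1 := (mem_Ico.1 hj).1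
      rw [norm_mul]
      split_ifs with h
      · refine le_add_of_nonneg_of_le (by positivity) ((mul_le_mul (hτ _ (by omega))
          (p2_step hl Y r u hj1 fun v _ _ => p2_triv hψ hl _ _ _) (norm_nonneg _)
          (by positivity)).trans (le_of_eq ?_))
        rw [← div_div]
        ring
      · have g := log_nat_mono (show j + 1 ≤ J0 by omega)
        refine (mul_le_mul_of_nonneg_left (p2_step hl Y r u hj1 fun v g1 g2 => ih v
          (by simp only at g; linarith) (le_trans ?_ hY)) (norm_nonneg _)).trans (le_of_eq ?_)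
        · exact mul_le_mul_of_nonneg_left (Real.exp_le_exp.2 (by linarith)) (by norm_num)
        · ring
    have h5 : ‖∑ j ∈ Ico 1 Y, τ j * (G (j + 1) - G j)‖ ≤
        2 * B / l * (Real.log D + 3) ^ 2 + 2 * 120 / l * (2 * D / J0) := by
      refine (norm_sum_le _ _).trans ((sum_le_sum h4).trans ?_)
      rw [sum_add_distrib, ← mul_sum, ← mul_sum]
      exact add_le_add (mul_le_mul_of_nonneg_left (p2_tau_sum hψ hD1 hτ Y) (by positivity))
        (mul_le_mul_of_nonneg_left (p2_tail hJ Y hD0) (by positivity))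
    have h6 : c * ‖p2F ψ l Y (r + 1) u‖ ≤ ‖τ 0 * G 1‖ := by
      rw [norm_mul]
      simp only [hτd, hG, zero_add, Ico_self, sum_empty, sub_zero, Nat.cast_one, Real.log_one]
      exact mul_le_mul_of_nonneg_right hcL (norm_nonneg _)
    have h7 : c * ‖p2F ψ l Y (r + 1) u‖ ≤ c * (γ * B + E) := by
      rw [h1] at h6
      refine (h6.trans ((norm_add_le _ _).trans (add_le_add ((norm_sub_le _ _).trans
        (add_le_add h2 h5)) h3))).trans (le_of_eq ?_)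
      have : (0 : ℝ) < J0 := by exact_mod_cast hJ
      rw [hγd, hE]
      field_simp
      ring
    refine (le_of_mul_le_mul_left h7 hc).trans ?_
    have h8 := mul_le_mul_of_nonneg_right hγ1 hE0
    rw [hB, pow_succ]
    linarith

end Pool.Agent.Lib.MP_9227d9_nt.H5
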