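import Pool.Agent.Lib.MP_9227d9_nt.H5.Defs
import Pool.Agent.Lib.MP_bee098_nt.Mertens
import Pool.Agent.Lib.MP_a3366f_nt.KPrimes

/-! Lower bounds for values of L-functions at one. -/

open Finset

namespace Pool.Agent.Lib.MP_9227d9_nt.H5

open Pool.Agent.Lib.MP_bee098_nt

lemma p3_harm (N : ℕ) : ∑ n ∈ Ico 1 N, (n : ℝ)⁻¹ ≤ 1 + Real.log N := by
  refine le_trans ?_ (harmonic_le_one_add_log N)
  rw [harmonic_eq_sum_Icc]
  push_cast
  exact sum_le_sum_of_subset_of_nonneg Ico_subset_Icc_self (fun _ _ _ => by positivity)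

lemma p3_triv (q : ℕ) [NeZero q] {x : ℝ} (hx : 0 < x) :
    ‖DirichletCharacter.LFunctionTrivChar q (1 + x)‖ ≤ 1 + 1 / x := by
  have hs : 1 < (1 + x : ℂ).re := by simpa using hx
  have hsum := ((1 : DirichletCharacter ℂ q).LSeriesSummable_of_one_lt_re hs).hasSum.tendsto_sum_nat
  rw [DirichletCharacter.LFunctionTrivChar, DirichletCharacter.LFunction_eq_LSeries 1 hs]
  refine le_of_tendsto' hsum.norm (fun B => (norm_sum_le _ _).trans (le_trans ?_
    (zeta_partial_le hx B)))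
  rw [← sum_filter_add_sum_filter_not (range B) (· = 0),
    sum_eq_zero (fun n hn => by rw [(mem_filter.1 hn).2]; simp), zero_add]
  refine le_trans (sum_le_sum (fun n hn => ?_)) (sum_le_sum_of_subset_of_nonneg
    (s := (range B).filter (fun n => ¬ n = 0)) (fun n hn => ?_) (fun _ _ _ => by positivity))
  · rw [LSeries.norm_term_eq, if_neg (mem_filter.1 hn).2, Real.rpow_neg (Nat.cast_nonneg _),
      div_eq_mul_inv]
    have e : (1 + x : ℂ).re = 1 + x := by simp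
    rw [e]
    exact mul_le_of_le_one_left (by positivity) (DirichletCharacter.norm_le_one _ _)
  · simp only [mem_filter, mem_range, mem_Icc] at hn ⊢
    omega

lemma p3_upper {q : ℕ} [NeZero q] {χ : DirichletCharacter ℂ q} (hχ : χ ≠ 1) {N : ℕ} (hN : 1 ≤ N)
    {x : ℝ} (hx : 0 < x) : ‖χ.LFunction (1 + x)‖ ≤ 1 + Real.log N + 2 * q / N := by
  have h := MP_a3366f_nt.Ker.KPrimes.LFunction_sub_le hχ N hN (1 + x) (by linarith)
  rw [Complex.ofReal_add, Complex.ofReal_one] at h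
  refine (norm_le_norm_add_norm_sub' _ _).trans (add_le_add ?_ h)
  refine (norm_sum_le _ _).trans (le_trans (sum_le_sum (fun n hn => ?_)) (p3_harm N))
  have h1 : (1 : ℝ) ≤ n := by exact_mod_cast (mem_Ico.1 hn).1
  rw [norm_mul, Complex.norm_real, Real.norm_of_nonneg (by positivity), ← Real.rpow_neg_one]
  exact (mul_le_of_le_one_left (by positivity) (χ.norm_le_one _)).trans
    (Real.rpow_le_rpow_of_exponent_le h1 (by linarith))

lemma p3_diff {q : ℕ} [NeZero q] {χ : DirichletCharacter ℂ q} (hχ : χ ≠ 1) {N : ℕ} (hN : 1 ≤ N)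
    {x : ℝ} (hx : 0 < x) : ‖χ.LFunction (1 + x)‖ ≤
      ‖χ.LFunction 1‖ + x * Real.log N * (1 + Real.log N) + 4 * q / N := by
  have h := MP_a3366f_nt.Ker.KPrimes.LFunction_sub_le hχ N hN (1 + x) (by linarith)
  have h' := MP_a3366f_nt.Ker.KPrimes.LFunction_one_sub_le hχ N hN
  rw [Complex.ofReal_add, Complex.ofReal_one] at h
  have h3 : ‖∑ n ∈ Ico 1 N, χ (n : ZMod q) * (((n : ℝ) ^ (-(1 + x)) : ℝ) : ℂ) -
      ∑ n ∈ Ico 1 N, χ (n : ZMod q) / n‖ ≤ x * Real.log N * (1 + Real.log N) := by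
    rw [← sum_sub_distrib]
    refine (norm_sum_le _ _).trans (le_trans ?_ (mul_le_mul_of_nonneg_left (p3_harm N)
      (mul_nonneg hx.le (Real.log_natCast_nonneg N))))
    rw [mul_sum]
    refine sum_le_sum (fun n hn => ?_)
    have h1 : (1 : ℝ) ≤ n := by exact_mod_cast (mem_Ico.1 hn).1
    have h2 : (n : ℝ) ≤ N := by exact_mod_cast (mem_Ico.1 hn).2.le
    have h0 : (0 : ℝ) < n := by linarith
    have e : χ (n : ZMod q) * (((n : ℝ) ^ (-(1 + x)) : ℝ) : ℂ) - χ (n : ZMod q) / n =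
        χ (n : ZMod q) * (((Real.exp (-(x * Real.log n)) - 1) * (n : ℝ)⁻¹ : ℝ) : ℂ) := by
      rw [neg_add, Real.rpow_add h0, Real.rpow_neg_one, Real.rpow_def_of_pos h0,
        show Real.log n * -x = -(x * Real.log n) by ring]
      push_cast
      ring
    have l0 : 0 ≤ x * Real.log n := mul_nonneg hx.le (Real.log_nonneg h1)
    have l1 : x * Real.log n ≤ x * Real.log N :=
      mul_le_mul_of_nonneg_left (Real.log_le_log h0 h2) hx.le
    have l2 := Real.add_one_le_exp (-(x * Real.log n))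
    have l3 : Real.exp (-(x * Real.log n)) ≤ 1 := Real.exp_le_one_iff.2 (by linarith)
    rw [e, norm_mul, Complex.norm_real, norm_mul, Real.norm_of_nonneg (inv_nonneg.2 h0.le),
      Real.norm_eq_abs]
    refine (mul_le_of_le_one_left (by positivity) (χ.norm_le_one _)).trans
      (mul_le_mul_of_nonneg_right (abs_le.2 ⟨by linarith, by linarith⟩) (inv_nonneg.2 h0.le))
  have t1 := norm_le_norm_add_norm_sub' (χ.LFunction (1 + x))
    (∑ n ∈ Ico 1 N, χ (n : ZMod q) * (((n : ℝ) ^ (-(1 + x)) : ℝ) : ℂ))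
  have t2 := norm_le_norm_add_norm_sub'
    (∑ n ∈ Ico 1 N, χ (n : ZMod q) * (((n : ℝ) ^ (-(1 + x)) : ℝ) : ℂ))
    (∑ n ∈ Ico 1 N, χ (n : ZMod q) / n)
  have t3 := norm_le_norm_add_norm_sub (χ.LFunction 1) (∑ n ∈ Ico 1 N, χ (n : ZMod q) / n)
  have e : (4 : ℝ) * q / N = 2 * q / N + 2 * q / N := by ring
  linarith

lemma p3_fixed (q : ℕ) : ∀ᶠ L : ℝ in Filter.atTop, ∀ [NeZero q] (χ : DirichletCharacter ℂ q),
    χ ≠ 1 → 1 ≤ √L * ‖χ.LFunction 1‖ := by
  by_cases hq : q = 0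
  · exact Filter.Eventually.of_forall (fun _ h => absurd hq h.out)
  have : NeZero q := ⟨hq⟩
  have key : ∀ᶠ L : ℝ in Filter.atTop, ∀ χ : DirichletCharacter ℂ q,
      χ ≠ 1 → 1 ≤ √L * ‖χ.LFunction 1‖ := by
    refine Filter.eventually_all.2 (fun χ => ?_)
    by_cases hχ : χ = 1
    · exact Filter.Eventually.of_forall (fun _ h => absurd hχ h)
    have h0 := norm_pos_iff.2 (DirichletCharacter.LFunction_apply_one_ne_zero hχ)
    filter_upwards [(Real.tendsto_sqrt_atTop.atTop_mul_const h0).eventually_ge_atTop 1] with L hL _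
    exact hL
  filter_upwards [key] with L hL _ using hL

lemma p3_log (C : ℝ) : ∀ᶠ L : ℝ in Filter.atTop, C * Real.log L ^ 9 ≤ √L := by
  have h := (Real.isLittleO_pow_log_id_atTop (n := 18)).const_mul_left (C ^ 2)
  filter_upwards [h.eventuallyLE, Filter.eventually_ge_atTop 0] with L hL h0
  refine Real.le_sqrt_of_sq_le ?_
  have := (le_abs_self _).trans (hL.trans_eq (Real.norm_of_nonneg h0))
  calc _ = C ^ 2 * Real.log L ^ 18 := by ring
    _ ≤ L := this

theorem L_lower (Q0 : ℕ) : ∀ᶠ L : ℝ in Filter.atTop, ∀ (q : ℕ) [NeZero q]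
    (χ : DirichletCharacter ℂ q), (q : ℝ) ≤ L ^ 7 → χ ≠ 1 → (χ ^ 2 ≠ 1 ∨ q ≤ Q0) →
      1 ≤ √L * ‖χ.LFunction 1‖ := by
  filter_upwards [(Filter.eventually_all_finite (Set.finite_Iic Q0)).2 (fun q _ => p3_fixed q),
    p3_log (100 * 100 ^ 4), Filter.eventually_ge_atTop 3] with L h1 h2 h3 q _ χ hq hχ h4
  rcases h4 with h4 | h4
  swap
  · exact h1 q h4 χ hχ
  by_contra hn
  rw [not_le] at hn
  have L0 : 0 < L := by linarith
  have s1 : 1 ≤ √L := Real.one_le_sqrt.2 (by linarith)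
  have s0 : 0 < √L := by linarith
  have s2 : √L ≤ L := by rw [Real.sqrt_le_left L0.le]; nlinarith
  obtain ⟨x, hx⟩ : ∃ x : ℝ, x = (√L)⁻¹ := ⟨_, rfl⟩
  have x0 : 0 < x := by rw [hx]; positivity
  have x1 : x * √L = 1 := by rw [hx]; exact inv_mul_cancel₀ s0.ne'
  have x2 : x ≤ 1 := by nlinarith
  have l1 : 1 ≤ Real.log L := by
    rw [Real.le_log_iff_exp_le L0]
    exact Real.exp_one_lt_three.le.trans h3
  obtain ⟨N, hN⟩ : ∃ N : ℕ, N = ⌈L ^ 8⌉₊ := ⟨_, rfl⟩
  have p8 : 1 ≤ L ^ 8 := one_le_pow₀ (by linarith)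
  have N1 : L ^ 8 ≤ N := hN ▸ Nat.le_ceil _
  have N2 : (N : ℝ) ≤ L ^ 9 := by
    have := (Nat.ceil_lt_add_one (by positivity : 0 ≤ L ^ 8)).le
    rw [← hN] at this
    rw [pow_succ L 8]
    nlinarith
  have N0 : (0 : ℝ) < N := by linarith
  have N3 : 1 ≤ N := by exact_mod_cast p8.trans N1
  have N4 : Real.log N ≤ 9 * Real.log L := by
    simpa using Real.log_le_log N0 N2
  have N5 : 0 ≤ Real.log N := Real.log_natCast_nonneg N
  have N6 : (q : ℝ) / N ≤ x := by
    rw [div_le_iff₀ N0]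
    have : L ^ 7 ≤ x * L ^ 8 := by
      rw [pow_succ L 7, mul_left_comm]
      exact le_mul_of_one_le_right (by positivity) (by nlinarith)
    nlinarith
  have a1 : ‖DirichletCharacter.LFunctionTrivChar q (1 + x)‖ ≤ 2 * √L := by
    refine (p3_triv q x0).trans ?_
    rw [hx, one_div, inv_inv]
    linarith
  have a2 : ‖(χ ^ 2).LFunction (1 + x)‖ ≤ 12 * Real.log L := by
    refine (p3_upper h4 N3 x0).trans ?_
    rw [mul_div_assoc]
    linarith
  have a3 : ‖χ.LFunction (1 + x)‖ ≤ x * (100 * Real.log L ^ 2) := by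
    refine (p3_diff hχ N3 x0).trans ?_
    have b1 : ‖χ.LFunction 1‖ ≤ x := by
      have : x * (√L * ‖χ.LFunction 1‖) ≤ x * 1 := mul_le_mul_of_nonneg_left hn.le x0.le
      rwa [← mul_assoc, x1, one_mul, mul_one] at this
    have b2 : Real.log N * (1 + Real.log N) + 5 ≤ 100 * Real.log L ^ 2 := by nlinarith
    have b3 := mul_le_mul_of_nonneg_left b2 x0.le
    rw [mul_div_assoc]
    nlinarith
  have key := χ.norm_LFunction_product_ge_one x0 0
  simp only [Complex.ofReal_zero, mul_zero, add_zero, norm_mul, norm_pow] at key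
  have c1 : (1 : ℝ) ≤ (2 * √L) ^ 3 * (x * (100 * Real.log L ^ 2)) ^ 4 * (12 * Real.log L) :=
    key.le.trans (by gcongr)
  have c2 : (2 * √L) ^ 3 * (x * (100 * Real.log L ^ 2)) ^ 4 * (12 * Real.log L) =
      (x * √L) ^ 3 * (x * (96 * 100 ^ 4 * Real.log L ^ 9)) := by ring
  rw [c2, x1, one_pow, one_mul] at c1
  have c3 : 0 < Real.log L ^ 9 := by positivity
  have c4 : x * (96 * 100 ^ 4 * Real.log L ^ 9) < x * √L :=
    mul_lt_mul_of_pos_left (by linarith) x0
  linarith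

end Pool.Agent.Lib.MP_9227d9_nt.H5
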