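import Pool.Agent.Lib.MP_9227d9_nt.H5.P2
import Pool.Agent.Lib.MP_9227d9_nt.H5.P3
import Pool.Agent.Lib.MP_9227d9_nt.H5.DefsM

/-! Averaged prime sums for characters of small conductor. -/

open Finset

namespace Pool.Agent.Lib.MP_9227d9_nt.H5

open Pool.Agent.Lib.MP_bee098_nt

theorem p4_log : ∀ᶠ L : ℝ in Filter.atTop, (2 * (11 * Real.log L) ^ 2 * 6600) ^ 6 ≤ L := by
  have h := (Real.isLittleO_pow_log_id_atTop (n := 12)).bound
    (c := ((2 * 11 ^ 2 * 6600 : ℝ) ^ 6)⁻¹) (by positivity)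
  filter_upwards [h, Filter.eventually_ge_atTop 0] with L h1 h2
  rw [Real.norm_of_nonneg (by positivity), id, Real.norm_of_nonneg h2, inv_mul_eq_div,
    le_div_iff₀ (by positivity)] at h1
  calc _ = Real.log L ^ 12 * (2 * 11 ^ 2 * 6600 : ℝ) ^ 6 := by ring
    _ ≤ L := h1

theorem p4_exp : ∀ᶠ L : ℝ in Filter.atTop, 10000 * L ^ 30 ≤ Real.exp (L / 132) := by
  have h := ((Real.tendsto_exp_div_pow_atTop 30).comp
    (Filter.tendsto_id.atTop_div_const (show (0 : ℝ) < 132 by norm_num))).eventually_ge_atTop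
    (10000 * 132 ^ 30)
  filter_upwards [h, Filter.eventually_gt_atTop 0] with L h1 h2
  simp only [Function.comp, id] at h1
  rw [le_div_iff₀ (by positivity)] at h1
  calc _ = 10000 * 132 ^ 30 * (L / 132) ^ 30 := by ring
    _ ≤ _ := h1

theorem p4_pp {l : ℝ} (hl : 0 < l) (r : ℕ) (u : ℝ) {ψ : ℕ → ℂ} (hψ : ∀ n, ‖ψ n‖ ≤ 1) {Y : ℕ}
    (hY : 1 ≤ Y) :
    ‖∑ n ∈ Ioc 0 Y, ((pw n * nu l r u n : ℝ) : ℂ) * ψ n -
      ∑ n ∈ Ioc 0 Y, (ArithmeticFunction.vonMangoldt n : ℂ) * ψ n * (nu l r u n : ℂ)‖ ≤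
      2 * √(Y : ℝ) * Real.log Y * (2 * Real.exp (-u)) := by
  have h1 : ∀ n, pw n ≤ ArithmeticFunction.vonMangoldt n := fun n => by
    unfold pw
    split_ifs with h
    · exact (ArithmeticFunction.vonMangoldt_apply_prime h).ge
    · exact ArithmeticFunction.vonMangoldt_nonneg
  have h2 : ∑ n ∈ Ioc 0 Y, (ArithmeticFunction.vonMangoldt n - pw n) ≤
      2 * √(Y : ℝ) * Real.log Y := by
    refine le_trans (le_of_eq ?_) ((le_abs_self _).trans
      (Chebyshev.abs_psi_sub_theta_le_sqrt_mul_log (x := Y) (by exact_mod_cast hY)))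
    rw [sum_sub_distrib, Chebyshev.psi, Chebyshev.theta, Nat.floor_natCast, sum_filter]
    rfl
  rw [← sum_sub_distrib]
  refine (norm_sum_le _ _).trans (le_trans (sum_le_sum (g := fun n =>
    (ArithmeticFunction.vonMangoldt n - pw n) * (2 * Real.exp (-u))) fun n _ => ?_) ?_)
  · have e : ((pw n * nu l r u n : ℝ) : ℂ) * ψ n -
        (ArithmeticFunction.vonMangoldt n : ℂ) * ψ n * (nu l r u n : ℂ) =
        -(((ArithmeticFunction.vonMangoldt n - pw n) * nu l r u n : ℝ) : ℂ) * ψ n := by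
      push_cast; ring
    have h3 := sub_nonneg.2 (h1 n)
    rw [e, norm_mul, norm_neg, Complex.norm_real,
      Real.norm_of_nonneg (mul_nonneg h3 (nu_nonneg hl r u n))]
    exact (mul_le_of_le_one_right (mul_nonneg h3 (nu_nonneg hl r u n)) (hψ n)).trans
      (mul_le_mul_of_nonneg_left (nu_le hl r u n) h3)
  · rw [← sum_mul]
    exact mul_le_mul_of_nonneg_right h2 (by positivity)

theorem p4_gam {L D : ℝ} (hL : 6600 ≤ L) (h1 : (2 * (11 * Real.log L) ^ 2 * 6600) ^ 6 ≤ L)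
    (hD1 : 1 ≤ D) (hD : D ≤ 2 * L ^ 7) :
    (2 * (Real.log D + 3) ^ 2 / ((√L)⁻¹ * (L / 6600))) ^ 6 ≤ (L ^ 2)⁻¹ := by
  have hL0 : 0 < L := by linarith
  have hs : 0 < √L := Real.sqrt_pos.2 hL0
  have a1 : 1 ≤ Real.log L := by
    rw [Real.le_log_iff_exp_le hL0]
    linarith [Real.exp_one_lt_d9]
  have a2 : Real.log D ≤ 1 + 7 * Real.log L := by
    refine (Real.log_le_log (by linarith) hD).trans ?_
    rw [Real.log_mul (by norm_num) (by positivity), Real.log_pow]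
    push_cast
    linarith [Real.log_two_lt_d9]
  have a3 := Real.log_nonneg hD1
  have a4 : (√L)⁻¹ * (L / 6600) = √L / 6600 := by
    field_simp
    rw [Real.sq_sqrt hL0.le]
  have a5 : √L ^ 6 = L ^ 3 := by
    rw [show √L ^ 6 = (√L ^ 2) ^ 3 by ring, Real.sq_sqrt hL0.le]
  calc _ = (2 * (Real.log D + 3) ^ 2 * 6600) ^ 6 / L ^ 3 := by
        rw [a4, div_div_eq_mul_div, div_pow, a5]
    _ ≤ (2 * (11 * Real.log L) ^ 2 * 6600) ^ 6 / L ^ 3 := by gcongr; linarith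
    _ ≤ L / L ^ 3 := by gcongr
    _ = _ := by field_simp

theorem small_char (Q0 : ℕ) : ∀ᶠ L : ℝ in Filter.atTop, ∀ (q : ℕ) [NeZero q]
    (χ : DirichletCharacter ℂ q), (q : ℝ) ≤ L ^ 7 → χ ≠ 1 → (χ ^ 2 ≠ 1 ∨ q ≤ Q0) →
      ∀ Y : ℕ, 16 * Real.exp (1.01 * L) ≤ Y → Y ≤ Real.exp (1.5 * L) →
        ‖∑ n ∈ Ioc 0 Y, (pa L n : ℂ) * χ n‖ ≤ (L ^ 20)⁻¹ := by
  filter_upwards [L_lower Q0, p4_log, p4_exp, Filter.eventually_ge_atTop 6600]
    with L hlow hlog hexp hL q _ χ hq hχ hχ2 Y hY1 hY2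
  have hL0 : 0 < L := by linarith
  have hL1 : 1 ≤ L := by linarith
  have hs : 0 < √L := Real.sqrt_pos.2 hL0
  have hsL : √L ≤ L := by
    rw [Real.sqrt_le_left hL0.le]
    nlinarith
  have hq1 : (1 : ℝ) ≤ q := by exact_mod_cast Nat.pos_of_neZero q
  obtain ⟨E, hE⟩ : ∃ E, E = Real.exp (L / 132) := ⟨_, rfl⟩
  have hE2 : 2 ≤ E := by
    rw [hE]
    linarith [Real.add_one_le_exp (L / 132)]
  have hE0 : 0 < E := by linarith
  have hEY : E ≤ Y := by
    have : E ≤ Real.exp (1.01 * L) := by rw [hE]; exact Real.exp_le_exp.2 (by linarith)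
    linarith
  have hY0 : (0 : ℝ) < Y := by linarith
  have hJ1 : E / 2 ≤ ⌊E⌋₊ := by linarith [Nat.lt_floor_add_one E]
  have hJ2 : Real.log ⌊E⌋₊ ≤ L / 132 := by
    rw [Real.log_le_iff_le_exp (by linarith), ← hE]
    exact Nat.floor_le hE0.le
  have hg := p4_gam (D := 2 * q) hL hlog (by linarith) (by linarith)
  clear hlog
  have hcl : 0 < (√L)⁻¹ * (L / 6600) := by positivity
  obtain ⟨γ, hγ⟩ : ∃ γ, γ = 2 * (Real.log (2 * q) + 3) ^ 2 / ((√L)⁻¹ * (L / 6600)) := ⟨_, rfl⟩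
  rw [← hγ] at hg
  have hγ0 : 0 ≤ γ := by rw [hγ]; positivity
  have hg2 : γ ≤ 1 / 2 := by
    refine le_of_pow_le_pow_left₀ (n := 6) (by norm_num) (by norm_num) (hg.trans ?_)
    rw [one_div, inv_pow]
    exact inv_anti₀ (by norm_num) (by nlinarith)
  have hψ : ∀ n : ℕ, ‖χ n‖ ≤ 1 := fun n => χ.norm_le_one _
  have hr := recur (ψ := fun n : ℕ => χ n) (fun m n => by rw [Nat.cast_mul, map_mul]) hψ
    (D := 2 * q) (by linarith) (fun a b => by
      rcases le_total a b with h | h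
      · simpa using Pool.Agent.Lib.MP_a3366f_nt.Ker.KPrimes.char_weighted hχ (fun _ => 1) a b h
          (fun _ _ => le_rfl) zero_le_one
      · rw [Ico_eq_empty_of_le h, sum_empty, norm_zero]; positivity)
    (ℒ := χ.LFunction 1) (fun N hN =>
      (Pool.Agent.Lib.MP_a3366f_nt.Ker.KPrimes.LFunction_one_sub_le hχ N hN).trans (by
        gcongr; linarith))
    (c := (√L)⁻¹) (l := L / 6600) (u0 := L / 2) (by positivity) (by
      rw [inv_le_iff_one_le_mul₀' hs]; exact hlow q χ hq hχ hχ2) (by positivity) (by positivity)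
    (J0 := ⌊E⌋₊) (Y := Y) (Nat.le_floor (by push_cast; linarith)) (by
      rw [hγ, div_le_iff₀ hcl] at hg2; linarith) 66 L (by push_cast; linarith) (by
      refine le_trans (le_of_eq ?_) hY1
      congr 2
      push_cast; ring)
  rw [← hγ] at hr
  have hp := p4_pp (l := L / 6600) (by positivity) 66 L hψ (Y := Y)
    (by exact_mod_cast (show (1 : ℝ) ≤ Y by linarith))
  have b0 : Real.log Y ≤ 1.5 * L := (Real.log_le_iff_le_exp hY0).2 hY2
  have b0' : 0 ≤ Real.log Y := Real.log_natCast_nonneg Y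
  have b1 : Real.log (Y + 1) ≤ 2 * L := by
    refine (Real.log_le_log (by linarith) (show (Y : ℝ) + 1 ≤ 2 * Y by linarith)).trans ?_
    rw [Real.log_mul (by norm_num) hY0.ne']
    linarith [Real.log_two_lt_d9]
  have b2 : Real.log Y + Real.log 4 ≤ 2 * L := by
    linarith [Real.log_le_sub_one_of_pos (show (0 : ℝ) < 4 by norm_num)]
  have b3 : Real.exp (-(L / 2)) ≤ E⁻¹ := by
    rw [hE, ← Real.exp_neg]; exact Real.exp_le_exp.2 (by linarith)
  have b4 : √(Y : ℝ) * Real.exp (-L) ≤ E⁻¹ := by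
    have : √(Y : ℝ) ≤ Real.exp (0.75 * L) := by
      rw [Real.sqrt_le_left (Real.exp_pos _).le, ← Real.exp_nat_mul]
      exact hY2.trans (Real.exp_le_exp.2 (by push_cast; linarith))
    refine (mul_le_mul_of_nonneg_right this (Real.exp_pos _).le).trans ?_
    rw [hE, ← Real.exp_neg, ← Real.exp_add]
    exact Real.exp_le_exp.2 (by linarith)
  have p7 : L ^ 7 ≤ L ^ 9 := pow_le_pow_right₀ hL1 (by norm_num)
  have p1 : L ≤ L ^ 10 := le_self_pow₀ hL1 (by norm_num)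
  have hEi : 0 < E⁻¹ := inv_pos.2 hE0
  have t0 : γ ^ 66 * 120 ≤ (L ^ 20)⁻¹ / 2 := by
    calc _ = (γ ^ 6) ^ 11 * 120 := by rw [← pow_mul]
      _ ≤ ((L ^ 2)⁻¹) ^ 11 * 120 := by gcongr
      _ = (L ^ 20)⁻¹ * (120 / L ^ 2) := by field_simp
      _ ≤ (L ^ 20)⁻¹ * (1 / 2) := by
          gcongr ?_ * ?_
          rw [div_le_iff₀ (by positivity)]
          nlinarith
      _ = _ := by ring
  have t1 : Real.exp (-(L / 2)) * (2 * q) * Real.log (Y + 1) * (Real.log Y + Real.log 4) ≤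
      8 * L ^ 9 * E⁻¹ := by
    have := log4_pos
    have := Real.log_nonneg (show (1 : ℝ) ≤ Y + 1 by linarith)
    calc _ ≤ E⁻¹ * (2 * L ^ 7) * (2 * L) * (2 * L) := by gcongr
      _ = _ := by ring
  have t2 : 4 * (2 * (q : ℝ)) / (L / 6600 * ⌊E⌋₊) ≤ 16 * L ^ 9 * E⁻¹ := by
    calc _ ≤ 4 * (2 * L ^ 9) / (1 * (E / 2)) := by
          gcongr
          · linarith
          · linarith
      _ = _ := by field_simp; ring
  have t3 : 2 * (2 * (q : ℝ)) / Y ≤ 4 * L ^ 9 * E⁻¹ := by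
    calc _ ≤ 2 * (2 * L ^ 9) / E := by
          gcongr
          linarith
      _ = _ := by field_simp; ring
  have t4 : 2 * ((Real.exp (-(L / 2)) * (2 * q) * Real.log (Y + 1) * (Real.log Y + Real.log 4) +
      120 * (4 * (2 * (q : ℝ)) / (L / 6600 * ⌊E⌋₊) + 2 * (2 * (q : ℝ)) / Y)) / (√L)⁻¹) ≤
      4816 * L ^ 10 * E⁻¹ := by
    calc _ ≤ 2 * ((2408 * L ^ 9 * E⁻¹) / (√L)⁻¹) := by
          gcongr
          linarith
      _ = 4816 * L ^ 9 * E⁻¹ * √L := by rw [div_inv_eq_mul]; ring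
      _ ≤ 4816 * L ^ 9 * E⁻¹ * L := by gcongr
      _ = _ := by ring
  have t5 : 2 * √(Y : ℝ) * Real.log Y * (2 * Real.exp (-L)) ≤ 6 * L ^ 10 * E⁻¹ := by
    calc _ = 4 * Real.log Y * (√(Y : ℝ) * Real.exp (-L)) := by ring
      _ ≤ 4 * (1.5 * L ^ 10) * E⁻¹ := by
          gcongr
          linarith
      _ = _ := by ring
  have t6 : 5000 * L ^ 10 * E⁻¹ ≤ (L ^ 20)⁻¹ / 2 := by
    calc _ ≤ 5000 * L ^ 10 * (10000 * L ^ 30)⁻¹ := by
          gcongr
          rwa [hE]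
      _ = (L ^ 20)⁻¹ / 2 * (L ^ 0)⁻¹ := by field_simp; ring
      _ = _ := by simp
  have t7 : 0 ≤ L ^ 10 * E⁻¹ := by positivity
  have := norm_le_norm_add_norm_sub' (∑ n ∈ Ioc 0 Y, (pa L n : ℂ) * χ n)
    (∑ n ∈ Ioc 0 Y, (ArithmeticFunction.vonMangoldt n : ℂ) * χ n * (nu (L / 6600) 66 L n : ℂ))
  unfold pa at this ⊢
  linarith

end Pool.Agent.Lib.MP_9227d9_nt.H5
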