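import Pool.Agent.Lib.MP_9227d9_nt.H5.DefsM

/-! The lower bound for the sieve weight against a general sequence of units. -/

open Finset

namespace Pool.Agent.Lib.MP_9227d9_nt.H5

open Pool.Agent.Lib.MP_bee098_nt

variable {ι K : Type} [Fintype ι] [DecidableEq ι] [Fintype K] [DecidableEq K]
variable (P : ι → ℕ) [hP : ∀ i, Fact (P i).Prime]

theorem p5_prod (v : ι → ℝ) (g : Finset ι → ℝ) (m : K) :
    ∏ j, ws v (fun T => gm g m j T ^ 2) = ws v (fun T => g T ^ 2) ^ (Fintype.card K - 1) := by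
  rw [← Finset.mul_prod_erase univ _ (mem_univ m), ← Finset.card_univ,
    ← Finset.card_erase_of_mem (mem_univ m), ← Finset.prod_const]
  have : ws v (fun T => gm g m m T ^ 2) = 1 := by
    simp [ws, gm]
  rw [this, one_mul]
  refine Finset.prod_congr rfl fun j hj => ?_
  simp only [gm, if_neg (ne_of_mem_erase hj)]

omit [Fintype ι] [DecidableEq ι] [Fintype K] in
theorem p5_sub (A : Finset ι) (m j : K) : Am A m j ⊆ A := by
  simp only [Am]; split_ifs <;> simp

omit [DecidableEq K] hP in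
theorem p5_w {A : Finset ι} {w : ℕ} {ε L : ℝ} {g : Finset ι → ℝ} (H : Sv P K A w ε g L) :
    1000 * (Fintype.card K : ℝ) ^ 2 ≤ w := by
  have h1 := H.wk
  have h2 := H.e1
  have h3 : (0 : ℝ) ≤ w := Nat.cast_nonneg w
  nlinarith

omit [DecidableEq K] in
theorem p5_hom {A : Finset ι} {w : ℕ} {ε L : ℝ} {g : Finset ι → ℝ} (H : Sv P K A w ε g L) :
    ∀ i ∈ A, 2 * (Fintype.card K : ℝ) * om (P i) ≤ 1 := fun i hi => by
  have hk1' : (1 : ℝ) ≤ Fintype.card K := by exact_mod_cast H.kpos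
  have hw' := p5_w P H
  have h1 : (w : ℝ) + 1 ≤ P i := by exact_mod_cast H.big i hi
  nlinarith [om_mul P i, om_pos P i, mul_nonneg (om_pos P i).le
    (show 0 ≤ (P i : ℝ) - 1 - 2 * Fintype.card K by nlinarith)]

theorem Dc_main {A : Finset ι} {w : ℕ} {ε L : ℝ} {g : Finset ι → ℝ} (H : Sv P K A w ε g L)
    (m : K) : (1 - ε) * (G1 P A g ^ 2 * I2 P A g ^ (Fintype.card K - 1))
      ≤ Dc P (Am A m) (yh (yy P g L) m (oA P A)) fun _ => none := by
  have hom := p5_hom P H
  have hw' := p5_w P H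
  have hwk := H.wk
  have hmom := H.mom
  rw [G1, I2, ← p5_prod (vA P A) g m]
  rw [I2] at hmom
  set k : ℝ := (Fintype.card K : ℝ) with hk
  have hk1' : 1 ≤ k := by rw [hk]; exact_mod_cast H.kpos
  have hw0 : (0 : ℝ) < w := by nlinarith
  have hw1 : 1 ≤ w := by exact_mod_cast hw0
  have he0 := H.e0
  have he1 := H.e1
  have hL := H.Lpos
  set y := yh (yy P g L) m (oA P A) with hy
  set M := ws (oA P A) g ^ 2 * ∏ j, ws (vA P A) fun T => gm g m j T ^ 2 with hM
  have hM0 : 0 ≤ M := mul_nonneg (sq_nonneg _) (Finset.prod_nonneg fun j _ =>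
    ws_nonneg (vA_nonneg P A) fun _ => sq_nonneg _)
  have hx : 0 ≤ ε * L / (8 * k) := by positivity
  have hl : ws (vA P A) (fun T => g T ^ 2 * lp P T)
      ≤ ε * L / (8 * k) * ws (vA P A) (fun T => g T ^ 2) := by
    rw [div_mul_eq_mul_div, le_div_iff₀ (by positivity)]
    linarith
  refine le_trans ?_ (Dc_ge P (Am A m) A (p5_sub A m) hom y)
  have q := quad_ge P H.g0 H.anti hL H.supp m (oA_nonneg P A) (vA_nonneg P A)
    (e := fun i => 2 * k * oA P A i) (fun i => mul_nonneg (by positivity) (oA_nonneg P A i))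
    (fun i => by
      unfold oA; split_ifs with h1
      · exact hom i h1
      · simp) hx hl
  have q1 := sum_sq_inv P H.inj A hw1 H.big
  have q2 : ∑ i, vA P A i ^ 2 ≤ 64 * ∑ i ∈ A, ((P i : ℝ) ^ 2)⁻¹ := by
    refine (Finset.sum_le_sum fun i _ => pow_le_pow_left₀ (vA_nonneg P A i) (vA_le P A i) 2).trans
      (le_of_eq ?_)
    simp only [ite_pow, Finset.mul_sum, mul_pow, inv_pow]
    norm_num
  have q3 : ∑ i, (2 * oA P A i + 2 * k * oA P A i) * vA P A i
      ≤ 64 * k * ∑ i ∈ A, ((P i : ℝ) ^ 2)⁻¹ := by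
    calc _ ≤ ∑ i, 4 * k * (if i ∈ A then 2 * (P i : ℝ)⁻¹ else 0) *
          (if i ∈ A then 8 * (P i : ℝ)⁻¹ else 0) := by
          refine Finset.sum_le_sum fun i _ => mul_le_mul ?_ (vA_le P A i) (vA_nonneg P A i)
            (by split_ifs <;> positivity)
          nlinarith [oA_le P A i, oA_nonneg P A i]
      _ = _ := by
          simp only [mul_ite, mul_zero, Finset.sum_ite_mem, univ_inter, Finset.mul_sum]
          refine Finset.sum_congr rfl fun i hi => ?_
          rw [if_pos hi, ← inv_pow]; ring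
  have q4 : k ^ 2 * (w : ℝ)⁻¹ ≤ ε / 1000 := by
    rw [← div_eq_mul_inv, div_le_div_iff₀ hw0 (by norm_num)]; linarith
  have q5 : k * (2 * (ε * L / (8 * k)) / L) = ε / 4 := by
    field_simp
    norm_num
  have q6 : 1 - ε / 1000 ≤ ∏ i ∈ A, (1 - ((P i : ℝ) ^ 2)⁻¹) := by
    refine le_trans ?_ (one_sub_sum_le_prod A _ (fun i _ => by positivity) fun i _ =>
      inv_le_one_of_one_le₀ (by nlinarith [two_le P i]))
    nlinarith [mul_le_mul_of_nonneg_right (one_le_pow₀ (n := 2) hk1') (inv_pos.2 hw0).le]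
  have q7 : (1 - ε / 2) * M ≤ ∑ T ∈ Dj ι K,
      (∏ j, ∏ i ∈ T j, vA P (Am A m j) i * (1 - 2 * k * oA P A i)) * y T ^ 2 := by
    refine le_trans (mul_le_mul_of_nonneg_right ?_ hM0) (q.trans (le_of_eq
      (Finset.sum_congr rfl fun T _ => ?_)))
    · rw [← hk, q5]
      nlinarith [mul_le_mul_of_nonneg_left q1 (sq_nonneg k),
        mul_le_mul_of_nonneg_left q2 (sq_nonneg k),
        mul_le_mul_of_nonneg_left q3 (show 0 ≤ k by linarith)]
    · by_cases h1 : T m = ∅
      · congr 1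
        refine Finset.prod_congr rfl fun j _ => ?_
        by_cases h2 : j = m
        · simp [h2, h1]
        · simp [Am, h2]
      · simp [hy, yh, h1]
  refine le_trans ?_ (mul_le_mul q6 q7 (mul_nonneg (by linarith) hM0) (by linarith))
  have q8 : 1 - ε ≤ (1 - ε / 1000) * (1 - ε / 2) := by nlinarith
  exact (mul_le_mul_of_nonneg_right q8 hM0).trans (mul_assoc _ _ _).le

theorem p5_Dc_le {A : Finset ι} {w : ℕ} {ε L : ℝ} {g : Finset ι → ℝ} (H : Sv P K A w ε g L)
    (m : K) (ρ : ι → Option K) : |Dc P (Am A m) (yh (yy P g L) m (oA P A)) ρ|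
      ≤ 3 * (G1 P A g ^ 2 * I2 P A g ^ (Fintype.card K - 1)) * Cc K ^ (sp ρ).card := by
  have hom := p5_hom P H
  have hw' := p5_w P H
  rw [G1, I2, ← p5_prod (vA P A) g m, Cc]
  set k : ℝ := (Fintype.card K : ℝ) with hk
  have hk1' : 1 ≤ k := by rw [hk]; exact_mod_cast H.kpos
  have hw0 : (0 : ℝ) < w := by nlinarith
  have hw1 : 1 ≤ w := by exact_mod_cast hw0
  have h0 := H.g0
  have hg := H.anti
  refine (Dc_le P (Am A m) A (p5_sub A m) hom _ ρ).trans ?_
  have q1 := prod_one_add_sq P H.inj A hw1 zero_le_two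
    (f := fun i => if i ∈ A then 2 * ((P i : ℝ) ^ 2)⁻¹ else 0)
    (fun i => by split_ifs <;> positivity) (fun i hi => if_neg hi) (fun i hi => (if_pos hi).le) H.big
  have q2 : ∏ i ∈ A, (1 + 2 * ((P i : ℝ) ^ 2)⁻¹) ≤ 3 := by
    refine le_trans (le_of_eq ?_) (q1.trans ((Real.exp_le_exp.2 ?_).trans
      Real.exp_one_lt_three.le))
    · rw [← Finset.prod_subset (subset_univ A) fun i _ hi => by simp [hi]]
      exact Finset.prod_congr rfl fun i hi => by rw [if_pos hi]
    · rw [div_le_one hw0]; nlinarith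
  have hb : ∀ i, 0 ≤ if i ∈ sp ρ then 1 else vA P A i := fun i => by
    split_ifs; exacts [zero_le_one, vA_nonneg P A i]
  have q3 := quad_le (b := fun i (_ : K) => if i ∈ sp ρ then 1 else vA P A i) (fun i _ => hb i)
    (yh_nonneg P h0 L m (oA_nonneg P A)) (yh_le P h0 L m (oA_nonneg P A))
  have q4 : ∏ j, ws (fun i => if i ∈ sp ρ then 1 else vA P A i) (fun T => gm g m j T ^ 2)
      ≤ ∏ j, (2 ^ (sp ρ).card * ws (vA P A) fun T => gm g m j T ^ 2) := by
    refine Finset.prod_le_prod (fun j _ => ws_nonneg hb fun _ => sq_nonneg _) fun j _ => ?_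
    have := ws_change (b := fun _ => 1) (sp ρ) (vA_nonneg P A) hb (fun _ => sq_nonneg _)
      (gm_sq_anti h0 hg m j) (fun i hi => (if_neg hi).le) fun i hi => (if_pos hi).le
    rwa [Finset.prod_const, one_add_one_eq_two] at this
  rw [Finset.prod_mul_distrib, Finset.prod_const, card_univ] at q4
  calc _ ≤ 3 * (2 * (k + 1)) ^ (sp ρ).card * (ws (oA P A) g ^ 2 * ((2 ^ (sp ρ).card) ^
        Fintype.card K * ∏ j, ws (vA P A) fun T => gm g m j T ^ 2)) :=
        mul_le_mul (by gcongr) (q3.trans (by gcongr)) (Finset.sum_nonneg fun T _ => mul_nonneg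
          (Finset.prod_nonneg fun j _ => Finset.prod_nonneg fun i _ => hb i) (sq_nonneg _))
          (by positivity)
    _ = _ := by rw [mul_pow (2 * (k + 1)), ← pow_mul, ← pow_mul, mul_comm (sp ρ).card]; ring

theorem s2_gen {A : Finset ι} {w : ℕ} {ε L : ℝ} {g : Finset ι → ℝ} (H : Sv P K A w ε g L)
    (B : Finset ι) (hAB : Disjoint A B) (h : K → ℕ)
    (hd : ∀ i ∈ A, ∀ j j', (h j : ZMod (P i)) = h j' → j = j') (m : K) (s : Finset ℕ) (a : ℕ → ℝ)
    (ha : ∀ n, 0 ≤ a n) (hu : ∀ n ∈ s, a n ≠ 0 → h m ≤ n ∧ ∀ i, (n : ZMod (P i)) ≠ 0) :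
    G1 P A g ^ 2 * I2 P A g ^ (Fintype.card K - 1) *
      ((1 - ε) * ∑ n ∈ s, a n - 3 * Er P B h m (2 * L) (Cc K) (Psi P s a))
      ≤ ∑ n ∈ s, a n * af P A h g L (res P (n - h m)) ^ 2 := by
  have hA' := p5_sub A m
  have hA'' : ∀ i j, i ∈ Am A m j → j ≠ m := fun i j h1 h2 => by simp [Am, h2] at h1
  let b : ∀ i, K → ZMod (P i) := fun i j => (h m : ZMod (P i)) - h j
  have hb : ∀ i j j', i ∈ Am A m j → i ∈ Am A m j' → b i j = b i j' → j = j' :=
    fun i j j' h1 _ h2 => hd i (hA' j h1) j j' (sub_right_injective h2)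
  have hb0 : ∀ i j, i ∈ Am A m j → b i j ≠ 0 := fun i j h1 h2 =>
    hA'' i j h1 (hd i (hA' j h1) _ _ (sub_eq_zero.1 h2)).symm
  have s3 := Dc_main P H m
  have s4 := p5_Dc_le P H m
  have hC : 0 ≤ Cc K := by unfold Cc; positivity
  have hM0 : 0 ≤ G1 P A g ^ 2 * I2 P A g ^ (Fintype.card K - 1) :=
    mul_nonneg (sq_nonneg _) (pow_nonneg (ws_nonneg (vA_nonneg P A) fun _ => sq_nonneg _) _)
  set y := yh (yy P g L) m (oA P A) with hy
  set M := G1 P A g ^ 2 * I2 P A g ^ (Fintype.card K - 1) with hM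
  have s1 : ∑ n ∈ s, a n * af P A h g L (res P (n - h m)) ^ 2
      = ∑ n ∈ s, a n * Zf y (fun i => fC P (Am A m) i (cls P (Am A m) b n i)) ^ 2 := by
    refine Finset.sum_congr rfl fun n hn => ?_
    by_cases h1 : a n = 0
    · simp [h1]
    obtain ⟨hle, hunit⟩ := hu n hn h1
    have e1 : ∀ i, res P (n - h m) i = (n : ZMod (P i)) - h m := fun i => Nat.cast_sub hle
    rw [af, Z_collapse (yy P g L) m _ (fun i => fC P (Am A m) i (cls P (Am A m) b n i))
      fun i j hj => ?_]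
    · rw [show (fun i => fU P (fun _ => A) h i (res P (n - h m) i) m) = oA P A from
        funext fun i => by simp [fU, fv, oA, e1, hunit i]]
    · simp only [fC, fU, fv, cls_eq P hb, e1]
      simp only [Am, if_neg hj, b]
      split_ifs with h2 h3 h4 h4
      · rfl
      · exact absurd (by rw [h3.2]; ring) h4
      · exact absurd ⟨h2, by linear_combination h4⟩ h3
      all_goals rfl
  have s2 : ∑ n ∈ s, a n * Zf y (fun i => fC P (Am A m) i (cls P (Am A m) b n i)) ^ 2
      = ∑ ρ, Dc P (Am A m) y ρ * ∑ n ∈ s, a n * ∏ i, et P i (ρ i) (cls P (Am A m) b n i) := by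
    simp only [Finset.mul_sum]
    rw [Finset.sum_comm]
    refine Finset.sum_congr rfl fun n _ => ?_
    rw [class_expand P (Am A m) y _ fun i j h1 => ((cls_eq P hb n i j).1 h1).1, Finset.mul_sum]
    exact Finset.sum_congr rfl fun ρ _ => by ring
  have s5 : ∀ ρ ∈ univ.erase (fun _ => none), -(if ρ ∈ Rs P B m (2 * L) then 3 * M *
      (Cc K ^ (sp ρ).card * ‖Ec P (Psi P s a) (al P h m ρ)‖) else 0)
      ≤ Dc P (Am A m) y ρ * ∑ n ∈ s, a n * ∏ i, et P i (ρ i) (cls P (Am A m) b n i) := by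
    intro ρ hρ
    by_cases h1 : Dc P (Am A m) y ρ = 0
    · rw [h1, zero_mul, neg_nonpos]
      split_ifs <;> positivity
    obtain ⟨h2, h3⟩ := Dc_support P (Am A m) (yh_support P L m (oA P A)) ρ h1
    have h4 : ρ ∈ Rs P B m (2 * L) := by
      refine mem_filter.2 ⟨mem_univ _, fun h5 => ne_of_mem_erase hρ (funext fun i => ?_),
        Finset.disjoint_left.2 fun i hi => ?_, fun i hi => hA'' i m (h2 i m hi) rfl, h3⟩
      · simpa using filter_eq_empty_iff.1 h5 (mem_univ i)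
      · obtain ⟨j, hj⟩ := Option.ne_none_iff_exists'.1 (mem_filter.1 hi).2
        exact Finset.disjoint_left.1 hAB (hA' j (h2 i j hj))
    have h5 : ((∑ n ∈ s, a n * ∏ i, et P i (ρ i) (cls P (Am A m) b n i) : ℝ) : ℂ)
        = Ec P (Psi P s a) (al P h m ρ) := by
      simp only [Ec, Psi, Finset.mul_sum]
      rw [Finset.sum_comm, Complex.ofReal_sum]
      refine Finset.sum_congr rfl fun n hn => ?_
      by_cases h6 : a n = 0
      · simp [h6]
      · rw [Complex.ofReal_mul, et_eq P hb hb0 (hu n hn h6).2 h2, Finset.mul_sum]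
        exact Finset.sum_congr rfl fun χ _ => by simp only [al, b]; ring
    rw [if_pos h4, ← h5, Complex.norm_real, Real.norm_eq_abs, ← mul_assoc]
    refine le_trans ?_ (neg_abs_le _)
    rw [abs_mul, neg_le_neg_iff]
    exact mul_le_mul_of_nonneg_right (s4 ρ) (abs_nonneg _)
  rw [s1, s2, ← Finset.add_sum_erase univ _ (mem_univ fun _ => none), mul_sub, sub_eq_add_neg]
  refine add_le_add ?_ (le_trans ?_ (Finset.sum_le_sum s5))
  · simp only [et, Finset.prod_const_one, mul_one]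
    rw [← mul_assoc, mul_comm M]
    exact mul_le_mul_of_nonneg_right s3 (Finset.sum_nonneg fun n _ => ha n)
  · rw [Finset.sum_neg_distrib, neg_le_neg_iff, Finset.sum_ite_mem, ← Finset.mul_sum, Er,
      ← mul_assoc M, mul_comm M]
    refine mul_le_mul_of_nonneg_left (Finset.sum_le_sum_of_subset_of_nonneg inter_subset_right
      fun _ _ _ => ?_) ?_ <;> positivity

end Pool.Agent.Lib.MP_9227d9_nt.H5
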