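import Pool.Agent.Lib.MP_9227d9_nt.H5.M1

/-! Mean values of squared Selberg forms over sets of primes. -/

open Finset

namespace Pool.Agent.Lib.MP_9227d9_nt.H5

open Pool.Agent.Lib.MP_bee098_nt

variable {ι : Type} [Fintype ι] [DecidableEq ι] (P : ι → ℕ) [hP : ∀ i, Fact (P i).Prime]

omit [Fintype ι] in
theorem q2_up (A D : Finset ι) (a b : ι → ℝ) :
    ∑ U ∈ A.powerset, (if D ⊆ U then (∏ i ∈ U, a i) * ∏ i ∈ A \ U, b i else 0)
      = if D ⊆ A then (∏ i ∈ D, a i) * ∏ i ∈ A \ D, (a i + b i) else 0 := by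
  split_ifs with hD
  · have h := Finset.prod_add a (fun i => if i ∈ D then 0 else b i) A
    have e1 : ∏ i ∈ A, (a i + if i ∈ D then 0 else b i)
        = (∏ i ∈ D, a i) * ∏ i ∈ A \ D, (a i + b i) := by
      rw [← Finset.prod_sdiff hD, mul_comm]
      congr 1
      · exact Finset.prod_congr rfl fun i hi => by rw [if_pos hi, add_zero]
      · exact Finset.prod_congr rfl fun i hi => by rw [if_neg (mem_sdiff.1 hi).2]
    rw [← e1, h]
    refine Finset.sum_congr rfl fun U _ => ?_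
    split_ifs with hU
    · congr 1
      exact Finset.prod_congr rfl fun i hi => by
        rw [if_neg fun h' => (mem_sdiff.1 hi).2 (hU h')]
    · obtain ⟨i, hi, hi'⟩ := Finset.not_subset.1 hU
      rw [Finset.prod_eq_zero (f := fun i => if i ∈ D then 0 else b i)
        (mem_sdiff.2 ⟨hD hi, hi'⟩) (if_pos hi), mul_zero]
  · exact Finset.sum_eq_zero fun U hU => if_neg fun h => hD (h.trans (mem_powerset.1 hU))

omit [Fintype ι] in
theorem q2_up_one (A D : Finset ι) (a : ι → ℝ) :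
    ∑ U ∈ A.powerset, (if D ⊆ U then (∏ i ∈ U, a i) * ∏ i ∈ A \ U, (1 - a i) else 0)
      = if D ⊆ A then ∏ i ∈ D, a i else 0 := by
  rw [q2_up]
  simp

omit [Fintype ι] in
theorem q2_sq {A U : Finset ι} (hU : U ⊆ A) (lam : Finset ι → ℝ) :
    ∑ d ∈ A.powerset ×ˢ A.powerset, (if d.1 ∪ d.2 ⊆ U then lam d.1 * lam d.2 else 0)
      = (∑ D ∈ U.powerset, lam D) ^ 2 := by
  rw [sq, Finset.sum_mul_sum, ← Finset.sum_product', ← Finset.sum_filter]
  refine Finset.sum_congr ?_ fun _ _ => rfl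
  ext d
  simp only [mem_filter, mem_product, mem_powerset, union_subset_iff]
  exact ⟨fun h => h.2, fun h => ⟨⟨h.1.trans hU, h.2.trans hU⟩, h⟩⟩

omit [DecidableEq ι] in
theorem q2_ws (A : Finset ι) {v : ι → ℝ} (hv : ∀ i ∉ A, v i = 0) (F : Finset ι → ℝ) :
    ws v F = ∑ U ∈ A.powerset, F U * ∏ i ∈ U, v i := by
  refine (Finset.sum_subset (subset_univ _) fun U _ hU => ?_).symm
  obtain ⟨i, hi, hi'⟩ := Finset.not_subset.1 (mem_powerset.not.1 hU)
  rw [Finset.prod_eq_zero hi (hv i hi'), mul_zero]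

omit [DecidableEq ι] in
theorem q2_prod (A : Finset ι) {f : ι → ℝ} (hf : ∀ i ∉ A, f i = 1) :
    ∏ i, f i = ∏ i ∈ A, f i :=
  (Finset.prod_subset (subset_univ _) fun i _ hi => hf i hi).symm

theorem single_eval (A : Finset ι) {x : ℝ} (hx : 0 ≤ x) :
    ∑ d ∈ A.powerset ×ˢ A.powerset, lamS P (oA P A) x d.1 * lamS P (oA P A) x d.2 *
      ∏ i ∈ d.1 ∪ d.2, (P i : ℝ)⁻¹ = (ws (oA P A) (cut P x))⁻¹ := by
  have loc : ∀ i ∈ A, (P i : ℝ)⁻¹ = oA P A i * (1 - (P i : ℝ)⁻¹) := fun i hi => by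
    have h1 := two_le P i
    have h2 : (P i : ℝ) - 1 ≠ 0 := by linarith
    have h3 : (P i : ℝ) ≠ 0 := by linarith
    rw [oA, if_pos hi, om]
    field_simp
  calc _ = ∑ d ∈ A.powerset ×ˢ A.powerset, ∑ U ∈ A.powerset,
        (if d.1 ∪ d.2 ⊆ U then lamS P (oA P A) x d.1 * lamS P (oA P A) x d.2 else 0) *
          ((∏ i ∈ U, (P i : ℝ)⁻¹) * ∏ i ∈ A \ U, (1 - (P i : ℝ)⁻¹)) := by
        refine Finset.sum_congr rfl fun d hd => ?_
        have hd' := mem_product.1 hd
        have h := q2_up_one A (d.1 ∪ d.2) fun i => (P i : ℝ)⁻¹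
        rw [if_pos (union_subset (mem_powerset.1 hd'.1) (mem_powerset.1 hd'.2))] at h
        rw [← h, Finset.mul_sum]
        refine Finset.sum_congr rfl fun U _ => ?_
        split_ifs <;> simp
    _ = ∑ U ∈ A.powerset, Vp P A * (sel P (oA P A) x U ^ 2 * ∏ i ∈ U, oA P A i) := by
        rw [Finset.sum_comm]
        refine Finset.sum_congr rfl fun U hU => ?_
        have hU' := mem_powerset.1 hU
        rw [← Finset.sum_mul, q2_sq hU', ← sel_eq_sum, Vp, ← Finset.prod_sdiff hU',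
          Finset.prod_congr rfl fun i hi => loc i (hU' hi), Finset.prod_mul_distrib]
        ring
    _ = Vp P A * ((∏ i, (1 + oA P A i)) / ws (oA P A) (cut P x)) := by
        rw [← Finset.mul_sum, ← sel_sq P (oA_nonneg P A) hx,
          q2_ws A (fun i hi => by rw [oA, if_neg hi])]
    _ = _ := by
        rw [q2_prod A (fun i hi => by rw [oA, if_neg hi, add_zero]), ← mul_div_assoc, Vp,
          ← Finset.prod_mul_distrib, Finset.prod_eq_one, one_div]
        intro i hi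
        have := loc i hi
        linarith

omit [Fintype ι] in
theorem q2_pair {A D E : Finset ι} (hD : D ⊆ A) (hE : E ⊆ A) (a : ι → ℝ) :
    ∑ U ∈ A.powerset, ∑ W ∈ (A \ U).powerset, (if D ⊆ U then 1 else 0) * (if E ⊆ W then 1 else 0) *
        ((∏ i ∈ U, a i) * ((∏ i ∈ W, a i) * ∏ i ∈ (A \ U) \ W, (1 - 2 * a i)))
      = if Disjoint D E then (∏ i ∈ D, a i) * ∏ i ∈ E, a i else 0 := by
  have h := q2_up_one (A \ E) D a
  have hDE : D ⊆ A \ E ↔ Disjoint D E := by
    rw [subset_sdiff]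
    exact ⟨fun h => h.2, fun h => ⟨hD, h⟩⟩
  calc _ = ∑ U ∈ A.powerset, if U ⊆ A \ E then
        (if D ⊆ U then (∏ i ∈ U, a i) * ∏ i ∈ (A \ E) \ U, (1 - a i) else 0) * ∏ i ∈ E, a i
          else 0 := by
        refine Finset.sum_congr rfl fun U hU => ?_
        have hU' := mem_powerset.1 hU
        have h2 := q2_up (A \ U) E a fun i => 1 - 2 * a i
        have h3 : E ⊆ A \ U ↔ U ⊆ A \ E := by
          rw [subset_sdiff, subset_sdiff]
          exact ⟨fun h => ⟨hU', h.2.symm⟩, fun h => ⟨hE, h.2.symm⟩⟩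
        calc _ = ((if D ⊆ U then 1 else 0) * ∏ i ∈ U, a i) * ∑ W ∈ (A \ U).powerset,
              (if E ⊆ W then (∏ i ∈ W, a i) * ∏ i ∈ (A \ U) \ W, (1 - 2 * a i) else 0) := by
              rw [Finset.mul_sum]
              refine Finset.sum_congr rfl fun W _ => ?_
              split_ifs <;> simp
          _ = _ := by
              rw [h2, sdiff_right_comm A U E]
              simp only [h3]
              have h4 : ∀ i, a i + (1 - 2 * a i) = 1 - a i := fun i => by ring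
              simp only [h4]
              split_ifs <;> simp only [one_mul, zero_mul, mul_zero]
              ring
    _ = ∑ U ∈ (A \ E).powerset,
        (if D ⊆ U then (∏ i ∈ U, a i) * ∏ i ∈ (A \ E) \ U, (1 - a i) else 0) * ∏ i ∈ E, a i := by
        rw [← Finset.sum_filter]
        refine Finset.sum_congr ?_ fun _ _ => rfl
        ext U
        simp only [mem_filter, mem_powerset]
        exact ⟨fun h => h.2, fun h => ⟨h.trans sdiff_subset, h⟩⟩
    _ = _ := by
        rw [← Finset.sum_mul, h]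
        simp only [hDE]
        split_ifs <;> simp

omit [Fintype ι] in
theorem q2_pair_sum (A : Finset ι) (a : ι → ℝ) (lam : Finset ι → ℝ) :
    ∑ d ∈ A.powerset ×ˢ A.powerset, ∑ e ∈ A.powerset ×ˢ A.powerset,
      (if Disjoint (d.1 ∪ d.2) (e.1 ∪ e.2) then lam d.1 * lam d.2 * (lam e.1 * lam e.2) *
          ((∏ i ∈ d.1 ∪ d.2, a i) * ∏ i ∈ e.1 ∪ e.2, a i) else 0)
      = ∑ U ∈ A.powerset, ∑ W ∈ (A \ U).powerset,
        (∑ D ∈ U.powerset, lam D) ^ 2 * (∑ D ∈ W.powerset, lam D) ^ 2 *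
          ((∏ i ∈ U, a i) * ((∏ i ∈ W, a i) * ∏ i ∈ (A \ U) \ W, (1 - 2 * a i))) := by
  calc _ = ∑ d ∈ A.powerset ×ˢ A.powerset, ∑ e ∈ A.powerset ×ˢ A.powerset,
        ∑ U ∈ A.powerset, ∑ W ∈ (A \ U).powerset,
          (if d.1 ∪ d.2 ⊆ U then lam d.1 * lam d.2 else 0) *
            (if e.1 ∪ e.2 ⊆ W then lam e.1 * lam e.2 else 0) *
          ((∏ i ∈ U, a i) * ((∏ i ∈ W, a i) * ∏ i ∈ (A \ U) \ W, (1 - 2 * a i))) := by
        refine Finset.sum_congr rfl fun d hd => Finset.sum_congr rfl fun e he => ?_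
        have hd' := mem_product.1 hd
        have he' := mem_product.1 he
        have h := q2_pair (union_subset (mem_powerset.1 hd'.1) (mem_powerset.1 hd'.2))
          (union_subset (mem_powerset.1 he'.1) (mem_powerset.1 he'.2)) a
        calc _ = lam d.1 * lam d.2 * (lam e.1 * lam e.2) *
              (if Disjoint (d.1 ∪ d.2) (e.1 ∪ e.2) then
                (∏ i ∈ d.1 ∪ d.2, a i) * ∏ i ∈ e.1 ∪ e.2, a i else 0) := by
              split_ifs <;> simp
          _ = _ := by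
              rw [← h, Finset.mul_sum]
              refine Finset.sum_congr rfl fun U _ => ?_
              rw [Finset.mul_sum]
              refine Finset.sum_congr rfl fun W _ => ?_
              split_ifs <;> simp
    _ = ∑ d ∈ A.powerset ×ˢ A.powerset, ∑ U ∈ A.powerset, ∑ W ∈ (A \ U).powerset,
          ∑ e ∈ A.powerset ×ˢ A.powerset,
          (if d.1 ∪ d.2 ⊆ U then lam d.1 * lam d.2 else 0) *
            (if e.1 ∪ e.2 ⊆ W then lam e.1 * lam e.2 else 0) *
          ((∏ i ∈ U, a i) * ((∏ i ∈ W, a i) * ∏ i ∈ (A \ U) \ W, (1 - 2 * a i))) := by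
        refine Finset.sum_congr rfl fun d _ => ?_
        rw [Finset.sum_comm]
        exact Finset.sum_congr rfl fun U _ => Finset.sum_comm
    _ = _ := by
        rw [Finset.sum_comm]
        refine Finset.sum_congr rfl fun U hU => ?_
        rw [Finset.sum_comm]
        refine Finset.sum_congr rfl fun W hW => ?_
        rw [← q2_sq (mem_powerset.1 hU), ← q2_sq ((mem_powerset.1 hW).trans sdiff_subset),
          Finset.sum_mul_sum, Finset.sum_mul]
        refine Finset.sum_congr rfl fun d _ => ?_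
        rw [Finset.sum_mul]

theorem pair_eval (hinj : Function.Injective P) (A : Finset ι) {y : ℕ} (hy : 2 ≤ y)
    (hA : ∀ i ∈ A, y < P i) {x : ℝ} (hx : 0 ≤ x) :
    ∑ d ∈ A.powerset ×ˢ A.powerset, ∑ e ∈ A.powerset ×ˢ A.powerset,
      (if Disjoint (d.1 ∪ d.2) (e.1 ∪ e.2) then lamS P (oA P A) x d.1 * lamS P (oA P A) x d.2 *
        (lamS P (oA P A) x e.1 * lamS P (oA P A) x e.2) *
          ((∏ i ∈ d.1 ∪ d.2, (P i : ℝ)⁻¹) * ∏ i ∈ e.1 ∪ e.2, (P i : ℝ)⁻¹) else 0)
      ≤ Real.exp (48 / y) * (ws (oA P A) (cut P x))⁻¹ ^ 2 := by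
  obtain ⟨d, hd⟩ : ∃ d : ι → ℝ, d = fun i =>
    if i ∈ A then (((P i : ℝ) - 1) * ((P i : ℝ) - 2))⁻¹ else 0 := ⟨_, rfl⟩
  have h3 : ∀ i ∈ A, (3 : ℝ) ≤ P i := fun i hi => by
    have := hA i hi
    exact_mod_cast (show 3 ≤ P i by omega)
  have hd0 : ∀ i, 0 ≤ d i := fun i => by
    rw [hd]
    dsimp only
    split_ifs with hi
    · have := h3 i hi
      exact inv_nonneg.2 (mul_nonneg (by linarith) (by linarith))
    · rfl
  have hd6 : ∀ i ∈ A, d i ≤ 6 * ((P i : ℝ) ^ 2)⁻¹ := fun i hi => by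
    have := h3 i hi
    rw [hd]
    dsimp only
    rw [if_pos hi, ← div_eq_mul_inv, ← one_div, div_le_div_iff₀ (by nlinarith) (by positivity)]
    nlinarith
  have hv0 : ∀ i, 0 ≤ oA P A i + d i := fun i => add_nonneg (oA_nonneg P A i) (hd0 i)
  have loc : ∀ i ∈ A, (P i : ℝ)⁻¹ = (oA P A i + d i) * (1 - 2 * (P i : ℝ)⁻¹) := fun i hi => by
    have h1 := h3 i hi
    have h2 : (P i : ℝ) - 1 ≠ 0 := by linarith
    have h4 : (P i : ℝ) - 2 ≠ 0 := by linarith
    have h5 : (P i : ℝ) ≠ 0 := by linarith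
    rw [oA, if_pos hi, om, hd]
    dsimp only
    rw [if_pos hi]
    field_simp
    ring
  have hb0 : ∀ i ∈ A, 0 ≤ 1 - 2 * (P i : ℝ)⁻¹ := fun i hi => by
    have h1 := h3 i hi
    have : (P i : ℝ)⁻¹ ≤ 2⁻¹ := inv_anti₀ (by norm_num) (by linarith)
    linarith
  have hb1 : ∀ i ∈ A, (1 - 2 * (P i : ℝ)⁻¹) * (1 + oA P A i) ^ 2 ≤ 1 := fun i hi => by
    have h1 := h3 i hi
    have h2 : (P i : ℝ) - 1 ≠ 0 := by linarith
    have h5 : (P i : ℝ) ≠ 0 := by linarith
    have e : (1 - 2 * (P i : ℝ)⁻¹) * (1 + oA P A i) ^ 2 = 1 - (((P i : ℝ) - 1)⁻¹) ^ 2 := by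
      rw [oA, if_pos hi, om]
      field_simp
      ring
    rw [e]
    linarith [sq_nonneg (((P i : ℝ) - 1)⁻¹)]
  obtain ⟨F, hF⟩ : ∃ F : Finset ι → ℝ, F = fun U =>
    sel P (oA P A) x U ^ 2 * ∏ i ∈ U, (oA P A i + d i) := ⟨_, rfl⟩
  have hF0 : ∀ U, 0 ≤ F U := fun U => by
    rw [hF]
    exact mul_nonneg (sq_nonneg _) (Finset.prod_nonneg fun i _ => hv0 i)
  have hV : 0 ≤ ∏ i ∈ A, (1 - 2 * (P i : ℝ)⁻¹) := Finset.prod_nonneg hb0
  have hS : ∑ U ∈ A.powerset, F U ≤
      (∏ i ∈ A, (1 + oA P A i + 2 * d i) * (1 + 2 * d i)) * (ws (oA P A) (cut P x))⁻¹ := by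
    have h := sel_tilt P (oA_nonneg P A) hd0 hx
    rw [q2_ws A (fun i hi => by simp [oA, hd, hi]),
      q2_prod A (fun i hi => by simp [oA, hd, hi]), div_eq_mul_inv] at h
    rw [hF]
    exact h
  rw [q2_pair_sum A (fun i => (P i : ℝ)⁻¹)]
  calc _ = ∑ U ∈ A.powerset, ∑ W ∈ (A \ U).powerset,
        (∏ i ∈ A, (1 - 2 * (P i : ℝ)⁻¹)) * (F U * F W) := by
        refine Finset.sum_congr rfl fun U hU => Finset.sum_congr rfl fun W hW => ?_
        have hU' := mem_powerset.1 hU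
        have hW' := mem_powerset.1 hW
        rw [← sel_eq_sum, ← sel_eq_sum, ← Finset.prod_sdiff hU', ← Finset.prod_sdiff hW',
          Finset.prod_congr rfl fun i hi => loc i (hU' hi),
          Finset.prod_congr (s₁ := W) rfl fun i hi => loc i (mem_sdiff.1 (hW' hi)).1,
          Finset.prod_mul_distrib, Finset.prod_mul_distrib, hF]
        ring
    _ ≤ ∑ U ∈ A.powerset, ∑ W ∈ A.powerset, (∏ i ∈ A, (1 - 2 * (P i : ℝ)⁻¹)) * (F U * F W) :=
        Finset.sum_le_sum fun U _ => Finset.sum_le_sum_of_subset_of_nonneg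
          (powerset_mono.2 sdiff_subset) fun W _ _ => mul_nonneg hV (mul_nonneg (hF0 U) (hF0 W))
    _ = (∏ i ∈ A, (1 - 2 * (P i : ℝ)⁻¹)) * (∑ U ∈ A.powerset, F U) ^ 2 := by
        rw [sq, Finset.sum_mul_sum, Finset.mul_sum]
        exact Finset.sum_congr rfl fun U _ => by rw [Finset.mul_sum]
    _ ≤ (∏ i ∈ A, (1 - 2 * (P i : ℝ)⁻¹)) * ((∏ i ∈ A, (1 + oA P A i + 2 * d i) * (1 + 2 * d i)) *
          (ws (oA P A) (cut P x))⁻¹) ^ 2 :=
        mul_le_mul_of_nonneg_left
          (pow_le_pow_left₀ (Finset.sum_nonneg fun U _ => hF0 U) hS 2) hV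
    _ ≤ _ := by
        rw [mul_pow, ← mul_assoc, ← Finset.prod_pow, ← Finset.prod_mul_distrib]
        refine mul_le_mul_of_nonneg_right ?_ (sq_nonneg _)
        calc _ ≤ ∏ i ∈ A, Real.exp (48 * ((P i : ℝ) ^ 2)⁻¹) := by
              refine Finset.prod_le_prod (fun i hi => mul_nonneg (hb0 i hi) (sq_nonneg _))
                fun i hi => ?_
              have e0 := hd0 i
              have e1 := oA_nonneg P A i
              have e2 : (1 + oA P A i + 2 * d i) * (1 + 2 * d i)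
                  ≤ (1 + oA P A i) * (1 + 2 * d i) ^ 2 := by
                rw [sq, ← mul_assoc]
                exact mul_le_mul_of_nonneg_right (by nlinarith [mul_nonneg e0 e1]) (by linarith)
              have e3 : (1 + 2 * d i) ^ 4 ≤ Real.exp (48 * ((P i : ℝ) ^ 2)⁻¹) := by
                calc _ ≤ Real.exp (2 * d i) ^ 4 := pow_le_pow_left₀ (by linarith)
                      (by linarith [Real.add_one_le_exp (2 * d i)]) 4
                  _ ≤ _ := by
                    rw [← Real.exp_nat_mul, Real.exp_le_exp]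
                    have := hd6 i hi
                    push_cast
                    linarith
              calc _ ≤ (1 - 2 * (P i : ℝ)⁻¹) * ((1 + oA P A i) * (1 + 2 * d i) ^ 2) ^ 2 :=
                    mul_le_mul_of_nonneg_left (pow_le_pow_left₀ (by positivity) e2 2) (hb0 i hi)
                _ = (1 - 2 * (P i : ℝ)⁻¹) * (1 + oA P A i) ^ 2 * (1 + 2 * d i) ^ 4 := by ring
                _ ≤ 1 * Real.exp (48 * ((P i : ℝ) ^ 2)⁻¹) :=
                    mul_le_mul (hb1 i hi) e3 (by positivity) zero_le_one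
                _ = _ := one_mul _
          _ ≤ _ := by
              rw [← Real.exp_sum, Real.exp_le_exp, ← Finset.mul_sum, div_eq_mul_inv]
              exact mul_le_mul_of_nonneg_left (sum_sq_inv P hinj A (by omega) hA) (by norm_num)

end Pool.Agent.Lib.MP_9227d9_nt.H5
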